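import Pool.Agent.H12.Alt.Cert

/-! Normal form of bracket expressions modulo (super) anticommutativity. -/

namespace Pool.Agent.H12.Alt

noncomputable section

variable {S : Type*} [NonUnitalNonAssocRing S]

def cn (p : ℕ → Bool) (E : Ex) : (Bool → Ex → LC) → LC :=
  Ex.rec (motive := fun _ => (Bool → Ex → LC) → LC) (fun i k => k false (.v i))
    (fun a b _ _ k => k false (.m a b))
    (fun _ _ ca cb k => ca fun s X => cb fun t Y => cond (Nat.blt (key X) (key Y))
      (k (xor s t) (.b X Y)) (cond (Nat.blt (key Y) (key X))
        (k (xor (xor s t) (not (and (par p X) (par p Y)))) (.b Y X))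
        (cond (par p X) (k (xor s t) (.b X Y)) [])))
    (fun _ _ ca cb k => ca fun s X => cb fun t Y => cond (Nat.blt (key X) (key Y))
      (k (xor s t) (.j X Y)) (cond (Nat.blt (key Y) (key X))
        (k (xor (xor s t) (and (par p X) (par p Y))) (.j Y X))
        (cond (par p X) [] (k (xor s t) (.j X Y)))))
    (fun a b c _ _ _ k => k false (.s a b c)) E

def sgb (s : Bool) : ℤ := cond s (-1) 1

theorem key_eq_of {X Y : Ex} (h1 : Nat.blt (key X) (key Y) = false)
    (h2 : Nat.blt (key Y) (key X) = false) : X = Y := by
  apply key_inj
  have a1 : ¬ (key X < key Y) := by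
    intro hh; rw [← Nat.blt_eq] at hh; rw [hh] at h1; exact absurd h1 (by decide)
  have a2 : ¬ (key Y < key X) := by
    intro hh; rw [← Nat.blt_eq] at hh; rw [hh] at h2; exact absurd h2 (by decide)
  omega

theorem cn_spec (p : ℕ → Bool) (u : ℕ → S) (E : Ex) :
    ∀ (k : Bool → Ex → LC) (z : S),
    (∀ s X, par p X = par p E → val p u E = sgb s • val p u X → evL (val p u) (k s X) = z) →
    (val p u E = 0 → z = 0) → evL (val p u) (cn p E k) = z := by
  induction E with
  | v i => intro k z h _; exact h _ _ rfl (by simp [sgb])
  | m a b _ _ => intro k z h _; exact h _ _ rfl (by simp [sgb])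
  | s a b c _ _ _ => intro k z h _; exact h _ _ rfl (by simp [sgb])
  | b a b iha ihb =>
    intro k z h h0
    refine iha _ z (fun s X hX hvX => ihb _ z (fun t Y hY hvY => ?_) ?_) ?_
    · cases h1 : Nat.blt (key X) (key Y) with
      | true =>
        rw [cond_true]
        refine h _ _ (by rw [par_b, par_b, hX, hY]) ?_
        rw [val, val, hvX, hvY, hX, hY]
        cases s <;> cases t <;> simp [sgb, smul_sub]
      | false =>
        rw [cond_false]
        cases h2 : Nat.blt (key Y) (key X) with
        | true =>
          rw [cond_true]
          refine h _ _ (by rw [par_b, par_b, hX, hY, Bool.xor_comm]) ?_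
          rw [val, val, hvX, hvY, hX, hY]
          cases s <;> cases t <;> cases hp1 : par p a <;> cases hp2 : par p b <;>
            simp [sgb, sgz] <;> abel
        | false =>
          rw [cond_false]
          have e := key_eq_of h1 h2
          subst e
          cases hp : par p X with
          | true =>
            rw [cond_true]
            refine h _ _ (by rw [par_b, par_b, ← hX, ← hY]) ?_
            rw [val, val, hvX, hvY, ← hX, ← hY]
            cases s <;> cases t <;> simp [sgb, smul_sub]
          | false =>
            rw [cond_false, evL_nil]
            symm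
            apply h0
            rw [val, hvX, hvY, ← hX, ← hY, hp]
            cases s <;> cases t <;> simp [sgb, sgz]
    · intro hb
      apply h0
      rw [val, hb]
      simp
    · intro ha
      apply h0
      rw [val, ha]
      simp
  | j a b iha ihb =>
    intro k z h h0
    refine iha _ z (fun s X hX hvX => ihb _ z (fun t Y hY hvY => ?_) ?_) ?_
    · cases h1 : Nat.blt (key X) (key Y) with
      | true =>
        rw [cond_true]
        refine h _ _ (by rw [par_j, par_j, hX, hY]) ?_
        rw [val, val, hvX, hvY, hX, hY]
        cases s <;> cases t <;> simp [sgb, smul_add]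
      | false =>
        rw [cond_false]
        cases h2 : Nat.blt (key Y) (key X) with
        | true =>
          rw [cond_true]
          refine h _ _ (by rw [par_j, par_j, hX, hY, Bool.xor_comm]) ?_
          rw [val, val, hvX, hvY, hX, hY]
          cases s <;> cases t <;> cases hp1 : par p a <;> cases hp2 : par p b <;>
            simp [sgb, sgz] <;> abel
        | false =>
          rw [cond_false]
          have e := key_eq_of h1 h2
          subst e
          cases hp : par p X with
          | false =>
            rw [cond_false]
            refine h _ _ (by rw [par_j, par_j, ← hX, ← hY]) ?_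
            rw [val, val, hvX, hvY, ← hX, ← hY]
            cases s <;> cases t <;> simp [sgb, smul_add]
          | true =>
            rw [cond_true, evL_nil]
            symm
            apply h0
            rw [val, hvX, hvY, ← hX, ← hY, hp]
            cases s <;> cases t <;> simp [sgb, sgz]
    · intro hb
      apply h0
      rw [val, hb]
      simp
    · intro ha
      apply h0
      rw [val, ha]
      simp

def nf2 (p : ℕ → Bool) (E : Ex) : LC := cn p E fun s X => [(cond s 0 1, cond s 1 0, X)]

theorem evL_nf2 (p : ℕ → Bool) (u : ℕ → S) (E : Ex) : evL (val p u) (nf2 p E) = val p u E := by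
  refine cn_spec p u E _ _ (fun s X _ hv => ?_) (fun h => h)
  rw [hv, evL_cons, evL_nil, add_zero]
  cases s <;> simp [sgb]

end

end Pool.Agent.H12.Alt
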