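import Pool.Agent.H12.Alt.Engine

/-! Identities, substitution instances in contexts, and soundness of certificates. -/

namespace Pool.Agent.H12.Alt

set_option linter.unusedSimpArgs false

noncomputable section

variable {S : Type*} [NonUnitalNonAssocRing S]

/-- five parities as a function -/
def pf (b0 b1 b2 b3 b4 : Bool) : ℕ → Bool
  | 0 => b0 | 1 => b1 | 2 => b2 | 3 => b3 | _ => b4

def uf {α : Type*} (b0 b1 b2 b3 b4 : α) : ℕ → α
  | 0 => b0 | 1 => b1 | 2 => b2 | 3 => b3 | _ => b4

def sub (σ : ℕ → Ex) (E : Ex) : Ex :=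
  Ex.rec (fun i => σ i) (fun _ _ x y => .m x y) (fun _ _ x y => .b x y) (fun _ _ x y => .j x y)
    (fun _ _ _ x y z => .s x y z) E

theorem par_sub (p : ℕ → Bool) (σ : ℕ → Ex) (E : Ex) :
    par p (sub σ E) = par (fun i => par p (σ i)) E := by
  induction E with
  | v i => rfl
  | m a b ha hb => rw [par_m, ← ha, ← hb]; rfl
  | b a b ha hb => rw [par_b, ← ha, ← hb]; rfl
  | j a b ha hb => rw [par_j, ← ha, ← hb]; rfl
  | s a b c ha hb hc => rw [par_s, ← ha, ← hb, ← hc]; rfl

theorem val_sub (p : ℕ → Bool) (u : ℕ → S) (σ : ℕ → Ex) (E : Ex) :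
    val p u (sub σ E) = val (fun i => par p (σ i)) (fun i => val p u (σ i)) E := by
  induction E with
  | v i => rfl
  | m a b ha hb => rw [val, ← ha, ← hb]; rfl
  | b a b ha hb => rw [val, ← ha, ← hb, ← par_sub, ← par_sub]; rfl
  | j a b ha hb => rw [val, ← ha, ← hb, ← par_sub, ← par_sub]; rfl
  | s a b c ha hb hc => rw [val, ← ha, ← hb, ← hc]; rfl

/-- leaves in order, accumulated in front of a list -/
def lvs (E : Ex) : List ℕ → List ℕ :=
  Ex.rec (fun i t => i :: t) (fun _ _ x y t => x (y t)) (fun _ _ x y t => x (y t))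
    (fun _ _ x y t => x (y t)) (fun _ _ _ x y z t => x (y (z t))) E

/-- number of later odd entries smaller than `i`, mod 2 -/
def inv1 (p : ℕ → Bool) (i : ℕ) (l : List ℕ) : Bool :=
  List.rec false (fun x _ ih => xor (and (p x) (Nat.blt x i)) ih) l

/-- parity of the permutation induced on odd variables -/
def kos (p : ℕ → Bool) (l : List ℕ) : Bool :=
  List.rec false (fun x t ih => xor (and (p x) (inv1 p x t)) ih) l

/-- insert the sign of the order of the odd variables -/
def sgnL (p : ℕ → Bool) (l : LC) : LC :=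
  List.rec [] (fun x _ ih => cond (kos p (lvs x.2.2 [])) (x.2.1, x.1, x.2.2) x :: ih) l

/-- code of five parities -/
def code (b0 b1 b2 b3 b4 : Bool) : ℕ :=
  Nat.add (cond b0 1 0) (Nat.add (cond b1 2 0) (Nat.add (cond b2 4 0)
    (Nat.add (cond b3 8 0) (cond b4 16 0))))

/-- membership test -/
def mem (k : ℕ) (l : List ℕ) : Bool := List.rec false (fun x _ ih => cond (Nat.beq k x) true ih) l

/-- `I` is an identity of multilinear expressions valid (with signs) in `S`, for the parities
with codes in `ps` -/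
def Valid (A : SuperAlt S) (I : LC) (ps : List ℕ) : Prop :=
  ∀ (b0 b1 b2 b3 b4 : Bool), mem (code b0 b1 b2 b3 b4) ps = true →
    ∀ (u : ℕ → S), (∀ i, u i ∈ A.P (pf b0 b1 b2 b3 b4 i)) →
    evL (val (pf b0 b1 b2 b3 b4) u) (sgnL (pf b0 b1 b2 b3 b4) I) = 0

/-- one step of a context -/
inductive Fr | ml (T : Ex) | mr (T : Ex) | bl (T : Ex) | jl (T : Ex)

def fill : Fr → Ex → Ex
  | .ml T, E => .m T E
  | .mr T, E => .m E T
  | .bl T, E => .b T E
  | .jl T, E => .j T E

def fills (l : List Fr) (E : Ex) : Ex := List.rec E (fun f _ ih => fill f ih) l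

/-- certificate item: coefficient, context (outermost first), identity number, arguments -/
structure It where
  p : ℕ
  m : ℕ
  c : List Fr
  i : ℕ
  a0 : Ex
  a1 : Ex
  a2 : Ex
  a3 : Ex
  a4 : Ex

/-- all expressions of the list have parity `π` -/
def hom (p : ℕ → Bool) (π : Bool) (l : LC) : Bool :=
  List.rec true (fun x _ ih => cond (xor (par p x.2.2) π) false ih) l

theorem hom_spec (p : ℕ → Bool) (π : Bool) (l : LC) (h : hom p π l = true) :
    ∀ x ∈ l, par p x.2.2 = π := by
  induction l with
  | nil => intro x hx; exact absurd hx List.not_mem_nil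
  | cons y t ih =>
    have h' : cond (xor (par p y.2.2) π) false (hom p π t) = true := h
    cases h1 : xor (par p y.2.2) π with
    | true => simp [h1] at h'
    | false =>
      rw [h1, cond_false] at h'
      intro x hx
      rcases List.mem_cons.mp hx with rfl | hx
      · simpa using h1
      · exact ih h' x hx

theorem fill_zero (p : ℕ → Bool) (u : ℕ → S) (f : Fr) (π : Bool) (l : LC)
    (hl : ∀ x ∈ l, par p x.2.2 = π) (h0 : evL (val p u) l = 0) :
    evL (val p u) (mapL (fill f) l) = 0 := by
  rw [evL_mapL]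
  cases f with
  | ml T =>
    have := evL_hom (val p u) (AddMonoidHom.mulLeft (val p u T)) l
    rw [h0, map_zero] at this
    exact this
  | mr T =>
    have := evL_hom (val p u) (AddMonoidHom.mulRight (val p u T)) l
    rw [h0, map_zero] at this
    exact this
  | bl T =>
    have := evL_hom (val p u) (AddMonoidHom.mulLeft (val p u T) -
      sgz (par p T) π • AddMonoidHom.mulRight (val p u T)) l
    rw [h0, map_zero] at this
    rw [← this]
    apply evL_congr
    intro x hx
    simp only [fill, val, hl x hx]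
    rfl
  | jl T =>
    have := evL_hom (val p u) (AddMonoidHom.mulLeft (val p u T) +
      sgz (par p T) π • AddMonoidHom.mulRight (val p u T)) l
    rw [h0, map_zero] at this
    rw [← this]
    apply evL_congr
    intro x hx
    simp only [fill, val, hl x hx]
    rfl

theorem par_fill (p : ℕ → Bool) (f : Fr) (E F : Ex) (h : par p E = par p F) :
    par p (fill f E) = par p (fill f F) := by
  cases f <;> simp only [fill, par_m, par_b, par_j, h]

theorem mem_mapL (g : Ex → Ex) (l : LC) (x : ℕ × ℕ × Ex) (hx : x ∈ mapL g l) :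
    ∃ y ∈ l, x.2.2 = g y.2.2 := by
  induction l with
  | nil => exact absurd hx List.not_mem_nil
  | cons y t ih =>
    have h : mapL g (y :: t) = (y.1, y.2.1, g y.2.2) :: mapL g t := rfl
    rw [h] at hx
    rcases List.mem_cons.mp hx with rfl | hx
    · exact ⟨y, List.mem_cons_self, rfl⟩
    · obtain ⟨z, hz, e⟩ := ih hx
      exact ⟨z, List.mem_cons_of_mem _ hz, e⟩

theorem mapL_comp (f g : Ex → Ex) (l : LC) : mapL (fun E => f (g E)) l = mapL f (mapL g l) := by
  induction l with
  | nil => rfl
  | cons y t ih =>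
    have h : ∀ g : Ex → Ex, ∀ (y : ℕ × ℕ × Ex) (t : LC),
      mapL g (y :: t) = (y.1, y.2.1, g y.2.2) :: mapL g t := fun _ _ _ => rfl
    rw [h, h, h, ih]

theorem fills_zero (p : ℕ → Bool) (u : ℕ → S) (c : List Fr) (π : Bool) (l : LC)
    (hl : ∀ x ∈ l, par p x.2.2 = π) (h0 : evL (val p u) l = 0) :
    (∃ π', ∀ x ∈ mapL (fills c) l, par p x.2.2 = π') ∧ evL (val p u) (mapL (fills c) l) = 0 := by
  induction c with
  | nil =>
    have h : mapL (fills []) l = l := by
      induction l with
      | nil => rfl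
      | cons y t ih =>
        have e : mapL (fills []) (y :: t) = (y.1, y.2.1, y.2.2) :: mapL (fills []) t := rfl
        rw [e]
        congr 1
        clear e ih h0 hl
        induction t with
        | nil => rfl
        | cons z t ih =>
          have e : mapL (fills []) (z :: t) = (z.1, z.2.1, z.2.2) :: mapL (fills []) t := rfl
          rw [e, ih]
    rw [h]
    exact ⟨⟨π, hl⟩, h0⟩
  | cons f c ih =>
    obtain ⟨⟨π', h1⟩, h2⟩ := ih
    have e : mapL (fills (f :: c)) l = mapL (fill f) (mapL (fills c) l) :=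
      mapL_comp (fill f) (fills c) l
    rw [e]
    refine ⟨⟨par p (fill f (.v 0)) |> fun _ => ?_, ?_⟩, fill_zero p u f π' _ h1 h2⟩
    · exact xor (match f with | .ml T => par p T | .mr T => par p T | .bl T => par p T | .jl T => par p T) π'
    · intro x hx
      obtain ⟨y, hy, e'⟩ := mem_mapL _ _ _ hx
      rw [e']
      cases f <;> simp only [fill, par_m, par_b, par_j, h1 y hy, Bool.xor_comm]

/-- parity of the first expression -/
def hd (p : ℕ → Bool) (l : LC) : Bool := List.rec false (fun x _ _ => par p x.2.2) l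

/-- the instance of the identity used by an item, before filling in the context -/
def itI (p : ℕ → Bool) (ids : ℕ → LC) (t : It) : LC :=
  mapL (sub (uf t.a0 t.a1 t.a2 t.a3 t.a4))
    (sgnL (pf (par p t.a0) (par p t.a1) (par p t.a2) (par p t.a3) (par p t.a4)) (ids t.i))

def itL (p : ℕ → Bool) (ids : ℕ → LC) (t : It) : LC := scl t.p t.m (mapL (fills t.c) (itI p ids t))

def itOk (p : ℕ → Bool) (ids : ℕ → LC) (pts : ℕ → List ℕ) (n : ℕ) (t : It) : Bool :=
  cond (Nat.blt t.i n) (cond (mem (code (par p t.a0) (par p t.a1) (par p t.a2) (par p t.a3)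
    (par p t.a4)) (pts t.i)) (hom p (hd p (itI p ids t)) (itI p ids t)) false) false

theorem itI_zero (A : SuperAlt S) (p : ℕ → Bool) (u : ℕ → S) (hu : ∀ i, u i ∈ A.P (p i))
    (ids : ℕ → LC) (pts : ℕ → List ℕ) (n : ℕ) (hids : ∀ i < n, Valid A (ids i) (pts i))
    (t : It) (ht : t.i < n) (hm : mem (code (par p t.a0) (par p t.a1) (par p t.a2) (par p t.a3)
    (par p t.a4)) (pts t.i) = true) :
    evL (val p u) (itI p ids t) = 0 := by
  have hp : (fun i => par p (uf t.a0 t.a1 t.a2 t.a3 t.a4 i)) =
      pf (par p t.a0) (par p t.a1) (par p t.a2) (par p t.a3) (par p t.a4) := by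
    funext i
    match i with
    | 0 => rfl
    | 1 => rfl
    | 2 => rfl
    | 3 => rfl
    | _ + 4 => rfl
  have := hids t.i ht (par p t.a0) (par p t.a1) (par p t.a2) (par p t.a3) (par p t.a4) hm
    (fun i => val p u (uf t.a0 t.a1 t.a2 t.a3 t.a4 i)) (fun i => by
      rw [← hp]
      exact val_mem A p u hu _)
  rw [itI, evL_mapL, ← this]
  apply evL_congr
  intro x _
  rw [val_sub, hp]

theorem itL_zero (A : SuperAlt S) (p : ℕ → Bool) (u : ℕ → S) (hu : ∀ i, u i ∈ A.P (p i))
    (ids : ℕ → LC) (pts : ℕ → List ℕ) (n : ℕ) (hids : ∀ i < n, Valid A (ids i) (pts i))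
    (t : It) (ht : itOk p ids pts n t = true) :
    evL (val p u) (itL p ids t) = 0 := by
  unfold itOk at ht
  cases h : Nat.blt t.i n with
  | false => simp [h] at ht
  | true =>
    rw [h, cond_true] at ht
    cases hm : mem (code (par p t.a0) (par p t.a1) (par p t.a2) (par p t.a3)
      (par p t.a4)) (pts t.i) with
    | false => simp [hm] at ht
    | true =>
      rw [hm, cond_true] at ht
      rw [itL, evL_scl, (fills_zero p u t.c _ _ (hom_spec p _ _ ht)
        (itI_zero A p u hu ids pts n hids t (Nat.blt_eq.mp h) hm)).2, smul_zero]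

/-- collect after normalising each expression -/
def collN (nf : Ex → LC) (l : LC) (t : BT) : BT :=
  List.rec (motive := fun _ => BT → BT) (fun t => t)
    (fun x _ ih t => ih (coll (scl x.1 x.2.1 (nf x.2.2)) t)) l t

theorem ev_collN {M : Type*} [AddCommGroup M] (f : Ex → M) (nf : Ex → LC)
    (hnf : ∀ E, evL f (nf E) = f E) (l : LC) (t : BT) :
    (collN nf l t).ev (kv f) = evL f l + t.ev (kv f) := by
  induction l generalizing t with
  | nil => simp [collN]
  | cons x l ih =>
    obtain ⟨a, b, E⟩ := x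
    have : collN nf ((a, b, E) :: l) t = collN nf l (coll (scl a b (nf E)) t) := rfl
    rw [this, ih, ev_coll, evL_scl, hnf, evL_cons]
    abel

def collI (nf : Ex → LC) (p : ℕ → Bool) (ids : ℕ → LC) (l : List It) (t : BT) : BT :=
  List.rec (motive := fun _ => BT → BT) (fun t => t)
    (fun x _ ih t => ih (collN nf (itL p ids x) t)) l t

def allIt (p : ℕ → Bool) (ids : ℕ → LC) (pts : ℕ → List ℕ) (n : ℕ) (l : List It) : Bool :=
  List.rec true (fun x _ ih => cond (itOk p ids pts n x) ih false) l

theorem ev_collI (A : SuperAlt S) (nf : Ex → LC) (p : ℕ → Bool) (u : ℕ → S)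
    (hu : ∀ i, u i ∈ A.P (p i)) (hnf : ∀ E, evL (val p u) (nf E) = val p u E)
    (ids : ℕ → LC) (pts : ℕ → List ℕ) (n : ℕ) (hids : ∀ i < n, Valid A (ids i) (pts i))
    (l : List It) (hl : allIt p ids pts n l = true) (t : BT) :
    (collI nf p ids l t).ev (kv (val p u)) = t.ev (kv (val p u)) := by
  induction l generalizing t with
  | nil => simp [collI]
  | cons x l ih =>
    have h1 : cond (itOk p ids pts n x) (allIt p ids pts n l) false = true := hl
    cases hx : itOk p ids pts n x with
    | false => simp [hx] at h1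
    | true =>
      rw [hx, cond_true] at h1
      have : collI nf p ids (x :: l) t = collI nf p ids l (collN nf (itL p ids x) t) := rfl
      rw [this, ih h1, ev_collN _ nf hnf, itL_zero A p u hu ids pts n hids x hx, zero_add]

def chk (nf : Ex → LC) (p : ℕ → Bool) (ids : ℕ → LC) (pts : ℕ → List ℕ) (n : ℕ) (tgt : LC)
    (l : List It) : Bool :=
  cond (allIt p ids pts n l) (BT.z (collI nf p ids l (collN nf (scl 0 1 tgt) .e))) false

theorem chk_sound (A : SuperAlt S) (nf : Ex → LC) (p : ℕ → Bool) (u : ℕ → S)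
    (hu : ∀ i, u i ∈ A.P (p i)) (hnf : ∀ E, evL (val p u) (nf E) = val p u E)
    (ids : ℕ → LC) (pts : ℕ → List ℕ) (n : ℕ) (hids : ∀ i < n, Valid A (ids i) (pts i))
    (tgt : LC) (l : List It)
    (h : chk nf p ids pts n tgt l = true) : evL (val p u) tgt = 0 := by
  unfold chk at h
  cases h1 : allIt p ids pts n l with
  | false => simp [h1] at h
  | true =>
    rw [h1, cond_true] at h
    have h2 := BT.z_ev (kv (val p u)) _ h
    rw [ev_collI A nf p u hu hnf ids pts n hids l h1, ev_collN _ nf hnf, evL_scl] at h2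
    simpa [BT.ev] using h2

/-- leaves of a filled context -/
def lvC (c : List Fr) (L : List ℕ) : List ℕ :=
  List.rec L (fun f _ ih => match f with
    | .ml T => lvs T ih
    | .mr T => ih ++ lvs T []
    | .bl T => lvs T ih
    | .jl T => lvs T ih) c

/-- number of variables of the identities in the list below -/
def arity (i : ℕ) : ℕ := match i with
  | 0 => 3 | 1 => 3 | 8 => 5 | 9 => 3 | 10 => 5 | _ => 4

/-- insert the sign of the order of the variables in an item -/
def sgIt (p : ℕ → Bool) (t : It) : It :=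
  cond (kos p (lvC t.c (lvs t.a0 (lvs t.a1 (lvs t.a2 (match arity t.i with
    | 3 => []
    | 4 => lvs t.a3 []
    | _ => lvs t.a3 (lvs t.a4 [])))))))
    { t with p := t.m, m := t.p } t

def chk1 (ids : ℕ → LC) (pts : ℕ → List ℕ) (n : ℕ) (tgt : LC) (l : List It) (p : ℕ → Bool) : Bool :=
  chk (expd p) p ids pts n (sgnL p tgt) (List.rec [] (fun x _ ih => sgIt p x :: ih) l)

/-- parities from their code -/
def pfc (c : ℕ) : ℕ → Bool :=
  pf (Nat.beq (Nat.mod c 2) 1) (Nat.beq (Nat.mod (Nat.div c 2) 2) 1)
    (Nat.beq (Nat.mod (Nat.div c 4) 2) 1) (Nat.beq (Nat.mod (Nat.div c 8) 2) 1)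
    (Nat.beq (Nat.mod (Nat.div c 16) 2) 1)

theorem pfc_code (b0 b1 b2 b3 b4 : Bool) : pfc (code b0 b1 b2 b3 b4) = pf b0 b1 b2 b3 b4 := by
  cases b0 <;> cases b1 <;> cases b2 <;> cases b3 <;> cases b4 <;> rfl

/-- run a test on all elements -/
def allc (f : ℕ → Bool) (l : List ℕ) : Bool := List.rec true (fun x _ ih => cond (f x) ih false) l

theorem allc_spec (f : ℕ → Bool) (l : List ℕ) (h : allc f l = true) (k : ℕ) (hk : mem k l = true) :
    f k = true := by
  induction l with
  | nil => exact absurd hk Bool.false_ne_true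
  | cons x t ih =>
    have h1 : cond (f x) (allc f t) false = true := h
    have h2 : cond (Nat.beq k x) true (mem k t) = true := hk
    cases hx : f x with
    | false => simp [hx] at h1
    | true =>
      rw [hx, cond_true] at h1
      cases hk' : Nat.beq k x with
      | true => rw [Nat.eq_of_beq_eq_true hk']; exact hx
      | false =>
        rw [hk', cond_false] at h2
        exact ih h1 h2

theorem valid_of_chk1 (A : SuperAlt S) (ids : ℕ → LC) (pts : ℕ → List ℕ) (n : ℕ)
    (hids : ∀ i < n, Valid A (ids i) (pts i))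
    (tgt : LC) (ps : List ℕ) (l : List It)
    (h : allc (fun c => chk1 ids pts n tgt l (pfc c)) ps = true) : Valid A tgt ps := by
  intro b0 b1 b2 b3 b4 hm u hu
  have h1 := allc_spec _ _ h _ hm
  simp only [pfc_code] at h1
  exact chk_sound A _ _ u hu (fun E => evL_expd _ u E) ids pts n hids _ _ h1

end

end Pool.Agent.H12.Alt
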