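import Pool.Agent.H12.Alt.Ids2

/-! Kernel evaluations of the certificates, part A. -/

namespace Pool.Agent.H12.Alt
set_option maxRecDepth 1000000

theorem k2 : allc (fun c => chk1 ids pts 2 rM1 cM1 (pfc c)) (pts 2) = true := by decide +kernel
theorem k3 : allc (fun c => chk1 ids pts 2 rM2 cM2 (pfc c)) (pts 3) = true := by decide +kernel
theorem k4 : allc (fun c => chk1 ids pts 2 rF2 cF2 (pfc c)) (pts 4) = true := by decide +kernel
theorem k5 : allc (fun c => chk1 ids pts 2 rF3 cF3 (pfc c)) (pts 5) = true := by decide +kernel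
theorem k6 : allc (fun c => chk1 ids pts 2 rF0 cF0 (pfc c)) (pts 6) = true := by decide +kernel
theorem k7 : allc (fun c => chk1 ids pts 2 rSA cSA (pfc c)) (pts 7) = true := by decide +kernel
theorem k9 : allc (fun c => chk1 ids pts 2 rJ6 cJ6 (pfc c)) (pts 9) = true := by decide +kernel
theorem k10 : allc (fun c => chk1 ids pts 10 rPJ cPJ (pfc c)) (pts 10) = true := by decide +kernel
theorem k11 : allc (fun c => chk1 ids pts 10 rLJ cLJ (pfc c)) (pts 11) = true := by decide +kernel

end Pool.Agent.H12.Alt
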