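import Pool.Agent.H12.Alt.Ids2

/-! Kernel evaluations of the certificates, part B. -/

namespace Pool.Agent.H12.Alt
set_option maxRecDepth 1000000

theorem k8 : allc (fun c => chk1 ids pts 7 rP cP (pfc c)) (pts 8) = true := by decide +kernel
theorem kk : chk (nf2 (pf true true false false false)) (pf true true false false false) ids pts 12
    tgt2 cert2 = true := by decide +kernel

end Pool.Agent.H12.Alt
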