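import Pool.Agent.H12.Alt.Zero

/-! Super-alternative rings and a certificate checker for their identities. -/

namespace Pool.Agent.H12.Alt

set_option linter.unusedSimpArgs false

noncomputable section

/-- sign of a pair of parities -/
def sgz (i j : Bool) : ℤ := cond (and i j) (-1) 1

/-- A parity decomposition making a ring super-alternative. -/
structure SuperAlt (S : Type*) [NonUnitalNonAssocRing S] where
  P : Bool → AddSubgroup S
  mul_mem : ∀ (i j : Bool) (a b : S), a ∈ P i → b ∈ P j → a * b ∈ P (xor i j)
  left : ∀ (i j k : Bool) (a b c : S), a ∈ P i → b ∈ P j → c ∈ P k →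
    associator a b c + sgz i j • associator b a c = 0
  right : ∀ (i j k : Bool) (a b c : S), a ∈ P i → b ∈ P j → c ∈ P k →
    associator a b c + sgz j k • associator a c b = 0

/-- expressions: variables, products, super commutators, super Jordan products, associators -/
inductive Ex | v (i : ℕ) | m (a b : Ex) | b (a b : Ex) | j (a b : Ex) | s (a b c : Ex)

abbrev LC := List (ℕ × ℕ × Ex)

def par (p : ℕ → Bool) (E : Ex) : Bool :=
  Ex.rec (fun i => p i) (fun _ _ x y => xor x y) (fun _ _ x y => xor x y) (fun _ _ x y => xor x y)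
    (fun _ _ _ x y z => xor (xor x y) z) E

@[simp] theorem par_v (p : ℕ → Bool) (i : ℕ) : par p (.v i) = p i := rfl
@[simp] theorem par_m (p : ℕ → Bool) (a b : Ex) : par p (.m a b) = xor (par p a) (par p b) := rfl
@[simp] theorem par_b (p : ℕ → Bool) (a b : Ex) : par p (.b a b) = xor (par p a) (par p b) := rfl
@[simp] theorem par_j (p : ℕ → Bool) (a b : Ex) : par p (.j a b) = xor (par p a) (par p b) := rfl
@[simp] theorem par_s (p : ℕ → Bool) (a b c : Ex) :
    par p (.s a b c) = xor (xor (par p a) (par p b)) (par p c) := rfl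

variable {S : Type*} [NonUnitalNonAssocRing S]

def val (p : ℕ → Bool) (u : ℕ → S) : Ex → S
  | .v i => u i
  | .m a b => val p u a * val p u b
  | .b a b => val p u a * val p u b - sgz (par p a) (par p b) • (val p u b * val p u a)
  | .j a b => val p u a * val p u b + sgz (par p a) (par p b) • (val p u b * val p u a)
  | .s a b c => associator (val p u a) (val p u b) (val p u c)

theorem val_mem (A : SuperAlt S) (p : ℕ → Bool) (u : ℕ → S) (hu : ∀ i, u i ∈ A.P (p i)) (E : Ex) :
    val p u E ∈ A.P (par p E) := by
  induction E with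
  | v i => exact hu i
  | m a b ha hb => exact A.mul_mem _ _ _ _ ha hb
  | b a b ha hb =>
    refine AddSubgroup.sub_mem _ (A.mul_mem _ _ _ _ ha hb) (AddSubgroup.zsmul_mem _ ?_ _)
    have := A.mul_mem _ _ _ _ hb ha
    rwa [Bool.xor_comm] at this
  | j a b ha hb =>
    refine AddSubgroup.add_mem _ (A.mul_mem _ _ _ _ ha hb) (AddSubgroup.zsmul_mem _ ?_ _)
    have := A.mul_mem _ _ _ _ hb ha
    rwa [Bool.xor_comm] at this
  | s a b c ha hb hc =>
    refine AddSubgroup.sub_mem _ (A.mul_mem _ _ _ _ (A.mul_mem _ _ _ _ ha hb) hc) ?_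
    have := A.mul_mem _ _ _ _ ha (A.mul_mem _ _ _ _ hb hc)
    rwa [← Bool.xor_assoc] at this

/-- value of a linear combination, weighted by `f` -/
def evL {M : Type*} [AddCommGroup M] (f : Ex → M) : LC → M
  | [] => 0
  | (a, b, E) :: t => ((a : ℤ) - (b : ℤ)) • f E + evL f t

section evL
variable {M : Type*} [AddCommGroup M] (f : Ex → M)

@[simp] theorem evL_nil : evL f [] = 0 := rfl
theorem evL_cons (a b : ℕ) (E : Ex) (t : LC) :
    evL f ((a, b, E) :: t) = ((a : ℤ) - (b : ℤ)) • f E + evL f t := rfl

end evL

/-- multiply a linear combination by the integer `c - d` -/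
def scl (c d : ℕ) (l : LC) : LC :=
  List.rec [] (fun x _ ih => (c * x.1 + d * x.2.1, c * x.2.1 + d * x.1, x.2.2) :: ih) l

theorem evL_scl {M : Type*} [AddCommGroup M] (f : Ex → M) (c d : ℕ) (l : LC) :
    evL f (scl c d l) = ((c : ℤ) - (d : ℤ)) • evL f l := by
  induction l with
  | nil => simp [scl]
  | cons x t ih =>
    obtain ⟨a, b, E⟩ := x
    have : scl c d ((a, b, E) :: t) = (c * a + d * b, c * b + d * a, E) :: scl c d t := rfl
    rw [this, evL_cons, evL_cons, ih, smul_add, smul_smul]
    congr 2
    push_cast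
    ring

/-- map a unary operation over a linear combination -/
def mapL (g : Ex → Ex) (l : LC) : LC :=
  List.rec [] (fun x _ ih => (x.1, x.2.1, g x.2.2) :: ih) l

theorem evL_mapL {M : Type*} [AddCommGroup M] (f : Ex → M) (g : Ex → Ex) (l : LC) :
    evL f (mapL g l) = evL (fun E => f (g E)) l := by
  induction l with
  | nil => simp [mapL]
  | cons x t ih =>
    obtain ⟨a, b, E⟩ := x
    have : mapL g ((a, b, E) :: t) = (a, b, g E) :: mapL g t := rfl
    rw [this, evL_cons, evL_cons, ih]

theorem evL_hom {M N : Type*} [AddCommGroup M] [AddCommGroup N] (f : Ex → M) (φ : M →+ N) (l : LC) :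
    evL (fun E => φ (f E)) l = φ (evL f l) := by
  induction l with
  | nil => simp
  | cons x t ih =>
    obtain ⟨a, b, E⟩ := x
    rw [evL_cons, evL_cons, ih, map_add, map_zsmul]

theorem evL_congr {M : Type*} [AddCommGroup M] (f g : Ex → M) (l : LC)
    (h : ∀ x ∈ l, f x.2.2 = g x.2.2) : evL f l = evL g l := by
  induction l with
  | nil => simp
  | cons x t ih =>
    obtain ⟨a, b, E⟩ := x
    rw [evL_cons, evL_cons, ih (fun y hy => h y (List.mem_cons_of_mem _ hy)),
      h (a, b, E) List.mem_cons_self]

/-- append, written for the kernel -/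
def app (l k : LC) : LC := List.rec k (fun x _ ih => x :: ih) l

theorem evL_app {M : Type*} [AddCommGroup M] (f : Ex → M) (l k : LC) :
    evL f (app l k) = evL f l + evL f k := by
  induction l with
  | nil => simp [app]
  | cons x t ih =>
    obtain ⟨a, b, E⟩ := x
    have : app ((a, b, E) :: t) k = (a, b, E) :: app t k := rfl
    rw [this, evL_cons, evL_cons, ih, add_assoc]

/-- negation -/
def neL (l : LC) : LC := List.rec [] (fun x _ ih => (x.2.1, x.1, x.2.2) :: ih) l

theorem evL_neL {M : Type*} [AddCommGroup M] (f : Ex → M) (l : LC) :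
    evL f (neL l) = - evL f l := by
  induction l with
  | nil => simp [neL]
  | cons x t ih =>
    obtain ⟨a, b, E⟩ := x
    have : neL ((a, b, E) :: t) = (b, a, E) :: neL t := rfl
    rw [this, evL_cons, evL_cons, ih]
    module

/-- one row of a product, in front of another list -/
def row (a b : ℕ) (E : Ex) (k r : LC) : LC :=
  List.rec r (fun x _ ih => (Nat.add (Nat.mul a x.1) (Nat.mul b x.2.1),
    Nat.add (Nat.mul a x.2.1) (Nat.mul b x.1), .m E x.2.2) :: ih) k

theorem evL_row (p : ℕ → Bool) (u : ℕ → S) (a b : ℕ) (E : Ex) (k r : LC) :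
    evL (val p u) (row a b E k r) =
      ((a : ℤ) - (b : ℤ)) • (val p u E * evL (val p u) k) + evL (val p u) r := by
  induction k with
  | nil => simp [row]
  | cons x t ih =>
    obtain ⟨c, d, F⟩ := x
    have : row a b E ((c, d, F) :: t) r = (Nat.add (Nat.mul a c) (Nat.mul b d),
      Nat.add (Nat.mul a d) (Nat.mul b c), .m E F) :: row a b E t r := rfl
    rw [this, evL_cons, evL_cons, ih, mul_add, smul_add, mul_smul_comm, smul_smul, val]
    have e : (((Nat.add (Nat.mul a c) (Nat.mul b d) : ℕ) : ℤ) -
      ((Nat.add (Nat.mul a d) (Nat.mul b c) : ℕ) : ℤ)) = ((a : ℤ) - b) * ((c : ℤ) - d) := by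
      simp only [Nat.add_eq, Nat.mul_eq, Nat.cast_add, Nat.cast_mul]
      ring
    rw [e]
    abel

/-- product of linear combinations -/
def mulL (l k : LC) : LC := List.rec [] (fun x _ ih => row x.1 x.2.1 x.2.2 k ih) l

theorem evL_mulL (p : ℕ → Bool) (u : ℕ → S) (l k : LC) :
    evL (val p u) (mulL l k) = evL (val p u) l * evL (val p u) k := by
  induction l with
  | nil => simp [mulL]
  | cons x t ih =>
    obtain ⟨a, b, E⟩ := x
    have : mulL ((a, b, E) :: t) k = row a b E k (mulL t k) := rfl
    rw [this, evL_row, ih, evL_cons, add_mul, smul_mul_assoc]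

/-- expansion into monomials -/
def expd (p : ℕ → Bool) (E : Ex) : LC :=
  Ex.rec (fun i => [(1, 0, .v i)]) (fun _ _ x y => mulL x y)
    (fun a b x y => app (mulL x y) (cond (and (par p a) (par p b)) (mulL y x) (neL (mulL y x))))
    (fun a b x y => app (mulL x y) (cond (and (par p a) (par p b)) (neL (mulL y x)) (mulL y x)))
    (fun _ _ _ x y z => app (mulL (mulL x y) z) (neL (mulL x (mulL y z)))) E

theorem evL_expd (p : ℕ → Bool) (u : ℕ → S) (E : Ex) : evL (val p u) (expd p E) = val p u E := by
  induction E with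
  | v i => simp [expd, evL, val]
  | m a b ha hb =>
    have : expd p (.m a b) = mulL (expd p a) (expd p b) := rfl
    rw [this, evL_mulL, ha, hb, val]
  | b a b ha hb =>
    have : expd p (.b a b) = app (mulL (expd p a) (expd p b)) (cond (and (par p a) (par p b))
      (mulL (expd p b) (expd p a)) (neL (mulL (expd p b) (expd p a)))) := rfl
    rw [this, evL_app, evL_mulL, ha, hb, val]
    cases h : and (par p a) (par p b) <;>
      simp [h, evL_neL, evL_mulL, ha, hb, sgz, sub_eq_add_neg]
  | j a b ha hb =>
    have : expd p (.j a b) = app (mulL (expd p a) (expd p b)) (cond (and (par p a) (par p b))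
      (neL (mulL (expd p b) (expd p a))) (mulL (expd p b) (expd p a))) := rfl
    rw [this, evL_app, evL_mulL, ha, hb, val]
    cases h : and (par p a) (par p b) <;>
      simp [h, evL_neL, evL_mulL, ha, hb, sgz]
  | s a b c ha hb hc =>
    have : expd p (.s a b c) = app (mulL (mulL (expd p a) (expd p b)) (expd p c))
      (neL (mulL (expd p a) (mulL (expd p b) (expd p c)))) := rfl
    rw [this, evL_app, evL_neL, evL_mulL, evL_mulL, evL_mulL, evL_mulL, ha, hb, hc, val,
      associator_apply, sub_eq_add_neg]

/-- pairing function written for the kernel -/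
def pr (a b : ℕ) : ℕ := cond (Nat.blt a b) (Nat.add (Nat.mul b b) a) (Nat.add (Nat.add (Nat.mul a a) a) b)

theorem pr_eq (a b : ℕ) : pr a b = Nat.pair a b := by
  unfold pr Nat.pair
  by_cases h : a < b
  · have : Nat.blt a b = true := Nat.blt_eq.mpr h
    simp [this, h]
  · have : Nat.blt a b = false := by
      cases h' : Nat.blt a b with
      | false => rfl
      | true => exact absurd (Nat.blt_eq.mp h') h
    simp [this, h]

theorem pr_inj {a b c d : ℕ} (h : pr a b = pr c d) : a = c ∧ b = d := by
  rw [pr_eq, pr_eq] at h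
  exact Nat.pair_eq_pair.mp h

def key (E : Ex) : ℕ :=
  Ex.rec (fun i => Nat.mul 5 i) (fun _ _ x y => Nat.add (Nat.mul 5 (pr x y)) 1)
    (fun _ _ x y => Nat.add (Nat.mul 5 (pr x y)) 2) (fun _ _ x y => Nat.add (Nat.mul 5 (pr x y)) 3)
    (fun _ _ _ x y z => Nat.add (Nat.mul 5 (pr x (pr y z))) 4) E

theorem key_v (i : ℕ) : key (.v i) = 5 * i := rfl
theorem key_m (a b : Ex) : key (.m a b) = 5 * pr (key a) (key b) + 1 := rfl
theorem key_b (a b : Ex) : key (.b a b) = 5 * pr (key a) (key b) + 2 := rfl
theorem key_j (a b : Ex) : key (.j a b) = 5 * pr (key a) (key b) + 3 := rfl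
theorem key_s (a b c : Ex) : key (.s a b c) = 5 * pr (key a) (pr (key b) (key c)) + 4 := rfl

theorem key_inj : ∀ {E F : Ex}, key E = key F → E = F := by
  intro E
  induction E with
  | v i => intro F h; cases F <;> simp only [key_v, key_m, key_b, key_j, key_s] at h <;> first | omega | (congr 1; omega)
  | m a b ha hb =>
    intro F h
    cases F with
    | m a' b' =>
      simp only [key_v, key_m, key_b, key_j, key_s] at h
      obtain ⟨h1, h2⟩ := pr_inj (show pr (key a) (key b) = pr (key a') (key b') by omega)
      rw [ha h1, hb h2]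
    | _ => simp only [key_v, key_m, key_b, key_j, key_s] at h; omega
  | b a b ha hb =>
    intro F h
    cases F with
    | b a' b' =>
      simp only [key_v, key_m, key_b, key_j, key_s] at h
      obtain ⟨h1, h2⟩ := pr_inj (show pr (key a) (key b) = pr (key a') (key b') by omega)
      rw [ha h1, hb h2]
    | _ => simp only [key_v, key_m, key_b, key_j, key_s] at h; omega
  | j a b ha hb =>
    intro F h
    cases F with
    | j a' b' =>
      simp only [key_v, key_m, key_b, key_j, key_s] at h
      obtain ⟨h1, h2⟩ := pr_inj (show pr (key a) (key b) = pr (key a') (key b') by omega)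
      rw [ha h1, hb h2]
    | _ => simp only [key_v, key_m, key_b, key_j, key_s] at h; omega
  | s a b c ha hb hc =>
    intro F h
    cases F with
    | s a' b' c' =>
      simp only [key_v, key_m, key_b, key_j, key_s] at h
      obtain ⟨h1, h2⟩ := pr_inj (show pr (key a) (pr (key b) (key c)) =
        pr (key a') (pr (key b') (key c')) by omega)
      obtain ⟨h3, h4⟩ := pr_inj h2
      rw [ha h1, hb h3, hc h4]
    | _ => simp only [key_v, key_m, key_b, key_j, key_s] at h; omega

/-- evaluate through keys -/
def kv {M : Type*} [AddCommGroup M] (f : Ex → M) (k : ℕ) : M :=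
  open Classical in if h : ∃ E, key E = k then f h.choose else 0

theorem kv_key {M : Type*} [AddCommGroup M] (f : Ex → M) (E : Ex) : kv f (key E) = f E := by
  have h : ∃ F, key F = key E := ⟨E, rfl⟩
  unfold kv
  rw [dif_pos h]
  rw [key_inj h.choose_spec]

/-- collect a linear combination into a tree -/
def coll (l : LC) (t : BT) : BT :=
  List.rec (motive := fun _ => BT → BT) (fun t => t)
    (fun x _ ih t => ih (frc (key x.2.2) fun k => BT.ins k x.1 x.2.1 t)) l t

theorem ev_coll {M : Type*} [AddCommGroup M] (f : Ex → M) (l : LC) (t : BT) :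
    (coll l t).ev (kv f) = evL f l + t.ev (kv f) := by
  induction l generalizing t with
  | nil => simp [coll]
  | cons x l ih =>
    obtain ⟨a, b, E⟩ := x
    have : coll ((a, b, E) :: l) t = coll l (frc (key E) fun k => BT.ins k a b t) := rfl
    rw [this, ih, frc_eq, BT.ev_ins, kv_key, evL_cons]
    abel

end

end Pool.Agent.H12.Alt
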