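import Pool.Agent.H12.Alt.Tensor

/-! The Grassmann envelope. -/

namespace Pool.Agent.H12.Alt

open TensorProduct

variable {E : Type*} [Ring E] {S : Type*} [NonUnitalNonAssocRing S]

/-- generators of the envelope -/
def envG (C : SuperComm E) (A : SuperAlt S) : Set (TR E S) :=
  {z | ∃ (i : Bool) (g : E) (a : S), g ∈ C.P i ∧ a ∈ A.P i ∧ z = tm g a}

/-- the envelope -/
def env (C : SuperComm E) (A : SuperAlt S) : AddSubgroup (TR E S) :=
  AddSubgroup.closure (envG C A)

theorem tm_mem_env (C : SuperComm E) (A : SuperAlt S) (i : Bool) (g : E) (a : S)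
    (hg : g ∈ C.P i) (ha : a ∈ A.P i) : tm g a ∈ env C A :=
  AddSubgroup.subset_closure ⟨i, g, a, hg, ha, rfl⟩

theorem env_mul (C : SuperComm E) (A : SuperAlt S) {a b : TR E S} (ha : a ∈ env C A)
    (hb : b ∈ env C A) : a * b ∈ env C A := by
  refine bi_mem (AddMonoidHom.mul (R := TR E S)) _ _ _ ?_ ha hb
  rintro _ ⟨i, g, a, hg, ha, rfl⟩ _ ⟨j, h, b, hh, hb, rfl⟩
  rw [AddMonoidHom.mul_apply, tm_mul]
  exact tm_mem_env C A _ _ _ (C.mul_mem _ _ _ _ hg hh) (A.mul_mem _ _ _ _ ha hb)

theorem env_left (C : SuperComm E) (A : SuperAlt S) {a b c : TR E S} (ha : a ∈ env C A)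
    (hb : b ∈ env C A) (hc : c ∈ env C A) : associator a b c + associator b a c = 0 := by
  change (as3 (S := TR E S) + as3l (S := TR E S)) a b c = 0
  refine tri_zero _ _ _ _ ?_ ha hb hc
  rintro _ ⟨i, g, a, hg, ha, rfl⟩ _ ⟨j, h, b, hh, hb, rfl⟩ _ ⟨k, l, c, hl, hc, rfl⟩
  change associator (tm g a) (tm h b) (tm l c) +
      associator (tm h b) (tm g a) (tm l c) = 0
  have e1 := eq_neg_of_add_eq_zero_left (A.left i j k a b c ha hb hc)
  have e2 := C.comm i j g h hg hh
  rw [assoc_tm, assoc_tm, e1, e2, smul_mul_assoc, zsmul_tm,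
    tm_neg, tm_zsmul, smul_neg, smul_smul, sgz_sq, one_smul,
    neg_add_cancel]

theorem env_right (C : SuperComm E) (A : SuperAlt S) {a b c : TR E S} (ha : a ∈ env C A)
    (hb : b ∈ env C A) (hc : c ∈ env C A) : associator a b c + associator a c b = 0 := by
  change (as3 (S := TR E S) + as3r (S := TR E S)) a b c = 0
  refine tri_zero _ _ _ _ ?_ ha hb hc
  rintro _ ⟨i, g, a, hg, ha, rfl⟩ _ ⟨j, h, b, hh, hb, rfl⟩ _ ⟨k, l, c, hl, hc, rfl⟩
  change associator (tm g a) (tm h b) (tm l c) +
      associator (tm g a) (tm l c) (tm h b) = 0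
  have e1 := eq_neg_of_add_eq_zero_left (A.right i j k a b c ha hb hc)
  have e2 := C.comm j k h l hh hl
  rw [assoc_tm, assoc_tm, e1, mul_assoc g h l, e2, mul_smul_comm, ← mul_assoc,
    zsmul_tm, tm_neg, tm_zsmul, smul_neg,
    smul_smul, sgz_sq, one_smul, neg_add_cancel]

theorem env_sq_left (C : SuperComm E) (A : SuperAlt S) (hS : ∀ z : S, (2 : ℤ) • z = 0 → z = 0)
    {a b : TR E S} (ha : a ∈ env C A) (hb : b ∈ env C A) : associator a a b = 0 := by
  induction ha using AddSubgroup.closure_induction with
  | mem x hx =>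
    obtain ⟨i, g, a, hg, ha, rfl⟩ := hx
    have h1 : envG C A ⊆ (as3 (S := TR E S) (tm g a) (tm g a)).ker := by
      rintro _ ⟨k, l, c, hl, hc, rfl⟩
      change associator (tm g a) (tm g a) (tm l c) = 0
      rw [assoc_tm]
      cases i with
      | true => rw [C.odd_sq g hg, zero_mul, zero_tm]
      | false =>
        have e : associator a a c = 0 := by
          apply hS
          have := A.left false false k a a c ha ha hc
          rw [show sgz false false = 1 from rfl, one_smul] at this
          rw [two_smul]; exact this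
        rw [e, tm_zero]
    exact (AddSubgroup.closure_le _).mpr h1 hb
  | zero => exact DFunLike.congr_fun (DFunLike.congr_fun (map_zero (as3 (S := TR E S))) 0) b
  | add x y hx hy h1 h2 =>
    have h3 := env_left C A hx hy hb
    have e : associator (x + y) (x + y) b = associator x x b + associator y y b +
        (associator x y b + associator y x b) := by
      change as3 (x + y) (x + y) b = _
      simp only [map_add, AddMonoidHom.add_apply, as3_apply]
      abel
    rw [e, h1, h2, h3, add_zero, add_zero]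
  | neg x _ h1 =>
    have e : associator (-x) (-x) b = associator x x b := by
      change as3 (-x) (-x) b = _
      simp only [map_neg, AddMonoidHom.neg_apply, as3_apply, neg_neg]
    rw [e, h1]

theorem env_sq_right (C : SuperComm E) (A : SuperAlt S) (hS : ∀ z : S, (2 : ℤ) • z = 0 → z = 0)
    {a b : TR E S} (ha : a ∈ env C A) (hb : b ∈ env C A) : associator b a a = 0 := by
  have e1 := env_right C A hb ha ha
  have h2 := env_left C A hb ha ha
  have h3 := env_right C A ha hb ha
  have h4 := env_sq_left C A hS ha hb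
  have e2 : associator b a a = - associator a b a := eq_neg_of_add_eq_zero_left h2
  have e3 : associator a b a = - associator a a b := eq_neg_of_add_eq_zero_left h3
  rw [e2, e3, h4, neg_zero, neg_zero]

end Pool.Agent.H12.Alt
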