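import Pool.Agent.H12.Alt.ChkA
import Pool.Agent.H12.Alt.ChkB
import Mathlib.Tactic.IntervalCases

/-! The main super identity. -/

namespace Pool.Agent.H12.Alt

variable {S : Type*} [NonUnitalNonAssocRing S]

theorem bl01 : Nat.blt 0 1 = true := rfl
theorem bl02 : Nat.blt 0 2 = true := rfl
theorem bl12 : Nat.blt 1 2 = true := rfl
theorem bl10 : Nat.blt 1 0 = false := rfl
theorem bl20 : Nat.blt 2 0 = false := rfl
theorem bl21 : Nat.blt 2 1 = false := rfl

theorem valid_L (A : SuperAlt S) : Valid A rL (pts 0) := by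
  intro b0 b1 b2 b3 b4 _ u hu
  have h0 := hu 0
  have h1 := hu 1
  have h2 := hu 2
  have := A.left b0 b1 b2 (u 0) (u 1) (u 2) h0 h1 h2
  cases b0 <;> cases b1 <;> cases b2 <;>
    simpa [evL, sgnL, rL, kos, inv1, lvs, pf, val, sgz, sub_eq_add_neg, bl01, bl02, bl12, bl10,
      bl20, bl21] using this

theorem valid_R (A : SuperAlt S) : Valid A rR (pts 1) := by
  intro b0 b1 b2 b3 b4 _ u hu
  have h0 := hu 0
  have h1 := hu 1
  have h2 := hu 2
  have := A.right b0 b1 b2 (u 0) (u 1) (u 2) h0 h1 h2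
  cases b0 <;> cases b1 <;> cases b2 <;>
    simpa [evL, sgnL, rR, kos, inv1, lvs, pf, val, sgz, sub_eq_add_neg, bl01, bl02, bl12, bl10,
      bl20, bl21] using this

theorem valid_step (A : SuperAlt S) (n : ℕ) (h : ∀ i < n, Valid A (ids i) (pts i))
    (h' : Valid A (ids n) (pts n)) : ∀ i < n + 1, Valid A (ids i) (pts i) := by
  intro i hi
  rcases Nat.lt_succ_iff_lt_or_eq.mp hi with h1 | rfl
  · exact h i h1
  · exact h'

theorem valid_all (A : SuperAlt S) : ∀ i < 12, Valid A (ids i) (pts i) := by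
  have h2 : ∀ i < 2, Valid A (ids i) (pts i) := by
    intro i hi
    interval_cases i
    · exact valid_L A
    · exact valid_R A
  have h3 := valid_step A 2 h2 (valid_of_chk1 A ids pts 2 h2 rM1 (pts 2) cM1 k2)
  have h4 := valid_step A 3 h3 (valid_of_chk1 A ids pts 2 h2 rM2 (pts 3) cM2 k3)
  have h5 := valid_step A 4 h4 (valid_of_chk1 A ids pts 2 h2 rF2 (pts 4) cF2 k4)
  have h6 := valid_step A 5 h5 (valid_of_chk1 A ids pts 2 h2 rF3 (pts 5) cF3 k5)
  have h7 := valid_step A 6 h6 (valid_of_chk1 A ids pts 2 h2 rF0 (pts 6) cF0 k6)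
  have h8 := valid_step A 7 h7 (valid_of_chk1 A ids pts 2 h2 rSA (pts 7) cSA k7)
  have h9 := valid_step A 8 h8 (valid_of_chk1 A ids pts 7 h7 rP (pts 8) cP k8)
  have h10 := valid_step A 9 h9 (valid_of_chk1 A ids pts 2 h2 rJ6 (pts 9) cJ6 k9)
  have h11 := valid_step A 10 h10 (valid_of_chk1 A ids pts 10 h10 rPJ (pts 10) cPJ k10)
  exact valid_step A 11 h11 (valid_of_chk1 A ids pts 10 h10 rLJ (pts 11) cLJ k11)

/-- commutator of ring elements, with a plus sign (both factors odd) -/
def cb (a b : S) : S := a * b + b * a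

/-- commutator of ring elements (one factor even) -/
def cm (a b : S) : S := a * b - b * a

/-- The polynomial `3 {Q,[Q,c]} + 4 {[Q,t],[Q,x]} - 2 {[Q,t],[t,c]}` with `Q = [t,t]`, `c = [t,x]`
for `t` odd and `x` even, all brackets being super brackets. -/
def nn (t x : S) : S :=
  (3 : ℤ) • cb (cb t t) (cm (cb t t) (cm t x)) + (4 : ℤ) • cb (cm (cb t t) t) (cm (cb t t) x)
    - (2 : ℤ) • cb (cm (cb t t) t) (cb t (cm t x))

theorem nn_super (A : SuperAlt S) (t s x : S) (ht : t ∈ A.P true) (hs : s ∈ A.P true)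
    (hx : x ∈ A.P false) : (12 : ℤ) • associator (nn t x) s s = 0 := by
  have h := chk_sound A _ (pf true true false false false) (uf t s x 0 0) (fun i => by
    match i with
    | 0 => exact ht
    | 1 => exact hs
    | 2 => exact hx
    | 3 => exact AddSubgroup.zero_mem _
    | _ + 4 => exact AddSubgroup.zero_mem _)
    (fun E => evL_nf2 _ _ E) ids pts 12 (valid_all A) tgt2 cert2 kk
  have e : evL (val (pf true true false false false) (uf t s x 0 0)) tgt2 =
      (36 : ℤ) • associator (cb (cb t t) (cm (cb t t) (cm t x))) s s +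
      ((48 : ℤ) • associator (cb (cm (cb t t) t) (cm (cb t t) x)) s s +
      ((-24 : ℤ) • associator (cb (cm (cb t t) t) (cb t (cm t x))) s s + 0)) := by
    simp only [evL, tgt2, val, par_v, par_b, pf, uf, sgz, Bool.xor_self, Bool.xor_false,
      Bool.xor_true, Bool.not_false, Bool.and_true,
      Bool.and_false, Bool.and_self, cond_true, cond_false, cb, cm, one_smul, neg_smul,
      sub_neg_eq_add]
    norm_num
  rw [e] at h
  rw [← h]
  simp only [nn, associator_apply, add_mul, sub_mul, smul_mul_assoc]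
  module

end Pool.Agent.H12.Alt
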