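import Pool.Agent.H12.Alt.Sp
import Pool.Agent.H12.Alt.Super

/-! An explicit value in the ring of rank 97. -/

namespace Pool.Agent.H12.Alt

noncomputable section

set_option maxRecDepth 1000000

/-- list of a tree, with normalised coefficients -/
def toV (t : BT) : Vc → Vc :=
  BT.rec (fun r => r) (fun _ k p m _ il ir r => il ((Nat.sub p m, Nat.sub m p, k) :: ir r)) t

theorem toV_ev {M : Type*} [AddCommGroup M] (f : ℕ → M) (t : BT) (r : Vc) :
    evV f (toV t r) = t.ev f + evV f r := by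
  induction t generalizing r with
  | e => simp [toV, BT.ev]
  | n l k p m r' ihl ihr =>
    have : toV (.n l k p m r') r = toV l ((Nat.sub p m, Nat.sub m p, k) :: toV r' r) := rfl
    rw [this, ihl, evV_cons, ihr]
    have e : ((Nat.sub p m : ℕ) : ℤ) - ((Nat.sub m p : ℕ) : ℤ) = (p : ℤ) - (m : ℤ) := by
      change (((p - m : ℕ)) : ℤ) - ((m - p : ℕ) : ℤ) = (p : ℤ) - (m : ℤ)
      omega
    rw [e]
    simp only [BT.ev]
    abel

def mulR (c d i : ℕ) (w : Vc) : BT → BT :=
  List.rec (fun t => t) (fun x _ ih t => ih (accV (Nat.add (Nat.mul c x.1) (Nat.mul d x.2.1))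
    (Nat.add (Nat.mul c x.2.1) (Nat.mul d x.1)) (rw' i x.2.2) t)) w

theorem mulR_ev (c d i : ℕ) (w : Vc) (t : BT) :
    (mulR c d i w t).ev bs = ((c : ℤ) - (d : ℤ)) • (bs i * evV bs w) + t.ev bs := by
  induction w generalizing t with
  | nil => simp [mulR, evV]
  | cons x w ih =>
    obtain ⟨p, m, l⟩ := x
    have : mulR c d i ((p, m, l) :: w) t = mulR c d i w (accV (Nat.add (Nat.mul c p) (Nat.mul d m))
      (Nat.add (Nat.mul c m) (Nat.mul d p)) (rw' i l) t) := rfl
    rw [this, ih, ev_accV, evV_cons, mul_add, mul_smul_comm, smul_add, smul_smul, bs_mul]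
    have e : (((Nat.add (Nat.mul c p) (Nat.mul d m) : ℕ) : ℤ) -
      ((Nat.add (Nat.mul c m) (Nat.mul d p) : ℕ) : ℤ)) = ((c : ℤ) - d) * ((p : ℤ) - m) := by
      simp only [Nat.add_eq, Nat.mul_eq, Nat.cast_add, Nat.cast_mul]
      ring
    rw [e]
    abel

def mulT (v w : Vc) : BT → BT :=
  List.rec (fun t => t) (fun x _ ih t => ih (mulR x.1 x.2.1 x.2.2 w t)) v

theorem mulT_ev (v w : Vc) (t : BT) : (mulT v w t).ev bs = evV bs v * evV bs w + t.ev bs := by
  induction v generalizing t with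
  | nil => simp [mulT, evV]
  | cons x v ih =>
    obtain ⟨p, m, l⟩ := x
    have : mulT ((p, m, l) :: v) w t = mulT v w (mulR p m l w t) := rfl
    rw [this, ih, mulR_ev, evV_cons, add_mul, smul_mul_assoc]
    abel

/-- product -/
def mulV (v w : Vc) : Vc := toV (mulT v w .e) []

theorem mulV_spec (v w : Vc) : evV bs (mulV v w) = evV bs v * evV bs w := by
  rw [mulV, toV_ev, mulT_ev]
  simp [BT.ev, evV]

/-- combination `v + (c - d) w` -/
def addV (c d : ℕ) (v w : Vc) : Vc := toV (accV c d w (accV 1 0 v .e)) []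

theorem addV_spec (c d : ℕ) (v w : Vc) :
    evV bs (addV c d v w) = evV bs v + ((c : ℤ) - (d : ℤ)) • evV bs w := by
  rw [addV, toV_ev, ev_accV, ev_accV]
  simp [BT.ev, evV]
  abel

def cbV (v w : Vc) : Vc := addV 1 0 (mulV v w) (mulV w v)
def cmV (v w : Vc) : Vc := addV 0 1 (mulV v w) (mulV w v)

theorem cbV_spec (v w : Vc) : evV bs (cbV v w) = cb (evV bs v) (evV bs w) := by
  rw [cbV, addV_spec, mulV_spec, mulV_spec, cb]
  simp

theorem cmV_spec (v w : Vc) : evV bs (cmV v w) = cm (evV bs v) (evV bs w) := by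
  rw [cmV, addV_spec, mulV_spec, mulV_spec, cm]
  simp [sub_eq_add_neg]

def nnV (t x : Vc) : Vc :=
  addV 0 2 (addV 4 0 (addV 3 0 [] (cbV (cbV t t) (cmV (cbV t t) (cmV t x))))
    (cbV (cmV (cbV t t) t) (cmV (cbV t t) x))) (cbV (cmV (cbV t t) t) (cbV t (cmV t x)))

theorem nnV_spec (v w : Vc) : evV bs (nnV v w) = nn (evV bs v) (evV bs w) := by
  simp only [nnV, addV_spec, cbV_spec, cmV_spec, nn]
  simp [evV, sub_eq_add_neg]

def asV (u v w : Vc) : Vc := addV 0 1 (mulV (mulV u v) w) (mulV u (mulV v w))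

theorem asV_spec (u v w : Vc) :
    evV bs (asV u v w) = associator (evV bs u) (evV bs v) (evV bs w) := by
  rw [asV, addV_spec, mulV_spec, mulV_spec, mulV_spec, mulV_spec, associator_apply]
  simp [sub_eq_add_neg]

def vt : Vc := [(1, 0, 0)]
def vx : Vc := [(1, 0, 21)]

theorem vt_spec : evV bs vt = bs 0 := by simp [vt, evV]
theorem vx_spec : evV bs vx = bs 21 := by simp [vx, evV]

theorem val_chk : BT.z (accV 1 0 (asV (mulV (cmV (nnV vt vx) vx) vt) vt vt)
    (.n .e 96 0 96 .e)) = true := by decide +kernel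

theorem val_eq : associator (cm (nn (bs 0) (bs 21)) (bs 21) * bs 0) (bs 0) (bs 0) =
    (96 : ℤ) • bs 96 := by
  have h := BT.z_ev bs _ val_chk
  rw [ev_accV, asV_spec, mulV_spec, cmV_spec, nnV_spec, vt_spec, vx_spec] at h
  simp only [BT.ev, Nat.cast_one, Nat.cast_zero, sub_zero, one_smul, zero_add, add_zero,
    Nat.cast_ofNat, zero_sub, neg_smul] at h
  exact eq_of_sub_eq_zero (by rw [sub_eq_add_neg]; exact h)

theorem odd_0 : odd 0 = true := by decide +kernel
theorem odd_21 : odd 21 = false := by decide +kernel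

end

end Pool.Agent.H12.Alt
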