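import Pool.Agent.H12.Alt.Nuc
import Pool.Agent.H12.Alt.SpVal

/-! Evaluation of the nuclear element in tensor products. -/

namespace Pool.Agent.H12.Alt

open TensorProduct

noncomputable section

theorem nn_map {S T : Type*} [NonUnitalNonAssocRing S] [NonUnitalNonAssocRing T] (φ : S →+ T)
    (h : ∀ a b, φ (a * b) = φ a * φ b) (t x : S) : φ (nn t x) = nn (φ t) (φ x) := by
  simp only [nn, cb, cm, map_add, map_sub, map_zsmul, h]

section
variable {A B : Type*} [NonUnitalNonAssocRing A] [NonUnitalNonAssocRing B]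

/-- functoriality of the tensor product -/
def mapT (ψ : A →ₙ+* B) : TR E7 A →+ TR E7 B :=
  trLift
    { toFun := fun g => (tmH g).comp (ψ : A →+ B)
      map_zero' := by ext a; exact zero_tm _
      map_add' := fun g h => by ext a; exact add_tm _ _ _ }

theorem mapT_tm (ψ : A →ₙ+* B) (g : E7) (a : A) : mapT ψ (tm g a) = tm g (ψ a) := rfl

theorem mapT_mul (ψ : A →ₙ+* B) (u v : TR E7 A) : mapT ψ (u * v) = mapT ψ u * mapT ψ v := by
  induction u using tr_ind with
  | h1 g a =>
    induction v using tr_ind with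
    | h1 h b => rw [tm_mul, mapT_tm, mapT_tm, mapT_tm, tm_mul, map_mul]
    | h2 v w hv hw => rw [mul_add, map_add, map_add, mul_add, hv, hw]
  | h2 u w hu hw => rw [add_mul, map_add, map_add, add_mul, hu, hw]

theorem ctr_map (ψ : A →ₙ+* B) (f : E7 →+ ℤ) (u : TR E7 A) :
    ψ (ctr A f u) = ctr B f (mapT ψ u) := by
  induction u using tr_ind with
  | h1 g a => rw [ctr_tm, mapT_tm, ctr_tm, map_zsmul]
  | h2 u w hu hw => rw [map_add, map_add, map_add, map_add, hu, hw]

theorem nuc_map (ψ : A →ₙ+* B) (X : Fin 5 → A) (Y : A) :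
    ψ (nuc X Y) = nuc (fun i => ψ (X i)) (ψ Y) := by
  have e1 : mapT ψ (nn (tt X) (xx Y)) = nn (mapT ψ (tt X)) (mapT ψ (xx Y)) :=
    nn_map (mapT ψ) (mapT_mul ψ) _ _
  have e2 : mapT ψ (tt X) = tt (fun i => ψ (X i)) := by simp only [tt, map_sum, mapT_tm]
  have e3 : mapT ψ (xx Y) = xx (ψ Y) := by simp only [xx, mapT_tm]
  rw [nuc, ctr_map, e1, e2, e3, nuc]

end

section
variable {E : Type*} [Ring E] {S : Type*} [NonUnitalNonAssocRing S]

/-- reassociation, on pure tensors of the first factor -/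
def asc0 (g : E7) (h : E) : S →+ TR E7 (TR E S) := (tmH g).comp (tmH h)

/-- pure tensor of rings -/
def asc1 (E S : Type*) [Ring E] [NonUnitalNonAssocRing S] :
    (E7 ⊗[ℤ] E) →+ S →+ TR E7 (TR E S) :=
  TensorProduct.liftAddHom (R := ℤ)
    { toFun := fun g =>
        { toFun := fun h => asc0 g h
          map_zero' := by ext v; change tm g (tm (0 : E) v) = 0; rw [zero_tm, tm_zero]
          map_add' := fun h k => by
            ext v
            change tm g (tm (h + k) v) = tm g (tm h v) + tm g (tm k v)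
            rw [add_tm, tm_add] }
      map_zero' := by ext h v; change tm (0 : E7) (tm h v) = 0; rw [zero_tm]
      map_add' := fun g k => by
        ext h v
        change tm (g + k) (tm h v) = tm g (tm h v) + tm k (tm h v)
        rw [add_tm] }
    (fun r g h => by
      ext v
      change tm (r • g) (tm h v) = tm g (tm (r • h) v)
      rw [zsmul_tm, zsmul_tm, tm_zsmul])

/-- reassociation -/
def asc (E S : Type*) [Ring E] [NonUnitalNonAssocRing S] :
    TR (E7 ⊗[ℤ] E) S →+ TR E7 (TR E S) := trLift (asc1 E S)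

theorem asc_tm (g : E7) (h : E) (v : S) :
    asc E S (tm (g ⊗ₜ[ℤ] h) v) = tm g (tm h v) := rfl

theorem asc_mul (u v : TR (E7 ⊗[ℤ] E) S) : asc E S (u * v) = asc E S u * asc E S v := by
  have h1 : ∀ (w w' : E7 ⊗[ℤ] E) (a b : S), asc E S (tm w a * tm w' b) =
      asc E S (tm w a) * asc E S (tm w' b) := by
    intro w w' a b
    induction w using TensorProduct.induction_on with
    | zero => rw [zero_tm, zero_mul, map_zero, zero_mul]
    | tmul g h =>
      induction w' using TensorProduct.induction_on with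
      | zero => rw [zero_tm, mul_zero, map_zero, mul_zero]
      | tmul g' h' =>
        rw [tm_mul, Algebra.TensorProduct.tmul_mul_tmul, asc_tm, asc_tm, asc_tm, tm_mul, tm_mul]
      | add v w hv hw => rw [add_tm, mul_add, map_add, map_add, mul_add, hv, hw]
    | add v w hv hw => rw [add_tm, add_mul, map_add, map_add, add_mul, hv, hw]
  induction u using tr_ind with
  | h1 w a =>
    induction v using tr_ind with
    | h1 w' b => exact h1 w w' a b
    | h2 v w hv hw => rw [mul_add, map_add, map_add, mul_add, hv, hw]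
  | h2 u w hu hw => rw [add_mul, map_add, map_add, add_mul, hu, hw]

/-- contraction of the first factor -/
def ctrE (E : Type*) [Ring E] (f : E7 →+ ℤ) : E7 ⊗[ℤ] E →+ E :=
  TensorProduct.liftAddHom (R := ℤ) ((smulAddHom ℤ E).comp f) (fun r g h => by
    change f (r • g) • h = f g • (r • h)
    rw [map_zsmul, smul_eq_mul, mul_comm, mul_smul])

theorem ctrE_tmul (f : E7 →+ ℤ) (g : E7) (h : E) : ctrE E f (g ⊗ₜ[ℤ] h) = f g • h := rfl

theorem ctr_asc (f : E7 →+ ℤ) (w : E7 ⊗[ℤ] E) (v : S) :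
    ctr (TR E S) f (asc E S (tm w v)) = tm (ctrE E f w) v := by
  induction w using TensorProduct.induction_on with
  | zero => rw [zero_tm, map_zero, map_zero, map_zero, zero_tm]
  | tmul g h => rw [asc_tm, ctr_tm, ctrE_tmul, zsmul_tm]
  | add v w hv hw => rw [add_tm, map_add, map_add, map_add, add_tm, hv, hw]

end

section
variable {R : Type*} [Ring R] {S : Type*} [NonUnitalNonAssocRing S]

theorem cb_tm (θ : R) (m n : ℕ) (a b : S) :
    cb (tm (θ ^ m) a) (tm (θ ^ n) b) = tm (θ ^ (m + n)) (cb a b) := by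
  simp only [cb, tm_mul, ← pow_add, tm_add, Nat.add_comm n m]

theorem cm_tm (θ : R) (m n : ℕ) (a b : S) :
    cm (tm (θ ^ m) a) (tm (θ ^ n) b) = tm (θ ^ (m + n)) (cm a b) := by
  simp only [cm, tm_mul, ← pow_add, tm_sub, Nat.add_comm n m]

theorem nn_tm (θ : R) (t x : S) :
    nn (tm θ t) (tm (1 : R) x) = tm (θ ^ 5) (nn t x) := by
  have e1 : tm θ t = tm (θ ^ 1) t := by rw [pow_one]
  have e2 : tm (1 : R) x = tm (θ ^ 0) x := by rw [pow_zero]
  rw [nn, e1, e2]
  simp only [cb_tm, cm_tm, nn, tm_add, tm_sub, tm_zsmul]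

theorem add_pow_sq (a b : R) (h : Commute a b) (hb : b * b = 0) (n : ℕ) :
    (a + b) ^ (n + 1) = a ^ (n + 1) + ((n + 1 : ℕ) : R) * (a ^ n * b) := by
  induction n with
  | zero => simp
  | succ n ih =>
    rw [pow_succ, ih]
    have e1 : a ^ n * b * a = a ^ (n + 1) * b := by
      rw [mul_assoc, ← h.eq, ← mul_assoc, pow_succ]
    have e2 : a ^ n * b * b = 0 := by rw [mul_assoc, hb, mul_zero]
    calc (a ^ (n + 1) + ((n + 1 : ℕ) : R) * (a ^ n * b)) * (a + b)
        = a ^ (n + 1) * a + a ^ (n + 1) * b + (((n + 1 : ℕ) : R) * (a ^ n * b * a) +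
          ((n + 1 : ℕ) : R) * (a ^ n * b * b)) := by noncomm_ring
      _ = _ := by
        rw [e1, e2, mul_zero, add_zero]
        push_cast
        rw [← pow_succ]
        noncomm_ring

/-- fifth power of a sum of five commuting elements of square zero -/
theorem sum_pow_five (a : Fin 5 → R) (hc : ∀ i j, Commute (a i) (a j))
    (hs : ∀ i, a i * a i = 0) :
    (∑ i, a i) ^ 5 = 120 * (a 0 * a 1 * a 2 * a 3 * a 4) := by
  have hc2 : Commute (a 0 + a 1) (a 2) := (hc 0 2).add_left (hc 1 2)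
  have hc3 : Commute (a 0 + a 1 + a 2) (a 3) := ((hc 0 3).add_left (hc 1 3)).add_left (hc 2 3)
  have hc4 : Commute (a 0 + a 1 + a 2 + a 3) (a 4) :=
    (((hc 0 4).add_left (hc 1 4)).add_left (hc 2 4)).add_left (hc 3 4)
  have p2 : a 0 ^ 2 = 0 := by rw [pow_two]; exact hs 0
  have q2 : (a 0 + a 1) ^ 2 = 2 * (a 0 * a 1) := by
    rw [add_pow_sq _ _ (hc 0 1) (hs 1) 1, p2]; norm_num
  have q3 : (a 0 + a 1) ^ 3 = 0 := by
    rw [add_pow_sq _ _ (hc 0 1) (hs 1) 2, p2, pow_succ, p2]; simp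
  have r3 : (a 0 + a 1 + a 2) ^ 3 = 6 * (a 0 * a 1 * a 2) := by
    rw [add_pow_sq _ _ hc2 (hs 2) 2, q3, q2]; norm_num; noncomm_ring
  have r4 : (a 0 + a 1 + a 2) ^ 4 = 0 := by
    rw [add_pow_sq _ _ hc2 (hs 2) 3, pow_succ, q3]; simp
  have s4 : (a 0 + a 1 + a 2 + a 3) ^ 4 = 24 * (a 0 * a 1 * a 2 * a 3) := by
    rw [add_pow_sq _ _ hc3 (hs 3) 3, r4, r3]; norm_num; noncomm_ring
  have s5 : (a 0 + a 1 + a 2 + a 3) ^ 5 = 0 := by
    rw [add_pow_sq _ _ hc3 (hs 3) 4, pow_succ, r4]; simp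
  rw [Fin.sum_univ_five, add_pow_sq _ _ hc4 (hs 4) 4, s5, s4]
  norm_num
  noncomm_ring

end

end

end Pool.Agent.H12.Alt
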