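import Pool.Agent.H12.Alt.Tensor
import Mathlib.LinearAlgebra.ExteriorAlgebra.Basic

/-! The exterior algebra is supercommutative. -/

namespace Pool.Agent.H12.Alt

section ext
variable (R : Type*) [CommRing R] (M : Type*) [AddCommGroup M] [Module R M]

def lpar {M : Type*} : List M → Bool
  | [] => false
  | _ :: t => !(lpar t)

theorem lpar_append {M : Type*} (l k : List M) : lpar (l ++ k) = xor (lpar l) (lpar k) := by
  induction l with
  | nil => simp [lpar]
  | cons a t ih => simp only [List.cons_append, lpar, ih]; cases lpar t <;> cases lpar k <;> rfl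

/-- product of a list of vectors in the exterior algebra -/
noncomputable def lp (l : List M) : ExteriorAlgebra R M := (l.map (ExteriorAlgebra.ι R)).prod

theorem lp_nil : lp R M [] = 1 := rfl
theorem lp_cons (v : M) (t : List M) : lp R M (v :: t) = ExteriorAlgebra.ι R v * lp R M t := by
  simp [lp]
theorem lp_append (l k : List M) : lp R M (l ++ k) = lp R M l * lp R M k := by
  simp [lp]

theorem ι_swap (v w : M) : ExteriorAlgebra.ι R v * ExteriorAlgebra.ι R w =
    - (ExteriorAlgebra.ι R w * ExteriorAlgebra.ι R v) := by
  have := ExteriorAlgebra.ι_add_mul_swap (R := R) v w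
  exact eq_neg_of_add_eq_zero_left this

theorem ι_lp (v : M) (l : List M) :
    ExteriorAlgebra.ι R v * lp R M l = sgz true (lpar l) • (lp R M l * ExteriorAlgebra.ι R v) := by
  induction l with
  | nil => simp [lp_nil, lpar, sgz]
  | cons w t ih =>
    rw [lp_cons, ← mul_assoc, ι_swap, neg_mul, mul_assoc, ih, mul_smul_comm, mul_assoc]
    have : sgz true (lpar (w :: t)) = - sgz true (lpar t) := by
      simp only [lpar]; cases lpar t <;> rfl
    rw [this, neg_smul]

theorem lp_lp (l k : List M) :
    lp R M l * lp R M k = sgz (lpar l) (lpar k) • (lp R M k * lp R M l) := by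
  induction l with
  | nil => simp [lp_nil, lpar, sgz]
  | cons v t ih =>
    rw [lp_cons, mul_assoc, ih, mul_smul_comm, ← mul_assoc, ι_lp, smul_mul_assoc, smul_smul,
      mul_assoc]
    congr 1
    simp only [lpar]
    cases lpar t <;> cases lpar k <;> rfl

/-- homogeneous parts of the exterior algebra -/
def eP (i : Bool) : Submodule R (ExteriorAlgebra R M) :=
  Submodule.span R {g | ∃ l : List M, lpar l = i ∧ g = lp R M l}

theorem lp_mem (l : List M) : lp R M l ∈ eP R M (lpar l) := Submodule.subset_span ⟨l, rfl, rfl⟩

theorem ι_mem (v : M) : ExteriorAlgebra.ι R v ∈ eP R M true := by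
  have := lp_mem R M [v]
  simpa [lp, lpar] using this

theorem one_mem_eP : (1 : ExteriorAlgebra R M) ∈ eP R M false := lp_mem R M []

theorem eP_mul (i j : Bool) (a b : ExteriorAlgebra R M) (ha : a ∈ eP R M i) (hb : b ∈ eP R M j) :
    a * b ∈ eP R M (xor i j) := by
  induction ha using Submodule.span_induction with
  | mem x hx =>
    obtain ⟨l, hl, rfl⟩ := hx
    induction hb using Submodule.span_induction with
    | mem y hy =>
      obtain ⟨k, hk, rfl⟩ := hy
      rw [← lp_append, ← hl, ← hk, ← lpar_append]
      exact lp_mem R M _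
    | zero => rw [mul_zero]; exact Submodule.zero_mem _
    | add y z _ _ hy hz => rw [mul_add]; exact Submodule.add_mem _ hy hz
    | smul r y _ hy => rw [mul_smul_comm]; exact Submodule.smul_mem _ _ hy
  | zero => rw [zero_mul]; exact Submodule.zero_mem _
  | add y z _ _ hy hz => rw [add_mul]; exact Submodule.add_mem _ hy hz
  | smul r y _ hy => rw [smul_mul_assoc]; exact Submodule.smul_mem _ _ hy

theorem eP_comm (i j : Bool) (a b : ExteriorAlgebra R M) (ha : a ∈ eP R M i) (hb : b ∈ eP R M j) :
    a * b = sgz i j • (b * a) := by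
  induction ha using Submodule.span_induction with
  | mem x hx =>
    obtain ⟨l, hl, rfl⟩ := hx
    induction hb using Submodule.span_induction with
    | mem y hy =>
      obtain ⟨k, hk, rfl⟩ := hy
      rw [lp_lp, hl, hk]
    | zero => rw [mul_zero, zero_mul, smul_zero]
    | add y z _ _ hy hz => rw [mul_add, add_mul, hy, hz, smul_add]
    | smul r y _ hy => rw [mul_smul_comm, smul_mul_assoc, hy, smul_comm]
  | zero => rw [mul_zero, zero_mul, smul_zero]
  | add y z _ _ hy hz => rw [mul_add, add_mul, hy, hz, smul_add]
  | smul r y _ hy => rw [mul_smul_comm, smul_mul_assoc, hy, smul_comm]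

theorem eP_sq (a : ExteriorAlgebra R M) (ha : a ∈ eP R M true) : a * a = 0 := by
  induction ha using Submodule.span_induction with
  | mem x hx =>
    obtain ⟨l, hl, rfl⟩ := hx
    match l, hl with
    | v :: t, hl =>
      have ht : lpar t = false := by simpa [lpar] using hl
      have h1 := ι_lp R M v t
      rw [ht] at h1
      have h2 : ExteriorAlgebra.ι R v * lp R M t = lp R M t * ExteriorAlgebra.ι R v := by
        simpa [sgz] using h1
      rw [lp_cons]
      nth_rewrite 1 [h2]
      rw [mul_assoc, ← mul_assoc (ExteriorAlgebra.ι R v) (ExteriorAlgebra.ι R v),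
        ExteriorAlgebra.ι_sq_zero, zero_mul, mul_zero]
  | zero => rw [zero_mul]
  | add y z hy hz h1 h2 =>
    have h3 := eP_comm R M true true y z hy hz
    have h4 : y * z = - (z * y) := by simpa [sgz] using h3
    rw [mul_add, add_mul, add_mul, h1, h2, h4]
    simp
  | smul r y _ hy => rw [mul_smul_comm, smul_mul_assoc, hy, smul_zero, smul_zero]

/-- the exterior algebra as a supercommutative ring -/
noncomputable def extComm : SuperComm (ExteriorAlgebra R M) where
  P i := (eP R M i).toAddSubgroup
  mul_mem := eP_mul R M
  comm := eP_comm R M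
  odd_sq := eP_sq R M

end ext

end Pool.Agent.H12.Alt
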