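import Pool.Agent.H12.Alt.Cert

/-! Identity data. -/

namespace Pool.Agent.H12.Alt

def rL : LC := [(1, 0, (.s (.v 0) (.v 1) (.v 2))), (1, 0, (.s (.v 1) (.v 0) (.v 2)))]
def rR : LC := [(1, 0, (.s (.v 0) (.v 1) (.v 2))), (1, 0, (.s (.v 0) (.v 2) (.v 1)))]
def rM1 : LC := [(1, 0, (.s (.v 0) (.m (.v 1) (.v 2)) (.v 3))), (1, 0, (.s (.v 1) (.m (.v 0) (.v 2)) (.v 3))), (0, 1, (.m (.s (.v 0) (.v 2) (.v 3)) (.v 1))), (0, 1, (.m (.s (.v 1) (.v 2) (.v 3)) (.v 0)))]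
def rM2 : LC := [(1, 0, (.s (.v 2) (.m (.v 3) (.v 0)) (.v 1))), (1, 0, (.s (.v 2) (.m (.v 3) (.v 1)) (.v 0))), (0, 1, (.m (.v 0) (.s (.v 1) (.v 2) (.v 3)))), (0, 1, (.m (.v 1) (.s (.v 0) (.v 2) (.v 3))))]
def rF2 : LC := [(1, 0, (.s (.m (.v 0) (.v 1)) (.v 2) (.v 3))), (0, 1, (.m (.v 1) (.s (.v 0) (.v 2) (.v 3)))), (0, 1, (.m (.s (.v 1) (.v 2) (.v 3)) (.v 0))), (0, 1, (.s (.m (.v 2) (.v 3)) (.v 0) (.v 1))), (1, 0, (.m (.v 3) (.s (.v 2) (.v 0) (.v 1)))), (1, 0, (.m (.s (.v 3) (.v 0) (.v 1)) (.v 2)))]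
def rF3 : LC := [(1, 0, (.s (.m (.v 0) (.v 1)) (.v 2) (.v 3))), (0, 1, (.m (.v 1) (.s (.v 0) (.v 2) (.v 3)))), (0, 1, (.m (.s (.v 1) (.v 2) (.v 3)) (.v 0))), (1, 0, (.s (.m (.v 0) (.v 2)) (.v 1) (.v 3))), (0, 1, (.m (.v 2) (.s (.v 0) (.v 1) (.v 3)))), (0, 1, (.m (.s (.v 2) (.v 1) (.v 3)) (.v 0)))]
def rF0 : LC := [(1, 0, (.s (.j (.v 0) (.v 1)) (.v 2) (.v 3))), (0, 1, (.j (.v 0) (.s (.v 1) (.v 2) (.v 3)))), (0, 1, (.j (.v 1) (.s (.v 0) (.v 2) (.v 3))))]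
def rSA : LC := [(1, 0, (.b (.b (.v 0) (.v 2)) (.b (.v 1) (.v 3)))), (0, 1, (.b (.b (.b (.v 0) (.v 1)) (.v 2)) (.v 3))), (0, 1, (.b (.b (.b (.v 1) (.v 2)) (.v 3)) (.v 0))), (0, 1, (.b (.b (.b (.v 2) (.v 3)) (.v 0)) (.v 1))), (0, 1, (.b (.b (.b (.v 3) (.v 0)) (.v 1)) (.v 2)))]
def rP : LC := [(2, 0, (.j (.b (.v 0) (.v 2)) (.s (.v 1) (.v 3) (.v 4)))), (2, 0, (.j (.b (.v 0) (.v 3)) (.s (.v 1) (.v 2) (.v 4)))), (2, 0, (.j (.b (.v 1) (.v 2)) (.s (.v 0) (.v 3) (.v 4)))), (2, 0, (.j (.b (.v 1) (.v 3)) (.s (.v 0) (.v 2) (.v 4))))]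
def rJ6 : LC := [(6, 0, (.s (.v 0) (.v 1) (.v 2))), (0, 1, (.b (.b (.v 0) (.v 1)) (.v 2))), (0, 1, (.b (.b (.v 1) (.v 2)) (.v 0))), (0, 1, (.b (.b (.v 2) (.v 0)) (.v 1)))]
def rPJ : LC := [(2, 0, (.j (.b (.v 0) (.v 2)) (.b (.b (.v 1) (.v 3)) (.v 4)))), (2, 0, (.j (.b (.v 0) (.v 2)) (.b (.b (.v 3) (.v 4)) (.v 1)))), (2, 0, (.j (.b (.v 0) (.v 2)) (.b (.b (.v 4) (.v 1)) (.v 3)))), (2, 0, (.j (.b (.v 0) (.v 3)) (.b (.b (.v 1) (.v 2)) (.v 4)))), (2, 0, (.j (.b (.v 0) (.v 3)) (.b (.b (.v 2) (.v 4)) (.v 1)))), (2, 0, (.j (.b (.v 0) (.v 3)) (.b (.b (.v 4) (.v 1)) (.v 2)))), (2, 0, (.j (.b (.v 1) (.v 2)) (.b (.b (.v 0) (.v 3)) (.v 4)))), (2, 0, (.j (.b (.v 1) (.v 2)) (.b (.b (.v 3) (.v 4)) (.v 0)))), (2, 0, (.j (.b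 (.v 1) (.v 2)) (.b (.b (.v 4) (.v 0)) (.v 3)))), (2, 0, (.j (.b (.v 1) (.v 3)) (.b (.b (.v 0) (.v 2)) (.v 4)))), (2, 0, (.j (.b (.v 1) (.v 3)) (.b (.b (.v 2) (.v 4)) (.v 0)))), (2, 0, (.j (.b (.v 1) (.v 3)) (.b (.b (.v 4) (.v 0)) (.v 2))))]
def rLJ : LC := [(6, 0, (.s (.j (.v 0) (.v 1)) (.v 2) (.v 3))), (0, 1, (.j (.v 0) (.b (.b (.v 1) (.v 2)) (.v 3)))), (0, 1, (.j (.v 0) (.b (.b (.v 2) (.v 3)) (.v 1)))), (0, 1, (.j (.v 0) (.b (.b (.v 3) (.v 1)) (.v 2)))), (0, 1, (.j (.v 1) (.b (.b (.v 0) (.v 2)) (.v 3)))), (0, 1, (.j (.v 1) (.b (.b (.v 2) (.v 3)) (.v 0)))), (0, 1, (.j (.v 1) (.b (.b (.v 3) (.v 0)) (.v 2))))]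

def ids : ℕ → LC
  | 0 => rL
  | 1 => rR
  | 2 => rM1
  | 3 => rM2
  | 4 => rF2
  | 5 => rF3
  | 6 => rF0
  | 7 => rSA
  | 8 => rP
  | 9 => rJ6
  | 10 => rPJ
  | _ => rLJ

def cM1 : List It := [⟨1, 0, [], 1, (.m (.v 2) (.v 1)), (.v 0), (.v 3), (.m (.v 0) (.v 0)), (.m (.v 0) (.v 0))⟩,
  ⟨0, 1, [.mr (.v 3)], 1, (.v 0), (.v 1), (.v 2), (.m (.v 0) (.v 0)), (.m (.v 0) (.v 0))⟩,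
  ⟨0, 1, [], 0, (.m (.v 2) (.v 3)), (.v 0), (.v 1), (.m (.v 0) (.v 0)), (.m (.v 0) (.v 0))⟩,
  ⟨1, 0, [], 0, (.v 0), (.v 2), (.m (.v 1) (.v 3)), (.m (.v 0) (.v 0)), (.m (.v 0) (.v 0))⟩,
  ⟨1, 0, [], 1, (.v 2), (.m (.v 3) (.v 0)), (.v 1), (.m (.v 0) (.v 0)), (.m (.v 0) (.v 0))⟩,
  ⟨0, 1, [], 1, (.v 2), (.m (.v 0) (.v 1)), (.v 3), (.m (.v 0) (.v 0)), (.m (.v 0) (.v 0))⟩,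
  ⟨0, 1, [.mr (.v 0)], 0, (.v 1), (.v 2), (.v 3), (.m (.v 0) (.v 0)), (.m (.v 0) (.v 0))⟩,
  ⟨0, 1, [.mr (.v 1)], 0, (.v 0), (.v 2), (.v 3), (.m (.v 0) (.v 0)), (.m (.v 0) (.v 0))⟩,
  ⟨1, 0, [], 0, (.m (.v 0) (.v 2)), (.v 1), (.v 3), (.m (.v 0) (.v 0)), (.m (.v 0) (.v 0))⟩,
  ⟨1, 0, [.mr (.v 1)], 1, (.v 2), (.v 0), (.v 3), (.m (.v 0) (.v 0)), (.m (.v 0) (.v 0))⟩,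
  ⟨1, 0, [], 0, (.m (.v 0) (.v 1)), (.v 2), (.v 3), (.m (.v 0) (.v 0)), (.m (.v 0) (.v 0))⟩,
  ⟨0, 1, [.ml (.v 0)], 0, (.v 1), (.v 2), (.v 3), (.m (.v 0) (.v 0)), (.m (.v 0) (.v 0))⟩,
  ⟨1, 0, [], 1, (.v 0), (.m (.v 2) (.v 3)), (.v 1), (.m (.v 0) (.v 0)), (.m (.v 0) (.v 0))⟩,
  ⟨0, 1, [.ml (.v 2)], 0, (.v 1), (.v 3), (.v 0), (.m (.v 0) (.v 0)), (.m (.v 0) (.v 0))⟩,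
  ⟨0, 1, [], 0, (.m (.v 2) (.v 1)), (.v 0), (.v 3), (.m (.v 0) (.v 0)), (.m (.v 0) (.v 0))⟩,
  ⟨1, 0, [.ml (.v 2)], 1, (.v 3), (.v 0), (.v 1), (.m (.v 0) (.v 0)), (.m (.v 0) (.v 0))⟩,
  ⟨0, 1, [], 1, (.v 2), (.m (.v 1) (.v 3)), (.v 0), (.m (.v 0) (.v 0)), (.m (.v 0) (.v 0))⟩]
def cM2 : List It := [⟨0, 1, [.ml (.v 1)], 0, (.v 0), (.v 2), (.v 3), (.m (.v 0) (.v 0)), (.m (.v 0) (.v 0))⟩,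
  ⟨1, 0, [.mr (.v 3)], 0, (.v 0), (.v 1), (.v 2), (.m (.v 0) (.v 0)), (.m (.v 0) (.v 0))⟩,
  ⟨1, 0, [], 1, (.m (.v 2) (.v 0)), (.v 1), (.v 3), (.m (.v 0) (.v 0)), (.m (.v 0) (.v 0))⟩,
  ⟨0, 1, [], 0, (.m (.v 2) (.v 0)), (.v 1), (.v 3), (.m (.v 0) (.v 0)), (.m (.v 0) (.v 0))⟩,
  ⟨0, 1, [], 1, (.v 0), (.m (.v 2) (.v 3)), (.v 1), (.m (.v 0) (.v 0)), (.m (.v 0) (.v 0))⟩,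
  ⟨1, 0, [], 0, (.v 1), (.v 2), (.m (.v 0) (.v 3)), (.m (.v 0) (.v 0)), (.m (.v 0) (.v 0))⟩,
  ⟨0, 1, [], 0, (.m (.v 0) (.v 1)), (.v 2), (.v 3), (.m (.v 0) (.v 0)), (.m (.v 0) (.v 0))⟩,
  ⟨0, 1, [], 1, (.v 2), (.m (.v 0) (.v 3)), (.v 1), (.m (.v 0) (.v 0)), (.m (.v 0) (.v 0))⟩,
  ⟨0, 1, [.ml (.v 2)], 0, (.v 0), (.v 3), (.v 1), (.m (.v 0) (.v 0)), (.m (.v 0) (.v 0))⟩,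
  ⟨0, 1, [.mr (.v 3)], 1, (.v 1), (.v 0), (.v 2), (.m (.v 0) (.v 0)), (.m (.v 0) (.v 0))⟩,
  ⟨1, 0, [], 0, (.m (.v 1) (.v 2)), (.v 0), (.v 3), (.m (.v 0) (.v 0)), (.m (.v 0) (.v 0))⟩,
  ⟨0, 1, [.mr (.v 1)], 1, (.v 2), (.v 0), (.v 3), (.m (.v 0) (.v 0)), (.m (.v 0) (.v 0))⟩,
  ⟨1, 0, [], 1, (.v 2), (.m (.v 0) (.v 1)), (.v 3), (.m (.v 0) (.v 0)), (.m (.v 0) (.v 0))⟩,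
  ⟨1, 0, [], 1, (.v 2), (.m (.v 3) (.v 1)), (.v 0), (.m (.v 0) (.v 0)), (.m (.v 0) (.v 0))⟩,
  ⟨1, 0, [], 0, (.m (.v 2) (.v 3)), (.v 0), (.v 1), (.m (.v 0) (.v 0)), (.m (.v 0) (.v 0))⟩]
def cF2 : List It := [⟨0, 1, [], 0, (.m (.v 1) (.v 2)), (.v 3), (.v 0), (.m (.v 0) (.v 0)), (.m (.v 0) (.v 0))⟩,
  ⟨0, 1, [.ml (.v 1)], 0, (.v 0), (.v 2), (.v 3), (.m (.v 0) (.v 0)), (.m (.v 0) (.v 0))⟩,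
  ⟨1, 0, [], 0, (.m (.v 3) (.v 0)), (.v 1), (.v 2), (.m (.v 0) (.v 0)), (.m (.v 0) (.v 0))⟩,
  ⟨1, 0, [], 0, (.m (.v 2) (.v 3)), (.v 1), (.v 0), (.m (.v 0) (.v 0)), (.m (.v 0) (.v 0))⟩,
  ⟨1, 0, [.ml (.v 3)], 0, (.v 0), (.v 2), (.v 1), (.m (.v 0) (.v 0)), (.m (.v 0) (.v 0))⟩,
  ⟨0, 1, [], 0, (.m (.v 0) (.v 1)), (.v 3), (.v 2), (.m (.v 0) (.v 0)), (.m (.v 0) (.v 0))⟩,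
  ⟨1, 0, [], 1, (.m (.v 0) (.v 1)), (.v 2), (.v 3), (.m (.v 0) (.v 0)), (.m (.v 0) (.v 0))⟩,
  ⟨0, 1, [], 1, (.v 1), (.m (.v 3) (.v 0)), (.v 2), (.m (.v 0) (.v 0)), (.m (.v 0) (.v 0))⟩,
  ⟨1, 0, [.ml (.v 1)], 1, (.v 2), (.v 0), (.v 3), (.m (.v 0) (.v 0)), (.m (.v 0) (.v 0))⟩,
  ⟨0, 1, [], 1, (.m (.v 2) (.v 3)), (.v 0), (.v 1), (.m (.v 0) (.v 0)), (.m (.v 0) (.v 0))⟩,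
  ⟨0, 1, [.ml (.v 3)], 1, (.v 0), (.v 1), (.v 2), (.m (.v 0) (.v 0)), (.m (.v 0) (.v 0))⟩,
  ⟨1, 0, [], 1, (.v 3), (.m (.v 1) (.v 2)), (.v 0), (.m (.v 0) (.v 0)), (.m (.v 0) (.v 0))⟩]
def cF3 : List It := [⟨0, 1, [], 1, (.m (.v 2) (.v 1)), (.v 0), (.v 3), (.m (.v 0) (.v 0)), (.m (.v 0) (.v 0))⟩,
  ⟨0, 1, [], 0, (.v 1), (.v 2), (.m (.v 3) (.v 0)), (.m (.v 0) (.v 0)), (.m (.v 0) (.v 0))⟩,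
  ⟨1, 0, [.ml (.v 2)], 1, (.v 1), (.v 0), (.v 3), (.m (.v 0) (.v 0)), (.m (.v 0) (.v 0))⟩,
  ⟨0, 1, [.ml (.v 1)], 0, (.v 0), (.v 2), (.v 3), (.m (.v 0) (.v 0)), (.m (.v 0) (.v 0))⟩,
  ⟨1, 0, [.mr (.v 3)], 1, (.v 0), (.v 1), (.v 2), (.m (.v 0) (.v 0)), (.m (.v 0) (.v 0))⟩,
  ⟨1, 0, [.ml (.v 1)], 1, (.v 2), (.v 0), (.v 3), (.m (.v 0) (.v 0)), (.m (.v 0) (.v 0))⟩,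
  ⟨0, 1, [], 1, (.m (.v 1) (.v 2)), (.v 0), (.v 3), (.m (.v 0) (.v 0)), (.m (.v 0) (.v 0))⟩,
  ⟨1, 0, [.ml (.v 0)], 0, (.v 1), (.v 2), (.v 3), (.m (.v 0) (.v 0)), (.m (.v 0) (.v 0))⟩,
  ⟨0, 1, [.ml (.v 2)], 0, (.v 0), (.v 1), (.v 3), (.m (.v 0) (.v 0)), (.m (.v 0) (.v 0))⟩,
  ⟨1, 0, [], 0, (.m (.v 2) (.v 1)), (.v 0), (.v 3), (.m (.v 0) (.v 0)), (.m (.v 0) (.v 0))⟩,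
  ⟨0, 1, [], 0, (.v 0), (.v 1), (.m (.v 2) (.v 3)), (.m (.v 0) (.v 0)), (.m (.v 0) (.v 0))⟩,
  ⟨1, 0, [], 0, (.m (.v 1) (.v 2)), (.v 0), (.v 3), (.m (.v 0) (.v 0)), (.m (.v 0) (.v 0))⟩,
  ⟨1, 0, [], 1, (.v 1), (.m (.v 2) (.v 3)), (.v 0), (.m (.v 0) (.v 0)), (.m (.v 0) (.v 0))⟩,
  ⟨1, 0, [], 1, (.v 2), (.m (.v 1) (.v 3)), (.v 0), (.m (.v 0) (.v 0)), (.m (.v 0) (.v 0))⟩,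
  ⟨0, 1, [], 0, (.v 0), (.v 2), (.m (.v 1) (.v 3)), (.m (.v 0) (.v 0)), (.m (.v 0) (.v 0))⟩]
def cF0 : List It := [⟨1, 0, [], 0, (.m (.v 1) (.v 2)), (.v 0), (.v 3), (.m (.v 0) (.v 0)), (.m (.v 0) (.v 0))⟩,
  ⟨1, 0, [], 1, (.v 2), (.m (.v 3) (.v 1)), (.v 0), (.m (.v 0) (.v 0)), (.m (.v 0) (.v 0))⟩,
  ⟨0, 1, [.ml (.v 1)], 0, (.v 0), (.v 2), (.v 3), (.m (.v 0) (.v 0)), (.m (.v 0) (.v 0))⟩,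
  ⟨0, 1, [], 1, (.m (.v 2) (.v 3)), (.v 0), (.v 1), (.m (.v 0) (.v 0)), (.m (.v 0) (.v 0))⟩,
  ⟨1, 0, [.mr (.v 0)], 1, (.v 2), (.v 1), (.v 3), (.m (.v 0) (.v 0)), (.m (.v 0) (.v 0))⟩,
  ⟨0, 1, [.mr (.v 3)], 1, (.v 1), (.v 0), (.v 2), (.m (.v 0) (.v 0)), (.m (.v 0) (.v 0))⟩,
  ⟨0, 1, [.mr (.v 0)], 0, (.v 1), (.v 2), (.v 3), (.m (.v 0) (.v 0)), (.m (.v 0) (.v 0))⟩,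
  ⟨0, 1, [], 0, (.m (.v 2) (.v 0)), (.v 1), (.v 3), (.m (.v 0) (.v 0)), (.m (.v 0) (.v 0))⟩,
  ⟨1, 0, [.mr (.v 3)], 0, (.v 0), (.v 1), (.v 2), (.m (.v 0) (.v 0)), (.m (.v 0) (.v 0))⟩,
  ⟨0, 1, [], 1, (.v 2), (.m (.v 1) (.v 0)), (.v 3), (.m (.v 0) (.v 0)), (.m (.v 0) (.v 0))⟩,
  ⟨1, 0, [], 0, (.v 1), (.v 2), (.m (.v 0) (.v 3)), (.m (.v 0) (.v 0)), (.m (.v 0) (.v 0))⟩,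
  ⟨1, 0, [.ml (.v 2)], 1, (.v 3), (.v 0), (.v 1), (.m (.v 0) (.v 0)), (.m (.v 0) (.v 0))⟩,
  ⟨1, 0, [], 1, (.m (.v 2) (.v 0)), (.v 1), (.v 3), (.m (.v 0) (.v 0)), (.m (.v 0) (.v 0))⟩,
  ⟨0, 1, [.mr (.v 1)], 0, (.v 0), (.v 2), (.v 3), (.m (.v 0) (.v 0)), (.m (.v 0) (.v 0))⟩,
  ⟨1, 0, [], 0, (.m (.v 2) (.v 3)), (.v 0), (.v 1), (.m (.v 0) (.v 0)), (.m (.v 0) (.v 0))⟩,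
  ⟨1, 0, [], 0, (.m (.v 1) (.v 0)), (.v 2), (.v 3), (.m (.v 0) (.v 0)), (.m (.v 0) (.v 0))⟩,
  ⟨0, 1, [], 1, (.v 0), (.m (.v 2) (.v 3)), (.v 1), (.m (.v 0) (.v 0)), (.m (.v 0) (.v 0))⟩,
  ⟨0, 1, [], 1, (.v 2), (.m (.v 0) (.v 3)), (.v 1), (.m (.v 0) (.v 0)), (.m (.v 0) (.v 0))⟩,
  ⟨0, 1, [.ml (.v 2)], 0, (.v 0), (.v 3), (.v 1), (.m (.v 0) (.v 0)), (.m (.v 0) (.v 0))⟩]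
def cSA : List It := [⟨1, 0, [], 0, (.m (.v 3) (.v 2)), (.v 1), (.v 0), (.m (.v 0) (.v 0)), (.m (.v 0) (.v 0))⟩,
  ⟨3, 0, [], 0, (.m (.v 1) (.v 0)), (.v 2), (.v 3), (.m (.v 0) (.v 0)), (.m (.v 0) (.v 0))⟩,
  ⟨4, 0, [], 1, (.v 2), (.m (.v 3) (.v 1)), (.v 0), (.m (.v 0) (.v 0)), (.m (.v 0) (.v 0))⟩,
  ⟨4, 0, [.mr (.v 2)], 1, (.v 0), (.v 1), (.v 3), (.m (.v 0) (.v 0)), (.m (.v 0) (.v 0))⟩,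
  ⟨0, 1, [], 0, (.m (.v 0) (.v 3)), (.v 1), (.v 2), (.m (.v 0) (.v 0)), (.m (.v 0) (.v 0))⟩,
  ⟨0, 3, [], 0, (.v 0), (.v 2), (.m (.v 1) (.v 3)), (.m (.v 0) (.v 0)), (.m (.v 0) (.v 0))⟩,
  ⟨0, 2, [.ml (.v 0)], 1, (.v 3), (.v 1), (.v 2), (.m (.v 0) (.v 0)), (.m (.v 0) (.v 0))⟩,
  ⟨0, 2, [.mr (.v 2)], 0, (.v 0), (.v 3), (.v 1), (.m (.v 0) (.v 0)), (.m (.v 0) (.v 0))⟩,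
  ⟨0, 3, [.ml (.v 2)], 1, (.v 1), (.v 0), (.v 3), (.m (.v 0) (.v 0)), (.m (.v 0) (.v 0))⟩,
  ⟨1, 0, [], 0, (.m (.v 3) (.v 1)), (.v 2), (.v 0), (.m (.v 0) (.v 0)), (.m (.v 0) (.v 0))⟩,
  ⟨4, 0, [.ml (.v 2)], 0, (.v 1), (.v 3), (.v 0), (.m (.v 0) (.v 0)), (.m (.v 0) (.v 0))⟩,
  ⟨0, 1, [.mr (.v 0)], 1, (.v 3), (.v 1), (.v 2), (.m (.v 0) (.v 0)), (.m (.v 0) (.v 0))⟩,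
  ⟨1, 0, [], 0, (.v 0), (.v 3), (.m (.v 1) (.v 2)), (.m (.v 0) (.v 0)), (.m (.v 0) (.v 0))⟩,
  ⟨1, 0, [.ml (.v 0)], 0, (.v 2), (.v 3), (.v 1), (.m (.v 0) (.v 0)), (.m (.v 0) (.v 0))⟩,
  ⟨2, 0, [.mr (.v 0)], 0, (.v 2), (.v 3), (.v 1), (.m (.v 0) (.v 0)), (.m (.v 0) (.v 0))⟩,
  ⟨0, 2, [.ml (.v 1)], 1, (.v 0), (.v 2), (.v 3), (.m (.v 0) (.v 0)), (.m (.v 0) (.v 0))⟩,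
  ⟨0, 4, [], 1, (.v 0), (.m (.v 3) (.v 2)), (.v 1), (.m (.v 0) (.v 0)), (.m (.v 0) (.v 0))⟩,
  ⟨0, 1, [], 1, (.m (.v 2) (.v 3)), (.v 0), (.v 1), (.m (.v 0) (.v 0)), (.m (.v 0) (.v 0))⟩,
  ⟨0, 3, [], 0, (.v 0), (.v 2), (.m (.v 3) (.v 1)), (.m (.v 0) (.v 0)), (.m (.v 0) (.v 0))⟩,
  ⟨3, 0, [], 0, (.m (.v 3) (.v 2)), (.v 0), (.v 1), (.m (.v 0) (.v 0)), (.m (.v 0) (.v 0))⟩,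
  ⟨2, 0, [.ml (.v 2)], 0, (.v 0), (.v 1), (.v 3), (.m (.v 0) (.v 0)), (.m (.v 0) (.v 0))⟩,
  ⟨3, 0, [], 1, (.v 1), (.m (.v 2) (.v 3)), (.v 0), (.m (.v 0) (.v 0)), (.m (.v 0) (.v 0))⟩,
  ⟨1, 0, [], 0, (.v 1), (.v 3), (.m (.v 0) (.v 2)), (.m (.v 0) (.v 0)), (.m (.v 0) (.v 0))⟩,
  ⟨1, 0, [.mr (.v 0)], 1, (.v 1), (.v 2), (.v 3), (.m (.v 0) (.v 0)), (.m (.v 0) (.v 0))⟩,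
  ⟨2, 0, [], 1, (.v 0), (.m (.v 3) (.v 1)), (.v 2), (.m (.v 0) (.v 0)), (.m (.v 0) (.v 0))⟩,
  ⟨0, 2, [], 1, (.v 0), (.m (.v 1) (.v 2)), (.v 3), (.m (.v 0) (.v 0)), (.m (.v 0) (.v 0))⟩,
  ⟨1, 0, [], 0, (.m (.v 0) (.v 1)), (.v 2), (.v 3), (.m (.v 0) (.v 0)), (.m (.v 0) (.v 0))⟩,
  ⟨0, 2, [.mr (.v 3)], 0, (.v 0), (.v 1), (.v 2), (.m (.v 0) (.v 0)), (.m (.v 0) (.v 0))⟩,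
  ⟨1, 0, [], 0, (.m (.v 3) (.v 0)), (.v 1), (.v 2), (.m (.v 0) (.v 0)), (.m (.v 0) (.v 0))⟩,
  ⟨4, 0, [.ml (.v 0)], 0, (.v 1), (.v 3), (.v 2), (.m (.v 0) (.v 0)), (.m (.v 0) (.v 0))⟩,
  ⟨0, 2, [], 1, (.m (.v 3) (.v 2)), (.v 0), (.v 1), (.m (.v 0) (.v 0)), (.m (.v 0) (.v 0))⟩,
  ⟨0, 2, [], 1, (.v 1), (.m (.v 0) (.v 2)), (.v 3), (.m (.v 0) (.v 0)), (.m (.v 0) (.v 0))⟩,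
  ⟨3, 0, [.mr (.v 0)], 1, (.v 2), (.v 1), (.v 3), (.m (.v 0) (.v 0)), (.m (.v 0) (.v 0))⟩,
  ⟨0, 1, [], 0, (.v 2), (.v 3), (.m (.v 1) (.v 0)), (.m (.v 0) (.v 0)), (.m (.v 0) (.v 0))⟩,
  ⟨1, 0, [.ml (.v 1)], 0, (.v 0), (.v 3), (.v 2), (.m (.v 0) (.v 0)), (.m (.v 0) (.v 0))⟩,
  ⟨0, 1, [.ml (.v 0)], 0, (.v 1), (.v 2), (.v 3), (.m (.v 0) (.v 0)), (.m (.v 0) (.v 0))⟩,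
  ⟨2, 0, [], 1, (.v 2), (.m (.v 1) (.v 3)), (.v 0), (.m (.v 0) (.v 0)), (.m (.v 0) (.v 0))⟩,
  ⟨0, 4, [], 0, (.m (.v 2) (.v 3)), (.v 1), (.v 0), (.m (.v 0) (.v 0)), (.m (.v 0) (.v 0))⟩,
  ⟨4, 0, [], 1, (.v 0), (.m (.v 1) (.v 3)), (.v 2), (.m (.v 0) (.v 0)), (.m (.v 0) (.v 0))⟩,
  ⟨0, 4, [], 0, (.m (.v 0) (.v 1)), (.v 3), (.v 2), (.m (.v 0) (.v 0)), (.m (.v 0) (.v 0))⟩,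
  ⟨0, 2, [.mr (.v 0)], 0, (.v 1), (.v 2), (.v 3), (.m (.v 0) (.v 0)), (.m (.v 0) (.v 0))⟩,
  ⟨0, 1, [.ml (.v 3)], 0, (.v 0), (.v 1), (.v 2), (.m (.v 0) (.v 0)), (.m (.v 0) (.v 0))⟩,
  ⟨0, 1, [.ml (.v 2)], 1, (.v 0), (.v 1), (.v 3), (.m (.v 0) (.v 0)), (.m (.v 0) (.v 0))⟩,
  ⟨0, 4, [], 1, (.v 2), (.m (.v 1) (.v 0)), (.v 3), (.m (.v 0) (.v 0)), (.m (.v 0) (.v 0))⟩,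
  ⟨2, 0, [], 1, (.v 3), (.m (.v 0) (.v 1)), (.v 2), (.m (.v 0) (.v 0)), (.m (.v 0) (.v 0))⟩,
  ⟨1, 0, [.ml (.v 2)], 1, (.v 3), (.v 0), (.v 1), (.m (.v 0) (.v 0)), (.m (.v 0) (.v 0))⟩,
  ⟨0, 1, [], 0, (.m (.v 1) (.v 3)), (.v 2), (.v 0), (.m (.v 0) (.v 0)), (.m (.v 0) (.v 0))⟩,
  ⟨0, 1, [], 0, (.v 2), (.v 3), (.m (.v 0) (.v 1)), (.m (.v 0) (.v 0)), (.m (.v 0) (.v 0))⟩,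
  ⟨1, 0, [], 1, (.v 0), (.m (.v 2) (.v 3)), (.v 1), (.m (.v 0) (.v 0)), (.m (.v 0) (.v 0))⟩]
def cP : List It := [⟨0, 2, [], 0, (.m (.v 2) (.v 0)), (.v 4), (.m (.v 3) (.v 1)), (.m (.v 0) (.v 0)), (.m (.v 0) (.v 0))⟩,
  ⟨0, 2, [], 0, (.m (.v 3) (.v 0)), (.v 4), (.m (.v 2) (.v 1)), (.m (.v 0) (.v 0)), (.m (.v 0) (.v 0))⟩,
  ⟨0, 2, [], 0, (.m (.v 2) (.v 1)), (.v 4), (.m (.v 3) (.v 0)), (.m (.v 0) (.v 0)), (.m (.v 0) (.v 0))⟩,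
  ⟨0, 2, [], 0, (.m (.v 3) (.v 1)), (.v 4), (.m (.v 2) (.v 0)), (.m (.v 0) (.v 0)), (.m (.v 0) (.v 0))⟩,
  ⟨0, 2, [], 0, (.m (.v 0) (.v 2)), (.m (.v 1) (.v 3)), (.v 4), (.m (.v 0) (.v 0)), (.m (.v 0) (.v 0))⟩,
  ⟨0, 2, [], 0, (.m (.v 0) (.v 3)), (.m (.v 1) (.v 2)), (.v 4), (.m (.v 0) (.v 0)), (.m (.v 0) (.v 0))⟩,
  ⟨2, 0, [], 0, (.v 0), (.v 2), (.m (.m (.v 1) (.v 3)) (.v 4)), (.m (.v 0) (.v 0)), (.m (.v 0) (.v 0))⟩,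
  ⟨2, 0, [], 0, (.v 0), (.v 3), (.m (.m (.v 1) (.v 2)) (.v 4)), (.m (.v 0) (.v 0)), (.m (.v 0) (.v 0))⟩,
  ⟨2, 0, [], 0, (.v 1), (.v 2), (.m (.m (.v 0) (.v 3)) (.v 4)), (.m (.v 0) (.v 0)), (.m (.v 0) (.v 0))⟩,
  ⟨2, 0, [], 0, (.v 1), (.v 3), (.m (.m (.v 0) (.v 2)) (.v 4)), (.m (.v 0) (.v 0)), (.m (.v 0) (.v 0))⟩,
  ⟨2, 0, [.ml (.v 1)], 3, (.v 2), (.v 3), (.v 0), (.v 4), (.m (.v 0) (.v 0))⟩,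
  ⟨2, 0, [.ml (.v 0)], 3, (.v 2), (.v 3), (.v 1), (.v 4), (.m (.v 0) (.v 0))⟩,
  ⟨2, 0, [], 0, (.m (.v 0) (.m (.v 2) (.v 4))), (.v 1), (.v 3), (.m (.v 0) (.v 0)), (.m (.v 0) (.v 0))⟩,
  ⟨2, 0, [], 0, (.m (.v 0) (.m (.v 3) (.v 4))), (.v 1), (.v 2), (.m (.v 0) (.v 0)), (.m (.v 0) (.v 0))⟩,
  ⟨2, 0, [], 0, (.m (.v 1) (.m (.v 2) (.v 4))), (.v 0), (.v 3), (.m (.v 0) (.v 0)), (.m (.v 0) (.v 0))⟩,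
  ⟨2, 0, [], 0, (.m (.v 1) (.m (.v 3) (.v 4))), (.v 0), (.v 2), (.m (.v 0) (.v 0)), (.m (.v 0) (.v 0))⟩,
  ⟨2, 0, [.mr (.m (.v 1) (.v 3))], 1, (.v 0), (.v 2), (.v 4), (.m (.v 0) (.v 0)), (.m (.v 0) (.v 0))⟩,
  ⟨2, 0, [.mr (.m (.v 1) (.v 2))], 1, (.v 0), (.v 3), (.v 4), (.m (.v 0) (.v 0)), (.m (.v 0) (.v 0))⟩,
  ⟨2, 0, [.mr (.m (.v 0) (.v 3))], 1, (.v 1), (.v 2), (.v 4), (.m (.v 0) (.v 0)), (.m (.v 0) (.v 0))⟩,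
  ⟨2, 0, [.mr (.m (.v 0) (.v 2))], 1, (.v 1), (.v 3), (.v 4), (.m (.v 0) (.v 0)), (.m (.v 0) (.v 0))⟩,
  ⟨0, 2, [.mr (.v 1)], 1, (.v 0), (.m (.v 3) (.v 4)), (.v 2), (.m (.v 0) (.v 0)), (.m (.v 0) (.v 0))⟩,
  ⟨0, 2, [.mr (.v 1)], 1, (.v 0), (.m (.v 2) (.v 4)), (.v 3), (.m (.v 0) (.v 0)), (.m (.v 0) (.v 0))⟩,
  ⟨0, 2, [.mr (.v 0)], 1, (.v 1), (.m (.v 3) (.v 4)), (.v 2), (.m (.v 0) (.v 0)), (.m (.v 0) (.v 0))⟩,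
  ⟨0, 2, [.mr (.v 0)], 1, (.v 1), (.m (.v 2) (.v 4)), (.v 3), (.m (.v 0) (.v 0)), (.m (.v 0) (.v 0))⟩,
  ⟨2, 0, [.ml (.v 4), .ml (.v 3)], 1, (.v 2), (.v 0), (.v 1), (.m (.v 0) (.v 0)), (.m (.v 0) (.v 0))⟩,
  ⟨2, 0, [.ml (.v 4), .ml (.v 2)], 1, (.v 3), (.v 0), (.v 1), (.m (.v 0) (.v 0)), (.m (.v 0) (.v 0))⟩,
  ⟨0, 2, [.ml (.v 1)], 2, (.v 2), (.v 3), (.v 0), (.v 4), (.m (.v 0) (.v 0))⟩,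
  ⟨0, 2, [.ml (.v 0)], 2, (.v 2), (.v 3), (.v 1), (.v 4), (.m (.v 0) (.v 0))⟩,
  ⟨2, 0, [.mr (.v 1), .ml (.v 0)], 0, (.v 2), (.v 3), (.v 4), (.m (.v 0) (.v 0)), (.m (.v 0) (.v 0))⟩,
  ⟨2, 0, [.mr (.v 0), .ml (.v 1)], 0, (.v 2), (.v 3), (.v 4), (.m (.v 0) (.v 0)), (.m (.v 0) (.v 0))⟩,
  ⟨0, 2, [], 0, (.m (.v 4) (.m (.v 2) (.v 0))), (.v 1), (.v 3), (.m (.v 0) (.v 0)), (.m (.v 0) (.v 0))⟩,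
  ⟨0, 2, [], 0, (.m (.v 4) (.m (.v 3) (.v 0))), (.v 1), (.v 2), (.m (.v 0) (.v 0)), (.m (.v 0) (.v 0))⟩,
  ⟨0, 2, [], 0, (.m (.v 4) (.m (.v 2) (.v 1))), (.v 0), (.v 3), (.m (.v 0) (.v 0)), (.m (.v 0) (.v 0))⟩,
  ⟨0, 2, [], 0, (.m (.v 4) (.m (.v 3) (.v 1))), (.v 0), (.v 2), (.m (.v 0) (.v 0)), (.m (.v 0) (.v 0))⟩,
  ⟨0, 2, [], 4, (.m (.v 0) (.v 2)), (.v 4), (.v 1), (.v 3), (.m (.v 0) (.v 0))⟩,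
  ⟨0, 2, [], 4, (.m (.v 0) (.v 3)), (.v 4), (.v 1), (.v 2), (.m (.v 0) (.v 0))⟩,
  ⟨0, 2, [], 4, (.m (.v 1) (.v 2)), (.v 4), (.v 0), (.v 3), (.m (.v 0) (.v 0))⟩,
  ⟨0, 2, [], 4, (.m (.v 1) (.v 3)), (.v 4), (.v 0), (.v 2), (.m (.v 0) (.v 0))⟩,
  ⟨2, 0, [.ml (.v 3)], 2, (.v 0), (.v 1), (.v 2), (.v 4), (.m (.v 0) (.v 0))⟩,
  ⟨2, 0, [.ml (.v 2)], 2, (.v 0), (.v 1), (.v 3), (.v 4), (.m (.v 0) (.v 0))⟩,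
  ⟨0, 2, [], 1, (.v 2), (.m (.m (.v 1) (.v 3)) (.v 4)), (.v 0), (.m (.v 0) (.v 0)), (.m (.v 0) (.v 0))⟩,
  ⟨0, 2, [], 1, (.v 3), (.m (.m (.v 1) (.v 2)) (.v 4)), (.v 0), (.m (.v 0) (.v 0)), (.m (.v 0) (.v 0))⟩,
  ⟨0, 2, [], 1, (.v 2), (.m (.m (.v 0) (.v 3)) (.v 4)), (.v 1), (.m (.v 0) (.v 0)), (.m (.v 0) (.v 0))⟩,
  ⟨0, 2, [], 1, (.v 3), (.m (.m (.v 0) (.v 2)) (.v 4)), (.v 1), (.m (.v 0) (.v 0)), (.m (.v 0) (.v 0))⟩,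
  ⟨2, 0, [.mr (.v 4), .mr (.v 3)], 1, (.v 2), (.v 0), (.v 1), (.m (.v 0) (.v 0)), (.m (.v 0) (.v 0))⟩,
  ⟨2, 0, [.mr (.v 4), .mr (.v 2)], 1, (.v 3), (.v 0), (.v 1), (.m (.v 0) (.v 0)), (.m (.v 0) (.v 0))⟩,
  ⟨2, 0, [.mr (.v 3)], 3, (.v 0), (.v 1), (.v 4), (.v 2), (.m (.v 0) (.v 0))⟩,
  ⟨2, 0, [.mr (.v 2)], 3, (.v 0), (.v 1), (.v 4), (.v 3), (.m (.v 0) (.v 0))⟩,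
  ⟨0, 2, [.mr (.v 3), .ml (.v 1)], 1, (.v 4), (.v 0), (.v 2), (.m (.v 0) (.v 0)), (.m (.v 0) (.v 0))⟩,
  ⟨0, 2, [.mr (.v 2), .ml (.v 1)], 1, (.v 4), (.v 0), (.v 3), (.m (.v 0) (.v 0)), (.m (.v 0) (.v 0))⟩,
  ⟨0, 2, [.mr (.v 3), .ml (.v 0)], 1, (.v 4), (.v 1), (.v 2), (.m (.v 0) (.v 0)), (.m (.v 0) (.v 0))⟩,
  ⟨0, 2, [.mr (.v 2), .ml (.v 0)], 1, (.v 4), (.v 1), (.v 3), (.m (.v 0) (.v 0)), (.m (.v 0) (.v 0))⟩,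
  ⟨2, 0, [.ml (.m (.v 3) (.v 1))], 1, (.v 2), (.v 0), (.v 4), (.m (.v 0) (.v 0)), (.m (.v 0) (.v 0))⟩,
  ⟨2, 0, [.ml (.m (.v 2) (.v 1))], 1, (.v 3), (.v 0), (.v 4), (.m (.v 0) (.v 0)), (.m (.v 0) (.v 0))⟩,
  ⟨2, 0, [.ml (.m (.v 3) (.v 0))], 1, (.v 2), (.v 1), (.v 4), (.m (.v 0) (.v 0)), (.m (.v 0) (.v 0))⟩,
  ⟨2, 0, [.ml (.m (.v 2) (.v 0))], 1, (.v 3), (.v 1), (.v 4), (.m (.v 0) (.v 0)), (.m (.v 0) (.v 0))⟩,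
  ⟨0, 2, [.ml (.m (.v 3) (.v 1))], 0, (.v 0), (.v 2), (.v 4), (.m (.v 0) (.v 0)), (.m (.v 0) (.v 0))⟩,
  ⟨0, 2, [.ml (.m (.v 2) (.v 1))], 0, (.v 0), (.v 3), (.v 4), (.m (.v 0) (.v 0)), (.m (.v 0) (.v 0))⟩,
  ⟨0, 2, [.ml (.m (.v 3) (.v 0))], 0, (.v 1), (.v 2), (.v 4), (.m (.v 0) (.v 0)), (.m (.v 0) (.v 0))⟩,
  ⟨0, 2, [.ml (.m (.v 2) (.v 0))], 0, (.v 1), (.v 3), (.v 4), (.m (.v 0) (.v 0)), (.m (.v 0) (.v 0))⟩,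
  ⟨0, 2, [.ml (.v 1)], 0, (.m (.v 4) (.v 2)), (.v 0), (.v 3), (.m (.v 0) (.v 0)), (.m (.v 0) (.v 0))⟩,
  ⟨0, 2, [.ml (.v 1)], 0, (.m (.v 4) (.v 3)), (.v 0), (.v 2), (.m (.v 0) (.v 0)), (.m (.v 0) (.v 0))⟩,
  ⟨0, 2, [.ml (.v 0)], 0, (.m (.v 4) (.v 2)), (.v 1), (.v 3), (.m (.v 0) (.v 0)), (.m (.v 0) (.v 0))⟩,
  ⟨0, 2, [.ml (.v 0)], 0, (.m (.v 4) (.v 3)), (.v 1), (.v 2), (.m (.v 0) (.v 0)), (.m (.v 0) (.v 0))⟩,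
  ⟨0, 2, [.mr (.m (.v 4) (.v 3))], 0, (.v 0), (.v 1), (.v 2), (.m (.v 0) (.v 0)), (.m (.v 0) (.v 0))⟩,
  ⟨0, 2, [.mr (.m (.v 4) (.v 2))], 0, (.v 0), (.v 1), (.v 3), (.m (.v 0) (.v 0)), (.m (.v 0) (.v 0))⟩,
  ⟨0, 2, [.mr (.v 3)], 1, (.v 4), (.m (.v 2) (.v 1)), (.v 0), (.m (.v 0) (.v 0)), (.m (.v 0) (.v 0))⟩,
  ⟨0, 2, [.mr (.v 2)], 1, (.v 4), (.m (.v 3) (.v 1)), (.v 0), (.m (.v 0) (.v 0)), (.m (.v 0) (.v 0))⟩,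
  ⟨0, 2, [.mr (.v 3)], 1, (.v 4), (.m (.v 2) (.v 0)), (.v 1), (.m (.v 0) (.v 0)), (.m (.v 0) (.v 0))⟩,
  ⟨0, 2, [.mr (.v 2)], 1, (.v 4), (.m (.v 3) (.v 0)), (.v 1), (.m (.v 0) (.v 0)), (.m (.v 0) (.v 0))⟩,
  ⟨2, 0, [.mr (.v 1)], 2, (.v 0), (.v 2), (.v 3), (.v 4), (.m (.v 0) (.v 0))⟩,
  ⟨2, 0, [.mr (.v 1)], 2, (.v 0), (.v 3), (.v 2), (.v 4), (.m (.v 0) (.v 0))⟩,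
  ⟨2, 0, [.mr (.v 0)], 2, (.v 1), (.v 2), (.v 3), (.v 4), (.m (.v 0) (.v 0))⟩,
  ⟨2, 0, [.mr (.v 0)], 2, (.v 1), (.v 3), (.v 2), (.v 4), (.m (.v 0) (.v 0))⟩,
  ⟨2, 0, [], 1, (.m (.m (.v 0) (.v 2)) (.v 4)), (.v 1), (.v 3), (.m (.v 0) (.v 0)), (.m (.v 0) (.v 0))⟩,
  ⟨2, 0, [], 1, (.m (.m (.v 0) (.v 3)) (.v 4)), (.v 1), (.v 2), (.m (.v 0) (.v 0)), (.m (.v 0) (.v 0))⟩,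
  ⟨2, 0, [], 1, (.m (.m (.v 1) (.v 2)) (.v 4)), (.v 0), (.v 3), (.m (.v 0) (.v 0)), (.m (.v 0) (.v 0))⟩,
  ⟨2, 0, [], 1, (.m (.m (.v 1) (.v 3)) (.v 4)), (.v 0), (.v 2), (.m (.v 0) (.v 0)), (.m (.v 0) (.v 0))⟩,
  ⟨0, 2, [], 0, (.v 0), (.v 2), (.m (.v 1) (.m (.v 3) (.v 4))), (.m (.v 0) (.v 0)), (.m (.v 0) (.v 0))⟩,
  ⟨0, 2, [], 0, (.v 0), (.v 3), (.m (.v 1) (.m (.v 2) (.v 4))), (.m (.v 0) (.v 0)), (.m (.v 0) (.v 0))⟩,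
  ⟨0, 2, [], 0, (.v 1), (.v 2), (.m (.v 0) (.m (.v 3) (.v 4))), (.m (.v 0) (.v 0)), (.m (.v 0) (.v 0))⟩,
  ⟨0, 2, [], 0, (.v 1), (.v 3), (.m (.v 0) (.m (.v 2) (.v 4))), (.m (.v 0) (.v 0)), (.m (.v 0) (.v 0))⟩,
  ⟨2, 0, [], 0, (.m (.m (.v 4) (.v 2)) (.v 0)), (.v 1), (.v 3), (.m (.v 0) (.v 0)), (.m (.v 0) (.v 0))⟩,
  ⟨2, 0, [], 0, (.m (.m (.v 4) (.v 3)) (.v 0)), (.v 1), (.v 2), (.m (.v 0) (.v 0)), (.m (.v 0) (.v 0))⟩,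
  ⟨2, 0, [], 0, (.m (.m (.v 4) (.v 2)) (.v 1)), (.v 0), (.v 3), (.m (.v 0) (.v 0)), (.m (.v 0) (.v 0))⟩,
  ⟨2, 0, [], 0, (.m (.m (.v 4) (.v 3)) (.v 1)), (.v 0), (.v 2), (.m (.v 0) (.v 0)), (.m (.v 0) (.v 0))⟩,
  ⟨0, 2, [.mr (.m (.v 1) (.v 3))], 0, (.v 0), (.v 4), (.v 2), (.m (.v 0) (.v 0)), (.m (.v 0) (.v 0))⟩,
  ⟨0, 2, [.mr (.m (.v 1) (.v 2))], 0, (.v 0), (.v 4), (.v 3), (.m (.v 0) (.v 0)), (.m (.v 0) (.v 0))⟩,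
  ⟨0, 2, [.mr (.m (.v 0) (.v 3))], 0, (.v 1), (.v 4), (.v 2), (.m (.v 0) (.v 0)), (.m (.v 0) (.v 0))⟩,
  ⟨0, 2, [.mr (.m (.v 0) (.v 2))], 0, (.v 1), (.v 4), (.v 3), (.m (.v 0) (.v 0)), (.m (.v 0) (.v 0))⟩,
  ⟨2, 0, [.mr (.v 1), .mr (.v 4)], 1, (.v 0), (.v 2), (.v 3), (.m (.v 0) (.v 0)), (.m (.v 0) (.v 0))⟩,
  ⟨2, 0, [.mr (.v 0), .mr (.v 4)], 1, (.v 1), (.v 2), (.v 3), (.m (.v 0) (.v 0)), (.m (.v 0) (.v 0))⟩,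
  ⟨2, 0, [.ml (.v 4)], 3, (.v 2), (.v 3), (.v 0), (.v 1), (.m (.v 0) (.v 0))⟩,
  ⟨2, 0, [.ml (.v 4)], 3, (.v 2), (.v 3), (.v 1), (.v 0), (.m (.v 0) (.v 0))⟩,
  ⟨0, 2, [.ml (.m (.v 3) (.v 1))], 0, (.v 2), (.v 4), (.v 0), (.m (.v 0) (.v 0)), (.m (.v 0) (.v 0))⟩,
  ⟨0, 2, [.ml (.m (.v 2) (.v 1))], 0, (.v 3), (.v 4), (.v 0), (.m (.v 0) (.v 0)), (.m (.v 0) (.v 0))⟩,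
  ⟨0, 2, [.ml (.m (.v 3) (.v 0))], 0, (.v 2), (.v 4), (.v 1), (.m (.v 0) (.v 0)), (.m (.v 0) (.v 0))⟩,
  ⟨0, 2, [.ml (.m (.v 2) (.v 0))], 0, (.v 3), (.v 4), (.v 1), (.m (.v 0) (.v 0)), (.m (.v 0) (.v 0))⟩,
  ⟨0, 1, [], 5, (.m (.v 4) (.v 2)), (.v 0), (.v 1), (.v 3), (.m (.v 0) (.v 0))⟩,
  ⟨0, 1, [], 5, (.m (.v 4) (.v 3)), (.v 0), (.v 1), (.v 2), (.m (.v 0) (.v 0))⟩,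
  ⟨0, 1, [], 5, (.m (.v 4) (.v 2)), (.v 1), (.v 0), (.v 3), (.m (.v 0) (.v 0))⟩,
  ⟨0, 1, [], 5, (.m (.v 4) (.v 3)), (.v 1), (.v 0), (.v 2), (.m (.v 0) (.v 0))⟩,
  ⟨2, 0, [.mr (.v 3), .ml (.v 1)], 0, (.v 0), (.v 4), (.v 2), (.m (.v 0) (.v 0)), (.m (.v 0) (.v 0))⟩,
  ⟨2, 0, [.mr (.v 2), .ml (.v 1)], 0, (.v 0), (.v 4), (.v 3), (.m (.v 0) (.v 0)), (.m (.v 0) (.v 0))⟩,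
  ⟨2, 0, [.mr (.v 3), .ml (.v 0)], 0, (.v 1), (.v 4), (.v 2), (.m (.v 0) (.v 0)), (.m (.v 0) (.v 0))⟩,
  ⟨2, 0, [.mr (.v 2), .ml (.v 0)], 0, (.v 1), (.v 4), (.v 3), (.m (.v 0) (.v 0)), (.m (.v 0) (.v 0))⟩,
  ⟨2, 0, [.mr (.v 3)], 0, (.v 0), (.v 4), (.m (.v 2) (.v 1)), (.m (.v 0) (.v 0)), (.m (.v 0) (.v 0))⟩,
  ⟨2, 0, [.mr (.v 2)], 0, (.v 0), (.v 4), (.m (.v 3) (.v 1)), (.m (.v 0) (.v 0)), (.m (.v 0) (.v 0))⟩,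
  ⟨2, 0, [.mr (.v 3)], 0, (.v 1), (.v 4), (.m (.v 2) (.v 0)), (.m (.v 0) (.v 0)), (.m (.v 0) (.v 0))⟩,
  ⟨2, 0, [.mr (.v 2)], 0, (.v 1), (.v 4), (.m (.v 3) (.v 0)), (.m (.v 0) (.v 0)), (.m (.v 0) (.v 0))⟩,
  ⟨0, 2, [], 2, (.v 0), (.v 1), (.m (.v 2) (.v 4)), (.v 3), (.m (.v 0) (.v 0))⟩,
  ⟨0, 2, [], 2, (.v 0), (.v 1), (.m (.v 3) (.v 4)), (.v 2), (.m (.v 0) (.v 0))⟩,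
  ⟨2, 0, [], 1, (.v 2), (.m (.v 1) (.m (.v 3) (.v 4))), (.v 0), (.m (.v 0) (.v 0)), (.m (.v 0) (.v 0))⟩,
  ⟨2, 0, [], 1, (.v 3), (.m (.v 1) (.m (.v 2) (.v 4))), (.v 0), (.m (.v 0) (.v 0)), (.m (.v 0) (.v 0))⟩,
  ⟨2, 0, [], 1, (.v 2), (.m (.v 0) (.m (.v 3) (.v 4))), (.v 1), (.m (.v 0) (.v 0)), (.m (.v 0) (.v 0))⟩,
  ⟨2, 0, [], 1, (.v 3), (.m (.v 0) (.m (.v 2) (.v 4))), (.v 1), (.m (.v 0) (.v 0)), (.m (.v 0) (.v 0))⟩,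
  ⟨0, 2, [.ml (.v 1), .mr (.v 3)], 1, (.v 2), (.v 0), (.v 4), (.m (.v 0) (.v 0)), (.m (.v 0) (.v 0))⟩,
  ⟨0, 2, [.ml (.v 1), .mr (.v 2)], 1, (.v 3), (.v 0), (.v 4), (.m (.v 0) (.v 0)), (.m (.v 0) (.v 0))⟩,
  ⟨0, 2, [.ml (.v 0), .mr (.v 3)], 1, (.v 2), (.v 1), (.v 4), (.m (.v 0) (.v 0)), (.m (.v 0) (.v 0))⟩,
  ⟨0, 2, [.ml (.v 0), .mr (.v 2)], 1, (.v 3), (.v 1), (.v 4), (.m (.v 0) (.v 0)), (.m (.v 0) (.v 0))⟩,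
  ⟨0, 2, [], 1, (.m (.v 0) (.m (.v 2) (.v 4))), (.v 1), (.v 3), (.m (.v 0) (.v 0)), (.m (.v 0) (.v 0))⟩,
  ⟨0, 2, [], 1, (.m (.v 0) (.m (.v 3) (.v 4))), (.v 1), (.v 2), (.m (.v 0) (.v 0)), (.m (.v 0) (.v 0))⟩,
  ⟨0, 2, [], 1, (.m (.v 1) (.m (.v 2) (.v 4))), (.v 0), (.v 3), (.m (.v 0) (.v 0)), (.m (.v 0) (.v 0))⟩,
  ⟨0, 2, [], 1, (.m (.v 1) (.m (.v 3) (.v 4))), (.v 0), (.v 2), (.m (.v 0) (.v 0)), (.m (.v 0) (.v 0))⟩,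
  ⟨2, 0, [.mr (.v 4)], 2, (.v 2), (.v 3), (.v 0), (.v 1), (.m (.v 0) (.v 0))⟩,
  ⟨2, 0, [.mr (.v 4)], 2, (.v 2), (.v 3), (.v 1), (.v 0), (.m (.v 0) (.v 0))⟩,
  ⟨2, 0, [.ml (.v 1), .ml (.v 3)], 0, (.v 0), (.v 2), (.v 4), (.m (.v 0) (.v 0)), (.m (.v 0) (.v 0))⟩,
  ⟨2, 0, [.ml (.v 1), .ml (.v 2)], 0, (.v 0), (.v 3), (.v 4), (.m (.v 0) (.v 0)), (.m (.v 0) (.v 0))⟩,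
  ⟨2, 0, [.ml (.v 0), .ml (.v 3)], 0, (.v 1), (.v 2), (.v 4), (.m (.v 0) (.v 0)), (.m (.v 0) (.v 0))⟩,
  ⟨2, 0, [.ml (.v 0), .ml (.v 2)], 0, (.v 1), (.v 3), (.v 4), (.m (.v 0) (.v 0)), (.m (.v 0) (.v 0))⟩,
  ⟨0, 1, [.mr (.v 1)], 5, (.v 0), (.v 2), (.v 3), (.v 4), (.m (.v 0) (.v 0))⟩,
  ⟨0, 1, [.mr (.v 1)], 5, (.v 0), (.v 3), (.v 2), (.v 4), (.m (.v 0) (.v 0))⟩,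
  ⟨0, 1, [.mr (.v 0)], 5, (.v 1), (.v 2), (.v 3), (.v 4), (.m (.v 0) (.v 0))⟩,
  ⟨0, 1, [.mr (.v 0)], 5, (.v 1), (.v 3), (.v 2), (.v 4), (.m (.v 0) (.v 0))⟩,
  ⟨0, 2, [.ml (.v 4)], 0, (.m (.v 0) (.v 2)), (.v 1), (.v 3), (.m (.v 0) (.v 0)), (.m (.v 0) (.v 0))⟩,
  ⟨0, 2, [.ml (.v 4)], 0, (.m (.v 0) (.v 3)), (.v 1), (.v 2), (.m (.v 0) (.v 0)), (.m (.v 0) (.v 0))⟩,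
  ⟨0, 2, [.ml (.v 4)], 0, (.m (.v 1) (.v 2)), (.v 0), (.v 3), (.m (.v 0) (.v 0)), (.m (.v 0) (.v 0))⟩,
  ⟨0, 2, [.ml (.v 4)], 0, (.m (.v 1) (.v 3)), (.v 0), (.v 2), (.m (.v 0) (.v 0)), (.m (.v 0) (.v 0))⟩,
  ⟨2, 0, [], 4, (.v 3), (.v 1), (.v 4), (.m (.v 2) (.v 0)), (.m (.v 0) (.v 0))⟩,
  ⟨2, 0, [], 4, (.v 2), (.v 1), (.v 4), (.m (.v 3) (.v 0)), (.m (.v 0) (.v 0))⟩,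
  ⟨2, 0, [], 4, (.v 3), (.v 0), (.v 4), (.m (.v 2) (.v 1)), (.m (.v 0) (.v 0))⟩,
  ⟨2, 0, [], 4, (.v 2), (.v 0), (.v 4), (.m (.v 3) (.v 1)), (.m (.v 0) (.v 0))⟩,
  ⟨2, 0, [], 1, (.m (.v 4) (.m (.v 2) (.v 0))), (.v 1), (.v 3), (.m (.v 0) (.v 0)), (.m (.v 0) (.v 0))⟩,
  ⟨2, 0, [], 1, (.m (.v 4) (.m (.v 3) (.v 0))), (.v 1), (.v 2), (.m (.v 0) (.v 0)), (.m (.v 0) (.v 0))⟩,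
  ⟨2, 0, [], 1, (.m (.v 4) (.m (.v 2) (.v 1))), (.v 0), (.v 3), (.m (.v 0) (.v 0)), (.m (.v 0) (.v 0))⟩,
  ⟨2, 0, [], 1, (.m (.v 4) (.m (.v 3) (.v 1))), (.v 0), (.v 2), (.m (.v 0) (.v 0)), (.m (.v 0) (.v 0))⟩,
  ⟨2, 0, [.ml (.v 1), .mr (.v 3)], 0, (.v 2), (.v 4), (.v 0), (.m (.v 0) (.v 0)), (.m (.v 0) (.v 0))⟩,
  ⟨2, 0, [.ml (.v 1), .mr (.v 2)], 0, (.v 3), (.v 4), (.v 0), (.m (.v 0) (.v 0)), (.m (.v 0) (.v 0))⟩,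
  ⟨2, 0, [.ml (.v 0), .mr (.v 3)], 0, (.v 2), (.v 4), (.v 1), (.m (.v 0) (.v 0)), (.m (.v 0) (.v 0))⟩,
  ⟨2, 0, [.ml (.v 0), .mr (.v 2)], 0, (.v 3), (.v 4), (.v 1), (.m (.v 0) (.v 0)), (.m (.v 0) (.v 0))⟩,
  ⟨2, 0, [.ml (.v 1)], 1, (.v 2), (.m (.v 3) (.v 0)), (.v 4), (.m (.v 0) (.v 0)), (.m (.v 0) (.v 0))⟩,
  ⟨2, 0, [.ml (.v 1)], 1, (.v 3), (.m (.v 2) (.v 0)), (.v 4), (.m (.v 0) (.v 0)), (.m (.v 0) (.v 0))⟩,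
  ⟨2, 0, [.ml (.v 0)], 1, (.v 2), (.m (.v 3) (.v 1)), (.v 4), (.m (.v 0) (.v 0)), (.m (.v 0) (.v 0))⟩,
  ⟨2, 0, [.ml (.v 0)], 1, (.v 3), (.m (.v 2) (.v 1)), (.v 4), (.m (.v 0) (.v 0)), (.m (.v 0) (.v 0))⟩,
  ⟨2, 0, [], 1, (.v 4), (.m (.v 2) (.v 0)), (.m (.v 3) (.v 1)), (.m (.v 0) (.v 0)), (.m (.v 0) (.v 0))⟩,
  ⟨2, 0, [], 1, (.v 4), (.m (.v 2) (.v 1)), (.m (.v 3) (.v 0)), (.m (.v 0) (.v 0)), (.m (.v 0) (.v 0))⟩,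
  ⟨0, 2, [.mr (.v 4)], 0, (.m (.v 2) (.v 0)), (.v 3), (.v 1), (.m (.v 0) (.v 0)), (.m (.v 0) (.v 0))⟩,
  ⟨0, 2, [.mr (.v 4)], 0, (.m (.v 3) (.v 0)), (.v 2), (.v 1), (.m (.v 0) (.v 0)), (.m (.v 0) (.v 0))⟩,
  ⟨0, 2, [.mr (.v 4)], 0, (.m (.v 2) (.v 1)), (.v 3), (.v 0), (.m (.v 0) (.v 0)), (.m (.v 0) (.v 0))⟩,
  ⟨0, 2, [.mr (.v 4)], 0, (.m (.v 3) (.v 1)), (.v 2), (.v 0), (.m (.v 0) (.v 0)), (.m (.v 0) (.v 0))⟩]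
def cJ6 : List It := [⟨0, 3, [], 0, (.v 0), (.v 2), (.v 1), (.m (.v 0) (.v 0)), (.m (.v 0) (.v 0))⟩,
  ⟨2, 0, [], 1, (.v 2), (.v 0), (.v 1), (.m (.v 0) (.v 0)), (.m (.v 0) (.v 0))⟩,
  ⟨0, 1, [], 0, (.v 1), (.v 2), (.v 0), (.m (.v 0) (.v 0)), (.m (.v 0) (.v 0))⟩,
  ⟨4, 0, [], 1, (.v 0), (.v 1), (.v 2), (.m (.v 0) (.v 0)), (.m (.v 0) (.v 0))⟩,
  ⟨1, 0, [], 0, (.v 0), (.v 1), (.v 2), (.m (.v 0) (.v 0)), (.m (.v 0) (.v 0))⟩]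
def cPJ : List It := [⟨6, 0, [], 8, (.v 0), (.v 1), (.v 2), (.v 3), (.v 4)⟩,
  ⟨0, 2, [.jl (.b (.v 0) (.v 2))], 9, (.v 1), (.v 3), (.v 4), (.m (.v 0) (.v 0)), (.m (.v 0) (.v 0))⟩,
  ⟨0, 2, [.jl (.b (.v 0) (.v 3))], 9, (.v 1), (.v 2), (.v 4), (.m (.v 0) (.v 0)), (.m (.v 0) (.v 0))⟩,
  ⟨0, 2, [.jl (.b (.v 1) (.v 2))], 9, (.v 0), (.v 3), (.v 4), (.m (.v 0) (.v 0)), (.m (.v 0) (.v 0))⟩,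
  ⟨0, 2, [.jl (.b (.v 1) (.v 3))], 9, (.v 0), (.v 2), (.v 4), (.m (.v 0) (.v 0)), (.m (.v 0) (.v 0))⟩]
def cLJ : List It := [⟨6, 0, [], 6, (.v 0), (.v 1), (.v 2), (.v 3), (.m (.v 0) (.v 0))⟩,
  ⟨1, 0, [.jl (.v 0)], 9, (.v 1), (.v 2), (.v 3), (.m (.v 0) (.v 0)), (.m (.v 0) (.v 0))⟩,
  ⟨1, 0, [.jl (.v 1)], 9, (.v 0), (.v 2), (.v 3), (.m (.v 0) (.v 0)), (.m (.v 0) (.v 0))⟩]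
end Pool.Agent.H12.Alt
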