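import Pool.Agent.H12.Alt.Ids
import Pool.Agent.H12.Alt.Canon

/-! Parity patterns and the main certificate. -/

namespace Pool.Agent.H12.Alt

def pts : ℕ → List ℕ
  | 0 => [0, 1, 2, 3, 4, 5, 6, 7]
  | 1 => [0, 1, 2, 3, 4, 5, 6, 7]
  | 2 => [0, 1, 3, 4, 5, 6, 7, 8, 9, 10, 11, 12, 13, 15]
  | 3 => [0, 1, 3, 4, 5, 7, 8, 9, 11, 12, 13, 15]
  | 4 => [1, 2, 4, 7, 8, 11, 13, 14]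
  | 5 => [0, 1, 2, 3, 4, 5, 6, 7, 9, 10, 11, 12, 13, 14, 15]
  | 6 => [13, 14]
  | 7 => [8, 10, 12, 14, 15]
  | 8 => [1, 7, 13, 19, 21, 31]
  | 9 => [0, 1, 2, 3, 4, 5, 6, 7]
  | 10 => [1, 7, 13, 19, 21, 31]
  | _ => [13, 14]

/-- variables: 0 (odd) is the symmetrised generator, 1 (odd) the test element, 2 is even -/
def tgt2 : LC := [(36, 0, .s (.j (.b (.v 0) (.v 0)) (.b (.b (.v 0) (.v 0)) (.b (.v 0) (.v 2)))) (.v 1) (.v 1)), (48, 0, .s (.j (.b (.b (.v 0) (.v 0)) (.v 0)) (.b (.b (.v 0) (.v 0)) (.v 2))) (.v 1) (.v 1)), (0, 24, .s (.j (.b (.b (.v 0) (.v 0)) (.v 0)) (.b (.v 0) (.b (.v 0) (.v 2)))) (.v 1) (.v 1))]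

def cert2 : List It := [⟨6, 0, [], 11, (.b (.v 0) (.v 0)), (.b (.b (.v 0) (.v 0)) (.b (.v 0) (.v 2))), (.v 1), (.v 1), (.m (.v 0) (.v 0))⟩,
  ⟨8, 0, [], 11, (.b (.b (.v 0) (.v 0)) (.v 0)), (.b (.b (.v 0) (.v 0)) (.v 2)), (.v 1), (.v 1), (.m (.v 0) (.v 0))⟩,
  ⟨0, 4, [], 11, (.b (.b (.v 0) (.v 0)) (.v 0)), (.b (.v 0) (.b (.v 0) (.v 2))), (.v 1), (.v 1), (.m (.v 0) (.v 0))⟩,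
  ⟨0, 4, [], 10, (.v 0), (.b (.v 0) (.v 0)), (.v 2), (.b (.v 1) (.v 1)), (.b (.v 0) (.v 0))⟩,
  ⟨4, 0, [], 10, (.v 1), (.b (.v 0) (.v 2)), (.v 1), (.b (.v 0) (.v 0)), (.b (.v 0) (.v 0))⟩,
  ⟨2, 0, [], 10, (.v 1), (.v 2), (.v 1), (.b (.v 0) (.b (.v 0) (.v 0))), (.b (.v 0) (.v 0))⟩,
  ⟨4, 0, [], 10, (.v 1), (.b (.v 0) (.v 0)), (.v 2), (.b (.v 0) (.v 1)), (.b (.v 0) (.v 0))⟩,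
  ⟨0, 3, [], 10, (.v 0), (.b (.v 1) (.v 2)), (.v 1), (.b (.v 0) (.v 0)), (.b (.v 0) (.v 0))⟩,
  ⟨1, 0, [], 10, (.v 1), (.b (.v 0) (.b (.v 0) (.v 0))), (.v 2), (.b (.v 0) (.v 0)), (.v 1)⟩,
  ⟨0, 4, [], 10, (.v 0), (.b (.v 1) (.v 1)), (.v 2), (.b (.v 0) (.v 0)), (.b (.v 0) (.v 0))⟩,
  ⟨1, 0, [], 10, (.v 1), (.b (.v 0) (.v 1)), (.v 2), (.b (.v 0) (.v 0)), (.b (.v 0) (.v 0))⟩,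
  ⟨0, 1, [], 10, (.v 0), (.v 1), (.b (.v 1) (.v 2)), (.b (.v 0) (.v 0)), (.b (.v 0) (.v 0))⟩,
  ⟨2, 0, [], 10, (.v 0), (.v 1), (.v 1), (.b (.v 0) (.v 2)), (.b (.v 0) (.b (.v 0) (.v 0)))⟩,
  ⟨0, 2, [], 10, (.v 1), (.b (.v 0) (.v 1)), (.b (.v 0) (.v 2)), (.b (.v 0) (.v 0)), (.v 0)⟩,
  ⟨2, 0, [], 10, (.v 0), (.v 1), (.v 1), (.b (.v 2) (.b (.v 0) (.v 0))), (.b (.v 0) (.v 0))⟩,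
  ⟨0, 1, [], 10, (.v 0), (.v 1), (.v 1), (.b (.v 0) (.b (.v 2) (.b (.v 0) (.v 0)))), (.v 0)⟩,
  ⟨0, 1, [], 10, (.v 0), (.v 1), (.v 1), (.b (.v 2) (.b (.v 0) (.b (.v 0) (.v 0)))), (.v 0)⟩,
  ⟨0, 4, [], 10, (.v 0), (.b (.v 0) (.v 2)), (.b (.v 0) (.v 1)), (.b (.v 0) (.v 0)), (.v 1)⟩,
  ⟨0, 4, [], 10, (.v 0), (.b (.v 0) (.v 2)), (.v 1), (.b (.v 0) (.v 0)), (.b (.v 0) (.v 1))⟩,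
  ⟨0, 2, [], 10, (.v 0), (.b (.v 0) (.v 0)), (.v 1), (.b (.v 1) (.b (.v 0) (.v 2))), (.v 0)⟩,
  ⟨3, 0, [], 10, (.v 0), (.v 2), (.v 1), (.b (.v 1) (.b (.v 0) (.v 0))), (.b (.v 0) (.v 0))⟩,
  ⟨0, 1, [], 10, (.v 0), (.b (.v 0) (.v 0)), (.v 1), (.b (.v 2) (.b (.v 0) (.v 0))), (.v 1)⟩,
  ⟨2, 0, [], 10, (.v 0), (.v 1), (.v 1), (.b (.v 0) (.v 0)), (.b (.v 0) (.b (.v 0) (.v 2)))⟩,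
  ⟨2, 0, [], 10, (.v 0), (.b (.v 0) (.v 2)), (.v 1), (.b (.v 1) (.b (.v 0) (.v 0))), (.v 0)⟩,
  ⟨4, 0, [], 10, (.v 0), (.v 2), (.v 1), (.b (.v 0) (.v 0)), (.b (.v 1) (.b (.v 0) (.v 0)))⟩,
  ⟨3, 0, [], 10, (.v 0), (.v 1), (.v 0), (.b (.v 0) (.b (.v 2) (.b (.v 0) (.v 0)))), (.v 1)⟩,
  ⟨3, 0, [], 10, (.v 0), (.v 1), (.v 0), (.b (.v 2) (.b (.v 0) (.b (.v 0) (.v 0)))), (.v 1)⟩,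
  ⟨0, 8, [.jl (.b (.v 0) (.b (.v 0) (.v 0)))], 7, (.v 2), (.b (.v 0) (.v 0)), (.v 1), (.v 1), (.m (.v 0) (.v 0))⟩,
  ⟨8, 0, [.jl (.b (.v 0) (.b (.v 0) (.v 0)))], 7, (.b (.v 0) (.v 0)), (.v 2), (.v 1), (.v 1), (.m (.v 0) (.v 0))⟩,
  ⟨0, 4, [.jl (.b (.v 1) (.b (.v 1) (.b (.v 0) (.v 0))))], 7, (.v 2), (.v 0), (.v 0), (.v 0), (.m (.v 0) (.v 0))⟩,
  ⟨2, 0, [.jl (.b (.b (.v 1) (.v 1)) (.b (.v 0) (.v 0)))], 7, (.v 2), (.v 0), (.v 0), (.v 0), (.m (.v 0) (.v 0))⟩,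
  ⟨0, 2, [.jl (.b (.v 1) (.b (.v 0) (.b (.v 0) (.v 0))))], 7, (.v 2), (.v 0), (.v 0), (.v 1), (.m (.v 0) (.v 0))⟩,
  ⟨2, 0, [.jl (.b (.v 1) (.b (.v 0) (.b (.v 0) (.v 0))))], 7, (.v 2), (.v 0), (.v 1), (.v 0), (.m (.v 0) (.v 0))⟩,
  ⟨0, 2, [.jl (.b (.v 1) (.b (.v 0) (.b (.v 0) (.v 0))))], 7, (.v 2), (.v 1), (.v 0), (.v 0), (.m (.v 0) (.v 0))⟩,
  ⟨2, 0, [.jl (.b (.v 1) (.b (.v 2) (.b (.v 0) (.v 0))))], 7, (.v 1), (.v 0), (.v 0), (.v 0), (.m (.v 0) (.v 0))⟩,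
  ⟨0, 4, [.jl (.b (.v 1) (.b (.v 0) (.b (.v 2) (.v 0))))], 7, (.v 1), (.v 0), (.v 0), (.v 0), (.m (.v 0) (.v 0))⟩,
  ⟨8, 0, [.jl (.b (.v 0) (.b (.v 1) (.v 0))), .bl (.v 2)], 7, (.v 1), (.v 0), (.v 0), (.v 0), (.m (.v 0) (.v 0))⟩,
  ⟨8, 0, [.jl (.b (.v 0) (.b (.v 1) (.v 0)))], 7, (.v 2), (.v 0), (.b (.v 0) (.v 0)), (.v 1), (.m (.v 0) (.v 0))⟩,
  ⟨8, 0, [.jl (.b (.v 0) (.b (.v 1) (.v 0)))], 7, (.b (.v 0) (.v 0)), (.v 2), (.v 0), (.v 1), (.m (.v 0) (.v 0))⟩,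
  ⟨8, 0, [.jl (.b (.v 0) (.b (.v 1) (.v 0)))], 7, (.v 0), (.b (.v 2) (.v 1)), (.v 0), (.v 0), (.m (.v 0) (.v 0))⟩,
  ⟨0, 8, [.jl (.b (.v 0) (.b (.v 1) (.v 0)))], 7, (.v 2), (.v 1), (.b (.v 0) (.v 0)), (.v 0), (.m (.v 0) (.v 0))⟩,
  ⟨4, 0, [.jl (.b (.v 1) (.b (.v 0) (.v 0)))], 7, (.v 1), (.v 0), (.v 0), (.b (.v 2) (.v 0)), (.m (.v 0) (.v 0))⟩,
  ⟨2, 0, [.jl (.b (.v 1) (.b (.v 0) (.v 0)))], 7, (.v 2), (.v 0), (.b (.v 0) (.v 0)), (.v 1), (.m (.v 0) (.v 0))⟩,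
  ⟨2, 0, [.jl (.b (.v 1) (.b (.v 0) (.v 0)))], 7, (.v 2), (.b (.v 0) (.v 0)), (.v 1), (.v 0), (.m (.v 0) (.v 0))⟩,
  ⟨0, 4, [.jl (.b (.v 1) (.b (.v 0) (.v 0)))], 7, (.v 1), (.b (.v 2) (.v 0)), (.v 0), (.v 0), (.m (.v 0) (.v 0))⟩,
  ⟨4, 0, [.jl (.b (.v 1) (.b (.v 0) (.v 0))), .bl (.v 2)], 7, (.v 1), (.v 0), (.v 0), (.v 0), (.m (.v 0) (.v 0))⟩,
  ⟨2, 0, [.jl (.b (.v 1) (.b (.v 0) (.v 0)))], 7, (.b (.v 0) (.v 0)), (.v 2), (.v 0), (.v 1), (.m (.v 0) (.v 0))⟩,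
  ⟨4, 0, [.jl (.b (.v 1) (.b (.v 0) (.v 0)))], 7, (.v 0), (.b (.v 2) (.v 1)), (.v 0), (.v 0), (.m (.v 0) (.v 0))⟩,
  ⟨0, 2, [.jl (.b (.v 1) (.b (.v 0) (.v 0)))], 7, (.v 2), (.v 1), (.b (.v 0) (.v 0)), (.v 0), (.m (.v 0) (.v 0))⟩,
  ⟨8, 0, [.jl (.b (.v 2) (.b (.v 0) (.v 0)))], 7, (.b (.v 0) (.v 0)), (.v 0), (.v 1), (.v 1), (.m (.v 0) (.v 0))⟩,
  ⟨0, 8, [.jl (.b (.v 2) (.b (.v 0) (.v 0)))], 7, (.b (.v 0) (.v 0)), (.v 1), (.v 1), (.v 0), (.m (.v 0) (.v 0))⟩,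
  ⟨0, 6, [.jl (.b (.v 0) (.v 0))], 7, (.b (.v 0) (.v 0)), (.v 1), (.v 1), (.b (.v 2) (.v 0)), (.m (.v 0) (.v 0))⟩,
  ⟨0, 12, [.jl (.b (.v 0) (.v 0)), .bl (.v 1)], 7, (.v 2), (.v 1), (.b (.v 0) (.v 0)), (.v 0), (.m (.v 0) (.v 0))⟩,
  ⟨12, 0, [.jl (.b (.v 0) (.v 0)), .bl (.v 1)], 7, (.b (.v 0) (.v 0)), (.v 2), (.v 1), (.v 0), (.m (.v 0) (.v 0))⟩,
  ⟨6, 0, [.jl (.b (.v 0) (.v 0))], 7, (.b (.v 2) (.b (.v 0) (.v 0))), (.v 0), (.v 1), (.v 1), (.m (.v 0) (.v 0))⟩,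
  ⟨6, 0, [.jl (.b (.v 0) (.v 0))], 7, (.v 2), (.b (.v 0) (.b (.v 0) (.v 0))), (.v 1), (.v 1), (.m (.v 0) (.v 0))⟩,
  ⟨0, 6, [.jl (.b (.v 0) (.v 0))], 7, (.b (.v 0) (.v 0)), (.v 1), (.b (.v 2) (.v 0)), (.v 1), (.m (.v 0) (.v 0))⟩,
  ⟨6, 0, [.jl (.b (.v 0) (.v 0))], 7, (.b (.v 0) (.v 0)), (.b (.v 2) (.v 0)), (.v 1), (.v 1), (.m (.v 0) (.v 0))⟩,
  ⟨0, 6, [.jl (.b (.v 0) (.v 0))], 7, (.b (.v 2) (.b (.v 0) (.v 0))), (.v 1), (.v 0), (.v 1), (.m (.v 0) (.v 0))⟩,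
  ⟨0, 6, [.jl (.b (.v 0) (.v 0))], 7, (.b (.v 2) (.b (.v 0) (.v 0))), (.v 1), (.v 1), (.v 0), (.m (.v 0) (.v 0))⟩,
  ⟨6, 0, [.jl (.b (.v 0) (.v 0))], 7, (.v 2), (.b (.v 1) (.v 1)), (.b (.v 0) (.v 0)), (.v 0), (.m (.v 0) (.v 0))⟩,
  ⟨6, 0, [.jl (.b (.v 0) (.v 0))], 7, (.b (.v 2) (.b (.v 1) (.v 1))), (.v 0), (.v 0), (.v 0), (.m (.v 0) (.v 0))⟩,
  ⟨0, 6, [.jl (.b (.v 0) (.v 0))], 7, (.b (.v 0) (.v 0)), (.v 2), (.b (.v 1) (.v 1)), (.v 0), (.m (.v 0) (.v 0))⟩,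
  ⟨0, 6, [.jl (.b (.v 0) (.v 0))], 7, (.v 2), (.v 1), (.b (.v 0) (.b (.v 0) (.v 0))), (.v 1), (.m (.v 0) (.v 0))⟩,
  ⟨0, 6, [.jl (.b (.v 0) (.v 0)), .bl (.v 2)], 7, (.b (.v 1) (.v 1)), (.v 0), (.v 0), (.v 0), (.m (.v 0) (.v 0))⟩,
  ⟨12, 0, [.jl (.b (.v 0) (.v 0)), .bl (.v 1)], 7, (.v 0), (.b (.v 2) (.v 1)), (.v 0), (.v 0), (.m (.v 0) (.v 0))⟩,
  ⟨12, 0, [.jl (.b (.v 0) (.v 0)), .bl (.v 1), .bl (.v 2)], 7, (.v 1), (.v 0), (.v 0), (.v 0), (.m (.v 0) (.v 0))⟩,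
  ⟨0, 6, [.jl (.b (.v 0) (.v 0))], 7, (.v 2), (.v 1), (.v 1), (.b (.v 0) (.b (.v 0) (.v 0))), (.m (.v 0) (.v 0))⟩,
  ⟨0, 2, [.jl (.b (.v 0) (.b (.v 1) (.v 1)))], 7, (.v 0), (.v 0), (.v 0), (.b (.v 2) (.v 0)), (.m (.v 0) (.v 0))⟩,
  ⟨1, 0, [.jl (.b (.v 0) (.b (.v 1) (.v 1)))], 7, (.v 2), (.b (.v 0) (.v 0)), (.v 0), (.v 0), (.m (.v 0) (.v 0))⟩,
  ⟨1, 0, [.jl (.b (.v 0) (.b (.v 1) (.v 1)))], 7, (.v 2), (.v 0), (.b (.v 0) (.v 0)), (.v 0), (.m (.v 0) (.v 0))⟩,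
  ⟨0, 3, [.jl (.b (.v 0) (.b (.v 1) (.v 1)))], 7, (.b (.v 0) (.v 0)), (.v 2), (.v 0), (.v 0), (.m (.v 0) (.v 0))⟩,
  ⟨0, 4, [.jl (.b (.v 1) (.b (.v 1) (.v 0)))], 7, (.v 0), (.v 0), (.v 0), (.b (.v 2) (.v 0)), (.m (.v 0) (.v 0))⟩,
  ⟨2, 0, [.jl (.b (.v 1) (.b (.v 1) (.v 0)))], 7, (.v 2), (.b (.v 0) (.v 0)), (.v 0), (.v 0), (.m (.v 0) (.v 0))⟩,
  ⟨2, 0, [.jl (.b (.v 1) (.b (.v 1) (.v 0)))], 7, (.v 2), (.v 0), (.b (.v 0) (.v 0)), (.v 0), (.m (.v 0) (.v 0))⟩,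
  ⟨0, 6, [.jl (.b (.v 1) (.b (.v 1) (.v 0)))], 7, (.b (.v 0) (.v 0)), (.v 2), (.v 0), (.v 0), (.m (.v 0) (.v 0))⟩,
  ⟨0, 4, [.jl (.b (.v 1) (.b (.v 2) (.v 0)))], 7, (.b (.v 0) (.v 0)), (.v 0), (.v 0), (.v 1), (.m (.v 0) (.v 0))⟩,
  ⟨4, 0, [.jl (.b (.v 1) (.b (.v 2) (.v 0)))], 7, (.b (.v 0) (.v 0)), (.v 1), (.v 0), (.v 0), (.m (.v 0) (.v 0))⟩,
  ⟨4, 0, [.jl (.b (.v 1) (.v 0))], 7, (.b (.v 0) (.v 0)), (.v 0), (.b (.v 2) (.v 0)), (.v 1), (.m (.v 0) (.v 0))⟩,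
  ⟨0, 8, [.jl (.b (.v 1) (.v 0))], 7, (.b (.v 0) (.v 0)), (.v 0), (.v 1), (.b (.v 2) (.v 0)), (.m (.v 0) (.v 0))⟩,
  ⟨0, 6, [.jl (.b (.v 1) (.v 0))], 7, (.b (.v 0) (.v 0)), (.v 2), (.b (.v 0) (.v 0)), (.v 1), (.m (.v 0) (.v 0))⟩,
  ⟨4, 0, [.jl (.b (.v 1) (.v 0))], 7, (.b (.v 0) (.v 0)), (.v 1), (.b (.v 2) (.v 0)), (.v 0), (.m (.v 0) (.v 0))⟩,
  ⟨0, 8, [.jl (.b (.v 1) (.v 0))], 7, (.v 2), (.v 0), (.b (.v 1) (.b (.v 0) (.v 0))), (.v 0), (.m (.v 0) (.v 0))⟩,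
  ⟨0, 8, [.jl (.b (.v 1) (.v 0))], 7, (.b (.v 2) (.b (.v 0) (.v 0))), (.v 0), (.v 0), (.v 1), (.m (.v 0) (.v 0))⟩,
  ⟨8, 0, [.jl (.b (.v 1) (.v 0))], 7, (.b (.v 2) (.b (.v 0) (.v 0))), (.v 1), (.v 0), (.v 0), (.m (.v 0) (.v 0))⟩,
  ⟨0, 8, [.jl (.b (.v 1) (.v 0)), .bl (.v 1)], 7, (.v 0), (.v 0), (.v 0), (.b (.v 2) (.v 0)), (.m (.v 0) (.v 0))⟩,
  ⟨0, 8, [.jl (.b (.v 1) (.v 0)), .bl (.v 2)], 7, (.b (.v 0) (.v 0)), (.v 0), (.v 0), (.v 1), (.m (.v 0) (.v 0))⟩,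
  ⟨16, 0, [.jl (.b (.v 1) (.v 0))], 7, (.v 2), (.v 0), (.b (.v 0) (.b (.v 0) (.v 0))), (.v 1), (.m (.v 0) (.v 0))⟩,
  ⟨8, 0, [.jl (.b (.v 1) (.v 0)), .bl (.v 2)], 7, (.b (.v 0) (.v 0)), (.v 0), (.v 1), (.v 0), (.m (.v 0) (.v 0))⟩,
  ⟨0, 8, [.jl (.b (.v 1) (.v 0)), .bl (.v 0), .bl (.v 2)], 7, (.v 1), (.v 0), (.v 0), (.v 0), (.m (.v 0) (.v 0))⟩,
  ⟨0, 8, [.jl (.b (.v 1) (.v 0))], 7, (.v 2), (.b (.v 1) (.v 0)), (.b (.v 0) (.v 0)), (.v 0), (.m (.v 0) (.v 0))⟩,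
  ⟨0, 8, [.jl (.b (.v 1) (.v 0))], 7, (.b (.v 2) (.b (.v 1) (.v 0))), (.v 0), (.v 0), (.v 0), (.m (.v 0) (.v 0))⟩,
  ⟨8, 0, [.jl (.b (.v 1) (.v 0)), .bl (.v 2)], 7, (.b (.v 1) (.v 0)), (.v 0), (.v 0), (.v 0), (.m (.v 0) (.v 0))⟩,
  ⟨0, 16, [.jl (.b (.v 1) (.v 0)), .bl (.v 0)], 7, (.b (.v 0) (.v 0)), (.v 2), (.v 1), (.v 0), (.m (.v 0) (.v 0))⟩,
  ⟨0, 8, [.jl (.b (.v 1) (.v 0))], 7, (.b (.v 0) (.v 0)), (.v 0), (.b (.v 2) (.v 1)), (.v 0), (.m (.v 0) (.v 0))⟩,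
  ⟨8, 0, [.jl (.b (.v 1) (.v 0))], 7, (.b (.v 0) (.b (.v 2) (.v 1))), (.v 0), (.v 0), (.v 0), (.m (.v 0) (.v 0))⟩,
  ⟨8, 0, [.jl (.b (.v 1) (.v 0))], 7, (.b (.v 0) (.v 0)), (.v 2), (.b (.v 1) (.v 0)), (.v 0), (.m (.v 0) (.v 0))⟩,
  ⟨0, 8, [.jl (.b (.v 1) (.v 0))], 7, (.b (.v 1) (.v 0)), (.b (.v 0) (.v 0)), (.v 2), (.v 0), (.m (.v 0) (.v 0))⟩,
  ⟨0, 8, [.jl (.b (.v 1) (.v 0))], 7, (.v 2), (.v 0), (.v 1), (.b (.v 0) (.b (.v 0) (.v 0))), (.m (.v 0) (.v 0))⟩,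
  ⟨0, 8, [.jl (.b (.v 1) (.v 0))], 7, (.v 2), (.v 1), (.b (.v 0) (.b (.v 0) (.v 0))), (.v 0), (.m (.v 0) (.v 0))⟩,
  ⟨0, 8, [.jl (.b (.v 1) (.v 0))], 7, (.b (.v 0) (.v 0)), (.b (.v 0) (.v 0)), (.v 2), (.v 1), (.m (.v 0) (.v 0))⟩,
  ⟨8, 0, [.jl (.b (.v 1) (.v 0))], 7, (.v 2), (.v 1), (.v 0), (.b (.v 0) (.b (.v 0) (.v 0))), (.m (.v 0) (.v 0))⟩,
  ⟨1, 0, [.jl (.b (.v 2) (.b (.v 1) (.v 1)))], 7, (.b (.v 0) (.v 0)), (.v 0), (.v 0), (.v 0), (.m (.v 0) (.v 0))⟩,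
  ⟨0, 2, [.jl (.b (.v 1) (.b (.v 2) (.v 1)))], 7, (.b (.v 0) (.v 0)), (.v 0), (.v 0), (.v 0), (.m (.v 0) (.v 0))⟩,
  ⟨4, 0, [.jl (.b (.v 1) (.v 1)), .bl (.v 0)], 7, (.b (.v 0) (.v 0)), (.v 2), (.v 0), (.v 0), (.m (.v 0) (.v 0))⟩,
  ⟨0, 6, [.jl (.b (.v 1) (.v 1))], 7, (.b (.v 0) (.b (.v 2) (.v 0))), (.v 0), (.v 0), (.v 0), (.m (.v 0) (.v 0))⟩,
  ⟨2, 0, [.jl (.b (.v 1) (.v 1))], 7, (.b (.v 0) (.v 0)), (.b (.v 2) (.v 0)), (.v 0), (.v 0), (.m (.v 0) (.v 0))⟩,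
  ⟨2, 0, [.jl (.b (.v 1) (.v 1))], 7, (.b (.v 0) (.v 0)), (.v 0), (.v 0), (.b (.v 2) (.v 0)), (.m (.v 0) (.v 0))⟩,
  ⟨0, 7, [.jl (.b (.v 1) (.v 1))], 7, (.b (.v 0) (.v 0)), (.v 2), (.b (.v 0) (.v 0)), (.v 0), (.m (.v 0) (.v 0))⟩,
  ⟨1, 0, [.jl (.b (.v 1) (.v 1))], 7, (.v 2), (.b (.v 0) (.b (.v 0) (.v 0))), (.v 0), (.v 0), (.m (.v 0) (.v 0))⟩,
  ⟨0, 1, [.jl (.b (.v 1) (.v 1))], 7, (.v 2), (.v 0), (.b (.v 0) (.b (.v 0) (.v 0))), (.v 0), (.m (.v 0) (.v 0))⟩,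
  ⟨3, 0, [.jl (.b (.v 1) (.v 1))], 7, (.b (.v 2) (.b (.v 0) (.v 0))), (.v 0), (.v 0), (.v 0), (.m (.v 0) (.v 0))⟩,
  ⟨2, 0, [.jl (.b (.v 1) (.v 1))], 7, (.b (.v 0) (.v 0)), (.b (.v 0) (.v 0)), (.v 2), (.v 0), (.m (.v 0) (.v 0))⟩,
  ⟨1, 0, [.jl (.b (.v 1) (.v 1))], 7, (.v 2), (.v 0), (.v 0), (.b (.v 0) (.b (.v 0) (.v 0))), (.m (.v 0) (.v 0))⟩,
  ⟨0, 2, [.jl (.b (.v 1) (.v 1)), .bl (.v 2)], 7, (.b (.v 0) (.v 0)), (.v 0), (.v 0), (.v 0), (.m (.v 0) (.v 0))⟩,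
  ⟨0, 2, [.jl (.b (.v 2) (.v 1))], 7, (.b (.v 0) (.v 0)), (.v 0), (.b (.v 0) (.v 0)), (.v 1), (.m (.v 0) (.v 0))⟩]

end Pool.Agent.H12.Alt
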