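import Pool.Agent.H12.Alt.Eval
import Pool.Agent.H12.Alt.Env
import Mathlib.Algebra.Algebra.NonUnitalSubalgebra
import Mathlib.Algebra.FreeNonUnitalNonAssocAlgebra

/-! The model: a Grassmann envelope in which the nuclear element can be evaluated. -/

namespace Pool.Agent.H12.Alt

open TensorProduct

noncomputable section

section inst
variable (Φ : Type*) [CommRing Φ] (E : Type*) [Ring E] [Algebra Φ E]
variable (S : Type*) [NonUnitalNonAssocRing S]

instance trModule : Module Φ (TR E S) := inferInstanceAs (Module Φ (E ⊗[ℤ] S))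

instance trTower : IsScalarTower Φ (TR E S) (TR E S) :=
  inferInstanceAs (IsScalarTower Φ (E ⊗[ℤ] S) (E ⊗[ℤ] S))

instance trComm : SMulCommClass Φ (TR E S) (TR E S) :=
  inferInstanceAs (SMulCommClass Φ (E ⊗[ℤ] S) (E ⊗[ℤ] S))

variable {Φ E S}

theorem smul_tm (r : Φ) (g : E) (a : S) : r • (tm g a : TR E S) = tm (r • g) a := rfl

end inst

section
variable (Φ : Type*) [CommRing Φ]

/-- eight Grassmann generators -/
abbrev E8 := ExteriorAlgebra Φ (Fin 8 → Φ)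

/-- the envelope as an algebra -/
def envA : NonUnitalSubalgebra Φ (TR (E8 Φ) Sp) where
  carrier := env (extComm Φ (Fin 8 → Φ)) spAlt
  add_mem' := AddSubgroup.add_mem _
  zero_mem' := AddSubgroup.zero_mem _
  mul_mem' := env_mul _ _
  smul_mem' := by
    intro r x hx
    induction hx using AddSubgroup.closure_induction with
    | mem x hx =>
      obtain ⟨i, g, a, hg, ha, rfl⟩ := hx
      rw [smul_tm]
      exact tm_mem_env _ _ i _ _ (Submodule.smul_mem (eP Φ (Fin 8 → Φ) i) r hg) ha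
    | zero => rw [smul_zero]; exact AddSubgroup.zero_mem _
    | add x y _ _ h1 h2 => rw [smul_add]; exact AddSubgroup.add_mem _ h1 h2
    | neg x _ h1 => rw [smul_neg]; exact AddSubgroup.neg_mem _ h1

/-- coordinates -/
def spc (l : ℕ) : Sp →+ ℤ := (Finsupp.applyAddHom l : (ℕ →₀ ℤ) →+ ℤ)

theorem spc_bs (l : ℕ) : spc l (bs l) = 1 := Finsupp.single_eq_same

theorem sp_tf (z : Sp) (h : (2 : ℤ) • z = 0) : z = 0 := by
  refine Finsupp.ext fun i => ?_
  have h3 : spc i ((2 : ℤ) • z) = 0 := by rw [h, map_zero]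
  rw [map_zsmul, smul_eq_mul] at h3
  change spc i z = 0
  omega

theorem envA_left (a b : envA Φ) : associator a a b = 0 := by
  apply Subtype.ext
  exact env_sq_left (extComm Φ (Fin 8 → Φ)) spAlt sp_tf a.2 b.2

theorem envA_right (a b : envA Φ) : associator b a a = 0 := by
  apply Subtype.ext
  exact env_sq_right (extComm Φ (Fin 8 → Φ)) spAlt sp_tf a.2 b.2

/-- images of the odd variables -/
def mX (i : Fin 8) : TR (E8 Φ) Sp := tm (gn Φ 8 i) (bs 0)

/-- image of the even variable -/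
def mY : TR (E8 Φ) Sp := tm 1 (bs 21)

theorem mX_mem (i : Fin 8) : mX Φ i ∈ envA Φ := by
  have := bs_mem 0 (by norm_num)
  rw [odd_0] at this
  exact tm_mem_env _ _ true _ _ (gn_mem Φ 8 i) this

theorem mY_mem : mY Φ ∈ envA Φ := by
  have := bs_mem 21 (by norm_num)
  rw [odd_21] at this
  exact tm_mem_env _ _ false _ _ (one_mem_eP Φ _) this

/-- pure tensors of the generators -/
def th (i : Fin 5) : E7 ⊗[ℤ] E8 Φ :=
  xi (Fin.castLE (by decide) i) ⊗ₜ[ℤ] gn Φ 8 (Fin.castLE (by decide) i)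

theorem th_comm (i j : Fin 5) : Commute (th Φ i) (th Φ j) := by
  change th Φ i * th Φ j = th Φ j * th Φ i
  rw [th, th, Algebra.TensorProduct.tmul_mul_tmul, Algebra.TensorProduct.tmul_mul_tmul,
    gn_swap ℤ 7 (Fin.castLE _ i), gn_swap Φ 8 (Fin.castLE _ i), TensorProduct.neg_tmul,
    TensorProduct.tmul_neg, neg_neg]

theorem th_sq (i : Fin 5) : th Φ i * th Φ i = 0 := by
  rw [th, Algebra.TensorProduct.tmul_mul_tmul, gn_sq ℤ 7, TensorProduct.zero_tmul]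

theorem th_prod : (∑ i, th Φ i) ^ 5 = 120 * ((xi 0 * xi 1 * xi 2 * xi 3 * xi 4) ⊗ₜ[ℤ]
    (gn Φ 8 0 * gn Φ 8 1 * gn Φ 8 2 * gn Φ 8 3 * gn Φ 8 4)) := by
  rw [sum_pow_five (th Φ) (th_comm Φ) (th_sq Φ)]
  rw [th, th, th, th, th]
  simp only [Algebra.TensorProduct.tmul_mul_tmul]
  rfl

theorem lam_prod : lam (xi 0 * xi 1 * xi 2 * xi 3 * xi 4) = 1 := by
  have h := top_prod ℤ 7
  simp only [List.ofFn_succ, List.ofFn_zero, List.prod_cons, List.prod_nil] at h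
  rw [lam_apply, ← h]
  congr 1
  simp only [mul_assoc, mul_one]
  rfl

theorem sum_tm {E S ι : Type*} [Ring E] [NonUnitalNonAssocRing S] (s : Finset ι) (f : ι → E)
    (a : S) : tm (∑ i ∈ s, f i) a = ∑ i ∈ s, tm (f i) a := by
  change tmH (∑ i ∈ s, f i) a = ∑ i ∈ s, tmH (f i) a
  rw [map_sum, AddMonoidHom.finsetSum_apply]

theorem nuc_model : nuc (fun i : Fin 5 => mX Φ (Fin.castLE (by decide) i)) (mY Φ) =
    (120 : ℤ) • tm (gn Φ 8 0 * gn Φ 8 1 * gn Φ 8 2 * gn Φ 8 3 * gn Φ 8 4)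
      (nn (bs 0) (bs 21)) := by
  have e1 : tt (fun i : Fin 5 => mX Φ (Fin.castLE (by decide) i)) =
      asc (E8 Φ) Sp (tm (∑ i, th Φ i) (bs 0)) := by
    rw [sum_tm, map_sum, tt]
    rfl
  have e2 : xx (mY Φ) = asc (E8 Φ) Sp (tm 1 (bs 21)) := rfl
  rw [nuc, e1, e2, ← nn_map (asc (E8 Φ) Sp) asc_mul, nn_tm, ctr_asc, th_prod]
  have e3 : (120 : E7 ⊗[ℤ] E8 Φ) * ((xi 0 * xi 1 * xi 2 * xi 3 * xi 4) ⊗ₜ[ℤ]
    (gn Φ 8 0 * gn Φ 8 1 * gn Φ 8 2 * gn Φ 8 3 * gn Φ 8 4)) = (120 : ℤ) •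
    ((xi 0 * xi 1 * xi 2 * xi 3 * xi 4) ⊗ₜ[ℤ]
    (gn Φ 8 0 * gn Φ 8 1 * gn Φ 8 2 * gn Φ 8 3 * gn Φ 8 4)) := by
    rw [zsmul_eq_mul]; norm_cast
  rw [e3, map_zsmul, ctrE_tmul, lam_prod, one_smul, zsmul_tm]

/-- the product of all eight generators -/
def allG : E8 Φ := gn Φ 8 0 * gn Φ 8 1 * gn Φ 8 2 * gn Φ 8 3 * gn Φ 8 4 * gn Φ 8 5 * gn Φ 8 6 *
  gn Φ 8 7

theorem top_allG : top Φ 8 (allG Φ) = 1 := by
  have h := top_prod Φ 8
  simp only [List.ofFn_succ, List.ofFn_zero, List.prod_cons, List.prod_nil] at h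
  rw [← h, allG]
  congr 1
  simp only [mul_assoc, mul_one]
  rfl

/-- a separating functional -/
def sepF : TR (E8 Φ) Sp →+ Φ :=
  trLift
    { toFun := fun g => ((smulAddHom ℤ Φ).flip (top Φ 8 g)).comp (spc 96)
      map_zero' := by ext v; simp
      map_add' := fun g h => by ext v; simp }

theorem sepF_tm (g : E8 Φ) (v : Sp) : sepF Φ (tm g v) = spc 96 v • top Φ 8 g := rfl

theorem zsmul_assoc {S : Type*} [NonUnitalNonAssocRing S] (n : ℤ) (a b c : S) :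
    associator (n • a) b c = n • associator a b c := by
  simp only [associator_apply, smul_mul_assoc, smul_sub]

/-- the nuclear element of the model -/
def mN : TR (E8 Φ) Sp :=
  (24 : ℤ) • nuc (fun i : Fin 5 => mX Φ (Fin.castLE (by decide) i)) (mY Φ)

theorem model_val : associator ((mN Φ * mY Φ - mY Φ * mN Φ) * mX Φ 5 +
    (mN Φ * mY Φ - mY Φ * mN Φ) * mX Φ 5) (mX Φ 6) (mX Φ 7) =
    (552960 : ℤ) • tm (allG Φ) (bs 96) := by
  rw [mN, nuc_model, smul_smul, smul_mul_assoc, mul_smul_comm, ← smul_sub, smul_mul_assoc,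
    ← two_zsmul, smul_smul, zsmul_assoc, mY, mX, mX, mX, tm_mul, tm_mul, mul_one, one_mul, ← tm_sub,
    tm_mul, assoc_tm]
  have h := val_eq
  rw [cm] at h
  rw [h, tm_zsmul, smul_smul]
  rfl

theorem model_ne (hΦ : ((552960 : ℤ) : Φ) ≠ 0) :
    associator ((mN Φ * mY Φ - mY Φ * mN Φ) * mX Φ 5 +
    (mN Φ * mY Φ - mY Φ * mN Φ) * mX Φ 5) (mX Φ 6) (mX Φ 7) ≠ 0 := by
  intro h
  rw [model_val] at h
  have h2 := congrArg (sepF Φ) h
  rw [map_zsmul, sepF_tm, spc_bs, top_allG, one_smul, map_zero, zsmul_one] at h2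
  exact hΦ h2

end

end

end Pool.Agent.H12.Alt
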