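import Pool.Agent.H12.Alt.Ext
import Pool.Agent.H12.Alt.Super
import Mathlib.LinearAlgebra.ExteriorAlgebra.OfAlternating
import Mathlib.LinearAlgebra.Matrix.Determinant.Basic

/-! The nuclear element. -/

namespace Pool.Agent.H12.Alt

open TensorProduct

noncomputable section

/-- top form -/
def top (R : Type*) [CommRing R] (n : ℕ) : ExteriorAlgebra R (Fin n → R) →ₗ[R] R :=
  ExteriorAlgebra.liftAlternating (R := R) (M := Fin n → R) (N := R)
    (Pi.single (M := fun i => (Fin n → R) [⋀^Fin i]→ₗ[R] R) n Matrix.detRowAlternating)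

/-- generators -/
def gn (R : Type*) [CommRing R] (n : ℕ) (i : Fin n) : ExteriorAlgebra R (Fin n → R) :=
  ExteriorAlgebra.ι R (Pi.single i 1)

theorem top_prod (R : Type*) [CommRing R] (n : ℕ) :
    top R n (List.ofFn (gn R n)).prod = 1 := by
  have h : (List.ofFn (gn R n)).prod =
      ExteriorAlgebra.ιMulti R n (fun i => (Pi.single i 1 : Fin n → R)) := by
    rw [ExteriorAlgebra.ιMulti_apply]
    rfl
  rw [h, top, ExteriorAlgebra.liftAlternating_apply_ιMulti, Pi.single_eq_same]
  have : (fun i => (Pi.single i 1 : Fin n → R)) = (1 : Matrix (Fin n) (Fin n) R) := by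
    funext i j
    rw [Matrix.one_apply, Pi.single_apply]
    simp [eq_comm]
  change Matrix.det (fun i => (Pi.single i 1 : Fin n → R)) = 1
  rw [this]
  exact Matrix.det_one

theorem gn_mem (R : Type*) [CommRing R] (n : ℕ) (i : Fin n) :
    gn R n i ∈ (extComm R (Fin n → R)).P true := ι_mem R _ _

theorem gn_sq (R : Type*) [CommRing R] (n : ℕ) (i : Fin n) : gn R n i * gn R n i = 0 :=
  ExteriorAlgebra.ι_sq_zero _

theorem gn_swap (R : Type*) [CommRing R] (n : ℕ) (i j : Fin n) :
    gn R n i * gn R n j = - (gn R n j * gn R n i) := ι_swap R _ _ _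

abbrev E7 := ExteriorAlgebra ℤ (Fin 7 → ℤ)

/-- the generators of `E7` -/
abbrev xi (i : Fin 7) : E7 := gn ℤ 7 i

/-- the coefficient of `xi 0 * ... * xi 4` -/
def lam : E7 →+ ℤ := (top ℤ 7).toAddMonoidHom.comp (AddMonoidHom.mulRight (xi 5 * xi 6))

theorem lam_apply (g : E7) : lam g = top ℤ 7 (g * (xi 5 * xi 6)) := rfl

theorem assoc_zero {S : Type*} [NonUnitalNonAssocRing S] (a b : S) : associator 0 a b = 0 := by
  simp [associator_apply]

theorem assoc_add {S : Type*} [NonUnitalNonAssocRing S] (u v a b : S) :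
    associator (u + v) a b = associator u a b + associator v a b := by
  simp only [associator_apply, add_mul]
  abel

section A
variable {A : Type*} [NonUnitalNonAssocRing A]

/-- contraction -/
def ctr (A : Type*) [NonUnitalNonAssocRing A] (f : E7 →+ ℤ) : TR E7 A →+ A :=
  trLift ((smulAddHom ℤ A).comp f)

theorem ctr_tm (f : E7 →+ ℤ) (g : E7) (a : A) : ctr A f (tm g a) = f g • a := rfl

def tt (X : Fin 5 → A) : TR E7 A := ∑ i : Fin 5, tm (xi (Fin.castLE (by decide) i)) (X i)
def ss (a b : A) : TR E7 A := tm (xi 5) a + tm (xi 6) b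
def xx (Y : A) : TR E7 A := tm (1 : E7) Y

/-- 12 times the skew-symmetrisation of the nuclear polynomial, up to a constant -/
def nuc (X : Fin 5 → A) (Y : A) : A := ctr A lam (nn (tt X) (xx Y))

theorem ctr_assoc (u : TR E7 A) (a b : A) :
    ctr A (top ℤ 7).toAddMonoidHom (associator u (tm (xi 5) a) (tm (xi 6) b)) =
      associator (ctr A lam u) a b := by
  induction u using tr_ind with
  | h1 g c =>
    rw [assoc_tm, ctr_tm, ctr_tm, lam_apply, mul_assoc]
    simp [associator_apply, smul_mul_assoc, smul_sub]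
  | h2 u v hu hv =>
    rw [assoc_add, map_add, map_add, assoc_add, hu, hv]

theorem assoc_ss (hr : ∀ a b : A, associator b a a = 0) (u : TR E7 A) (a b : A) :
    associator u (ss a b) (ss a b) = (2 : ℤ) • associator u (tm (xi 5) a) (tm (xi 6) b) := by
  induction u using tr_ind with
  | h1 g c =>
    have e : associator (tm g c) (ss a b) (ss a b) =
        associator (tm g c) (tm (xi 5) a) (tm (xi 5) a) +
        associator (tm g c) (tm (xi 5) a) (tm (xi 6) b) +
        associator (tm g c) (tm (xi 6) b) (tm (xi 5) a) +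
        associator (tm g c) (tm (xi 6) b) (tm (xi 6) b) := by
      simp only [associator_apply, ss, add_mul, mul_add]
      abel
    rw [e]
    simp only [assoc_tm]
    rw [alt_right hr c a b, mul_assoc g (xi 5) (xi 5), mul_assoc g (xi 6) (xi 6),
      mul_assoc g (xi 6) (xi 5), gn_sq, gn_sq, gn_swap ℤ 7 6 5, mul_neg, mul_zero,
      zero_tm, zero_tm, neg_tm, tm_neg, neg_neg, ← mul_assoc]
    module
  | h2 u v hu hv =>
    rw [assoc_add, assoc_add, hu, hv, smul_add]

theorem nuc_assoc (hl : ∀ a b : A, associator a a b = 0) (hr : ∀ a b : A, associator b a a = 0)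
    (X : Fin 5 → A) (Y a b : A) : (24 : ℤ) • associator (nuc X Y) a b = 0 := by
  set C := extComm ℤ (Fin 7 → ℤ)
  have ht : tt X ∈ (superAltTensor C hl hr).P true :=
    AddSubgroup.sum_mem _ fun i _ => tm_mem_tP C true _ (gn_mem ℤ 7 _) _
  have hs : ss a b ∈ (superAltTensor C hl hr).P true :=
    AddSubgroup.add_mem _ (tm_mem_tP C true _ (gn_mem ℤ 7 _) _)
      (tm_mem_tP C true _ (gn_mem ℤ 7 _) _)
  have hx : xx Y ∈ (superAltTensor C hl hr).P false :=
    tm_mem_tP C false _ (one_mem_eP ℤ _) _
  have h := nn_super (superAltTensor C hl hr) (tt X) (ss a b) (xx Y) ht hs hx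
  rw [assoc_ss hr, smul_smul] at h
  have h2 := congrArg (ctr A (top ℤ 7).toAddMonoidHom) h
  rw [map_zsmul, map_zero, ctr_assoc] at h2
  exact h2

end A

end

end Pool.Agent.H12.Alt
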