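import Pool.Agent.H12.Alt.TblChk

/-! Kernel evaluation of the right alternative law. -/

namespace Pool.Agent.H12.Alt
set_option maxRecDepth 1000000

theorem right_ok : loop chkRi 0 97 = true := by decide +kernel

end Pool.Agent.H12.Alt
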