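import Pool.Agent.H12.Alt.Engine
import Mathlib.RingTheory.TensorProduct.Basic

/-! Tensor products with supercommutative rings. -/

namespace Pool.Agent.H12.Alt

open TensorProduct

/-- A parity decomposition making an associative ring supercommutative. -/
structure SuperComm (E : Type*) [Ring E] where
  P : Bool → AddSubgroup E
  mul_mem : ∀ (i j : Bool) (a b : E), a ∈ P i → b ∈ P j → a * b ∈ P (xor i j)
  comm : ∀ (i j : Bool) (a b : E), a ∈ P i → b ∈ P j → a * b = sgz i j • (b * a)
  odd_sq : ∀ a ∈ P true, a * a = 0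

theorem sgz_sq (i j : Bool) : sgz i j * sgz i j = 1 := by cases i <;> cases j <;> rfl

section tri
variable {S T : Type*} [AddCommGroup S] [AddCommGroup T]

theorem tri_zero (f : S →+ S →+ S →+ T) (X Y Z : Set S)
    (h : ∀ a ∈ X, ∀ b ∈ Y, ∀ d ∈ Z, f a b d = 0) {a b d : S} (ha : a ∈ AddSubgroup.closure X)
    (hb : b ∈ AddSubgroup.closure Y) (hd : d ∈ AddSubgroup.closure Z) : f a b d = 0 := by
  have h1 : ∀ a ∈ X, ∀ b ∈ Y, ∀ d ∈ AddSubgroup.closure Z, f a b d = 0 := by
    intro a ha b hb
    have : AddSubgroup.closure Z ≤ (f a b).ker :=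
      (AddSubgroup.closure_le _).mpr fun d hd => h a ha b hb d hd
    exact fun d hd => this hd
  have h2 : ∀ a ∈ X, ∀ b ∈ AddSubgroup.closure Y, ∀ d ∈ AddSubgroup.closure Z, f a b d = 0 := by
    intro a ha b hb d hd
    have : AddSubgroup.closure Y ≤ ((f a).flip d).ker :=
      (AddSubgroup.closure_le _).mpr fun b hb => h1 a ha b hb d hd
    exact this hb
  have : AddSubgroup.closure X ≤ ((f.flip b).flip d).ker :=
    (AddSubgroup.closure_le _).mpr fun a ha => h2 a ha b hb d hd
  exact this ha

theorem bi_mem (f : S →+ S →+ T) (X Y : Set S) (Z : AddSubgroup T)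
    (h : ∀ a ∈ X, ∀ b ∈ Y, f a b ∈ Z) {a b : S} (ha : a ∈ AddSubgroup.closure X)
    (hb : b ∈ AddSubgroup.closure Y) : f a b ∈ Z := by
  have h1 : ∀ a ∈ X, ∀ b ∈ AddSubgroup.closure Y, f a b ∈ Z := by
    intro a ha b hb
    have : AddSubgroup.closure Y ≤ Z.comap (f a) :=
      (AddSubgroup.closure_le _).mpr fun b hb => h a ha b hb
    exact this hb
  have : AddSubgroup.closure X ≤ Z.comap (f.flip b) :=
    (AddSubgroup.closure_le _).mpr fun a ha => h1 a ha b hb
  exact this ha

end tri

section ring
variable {S : Type*} [NonUnitalNonAssocRing S]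

/-- the associator as a triadditive map -/
def as3 : S →+ S →+ S →+ S := AddMonoidHom.associator

/-- first two arguments exchanged -/
def as3l : S →+ S →+ S →+ S := as3.flip

/-- last two arguments exchanged -/
def as3r : S →+ S →+ S →+ S where
  toFun a := (as3 a).flip
  map_zero' := by
    ext b c
    simp
  map_add' a a' := by
    ext b c
    simp

theorem as3_apply (a b c : S) : as3 a b c = associator a b c := rfl
theorem as3l_apply (a b c : S) : as3l a b c = associator b a c := rfl
theorem as3r_apply (a b c : S) : as3r a b c = associator a c b := rfl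

theorem alt_left (hl : ∀ a b : S, associator a a b = 0) (a b c : S) :
    associator b a c = - associator a b c := by
  have h : as3 (a + b) (a + b) c = 0 := hl (a + b) c
  have h1 : as3 a a c = 0 := hl a c
  have h2 : as3 b b c = 0 := hl b c
  simp only [map_add, AddMonoidHom.add_apply, h1, h2, zero_add, add_zero] at h
  rw [as3_apply, as3_apply] at h
  exact eq_neg_of_add_eq_zero_left h

theorem alt_right (hr : ∀ a b : S, associator b a a = 0) (a b c : S) :
    associator a c b = - associator a b c := by
  have h : as3 a (b + c) (b + c) = 0 := hr (b + c) a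
  have h1 : as3 a b b = 0 := hr b a
  have h2 : as3 a c c = 0 := hr c a
  simp only [map_add, AddMonoidHom.add_apply, h1, h2, zero_add, add_zero] at h
  rw [as3_apply, as3_apply] at h
  exact eq_neg_of_add_eq_zero_left h

end ring

section tensor

/-- tensor product of rings as a ring -/
def TR (E S : Type*) [Ring E] [NonUnitalNonAssocRing S] : Type _ := E ⊗[ℤ] S

noncomputable section

variable {E : Type*} [Ring E] {A : Type*} [NonUnitalNonAssocRing A]

instance : NonUnitalNonAssocRing (TR E A) :=
  inferInstanceAs (NonUnitalNonAssocRing (E ⊗[ℤ] A))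

/-- pure tensors -/
def tm (g : E) (a : A) : TR E A := g ⊗ₜ[ℤ] a

theorem tm_mul (g h : E) (a b : A) : tm g a * tm h b = tm (g * h) (a * b) :=
  Algebra.TensorProduct.tmul_mul_tmul g h a b

theorem tm_add (g : E) (a b : A) : tm g (a + b) = tm g a + tm g b := TensorProduct.tmul_add g a b

theorem add_tm (g h : E) (a : A) : tm (g + h) a = tm g a + tm h a := TensorProduct.add_tmul g h a

theorem tm_zero (g : E) : tm g (0 : A) = 0 := TensorProduct.tmul_zero A g

theorem zero_tm (a : A) : tm (0 : E) a = 0 := TensorProduct.zero_tmul E a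

/-- pure tensors as a biadditive map -/
def tmH : E →+ A →+ TR E A where
  toFun g := { toFun := fun a => tm g a, map_zero' := tm_zero g, map_add' := tm_add g }
  map_zero' := by ext a; exact zero_tm a
  map_add' g h := by ext a; exact add_tm g h a

theorem tmH_apply (g : E) (a : A) : tmH g a = tm g a := rfl

theorem tm_neg (g : E) (a : A) : tm g (-a) = - tm g a := map_neg (tmH g) a
theorem neg_tm (g : E) (a : A) : tm (-g) a = - tm g a := DFunLike.congr_fun (map_neg tmH g) a
theorem tm_sub (g : E) (a b : A) : tm g (a - b) = tm g a - tm g b := map_sub (tmH g) a b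
theorem tm_zsmul (n : ℤ) (g : E) (a : A) : tm g (n • a) = n • tm g a := map_zsmul (tmH g) n a
theorem zsmul_tm (n : ℤ) (g : E) (a : A) : tm (n • g) a = n • tm g a :=
  DFunLike.congr_fun (map_zsmul tmH n g) a

theorem tr_ind {p : TR E A → Prop} (h1 : ∀ g a, p (tm g a)) (h2 : ∀ u v, p u → p v → p (u + v))
    (u : TR E A) : p u := by
  refine TensorProduct.induction_on (motive := p) u ?_ h1 h2
  have := h1 0 0
  rwa [tm_zero] at this

/-- additive maps from a tensor product -/
def trLift {G : Type*} [AddCommGroup G] (f : E →+ A →+ G) : TR E A →+ G :=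
  TensorProduct.liftAddHom (R := ℤ) (M := E) (N := A) (P := G) f (fun r g a => by
    rw [map_zsmul, map_zsmul]; rfl)

theorem trLift_tm {G : Type*} [AddCommGroup G] (f : E →+ A →+ G) (g : E) (a : A) :
    trLift f (tm g a) = f g a := rfl

theorem assoc_tm (g h k : E) (a b c : A) :
    associator (tm g a) (tm h b) (tm k c) = tm (g * h * k) (associator a b c) := by
  simp only [associator_apply, tm_mul, tm_sub, mul_assoc]

/-- homogeneous parts of a tensor product -/
def tP (C : SuperComm E) (A : Type*) [NonUnitalNonAssocRing A] (i : Bool) :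
    AddSubgroup (TR E A) :=
  AddSubgroup.closure {z | ∃ g ∈ C.P i, ∃ a : A, z = tm g a}

theorem tm_mem_tP (C : SuperComm E) (i : Bool) (g : E) (hg : g ∈ C.P i) (a : A) :
    tm g a ∈ tP C A i := AddSubgroup.subset_closure ⟨g, hg, a, rfl⟩

/-- The tensor product of a supercommutative ring with an alternative ring is super-alternative. -/
def superAltTensor (C : SuperComm E) (hl : ∀ a b : A, associator a a b = 0)
    (hr : ∀ a b : A, associator b a a = 0) : SuperAlt (TR E A) where
  P := tP C A
  mul_mem := by
    intro i j a b ha hb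
    refine bi_mem (AddMonoidHom.mul (R := TR E A)) _ _ _ ?_ ha hb
    rintro _ ⟨g, hg, a, rfl⟩ _ ⟨h, hh, b, rfl⟩
    rw [AddMonoidHom.mul_apply, tm_mul]
    exact tm_mem_tP C _ _ (C.mul_mem _ _ _ _ hg hh) _
  left := by
    intro i j k a b c ha hb hc
    change (as3 (S := TR E A) + sgz i j • as3l (S := TR E A)) a b c = 0
    refine tri_zero _ _ _ _ ?_ ha hb hc
    rintro _ ⟨g, hg, a, rfl⟩ _ ⟨h, hh, b, rfl⟩ _ ⟨k, hk, c, rfl⟩
    have e1 := alt_left hl a b c
    have e2 : h * g = sgz i j • (g * h) := by
      rw [C.comm i j g h hg hh, smul_smul, sgz_sq, one_smul]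
    change associator (tm g a) (tm h b) (tm k c) +
      sgz i j • associator (tm h b) (tm g a) (tm k c) = 0
    rw [assoc_tm, assoc_tm, e1, e2, smul_mul_assoc, zsmul_tm, smul_smul,
      sgz_sq, one_smul, tm_neg, add_neg_cancel]
  right := by
    intro i j k a b c ha hb hc
    change (as3 (S := TR E A) + sgz j k • as3r (S := TR E A)) a b c = 0
    refine tri_zero _ _ _ _ ?_ ha hb hc
    rintro _ ⟨g, hg, a, rfl⟩ _ ⟨h, hh, b, rfl⟩ _ ⟨l, hl', c, rfl⟩
    have e1 := alt_right hr a b c
    have e2 : l * h = sgz j k • (h * l) := by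
      rw [C.comm j k h l hh hl', smul_smul, sgz_sq, one_smul]
    change associator (tm g a) (tm h b) (tm l c) +
      sgz j k • associator (tm g a) (tm l c) (tm h b) = 0
    rw [assoc_tm, assoc_tm, e1, mul_assoc g l h, e2, mul_smul_comm, ← mul_assoc,
      zsmul_tm, smul_smul, sgz_sq, one_smul, tm_neg, add_neg_cancel]

end

end tensor

end Pool.Agent.H12.Alt
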