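import Pool.Agent.H12.Alt.TblKer
import Pool.Agent.H12.Alt.TblKerL
import Pool.Agent.H12.Alt.TblKerR
import Pool.Agent.H12.Alt.Tensor
import Mathlib.Data.Finsupp.Basic
import Mathlib.Algebra.BigOperators.Finsupp.Basic

/-! The finite-dimensional super-alternative ring. -/

namespace Pool.Agent.H12.Alt

noncomputable section

/-- value of a sparse vector -/
def evV {M : Type*} [AddCommGroup M] (f : ℕ → M) : Vc → M
  | [] => 0
  | (p, m, l) :: t => ((p : ℤ) - (m : ℤ)) • f l + evV f t

section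
variable {M N : Type*} [AddCommGroup M] [AddCommGroup N]

theorem evV_cons (f : ℕ → M) (p m l : ℕ) (t : Vc) :
    evV f ((p, m, l) :: t) = ((p : ℤ) - (m : ℤ)) • f l + evV f t := rfl

theorem evV_hom (φ : M →+ N) (f : ℕ → M) (v : Vc) : φ (evV f v) = evV (fun l => φ (f l)) v := by
  induction v with
  | nil => exact map_zero φ
  | cons x t ih =>
    obtain ⟨p, m, l⟩ := x
    rw [evV_cons, evV_cons, map_add, map_zsmul, ih]

theorem ev_accV (f : ℕ → M) (c d : ℕ) (v : Vc) (t : BT) :
    (accV c d v t).ev f = ((c : ℤ) - (d : ℤ)) • evV f v + t.ev f := by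
  induction v generalizing t with
  | nil => simp [accV, evV]
  | cons x v ih =>
    obtain ⟨p, m, l⟩ := x
    have : accV c d ((p, m, l) :: v) t = accV c d v (BT.ins l (Nat.add (Nat.mul c p) (Nat.mul d m))
      (Nat.add (Nat.mul c m) (Nat.mul d p)) t) := rfl
    rw [this, ih, BT.ev_ins, evV_cons, smul_add, smul_smul]
    have e : (((Nat.add (Nat.mul c p) (Nat.mul d m) : ℕ) : ℤ) -
      ((Nat.add (Nat.mul c m) (Nat.mul d p) : ℕ) : ℤ)) = ((c : ℤ) - d) * ((p : ℤ) - m) := by
      simp only [Nat.add_eq, Nat.mul_eq, Nat.cast_add, Nat.cast_mul]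
      ring
    rw [e]
    abel

theorem ev_lin (f : ℕ → M) (c d : ℕ) (g : ℕ → Vc) (v : Vc) (t : BT) :
    (lin c d g v t).ev f = ((c : ℤ) - (d : ℤ)) • evV (fun m => evV f (g m)) v + t.ev f := by
  induction v generalizing t with
  | nil => simp [lin, evV]
  | cons x v ih =>
    obtain ⟨p, m, l⟩ := x
    have : lin c d g ((p, m, l) :: v) t = lin c d g v (accV (Nat.add (Nat.mul c p) (Nat.mul d m))
      (Nat.add (Nat.mul c m) (Nat.mul d p)) (g l) t) := rfl
    rw [this, ih, ev_accV, evV_cons, smul_add, smul_smul]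
    have e : (((Nat.add (Nat.mul c p) (Nat.mul d m) : ℕ) : ℤ) -
      ((Nat.add (Nat.mul c m) (Nat.mul d p) : ℕ) : ℤ)) = ((c : ℤ) - d) * ((p : ℤ) - m) := by
      simp only [Nat.add_eq, Nat.mul_eq, Nat.cast_add, Nat.cast_mul]
      ring
    rw [e]
    abel

end

theorem loop_spec (f : ℕ → Bool) (st n : ℕ) (h : loop f st n = true) (k : ℕ) (h1 : st ≤ k)
    (h2 : k < st + n) : f k = true := by
  induction n with
  | zero => omega
  | succ n ih =>
    have h' : cond (f (Nat.add st n)) (loop f st n) false = true := h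
    cases hf : f (Nat.add st n) with
    | false => rw [hf] at h'; exact absurd h' Bool.false_ne_true
    | true =>
      rw [hf, cond_true] at h'
      by_cases hk : k = st + n
      · rw [hk]; exact hf
      · exact ih h' (by omega)

theorem cond_true' {a b : Bool} (h : cond a b false = true) : a = true ∧ b = true := by
  cases a
  · exact absurd h Bool.false_ne_true
  · exact ⟨rfl, h⟩

theorem rng_spec (k : ℕ) (hk : k < 97) : xd k ≤ 2 ∧ td k ≤ 8 ∧ ∀ b, b ≤ 8 → td k ≤ b →
    stt (xd k) ≤ k ∧ k < stt (xd k) + cnt (xd k) b := by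
  have h := loop_spec rng1 0 97 rng_ok k (Nat.zero_le _) (by omega)
  obtain ⟨h1, h⟩ := cond_true' h
  obtain ⟨h2, h⟩ := cond_true' h
  refine ⟨Nat.ble_eq.mp h1, Nat.ble_eq.mp h2, fun b hb hk' => ?_⟩
  have h3 := loop_spec (rng k) 0 9 h b (Nat.zero_le _) (by omega)
  unfold rng at h3
  rw [Nat.ble_eq.mpr hk', cond_true] at h3
  obtain ⟨h4, h5⟩ := cond_true' h3
  exact ⟨Nat.ble_eq.mp h4, Nat.blt_eq.mp h5⟩

theorem loop3_spec (f : ℕ → Bool) (a b : ℕ) (h : loop3 f a b = true) (k : ℕ) (hk : k < 97)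
    (ha : a + xd k ≤ 2) (hb : b + td k ≤ 8) : f k = true := by
  obtain ⟨h1, h2, h3⟩ := rng_spec k hk
  obtain ⟨h4, h5⟩ := h3 (8 - b) (by omega) (by omega)
  unfold loop3 at h
  rw [Nat.ble_eq.mpr (show b ≤ 8 by omega), cond_true, Nat.ble_eq.mpr (show a ≤ 2 by omega),
    cond_true] at h
  obtain ⟨g0, h⟩ := cond_true' h
  have hx : xd k = 0 ∨ xd k = 1 ∨ xd k = 2 := by omega
  rcases hx with hx | hx | hx
  · rw [hx] at h4 h5
    exact loop_spec f 0 _ g0 k h4 h5
  · rw [Nat.ble_eq.mpr (show a ≤ 1 by omega), cond_true] at h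
    obtain ⟨g1, h⟩ := cond_true' h
    rw [hx] at h4 h5
    exact loop_spec f 21 _ g1 k h4 h5
  · rw [Nat.ble_eq.mpr (show a ≤ 1 by omega), cond_true] at h
    obtain ⟨g1, h⟩ := cond_true' h
    rw [Nat.ble_eq.mpr (show a ≤ 0 by omega), cond_true] at h
    rw [hx] at h4 h5
    exact loop_spec f 64 _ h k h4 h5

theorem grd_spec (i j : ℕ) (hi : i < 97) (hj : j < 97) :
    ∀ x ∈ rw' i j, x.2.2 < 97 ∧ xd x.2.2 = xd i + xd j ∧ td x.2.2 = td i + td j := by
  have h := loop_spec grd1 0 97 grd_ok i (Nat.zero_le _) (by omega)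
  have h := loop_spec (grd2 i) 0 97 h j (Nat.zero_le _) (by omega)
  have key : ∀ (a b : ℕ) (v : Vc), grd a b v = true →
      ∀ x ∈ v, x.2.2 < 97 ∧ xd x.2.2 = a ∧ td x.2.2 = b := by
    intro a b v hv
    induction v with
    | nil => intro x hx; exact absurd hx List.not_mem_nil
    | cons y t ih =>
      obtain ⟨h1, hv⟩ := cond_true' hv
      obtain ⟨h2, hv⟩ := cond_true' hv
      obtain ⟨h3, hv⟩ := cond_true' hv
      intro x hx
      rcases List.mem_cons.mp hx with rfl | hx
      · exact ⟨Nat.blt_eq.mp h1, Nat.eq_of_beq_eq_true h2, Nat.eq_of_beq_eq_true h3⟩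
      · exact ih hv x hx
  exact key _ _ _ h

/-- product of two basis vectors -/
def bb (i j : ℕ) : ℕ →₀ ℤ := evV (fun l => Finsupp.single l 1) (rw' i j)

/-- the multiplication -/
def mS : (ℕ →₀ ℤ) →+ (ℕ →₀ ℤ) →+ (ℕ →₀ ℤ) :=
  Finsupp.liftAddHom fun i => zmultiplesHom ((ℕ →₀ ℤ) →+ (ℕ →₀ ℤ))
    (Finsupp.liftAddHom fun j => zmultiplesHom (ℕ →₀ ℤ) (bb i j))

theorem mS_single (i j : ℕ) : mS (Finsupp.single i 1) (Finsupp.single j 1) = bb i j := by
  simp [mS]

/-- the underlying group -/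
def Sp : Type := ℕ →₀ ℤ

instance : AddCommGroup Sp := inferInstanceAs (AddCommGroup (ℕ →₀ ℤ))

/-- basis vectors -/
def bs (i : ℕ) : Sp := (Finsupp.single i 1 : ℕ →₀ ℤ)

instance : NonUnitalNonAssocRing Sp where
  mul a b := mS a b
  left_distrib a b c := map_add (mS a) b c
  right_distrib a b c := DFunLike.congr_fun (map_add mS a b) c
  zero_mul a := DFunLike.congr_fun (map_zero mS) a
  mul_zero a := map_zero (mS a)

theorem bs_mul (i j : ℕ) : bs i * bs j = evV bs (rw' i j) := mS_single i j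

theorem evV_mul (f : ℕ → Sp) (v : Vc) (b : Sp) : evV f v * b = evV (fun l => f l * b) v :=
  evV_hom (AddMonoidHom.mulRight b) f v

theorem mul_evV (f : ℕ → Sp) (v : Vc) (b : Sp) : b * evV f v = evV (fun l => b * f l) v :=
  evV_hom (AddMonoidHom.mulLeft b) f v

theorem evV_congr {M : Type*} [AddCommGroup M] (f g : ℕ → M) (v : Vc)
    (h : ∀ x ∈ v, f x.2.2 = g x.2.2) : evV f v = evV g v := by
  induction v with
  | nil => rfl
  | cons x t ih =>
    obtain ⟨a, b, l⟩ := x
    rw [evV_cons, evV_cons, ih (fun y hy => h y (List.mem_cons_of_mem _ hy)),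
      h (a, b, l) List.mem_cons_self]

theorem assoc_bs (i j k : ℕ) : associator (bs i) (bs j) (bs k) =
    evV (fun m => evV bs (rw' m k)) (rw' i j) - evV (fun m => evV bs (rw' i m)) (rw' j k) := by
  rw [associator_apply, bs_mul, bs_mul, evV_mul, mul_evV]
  congr 1
  · exact evV_congr _ _ _ fun x _ => bs_mul _ _
  · exact evV_congr _ _ _ fun x _ => bs_mul _ _

/-- products beyond the range vanish -/
theorem out_range (i j k : ℕ) (hi : i < 97) (hj : j < 97) (hk : k < 97)
    (h : ¬ (xd i + xd j + xd k ≤ 2 ∧ td i + td j + td k ≤ 8)) :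
    associator (bs i) (bs j) (bs k) = 0 := by
  have e : ∀ m n : ℕ, m < 97 → n < 97 → ¬ (xd m + xd n ≤ 2 ∧ td m + td n ≤ 8) → rw' m n = [] := by
    intro m n hm hn hmn
    have h1 := grd_spec m n hm hn
    match hv : rw' m n with
    | [] => rfl
    | x :: t =>
      exfalso
      rw [hv] at h1
      obtain ⟨h2, h3, h4⟩ := h1 x List.mem_cons_self
      obtain ⟨h5, h6, _⟩ := rng_spec x.2.2 h2
      exact hmn ⟨by omega, by omega⟩
  rw [assoc_bs]
  have z : ∀ v : Vc, evV (fun _ => (0 : Sp)) v = 0 := by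
    intro v
    induction v with
    | nil => rfl
    | cons x t ih => obtain ⟨a, b, l⟩ := x; rw [evV_cons, ih, smul_zero, add_zero]
  rw [evV_congr (fun m => evV bs (rw' m k)) (fun _ => (0 : Sp)) (rw' i j), z,
    evV_congr (fun m => evV bs (rw' i m)) (fun _ => (0 : Sp)) (rw' j k), z, sub_zero]
  · intro x hx
    obtain ⟨h2, h3, h4⟩ := grd_spec j k hj hk x hx
    rw [e i x.2.2 hi h2 (by rw [h3, h4]; intro hh; exact h ⟨by omega, by omega⟩)]
    rfl
  · intro x hx
    obtain ⟨h2, h3, h4⟩ := grd_spec i j hi hj x hx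
    rw [e x.2.2 k h2 hk (by rw [h3, h4]; intro hh; exact h ⟨by omega, by omega⟩)]
    rfl

theorem lawL_sound (s s' i j k : ℕ) (h : lawL s s' i j k = true) :
    associator (bs i) (bs j) (bs k) +
      ((s : ℤ) - (s' : ℤ)) • associator (bs j) (bs i) (bs k) = 0 := by
  have h1 := BT.z_ev bs _ h
  rw [ev_lin, ev_lin, ev_lin, ev_lin] at h1
  rw [assoc_bs, assoc_bs, ← h1]
  simp only [BT.ev, Nat.cast_one, Nat.cast_zero]
  module

theorem lawR_sound (s s' i j k : ℕ) (h : lawR s s' j k i = true) :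
    associator (bs i) (bs j) (bs k) +
      ((s : ℤ) - (s' : ℤ)) • associator (bs i) (bs k) (bs j) = 0 := by
  have h1 := BT.z_ev bs _ h
  rw [ev_lin, ev_lin, ev_lin, ev_lin] at h1
  rw [assoc_bs, assoc_bs, ← h1]
  simp only [BT.ev, Nat.cast_one, Nat.cast_zero]
  module

theorem left_le (i j k : ℕ) (hi : i < 97) (hj : j ≤ i) (hk : k < 97) :
    associator (bs i) (bs j) (bs k) + sgz (odd i) (odd j) • associator (bs j) (bs i) (bs k) = 0 := by
  by_cases hr : xd i + xd j + xd k ≤ 2 ∧ td i + td j + td k ≤ 8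
  · have h := loop_spec chkLi 0 97 left_ok i (Nat.zero_le _) (by omega)
    have h := loop_spec (chkLij i) 0 (Nat.succ i) h j (Nat.zero_le _) (by omega)
    unfold chkLij at h
    unfold sgz
    cases ho : (odd i && odd j) with
    | true =>
      rw [ho, cond_true] at h
      have h2 := lawL_sound 0 1 i j k (loop3_spec _ _ _ h k hk hr.1 hr.2)
      simpa [sub_eq_add_neg] using h2
    | false =>
      rw [ho, cond_false] at h
      have h2 := lawL_sound 1 0 i j k (loop3_spec _ _ _ h k hk hr.1 hr.2)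
      simpa using h2
  · rw [out_range i j k hi (by omega) hk hr, out_range j i k (by omega) hi hk (by
      intro hh; exact hr ⟨by omega, by omega⟩), smul_zero, add_zero]

theorem right_le (i j k : ℕ) (hi : i < 97) (hj : j < 97) (hk : k ≤ j) :
    associator (bs i) (bs j) (bs k) + sgz (odd j) (odd k) • associator (bs i) (bs k) (bs j) = 0 := by
  by_cases hr : xd j + xd k + xd i ≤ 2 ∧ td j + td k + td i ≤ 8
  · have h := loop_spec chkRi 0 97 right_ok j (Nat.zero_le _) (by omega)
    have h := loop_spec (chkRij j) 0 (Nat.succ j) h k (Nat.zero_le _) (by omega)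
    unfold chkRij at h
    unfold sgz
    cases ho : (odd j && odd k) with
    | true =>
      rw [ho, cond_true] at h
      have h2 := lawR_sound 0 1 i j k (loop3_spec _ _ _ h i hi hr.1 hr.2)
      simpa [sub_eq_add_neg] using h2
    | false =>
      rw [ho, cond_false] at h
      have h2 := lawR_sound 1 0 i j k (loop3_spec _ _ _ h i hi hr.1 hr.2)
      simpa using h2
  · rw [out_range i j k hi hj (by omega) (by intro hh; exact hr ⟨by omega, by omega⟩),
      out_range i k j hi (by omega) hj (by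
      intro hh; exact hr ⟨by omega, by omega⟩), smul_zero, add_zero]

theorem sgz_comm (i j : Bool) : sgz i j = sgz j i := by cases i <;> cases j <;> rfl

theorem left_all (i j k : ℕ) (hi : i < 97) (hj : j < 97) (hk : k < 97) :
    associator (bs i) (bs j) (bs k) + sgz (odd i) (odd j) • associator (bs j) (bs i) (bs k) = 0 := by
  rcases Nat.le_total j i with h | h
  · exact left_le i j k hi h hk
  · have h1 := left_le j i k hj h hk
    rw [sgz_comm] at h1
    have h2 := congrArg (fun z => sgz (odd i) (odd j) • z) h1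
    simp only [smul_add, smul_smul, sgz_sq, one_smul, smul_zero] at h2
    rw [add_comm]
    exact h2

theorem right_all (i j k : ℕ) (hi : i < 97) (hj : j < 97) (hk : k < 97) :
    associator (bs i) (bs j) (bs k) + sgz (odd j) (odd k) • associator (bs i) (bs k) (bs j) = 0 := by
  rcases Nat.le_total k j with h | h
  · exact right_le i j k hi hj h
  · have h1 := right_le i k j hi hk h
    rw [sgz_comm] at h1
    have h2 := congrArg (fun z => sgz (odd j) (odd k) • z) h1
    simp only [smul_add, smul_smul, sgz_sq, one_smul, smul_zero] at h2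
    rw [add_comm]
    exact h2

/-- homogeneous parts -/
def sP (i : Bool) : AddSubgroup Sp := AddSubgroup.closure {z | ∃ n < 97, odd n = i ∧ z = bs n}

theorem bs_mem (n : ℕ) (hn : n < 97) : bs n ∈ sP (odd n) :=
  AddSubgroup.subset_closure ⟨n, hn, rfl, rfl⟩

theorem odd_add (i j l : ℕ) (h : td l = td i + td j) : odd l = xor (odd i) (odd j) := by
  have e : ∀ n, odd n = decide (td n % 2 = 1) := by
    intro n
    unfold odd
    rcases Nat.mod_two_eq_zero_or_one (td n) with h | h
    · have : Nat.mod (td n) 2 = 0 := h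
      rw [this, h]; rfl
    · have : Nat.mod (td n) 2 = 1 := h
      rw [this, h]; rfl
  rw [e, e, e, h]
  rcases Nat.mod_two_eq_zero_or_one (td i) with h1 | h1 <;>
    rcases Nat.mod_two_eq_zero_or_one (td j) with h2 | h2 <;>
    simp [Nat.add_mod, h1, h2]

/-- the ring is super-alternative -/
def spAlt : SuperAlt Sp where
  P := sP
  mul_mem := by
    intro i j a b ha hb
    refine bi_mem (AddMonoidHom.mul (R := Sp)) _ _ _ ?_ ha hb
    rintro _ ⟨m, hm, rfl, rfl⟩ _ ⟨n, hn, rfl, rfl⟩
    change bs m * bs n ∈ _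
    rw [bs_mul]
    have h := grd_spec m n hm hn
    generalize rw' m n = v at h
    induction v with
    | nil => exact AddSubgroup.zero_mem _
    | cons x t ih =>
      obtain ⟨p, q, l⟩ := x
      rw [evV_cons]
      obtain ⟨h1, h2, h3⟩ := h _ List.mem_cons_self
      refine AddSubgroup.add_mem _ (AddSubgroup.zsmul_mem _ ?_ _)
        (ih fun x hx => h x (List.mem_cons_of_mem _ hx))
      rw [← odd_add m n l h3]
      exact bs_mem l h1
  left := by
    intro i j k a b c ha hb hc
    change (as3 (S := Sp) + sgz i j • as3l (S := Sp)) a b c = 0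
    refine tri_zero _ _ _ _ ?_ ha hb hc
    rintro _ ⟨m, hm, rfl, rfl⟩ _ ⟨n, hn, rfl, rfl⟩ _ ⟨l, hl, rfl, rfl⟩
    exact left_all m n l hm hn hl
  right := by
    intro i j k a b c ha hb hc
    change (as3 (S := Sp) + sgz j k • as3r (S := Sp)) a b c = 0
    refine tri_zero _ _ _ _ ?_ ha hb hc
    rintro _ ⟨m, hm, rfl, rfl⟩ _ ⟨n, hn, rfl, rfl⟩ _ ⟨l, hl, rfl, rfl⟩
    exact right_all m n l hm hn hl

end

end Pool.Agent.H12.Alt
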