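import Pool.Agent.H12.Alt.Zero

/-! Structure constants. -/

namespace Pool.Agent.H12.Alt

/-- sums of `(p - m)` times the basis vector of index `l` -/
abbrev Vc := List (ℕ × ℕ × ℕ)

/-- tries indexed by binary digits, least significant first -/
inductive Tr (α : Type) | e | l (a : α) | n (x y : Tr α)

def r0 : Tr Vc := (.n (.n (.n (.n (.n (.n (.n (.l [(1, 0, 1)]) (.l [(1, 0, 65)])) (.n (.l [(1, 0, 41), (0, 1, 42), (1, 0, 43), (1, 0, 44), (0, 3, 46), (1, 0, 47)]) .e)) (.n (.n (.l [(22, 0, 19), (2, 0, 20)]) (.l [(0, 5, 83), (0, 1, 84), (1, 0, 86), (0, 2, 88), (0, 1, 89)])) (.n (.l [(12, 0, 56), (0, 4, 57), (0, 5, 58), (0, 12, 59), (7, 0, 60), (0, 3, 61)]) .e))) (.n (.n (.n (.l [(2, 0, 11), (0, 2, 12), (1, 0, 13)]) (.l [(0, 1, 76), (1, 0, 79)])) (.n (.l [(1, 0, 48), (1, 0, 49), (1,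 0, 50)]) .e)) (.n (.n (.l [(0, 1, 27), (1, 0, 29)]) (.l [(20, 0, 90), (0, 19, 91), (6, 0, 92), (0, 10, 93)])) (.n (.l [(2, 0, 62), (0, 3, 63)]) .e)))) (.n (.n (.n (.n (.l [(1, 0, 9)]) (.l [(1, 0, 72)])) (.n (.l [(1, 0, 40), (0, 2, 41), (0, 1, 43), (0, 1, 44), (1, 0, 45), (2, 0, 46)]) .e)) (.n (.n .e (.l [(1, 0, 92)])) (.n (.l [(0, 37, 56), (20, 0, 57), (22, 0, 58), (39, 0, 59), (0, 27, 60), (6, 0, 61)]) .e))) (.n (.n (.n (.l [(1, 0, 16)]) (.l [(1, 0, 87)])) (.n (.l [(2, 0, 48), (0, 2, 49), (0, 14, 50), (2, 0, 52), (12, 0, 53), (0, 8, 54), (0, 9, 55)]) .e)) (.n (.n (.l [(1, 0, 34), (1, 0, 38), (1, 0, 39)]) (.l [(0, 1, 95)])) (.n (.l [(0, 3, 62), (3, 0, 63)]) .e))))) (.n (.n (.n (.n (.n (.l [(1, 0, 4)]) (.l [(1, 0, 68)])) (.n (.l [(0, 2, 40), (0, 1, 45)]) .e)) (.n (.n (.l [(0, 33,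 19), (15, 0, 20)]) (.l [(5, 0, 83), (1, 0, 85), (0, 1, 86), (2, 0, 88)])) (.n (.l [(1, 0, 56), (0, 5, 57), (0, 1, 58), (0, 3, 59), (1, 0, 60)]) .e))) (.n (.n (.n (.l [(1, 0, 14)]) (.l [(0, 2, 76), (1, 0, 79), (1, 0, 82)])) (.n (.l [(3, 0, 48), (0, 2, 49), (0, 8, 50), (1, 0, 51), (2, 0, 52), (7, 0, 53), (0, 5, 54), (0, 6, 55)]) .e)) (.n (.n (.l [(1, 0, 29)]) (.l [(1, 0, 95)])) (.n (.l [(0, 2, 62), (1, 0, 63)]) .e)))) (.n (.n (.n (.n (.l [(1, 0, 10)]) (.l [(0, 1, 78), (1, 0, 81)])) (.n (.l [(0, 1, 40), (1, 0, 46)]) .e)) (.n (.n (.l [(1, 0, 25)]) (.l [(13, 0, 90), (11, 0, 91), (0, 5, 92), (9, 0, 93)])) (.n (.l [(11, 0, 56), (0, 9, 57), (0, 9, 58), (0, 12, 59), (10, 0, 60), (1, 0, 61)]) .e))) (.n (.n (.n (.l [(0, 3, 15), (0, 3, 16), (7, 0, 17)]) (.l [(0, 2, 83), (1, 0, 86), (0, 1, 88)]))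 (.n (.l [(1, 0, 48), (1, 0, 49), (0, 2, 50), (2, 0, 53), (0, 2, 54), (0, 2, 55)]) .e)) (.n (.n (.l [(1, 0, 32), (1, 0, 34), (1, 0, 35), (1, 0, 37), (0, 1, 38), (0, 4, 39)]) (.l [(1, 0, 96)])) .e))))) (.n (.n (.n (.n (.n (.n (.l [(1, 0, 2)]) (.l [(1, 0, 67)])) (.n (.l [(1, 0, 47)]) .e)) (.n (.n (.l [(24, 0, 19), (0, 3, 20)]) (.l [(0, 2, 83), (0, 1, 85), (1, 0, 87), (0, 1, 88)])) (.n (.l [(0, 12, 56), (7, 0, 57), (5, 0, 58), (13, 0, 59), (0, 7, 60), (3, 0, 61)]) .e))) (.n (.n (.n (.l [(3, 0, 12), (0, 2, 13)]) (.l [(1, 0, 76), (0, 2, 78), (1, 0, 79), (1, 0, 80), (0, 1, 82)])) (.n (.l [(3, 0, 48), (4, 0, 49), (5, 0, 50), (1, 0, 51), (0, 1, 52), (0, 3, 53)]) .e)) (.n (.n (.l [(2, 0, 27), (1, 0, 28)]) (.l [(3, 0, 90), (5, 0, 91), (0, 3, 92), (5, 0, 93)])) (.n (.l [(0, 5, 62), (5, 0, 63)])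 .e)))) (.n (.n (.n (.n (.l [(2, 0, 7), (0, 1, 8)]) (.l [(0, 1, 70), (2, 0, 71), (0, 1, 72), (1, 0, 73), (0, 1, 74), (0, 1, 75)])) (.n (.l [(1, 0, 40), (0, 1, 41), (0, 1, 42), (0, 1, 43), (1, 0, 45)]) .e)) (.n (.n (.l [(1, 0, 22)]) (.l [(0, 10, 90), (1, 0, 91)])) (.n (.l [(0, 1, 56), (0, 7, 57), (1, 0, 58), (0, 4, 59)]) .e))) (.n (.n (.n (.l [(3, 0, 15), (2, 0, 18)]) (.l [(2, 0, 83), (1, 0, 84), (1, 0, 85), (0, 1, 87), (1, 0, 88)])) (.n (.l [(7, 0, 48), (1, 0, 49), (3, 0, 51), (2, 0, 52), (1, 0, 53), (0, 3, 54), (0, 3, 55)]) .e)) (.n (.n (.l [(1, 0, 33)]) (.l [(0, 1, 94), (0, 8, 95)])) (.n (.l [(0, 1, 62), (5, 0, 63)]) .e))))) (.n (.n (.n (.n (.n (.l [(0, 1, 4), (1, 0, 5), (1, 0, 6)]) (.l [(1, 0, 70)])) (.n (.l [(0, 1, 40), (1, 0, 42), (0, 1, 46)]) .e)) (.n (.n .e (.l [(0, 4, 90),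 (9, 0, 91), (0, 3, 92), (5, 0, 93)])) (.n (.l [(0, 11, 56), (1, 0, 57), (7, 0, 58), (8, 0, 59), (0, 6, 60), (2, 0, 61)]) .e))) (.n (.n (.n (.l [(0, 2, 16), (4, 0, 17), (1, 0, 18)]) (.l [(2, 0, 76), (0, 1, 77), (3, 0, 78), (0, 3, 79), (0, 1, 80), (0, 2, 81)])) (.n (.l [(2, 0, 49), (4, 0, 50), (0, 1, 52), (0, 3, 53), (2, 0, 54), (3, 0, 55)]) .e)) (.n (.n (.l [(1, 0, 38), (1, 0, 39)]) (.l [(1, 0, 94), (5, 0, 95)])) (.n (.l [(4, 0, 62), (0, 4, 63)]) .e)))) (.n (.n (.n (.n (.l [(1, 0, 11)]) (.l [(0, 1, 76), (0, 1, 77), (2, 0, 78), (0, 1, 79), (0, 1, 80), (0, 1, 81), (1, 0, 82)])) (.n (.l [(0, 1, 46)]) .e)) (.n (.n (.l [(0, 1, 24), (0, 1, 25), (1, 0, 26)]) (.l [(0, 3, 90), (6, 0, 91), (0, 2, 92), (3, 0, 93)])) (.n (.l [(0, 16, 56), (9, 0, 57), (14, 0, 58), (14, 0, 59), (0, 14, 60), (0,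 1, 61)]) .e))) (.n (.n (.n (.l [(28, 0, 19), (0, 9, 20)]) (.l [(1, 0, 87), (1, 0, 89)])) (.n (.l [(0, 1, 48), (0, 1, 49), (5, 0, 50), (0, 5, 53), (4, 0, 54), (4, 0, 55)]) .e)) (.n (.n (.l [(0, 1, 33), (1, 0, 35), (0, 3, 38), (0, 4, 39)]) .e) .e))))))
def r1 : Tr Vc := (.n (.n (.n (.n (.n (.n (.n (.l [(1, 0, 3)]) (.l [(1, 0, 67)])) (.n (.l [(1, 0, 48), (2, 0, 49), (11, 0, 50), (2, 0, 51), (0, 1, 52), (0, 9, 53), (6, 0, 54), (7, 0, 55)]) .e)) (.n (.n .e (.l [(0, 14, 90), (0, 1, 91), (0, 1, 93)])) (.n (.l [(0, 15, 62), (0, 24, 63)]) .e))) (.n (.n (.n (.l [(0, 1, 18)]) (.l [(0, 2, 83), (0, 1, 84), (0, 1, 88)])) (.n (.l [(1, 0, 56), (0, 2, 57), (0, 1, 58), (0, 2, 59), (1, 0, 60)]) .e)) (.n (.n (.l [(0, 1, 33), (1, 0, 36), (1, 0, 39)]) (.l [(0, 21, 94), (0, 12, 95)])) .e))) (.n (.n (.n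 (.n (.l [(1, 0, 12)]) (.l [(0, 1, 78), (1, 0, 79), (0, 1, 82)])) (.n (.l [(1, 0, 52)]) .e)) (.n (.n .e (.l [(2, 0, 94)])) (.n (.l [(25, 0, 62), (45, 0, 63)]) .e))) (.n (.n (.n (.l [(10, 0, 19), (5, 0, 20)]) (.l [(0, 2, 90), (9, 0, 91), (0, 3, 92), (5, 0, 93)])) (.n (.l [(0, 2, 56), (0, 1, 57), (2, 0, 58), (0, 2, 59)]) .e)) (.n (.n (.l [(0, 1, 40), (0, 2, 41), (3, 0, 42), (0, 1, 43), (0, 3, 44), (0, 1, 45), (5, 0, 46), (0, 1, 47)]) (.l [(1, 0, 96)])) .e)))) (.n (.n (.n (.n (.n (.l [(1, 0, 7)]) (.l [(1, 0, 73)])) (.n (.l [(0, 2, 48), (4, 0, 50), (0, 1, 52), (0, 4, 53), (3, 0, 54), (3, 0, 55)]) .e)) (.n (.n .e (.l [(3, 0, 90), (3, 0, 91)])) (.n (.l [(8, 0, 62), (2, 0, 63)]) .e))) (.n (.n (.n (.l [(0, 3, 16), (5, 0, 17), (1, 0, 18)]) (.l [(0, 4, 83), (0, 2, 84), (0, 1, 88), (0, 1, 89)]))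 (.n (.l [(1, 0, 56), (0, 3, 57), (2, 0, 58), (0, 4, 59), (1, 0, 60)]) .e)) (.n (.n (.l [(1, 0, 37)]) .e) .e))) (.n (.n (.n (.n (.l [(1, 0, 11)]) (.l [(2, 0, 83), (1, 0, 88)])) (.n (.l [(2, 0, 49), (6, 0, 50), (0, 1, 51), (0, 1, 52), (0, 5, 53), (3, 0, 54), (3, 0, 55)]) .e)) (.n (.n (.l [(2, 0, 27), (1, 0, 28), (1, 0, 29), (1, 0, 31)]) (.l [(0, 1, 94), (0, 2, 95)])) (.n (.l [(9, 0, 62), (8, 0, 63)]) .e))) (.n (.n (.n (.l [(18, 0, 19), (0, 1, 20)]) (.l [(0, 4, 90), (9, 0, 91), (0, 4, 92), (7, 0, 93)])) (.n (.l [(3, 0, 57), (1, 0, 59), (0, 1, 61)]) .e)) (.n (.n (.l [(0, 1, 41), (0, 1, 43), (1, 0, 46)]) .e) .e))))) (.n (.n (.n (.n (.n (.n (.l [(1, 0, 5)]) (.l [(1, 0, 71)])) (.n (.l [(2, 0, 48), (4, 0, 49), (13, 0, 50), (1, 0, 51), (0, 1, 52), (0, 10, 53), (6, 0, 54), (6, 0, 55)]) .e))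 (.n (.n .e (.l [(0, 4, 90), (9, 0, 91), (0, 3, 92), (5, 0, 93)])) (.n (.l [(9, 0, 62), (21, 0, 63)]) .e))) (.n (.n (.n (.l [(1, 0, 17)]) (.l [(0, 5, 83), (0, 2, 84), (1, 0, 87), (0, 2, 88), (0, 1, 89)])) (.n (.l [(16, 0, 56), (0, 3, 57), (0, 12, 58), (0, 12, 59), (13, 0, 60), (0, 2, 61)]) .e)) (.n (.n (.l [(2, 0, 33), (0, 2, 36), (2, 0, 37), (1, 0, 38)]) (.l [(3, 0, 94), (0, 6, 95)])) .e))) (.n (.n (.n (.n (.l [(1, 0, 13)]) (.l [(1, 0, 76), (0, 1, 77), (0, 1, 78), (0, 1, 81), (0, 1, 82)])) (.n (.l [(0, 1, 48), (1, 0, 49)]) .e)) (.n (.n (.l [(0, 1, 24), (2, 0, 26)]) (.l [(8, 0, 94), (1, 0, 95)])) (.n (.l [(9, 0, 62), (2, 0, 63)]) .e))) (.n (.n (.n (.l [(6, 0, 19), (6, 0, 20)]) (.l [(3, 0, 90), (0, 6, 91), (3, 0, 92), (0, 3, 93)])) (.n (.l [(0, 8, 56), (8, 0, 57), (7, 0, 58), (9,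 0, 59), (0, 5, 60)]) .e)) (.n (.n (.l [(1, 0, 40), (0, 1, 41), (1, 0, 42), (0, 1, 43), (0, 1, 44), (2, 0, 46)]) (.l [(0, 2, 96)])) .e)))) (.n (.n (.n (.n (.n (.l [(1, 0, 8)]) (.l [(1, 0, 82)])) (.n (.l [(2, 0, 48), (2, 0, 49), (2, 0, 50), (1, 0, 51), (0, 1, 53), (0, 1, 55)]) .e)) (.n (.n .e (.l [(6, 0, 94), (6, 0, 95)])) (.n (.l [(10, 0, 62), (22, 0, 63)]) .e))) (.n (.n (.n (.l [(19, 0, 19), (0, 2, 20)]) (.l [(2, 0, 84), (0, 1, 85), (1, 0, 86)])) (.n (.l [(0, 12, 56), (8, 0, 57), (11, 0, 58), (11, 0, 59), (0, 11, 60), (0, 2, 61)]) .e)) (.n (.n (.l [(0, 1, 40)]) (.l [(2, 0, 96)])) .e))) (.n (.n (.n (.n (.l [(1, 0, 15)]) (.l [(0, 1, 83), (0, 1, 85), (1, 0, 86)])) (.n (.l [(1, 0, 51)]) .e)) (.n (.n (.l [(0, 1, 27), (0, 1, 28), (0, 1, 29), (0, 1, 31)]) (.l [(4, 0, 94), (6, 0, 95)]))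 (.n (.l [(0, 8, 62), (0, 8, 63)]) .e))) (.n (.n (.n .e (.l [(0, 3, 90), (8, 0, 91), (0, 4, 92), (6, 0, 93)])) (.n (.l [(0, 4, 56), (3, 0, 57), (4, 0, 58), (6, 0, 59), (0, 5, 60), (1, 0, 61)]) .e)) (.n (.n (.l [(1, 0, 40), (1, 0, 41), (1, 0, 43), (1, 0, 44), (0, 2, 46)]) .e) .e))))))
def r2 : Tr Vc := (.n (.n (.n (.n (.n (.n (.n (.l [(1, 0, 6)]) (.l [(1, 0, 70)])) (.n (.l [(0, 26, 56), (8, 0, 57), (21, 0, 58), (21, 0, 59), (0, 20, 60), (1, 0, 61)]) .e)) (.n (.n .e (.l [(0, 1, 94), (0, 12, 95)])) .e)) (.n (.n (.n (.l [(37, 0, 19), (0, 16, 20)]) (.l [(0, 10, 90), (1, 0, 91), (0, 1, 92)])) (.n (.l [(3, 0, 62), (0, 3, 63)]) .e)) (.n (.n (.l [(1, 0, 40), (0, 2, 41), (0, 1, 42), (0, 1, 43), (1, 0, 45), (0, 1, 47)]) (.l [(0, 22, 96)])) .e))) (.n (.n (.n (.n (.l [(1, 0, 16)]) (.l [(1, 0,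 89)])) (.n (.l [(0, 40, 56), (19, 0, 57), (22, 0, 58), (40, 0, 59), (0, 28, 60), (7, 0, 61)]) .e)) (.n (.n .e (.l [(3, 0, 96)])) .e)) (.n (.n (.n .e (.l [(4, 0, 94), (6, 0, 95)])) (.n (.l [(0, 7, 62), (14, 0, 63)]) .e)) (.n (.n (.l [(0, 3, 48), (0, 3, 49), (0, 5, 50), (0, 1, 51), (3, 0, 53), (0, 1, 54), (0, 2, 55)]) .e) .e)))) (.n (.n (.n (.n (.n (.l [(1, 0, 11), (1, 0, 12), (0, 1, 13)]) (.l [(2, 0, 76), (0, 2, 78), (1, 0, 79), (1, 0, 80), (0, 1, 81), (0, 1, 82)])) (.n (.l [(3, 0, 56), (0, 5, 57), (0, 5, 58), (0, 4, 59), (4, 0, 60), (1, 0, 61)]) .e)) (.n (.n .e (.l [(3, 0, 94), (18, 0, 95)])) .e)) (.n (.n (.n (.l [(25, 0, 19), (0, 7, 20)]) (.l [(0, 6, 90), (0, 25, 91), (8, 0, 92), (0, 17, 93)])) (.n (.l [(0, 6, 62), (3, 0, 63)]) .e)) (.n (.n (.l [(1, 0, 40), (0, 1, 41), (0, 2, 42),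 (0, 1, 43), (1, 0, 44), (1, 0, 45), (0, 1, 46)]) .e) .e))) (.n (.n (.n (.n (.l [(1, 0, 15), (0, 3, 16), (5, 0, 17), (2, 0, 18)]) (.l [(9, 0, 90), (0, 4, 91), (1, 0, 92), (0, 2, 93)])) (.n (.l [(23, 0, 56), (0, 1, 57), (0, 15, 58), (0, 14, 59), (14, 0, 60), (0, 3, 61)]) .e)) (.n (.n (.l [(1, 0, 32), (1, 0, 34), (2, 0, 35), (0, 1, 36), (1, 0, 37), (0, 1, 38), (0, 4, 39)]) (.l [(0, 1, 96)])) .e)) (.n (.n (.n .e (.l [(2, 0, 94), (0, 11, 95)])) (.n (.l [(0, 6, 62), (9, 0, 63)]) .e)) (.n (.n (.l [(0, 4, 49), (0, 8, 50), (2, 0, 52), (6, 0, 53), (0, 3, 54), (0, 4, 55)]) .e) .e))))) (.n (.n (.n (.n (.n (.n (.l [(2, 0, 7), (0, 1, 8)]) (.l [(0, 1, 76), (0, 1, 77), (1, 0, 78), (0, 1, 79), (0, 1, 80)])) (.n (.l [(0, 8, 56), (5, 0, 57), (2, 0, 58), (11, 0, 59), (0, 5, 60), (3, 0, 61)]) .e)) (.n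 (.n .e (.l [(4, 0, 94), (4, 0, 95)])) .e)) (.n (.n (.n (.l [(28, 0, 19), (0, 4, 20)]) (.l [(0, 24, 90), (0, 6, 91), (2, 0, 92), (0, 7, 93)])) (.n (.l [(0, 10, 62), (5, 0, 63)]) .e)) (.n (.n (.l [(0, 1, 40), (2, 0, 41), (0, 3, 42), (3, 0, 44), (0, 4, 46), (2, 0, 47)]) (.l [(3, 0, 96)])) .e))) (.n (.n (.n (.n (.l [(3, 0, 15), (2, 0, 18)]) (.l [(0, 1, 84)])) (.n (.l [(0, 27, 56), (10, 0, 57), (10, 0, 58), (26, 0, 59), (0, 15, 60), (7, 0, 61)]) .e)) (.n (.n (.l [(1, 0, 30)]) (.l [(9, 0, 96)])) .e)) (.n (.n (.n .e (.l [(0, 4, 94), (0, 7, 95)])) (.n (.l [(0, 15, 62), (24, 0, 63)]) .e)) (.n (.n (.l [(3, 0, 48), (0, 2, 49), (0, 3, 50), (1, 0, 51), (2, 0, 52), (3, 0, 53), (0, 2, 54), (0, 3, 55)]) .e) .e)))) (.n (.n (.n (.n (.n (.l [(2, 0, 11), (0, 1, 12)]) (.l [(5, 0, 83), (1, 0, 85), (0,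 1, 86), (2, 0, 88)])) (.n (.l [(5, 0, 56), (0, 6, 57), (0, 10, 58), (0, 5, 59), (9, 0, 60), (4, 0, 61)]) .e)) (.n (.n .e (.l [(6, 0, 96)])) .e)) (.n (.n (.n .e (.l [(22, 0, 90), (13, 0, 91), (0, 4, 92), (11, 0, 93)])) (.n (.l [(0, 3, 62), (3, 0, 63)]) .e)) (.n (.n (.l [(0, 1, 48), (0, 1, 49), (0, 1, 50)]) .e) .e))) (.n (.n (.n (.n (.l [(32, 0, 19), (0, 10, 20)]) (.l [(24, 0, 90), (0, 2, 91), (0, 1, 92), (2, 0, 93)])) (.n (.l [(0, 14, 56), (7, 0, 58), (9, 0, 59), (0, 7, 60), (3, 0, 61)]) .e)) (.n (.n (.l [(0, 1, 32), (0, 1, 34), (0, 2, 35), (1, 0, 36), (0, 1, 37), (2, 0, 38), (5, 0, 39)]) (.l [(4, 0, 96)])) .e)) (.n (.n (.n .e (.l [(3, 0, 94), (0, 6, 95)])) (.n (.l [(3, 0, 62), (0, 6, 63)]) .e)) (.n (.n (.l [(2, 0, 48), (2, 0, 49), (0, 3, 50), (4, 0, 53), (0, 3, 54), (0, 3, 55)])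 .e) .e))))))
def r3 : Tr Vc := (.n (.n (.n (.n (.n (.n (.n (.l [(0, 1, 4), (2, 0, 5)]) (.l [(1, 0, 71)])) (.n (.l [(2, 0, 57), (3, 0, 58), (3, 0, 59), (0, 3, 60), (0, 1, 61)]) .e)) (.n (.n .e (.l [(7, 0, 94), (0, 1, 95)])) .e)) (.n (.n (.n (.l [(20, 0, 19), (0, 7, 20)]) (.l [(0, 3, 90), (0, 1, 91), (0, 1, 92), (1, 0, 93)])) (.n (.l [(2, 0, 62), (0, 1, 63)]) .e)) (.n (.n (.l [(2, 0, 40), (0, 1, 41), (2, 0, 42), (0, 1, 43), (0, 2, 44), (3, 0, 46)]) (.l [(0, 11, 96)])) .e))) (.n (.n (.n (.n (.l [(1, 0, 17)]) (.l [(0, 5, 83), (0, 1, 84), (0, 1, 85), (1, 0, 87), (0, 2, 88)])) (.n (.l [(0, 22, 56), (12, 0, 57), (17, 0, 58), (23, 0, 59), (0, 18, 60), (3, 0, 61)]) .e)) .e) (.n (.n (.n .e (.l [(4, 0, 94), (6, 0, 95)])) (.n (.l [(0, 6, 62), (1, 0, 63)]) .e)) (.n (.n (.l [(0, 4, 48), (0, 1,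 49), (3, 0, 50), (0, 1, 51), (0, 1, 52), (0, 4, 53), (3, 0, 54), (3, 0, 55)]) .e) .e)))) (.n (.n (.n (.n (.n (.l [(1, 0, 13)]) (.l [(0, 1, 76), (0, 1, 78), (1, 0, 79), (1, 0, 81), (0, 1, 82)])) (.n (.l [(9, 0, 56), (0, 3, 57), (0, 5, 58), (0, 6, 59), (4, 0, 60), (0, 1, 61)]) .e)) (.n (.n .e (.l [(0, 3, 94), (9, 0, 95)])) .e)) (.n (.n (.n (.l [(14, 0, 19)]) (.l [(3, 0, 90), (0, 4, 91), (1, 0, 92), (0, 2, 93)])) (.n (.l [(0, 1, 62), (4, 0, 63)]) .e)) (.n (.n (.l [(1, 0, 40), (0, 1, 41), (2, 0, 42), (0, 1, 43), (0, 2, 44), (3, 0, 46)]) .e) .e))) (.n (.n (.n (.n (.l [(0, 1, 15), (0, 2, 16), (4, 0, 17)]) (.l [(3, 0, 90), (3, 0, 91)])) (.n (.l [(0, 4, 56), (4, 0, 57), (1, 0, 58), (4, 0, 59), (0, 2, 60)]) .e)) (.n (.n (.l [(0, 1, 32), (2, 0, 33), (0, 1, 35), (0, 1, 36), (1, 0, 37), (2,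 0, 38), (3, 0, 39)]) (.l [(0, 1, 96)])) .e)) (.n (.n (.n .e (.l [(8, 0, 94), (0, 2, 95)])) (.n (.l [(0, 10, 62), (0, 6, 63)]) .e)) (.n (.n (.l [(0, 2, 48), (2, 0, 49), (8, 0, 50), (0, 1, 51), (0, 1, 52), (0, 7, 53), (5, 0, 54), (5, 0, 55)]) .e) .e))))) (.n (.n (.n (.n (.n (.n (.l [(1, 0, 7)]) (.l [(1, 0, 78), (0, 1, 81), (2, 0, 82)])) (.n (.l [(0, 1, 56), (4, 0, 57), (4, 0, 58), (5, 0, 59), (0, 4, 60)]) .e)) (.n (.n .e (.l [(5, 0, 94), (5, 0, 95)])) .e)) (.n (.n (.n (.l [(14, 0, 19), (4, 0, 20)]) (.l [(0, 16, 90), (0, 5, 91), (1, 0, 92), (0, 4, 93)])) (.n (.l [(0, 15, 62), (0, 10, 63)]) .e)) (.n (.n (.l [(0, 3, 40), (0, 2, 41), (4, 0, 42), (0, 1, 43), (0, 4, 44), (0, 1, 45), (6, 0, 46), (0, 1, 47)]) (.l [(0, 3, 96)])) .e))) (.n (.n (.n (.n (.l [(2, 0, 15), (1, 0, 18)]) (.l [(0,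 6, 83), (0, 1, 84), (0, 2, 85), (1, 0, 86), (2, 0, 87), (0, 2, 88)])) (.n (.l [(0, 9, 56), (5, 0, 57), (5, 0, 58), (11, 0, 59), (0, 6, 60), (3, 0, 61)]) .e)) (.n (.n (.l [(3, 0, 27), (1, 0, 28), (2, 0, 29), (0, 1, 30), (1, 0, 31)]) (.l [(1, 0, 96)])) .e)) (.n (.n (.n .e (.l [(0, 2, 94), (0, 4, 95)])) (.n (.l [(0, 14, 62), (7, 0, 63)]) .e)) (.n (.n (.l [(3, 0, 49), (10, 0, 50), (0, 1, 52), (0, 8, 53), (5, 0, 54), (5, 0, 55)]) .e) .e)))) (.n (.n (.n (.n (.n (.l [(1, 0, 11), (0, 2, 12), (2, 0, 13)]) (.l [(2, 0, 83), (1, 0, 88)])) (.n (.l [(3, 0, 56), (0, 3, 57), (3, 0, 58), (0, 4, 59), (1, 0, 60)]) .e)) (.n (.n .e (.l [(5, 0, 96)])) .e)) (.n (.n (.n .e (.l [(13, 0, 90), (7, 0, 91), (0, 2, 92), (5, 0, 93)])) (.n (.l [(0, 12, 62), (0, 12, 63)]) .e)) (.n (.n (.l [(2, 0, 49), (6, 0, 50),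 (0, 1, 52), (0, 5, 53), (3, 0, 54), (3, 0, 55)]) .e) .e))) (.n (.n (.n (.n (.l [(15, 0, 19), (0, 1, 20)]) (.l [(18, 0, 90), (5, 0, 91), (0, 2, 92), (4, 0, 93)])) (.n (.l [(3, 0, 56), (0, 2, 57), (0, 2, 59), (1, 0, 60)]) .e)) (.n (.n (.l [(1, 0, 32), (0, 1, 33), (1, 0, 35), (0, 2, 38), (0, 4, 39)]) (.l [(4, 0, 96)])) .e)) (.n (.n (.n .e (.l [(6, 0, 94), (0, 1, 95)])) (.n (.l [(9, 0, 62), (6, 0, 63)]) .e)) (.n (.n (.l [(2, 0, 48), (0, 7, 49), (0, 26, 50), (4, 0, 52), (22, 0, 53), (0, 14, 54), (0, 15, 55)]) .e) .e))))))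
def r4 : Tr Vc := (.n (.n (.n (.n (.n (.n (.n (.l [(1, 0, 7), (0, 1, 9), (1, 0, 10)]) (.l [(0, 1, 78), (1, 0, 81)])) (.n (.l [(4, 0, 62), (15, 0, 63)]) .e)) .e) (.n (.n (.n .e (.l [(5, 0, 94)])) .e) (.n (.n (.l [(0, 2, 48), (0, 10, 49), (0, 26, 50), (5, 0, 52), (20, 0, 53), (0, 12, 54), (0, 12, 55)]) .e) .e))) (.n (.n (.n (.n (.l [(14, 0, 19), (4, 0, 20)]) (.l [(1, 0, 90), (0, 1, 91), (0, 1, 92), (1, 0, 93)])) (.n (.l [(26, 0, 62), (48, 0, 63)]) .e)) .e) (.n (.n (.n .e (.l [(5, 0, 96)])) .e) (.n (.n (.l [(8, 0, 56), (0, 9, 57), (0, 4, 58), (0, 11, 59), (5, 0, 60)]) .e) .e)))) (.n (.n (.n (.n (.n (.l [(1, 0, 15), (0, 2, 16), (3, 0, 17), (1, 0, 18)]) (.l [(0, 9, 83), (0, 2, 84), (0, 1, 85), (3, 0, 87), (0, 3, 88), (0, 1, 89)])) (.n (.l [(5, 0, 62), (4, 0, 63)]) .e)) (.n (.n .e (.l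 [(5, 0, 96)])) .e)) (.n (.n (.n .e (.l [(0, 13, 94), (0, 7, 95)])) .e) (.n (.n (.l [(0, 1, 48), (0, 5, 49), (0, 13, 50), (3, 0, 52), (10, 0, 53), (0, 6, 54), (0, 6, 55)]) .e) .e))) (.n (.n (.n (.n (.l [(20, 0, 19), (0, 2, 20)]) (.l [(0, 7, 94)])) (.n (.l [(0, 12, 62), (0, 25, 63)]) .e)) (.n (.n (.l [(0, 1, 40), (2, 0, 42), (0, 1, 45)]) .e) .e)) (.n (.n (.n .e (.l [(1, 0, 96)])) .e) (.n (.n (.l [(0, 6, 56), (0, 4, 57), (3, 0, 58), (1, 0, 59), (0, 3, 60), (3, 0, 61)]) .e) .e))))) (.n (.n (.n (.n (.n (.n (.l [(1, 0, 12)]) (.l [(3, 0, 83), (1, 0, 86), (0, 2, 87), (1, 0, 88)])) (.n (.l [(12, 0, 62), (21, 0, 63)]) .e)) (.n (.n .e (.l [(5, 0, 96)])) .e)) (.n (.n (.n .e (.l [(6, 0, 94), (5, 0, 95)])) .e) (.n (.n (.l [(2, 0, 48), (8, 0, 49), (23, 0, 50), (1, 0, 51), (0, 3, 52), (0, 18, 53),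 (11, 0, 54), (11, 0, 55)]) .e) .e))) (.n (.n (.n (.n (.l [(10, 0, 19), (5, 0, 20)]) (.l [(0, 2, 90), (0, 6, 91), (1, 0, 92), (0, 4, 93)])) (.n (.l [(25, 0, 62), (48, 0, 63)]) .e)) (.n (.n (.l [(1, 0, 36)]) .e) .e)) (.n (.n (.n .e (.l [(0, 3, 96)])) .e) (.n (.n (.l [(0, 2, 56), (0, 5, 57), (2, 0, 58), (0, 2, 59), (0, 1, 60), (2, 0, 61)]) .e) .e)))) (.n (.n (.n (.n (.n (.l [(1, 0, 15), (0, 3, 16), (4, 0, 17), (1, 0, 18)]) (.l [(1, 0, 92), (0, 2, 93)])) (.n (.l [(14, 0, 62), (28, 0, 63)]) .e)) .e) (.n (.n (.n .e (.l [(0, 2, 94), (0, 2, 95)])) .e) (.n (.n (.l [(0, 1, 56), (2, 0, 57), (1, 0, 58), (2, 0, 59), (0, 1, 60)]) .e) .e))) (.n (.n (.n (.n .e (.l [(0, 12, 94), (0, 8, 95)])) (.n (.l [(11, 0, 62), (24, 0, 63)]) .e)) (.n (.n (.l [(0, 2, 42), (1, 0, 45)]) .e) .e)) (.n (.n (.n .e (.l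 [(1, 0, 96)])) .e) (.n (.n (.l [(5, 0, 56), (0, 2, 57), (0, 2, 58), (0, 6, 59), (4, 0, 60), (0, 2, 61)]) .e) .e))))))
def r5 : Tr Vc := (.n (.n (.n (.n (.n (.n (.n (.l [(1, 0, 8)]) (.l [(1, 0, 82)])) (.n (.l [(3, 0, 62), (13, 0, 63)]) .e)) .e) (.n (.n (.n .e (.l [(7, 0, 94)])) .e) (.n (.n (.l [(0, 2, 48), (0, 4, 49), (0, 13, 50), (2, 0, 52), (10, 0, 53), (0, 6, 54), (0, 6, 55)]) .e) .e))) (.n (.n (.n (.n (.l [(10, 0, 19), (5, 0, 20)]) (.l [(0, 2, 90), (0, 4, 91), (0, 1, 93)])) (.n (.l [(25, 0, 62), (45, 0, 63)]) .e)) .e) (.n (.n (.n .e (.l [(5, 0, 96)])) .e) (.n (.n (.l [(0, 2, 57), (3, 0, 58), (0, 1, 59), (0, 3, 60)]) .e) .e)))) (.n (.n (.n (.n (.n (.l [(1, 0, 15)]) (.l [(0, 5, 83), (0, 2, 84), (1, 0, 87), (0, 2, 88), (0, 1, 89)])) (.n (.l [(4, 0, 62), (3, 0, 63)]) .e)) (.n (.n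 .e (.l [(6, 0, 96)])) .e)) (.n (.n (.n .e (.l [(0, 10, 94), (0, 6, 95)])) .e) (.n (.n (.l [(0, 1, 48), (1, 0, 49)]) .e) .e))) (.n (.n (.n (.n (.l [(19, 0, 19), (0, 2, 20)]) (.l [(0, 9, 94)])) (.n (.l [(0, 11, 62), (0, 23, 63)]) .e)) (.n (.n (.l [(0, 1, 40), (0, 2, 41), (4, 0, 42), (0, 1, 43), (0, 3, 44), (0, 1, 45), (5, 0, 46), (0, 1, 47)]) .e) .e)) (.n .e (.n (.n (.l [(0, 4, 56), (0, 2, 57), (1, 0, 58), (2, 0, 59), (0, 2, 60), (3, 0, 61)]) .e) .e))))) (.n (.n (.n (.n (.n (.n (.l [(1, 0, 13)]) (.l [(0, 1, 83), (0, 1, 85), (1, 0, 86)])) (.n (.l [(11, 0, 62), (19, 0, 63)]) .e)) (.n (.n .e (.l [(5, 0, 96)])) .e)) (.n (.n (.n .e (.l [(9, 0, 94), (6, 0, 95)])) .e) (.n (.n (.l [(2, 0, 48), (12, 0, 49), (32, 0, 50), (1, 0, 51), (0, 5, 52), (0, 25, 53), (15, 0, 54), (15, 0, 55)]) .e) .e)))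 (.n (.n (.n (.n (.l [(6, 0, 19), (6, 0, 20)]) (.l [(0, 6, 91), (1, 0, 92), (0, 4, 93)])) (.n (.l [(24, 0, 62), (45, 0, 63)]) .e)) (.n (.n (.l [(1, 0, 33), (0, 1, 36), (2, 0, 37), (0, 1, 39)]) .e) .e)) (.n (.n (.n .e (.l [(0, 3, 96)])) .e) (.n (.n (.l [(0, 3, 57), (0, 1, 59), (2, 0, 61)]) .e) .e)))) (.n (.n (.n (.n (.n (.l [(0, 1, 18)]) (.l [(3, 0, 90), (3, 0, 91)])) (.n (.l [(13, 0, 62), (26, 0, 63)]) .e)) .e) (.n (.n (.n .e (.l [(0, 5, 94), (0, 3, 95)])) .e) (.n (.n (.l [(0, 1, 56), (2, 0, 57), (1, 0, 58), (2, 0, 59), (0, 1, 60)]) .e) .e))) (.n (.n (.n (.n .e (.l [(0, 15, 94), (0, 9, 95)])) (.n (.l [(10, 0, 62), (22, 0, 63)]) .e)) (.n (.n (.l [(2, 0, 41), (0, 4, 42), (1, 0, 43), (3, 0, 44), (1, 0, 45), (0, 5, 46), (1, 0, 47)]) .e) .e)) (.n .e (.n (.n (.l [(3, 0, 56), (0, 4, 57),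 (0, 7, 59), (3, 0, 60), (0, 2, 61)]) .e) .e))))))
def r6 : Tr Vc := (.n (.n (.n (.n (.n (.n (.n (.l [(3, 0, 7), (0, 1, 8), (0, 1, 9)]) (.l [(0, 1, 76), (0, 1, 77), (1, 0, 78), (0, 1, 79), (0, 1, 80)])) (.n (.l [(2, 0, 62), (1, 0, 63)]) .e)) (.n (.n .e (.l [(8, 0, 96)])) .e)) (.n (.n (.n .e (.l [(3, 0, 94), (0, 8, 95)])) .e) (.n (.n (.l [(2, 0, 48), (0, 6, 49), (0, 18, 50), (1, 0, 51), (4, 0, 52), (15, 0, 53), (0, 10, 54), (0, 11, 55)]) .e) .e))) (.n (.n (.n (.n (.l [(20, 0, 19), (0, 2, 20)]) (.l [(0, 12, 90), (0, 5, 91), (1, 0, 92), (0, 4, 93)])) (.n (.l [(14, 0, 62), (32, 0, 63)]) .e)) .e) (.n (.n (.n .e (.l [(5, 0, 96)])) .e) (.n (.n (.l [(0, 4, 56), (1, 0, 58), (4, 0, 59), (0, 3, 60), (2, 0, 61)]) .e) .e)))) (.n (.n (.n (.n (.n (.l [(4, 0, 15), (0, 1, 17), (2, 0, 18)]) (.l [(0,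 5, 83), (0, 1, 84), (0, 1, 85), (1, 0, 87), (0, 2, 88)])) (.n (.l [(2, 0, 62), (0, 8, 63)]) .e)) (.n (.n .e (.l [(0, 2, 96)])) .e)) (.n (.n (.n .e (.l [(0, 7, 94), (0, 4, 95)])) .e) (.n (.n (.l [(2, 0, 48), (0, 4, 49), (0, 12, 50), (1, 0, 51), (3, 0, 52), (10, 0, 53), (0, 7, 54), (0, 8, 55)]) .e) .e))) (.n (.n (.n (.n (.l [(29, 0, 19), (0, 9, 20)]) (.l [(0, 3, 94), (11, 0, 95)])) (.n (.l [(0, 7, 62), (0, 7, 63)]) .e)) (.n (.n (.l [(1, 0, 40), (0, 1, 42), (0, 1, 43), (1, 0, 44), (1, 0, 47)]) .e) .e)) (.n (.n (.n .e (.l [(8, 0, 96)])) .e) (.n (.n (.l [(0, 9, 56), (3, 0, 57), (0, 3, 58), (11, 0, 59), (0, 3, 60), (6, 0, 61)]) .e) .e))))) (.n (.n (.n (.n (.n (.n (.l [(1, 0, 11)]) (.l [(7, 0, 83), (2, 0, 85), (0, 1, 87), (3, 0, 88)])) (.n (.l [(4, 0, 62), (8, 0, 63)]) .e)) (.n (.n .e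 (.l [(6, 0, 96)])) .e)) (.n (.n (.n .e (.l [(4, 0, 94), (0, 3, 95)])) .e) (.n (.n (.l [(1, 0, 48), (2, 0, 49), (7, 0, 50), (1, 0, 51), (0, 1, 52), (0, 6, 53), (3, 0, 54), (2, 0, 55)]) .e) .e))) (.n (.n (.n (.n (.l [(19, 0, 19), (0, 2, 20)]) (.l [(7, 0, 90), (0, 1, 91), (0, 2, 92), (1, 0, 93)])) (.n (.l [(14, 0, 62), (31, 0, 63)]) .e)) (.n (.n (.l [(1, 0, 35)]) .e) .e)) (.n (.n (.n .e (.l [(0, 1, 96)])) .e) (.n (.n (.l [(0, 5, 56), (0, 4, 58), (6, 0, 59), (5, 0, 61)]) .e) .e)))) (.n (.n (.n (.n (.n (.l [(5, 0, 15), (0, 2, 16), (1, 0, 17), (3, 0, 18)]) (.l [(12, 0, 90), (0, 1, 91)])) (.n (.l [(2, 0, 62), (13, 0, 63)]) .e)) .e) (.n (.n (.n .e (.l [(0, 2, 94), (3, 0, 95)])) .e) (.n (.n (.l [(9, 0, 56), (0, 1, 57), (0, 8, 58), (0, 5, 59), (7, 0, 60)]) .e) .e))) (.n (.n (.n (.n .e (.l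 [(0, 7, 94), (4, 0, 95)])) (.n (.l [(5, 0, 62), (8, 0, 63)]) .e)) (.n (.n (.l [(0, 1, 40), (1, 0, 41), (1, 0, 43), (0, 1, 46)]) .e) .e)) (.n (.n (.n .e (.l [(5, 0, 96)])) .e) (.n (.n (.l [(0, 3, 56), (0, 3, 57), (11, 0, 58), (0, 5, 59), (0, 5, 60), (0, 4, 61)]) .e) .e))))))
def r7 : Tr Vc := (.n (.n (.n (.n (.n (.n (.n (.l [(1, 0, 11), (0, 1, 12), (1, 0, 13)]) (.l [(2, 0, 83), (1, 0, 88)])) .e) .e) (.n (.n (.n .e (.l [(1, 0, 96)])) .e) (.n (.n (.l [(0, 21, 56), (5, 0, 57), (13, 0, 58), (17, 0, 59), (0, 14, 60), (4, 0, 61)]) .e) .e))) (.n (.n (.n (.n .e (.l [(2, 0, 94), (0, 7, 95)])) .e) .e) (.n .e (.n (.n (.l [(6, 0, 62), (0, 5, 63)]) .e) .e)))) (.n (.n (.n (.n (.n (.l [(19, 0, 19), (0, 2, 20)]) (.l [(0, 14, 90), (0, 5, 91), (1, 0, 92), (0, 4, 93)])) .e) .e) (.n (.n (.n .e (.l [(0,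 7, 96)])) .e) (.n (.n (.l [(0, 12, 56), (4, 0, 57), (5, 0, 58), (12, 0, 59), (0, 7, 60), (4, 0, 61)]) .e) .e))) (.n (.n (.n (.n .e (.l [(0, 2, 96)])) .e) (.n (.n (.l [(2, 0, 49), (6, 0, 50), (0, 1, 52), (0, 5, 53), (3, 0, 54), (2, 0, 55)]) .e) .e)) (.n .e (.n (.n (.l [(13, 0, 62), (13, 0, 63)]) .e) .e))))) (.n (.n (.n (.n (.n (.n (.l [(2, 0, 15), (1, 0, 18)]) (.l [(15, 0, 90), (2, 0, 91), (0, 1, 92), (2, 0, 93)])) .e) .e) (.n (.n (.n .e (.l [(4, 0, 96)])) .e) (.n (.n (.l [(17, 0, 56), (0, 3, 57), (0, 15, 58), (0, 9, 59), (13, 0, 60), (1, 0, 61)]) .e) .e))) (.n (.n (.n (.n .e (.l [(0, 3, 94), (0, 1, 95)])) .e) (.n (.n (.l [(0, 1, 41), (1, 0, 42), (0, 1, 43), (0, 1, 44), (2, 0, 46)]) .e) .e)) (.n .e (.n (.n (.l [(10, 0, 62), (9, 0, 63)]) .e) .e)))) (.n (.n (.n (.n (.n (.l [(24, 0,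 19), (0, 8, 20)]) (.l [(0, 3, 94), (9, 0, 95)])) .e) .e) (.n (.n (.n .e (.l [(0, 1, 96)])) .e) (.n (.n (.l [(0, 2, 62), (1, 0, 63)]) .e) .e))) (.n (.n (.n (.n .e (.l [(0, 8, 96)])) .e) (.n (.n (.l [(1, 0, 55)]) .e) .e)) (.n .e (.n (.n (.l [(0, 7, 62), (0, 7, 63)]) .e) .e))))))
def r8 : Tr Vc := (.n (.n (.n (.n (.n (.n (.n (.l [(0, 2, 12), (3, 0, 13)]) (.l [(0, 1, 83), (0, 1, 85), (1, 0, 86)])) .e) .e) (.n (.n (.n .e (.l [(0, 5, 96)])) .e) (.n (.n (.l [(7, 0, 56), (0, 3, 57), (0, 1, 58), (0, 5, 59), (3, 0, 60)]) .e) .e))) (.n (.n (.n (.n .e (.l [(5, 0, 94), (0, 2, 95)])) .e) .e) (.n .e (.n (.n (.l [(11, 0, 62), (10, 0, 63)]) .e) .e)))) (.n (.n (.n (.n (.n (.l [(2, 0, 19), (7, 0, 20)]) (.l [(0, 6, 90), (0, 4, 91), (0, 1, 93)])) .e) .e) (.n (.n (.n .e (.l [(0, 2, 96)])) .e) (.n (.n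 (.l [(6, 0, 56), (0, 1, 57), (0, 3, 59), (2, 0, 60)]) .e) .e))) (.n (.n (.n (.n .e (.l [(7, 0, 96)])) .e) (.n (.n (.l [(0, 2, 48), (6, 0, 49), (18, 0, 50), (0, 1, 51), (0, 3, 52), (0, 15, 53), (9, 0, 54), (9, 0, 55)]) .e) .e)) (.n .e (.n (.n (.l [(23, 0, 62), (28, 0, 63)]) .e) .e))))) (.n (.n (.n (.n (.n (.n (.l [(1, 0, 15)]) (.l [(9, 0, 90), (9, 0, 91), (0, 2, 92), (4, 0, 93)])) .e) .e) (.n (.n (.n .e (.l [(0, 1, 96)])) .e) (.n (.n (.l [(4, 0, 56), (4, 0, 57), (5, 0, 58), (1, 0, 59), (0, 3, 60), (0, 2, 61)]) .e) .e))) (.n (.n (.n (.n .e (.l [(0, 6, 94), (0, 5, 95)])) .e) (.n (.n (.l [(0, 1, 40), (0, 2, 41), (6, 0, 42), (0, 1, 43), (0, 5, 44), (0, 1, 45), (7, 0, 46), (0, 1, 47)]) .e) .e)) (.n .e (.n (.n (.l [(19, 0, 62), (25, 0, 63)]) .e) .e)))) (.n (.n (.n (.n (.n (.l [(7, 0, 19),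 (1, 0, 20)]) (.l [(0, 9, 94)])) .e) .e) (.n (.n (.n .e (.l [(1, 0, 96)])) .e) (.n (.n (.l [(0, 1, 62), (0, 1, 63)]) .e) .e))) (.n (.n (.n (.n .e (.l [(1, 0, 96)])) .e) (.n (.n (.l [(3, 0, 48), (0, 1, 49), (0, 5, 50), (1, 0, 51), (1, 0, 52), (5, 0, 53), (0, 3, 54), (0, 3, 55)]) .e) .e)) (.n .e (.n (.n (.l [(0, 13, 62), (0, 18, 63)]) .e) .e))))))
def r9 : Tr Vc := (.n (.n (.n (.n (.n (.n (.n (.l [(1, 0, 11), (0, 1, 12), (1, 0, 14)]) (.l [(0, 1, 85), (0, 1, 86), (1, 0, 87)])) .e) .e) (.n (.n (.n .e (.l [(5, 0, 96)])) .e) (.n (.n (.l [(0, 81, 56), (26, 0, 57), (56, 0, 58), (65, 0, 59), (0, 59, 60), (8, 0, 61)]) .e) .e))) (.n (.n (.n (.n .e (.l [(0, 9, 95)])) .e) .e) (.n .e (.n (.n (.l [(2, 0, 62), (0, 22, 63)]) .e) .e)))) (.n (.n (.n (.n (.n (.l [(31, 0, 19), (0, 9, 20)]) (.l [(0, 22,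 90), (0, 12, 91), (4, 0, 92), (0, 11, 93)])) .e) .e) (.n (.n (.n .e (.l [(0, 15, 96)])) .e) (.n (.n (.l [(0, 62, 56), (22, 0, 57), (39, 0, 58), (53, 0, 59), (0, 44, 60), (8, 0, 61)]) .e) .e))) (.n (.n (.n (.n .e (.l [(0, 9, 96)])) .e) (.n (.n (.l [(2, 0, 48), (0, 3, 50), (1, 0, 51), (3, 0, 53), (0, 1, 54), (0, 3, 55)]) .e) .e)) (.n .e (.n (.n (.l [(4, 0, 62), (0, 3, 63)]) .e) .e))))) (.n (.n (.n (.n (.n (.n (.l [(1, 0, 16)]) (.l [(21, 0, 90), (1, 0, 91), (0, 2, 92), (4, 0, 93)])) .e) .e) (.n (.n (.n .e (.l [(6, 0, 96)])) .e) (.n (.n (.l [(8, 0, 56), (0, 2, 57), (0, 15, 58), (0, 2, 59), (10, 0, 60), (4, 0, 61)]) .e) .e))) (.n (.n (.n (.n .e (.l [(1, 0, 95)])) .e) (.n (.n (.l [(1, 0, 40), (0, 2, 41), (0, 2, 42), (0, 1, 43), (1, 0, 44), (1, 0, 45)]) .e) .e)) (.n .e (.n (.n (.l [(2,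 0, 62), (0, 8, 63)]) .e) .e)))) (.n (.n (.n (.n (.n (.l [(33, 0, 19), (0, 14, 20)]) (.l [(2, 0, 94), (15, 0, 95)])) .e) .e) (.n .e (.n (.n (.l [(0, 3, 62), (3, 0, 63)]) .e) .e))) (.n (.n (.n (.n .e (.l [(0, 14, 96)])) .e) (.n (.n (.l [(0, 3, 48), (0, 1, 49), (2, 0, 50), (0, 1, 51), (0, 3, 53), (1, 0, 54), (3, 0, 55)]) .e) .e)) (.n .e (.n (.n (.l [(0, 2, 62), (5, 0, 63)]) .e) .e))))))
def r10 : Tr Vc := (.n (.n (.n (.n (.n (.n (.n (.l [(0, 1, 12), (1, 0, 13), (1, 0, 14)]) (.l [(1, 0, 83), (0, 1, 85), (0, 1, 87)])) .e) .e) (.n .e (.n (.n (.l [(0, 55, 56), (16, 0, 57), (44, 0, 58), (42, 0, 59), (0, 43, 60), (4, 0, 61)]) .e) .e))) (.n (.n (.n (.n .e (.l [(1, 0, 94), (0, 4, 95)])) .e) .e) (.n .e (.n (.n (.l [(8, 0, 62), (0, 6, 63)]) .e) .e)))) (.n (.n (.n (.n (.n (.l [(18, 0, 19), (0,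 1, 20)]) (.l [(0, 11, 90), (0, 8, 91), (2, 0, 92), (0, 6, 93)])) .e) .e) (.n (.n (.n .e (.l [(0, 10, 96)])) .e) (.n (.n (.l [(0, 46, 56), (15, 0, 57), (36, 0, 58), (37, 0, 59), (0, 36, 60), (4, 0, 61)]) .e) .e))) (.n (.n (.n (.n .e (.l [(0, 1, 96)])) .e) (.n (.n (.l [(1, 0, 54)]) .e) .e)) (.n .e (.n (.n (.l [(15, 0, 62), (14, 0, 63)]) .e) .e))))) (.n (.n (.n (.n (.n (.n (.l [(0, 1, 15), (0, 1, 16), (3, 0, 17)]) (.l [(12, 0, 90), (5, 0, 91), (0, 2, 92), (4, 0, 93)])) .e) .e) (.n (.n (.n .e (.l [(1, 0, 96)])) .e) (.n (.n (.l [(3, 0, 56), (0, 2, 57), (0, 2, 58), (0, 2, 59), (2, 0, 60), (1, 0, 61)]) .e) .e))) (.n (.n (.n (.n .e (.l [(0, 2, 95)])) .e) (.n (.n (.l [(0, 1, 41), (1, 0, 42)]) .e) .e)) (.n .e (.n (.n (.l [(12, 0, 62), (10, 0, 63)]) .e) .e)))) (.n (.n (.n (.n (.n (.l [(17,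 0, 19), (0, 5, 20)]) (.l [(0, 2, 94), (6, 0, 95)])) .e) .e) (.n (.n (.n .e (.l [(2, 0, 96)])) .e) (.n (.n (.l [(0, 2, 62), (1, 0, 63)]) .e) .e))) (.n (.n (.n (.n .e (.l [(0, 5, 96)])) .e) (.n (.n (.l [(2, 0, 49), (6, 0, 50), (0, 1, 52), (0, 5, 53), (2, 0, 54), (3, 0, 55)]) .e) .e)) (.n .e (.n (.n (.l [(0, 9, 62), (0, 8, 63)]) .e) .e))))))
def r11 : Tr Vc := (.n (.n (.n (.n (.n (.n (.n (.l [(4, 0, 15), (0, 1, 16), (2, 0, 18)]) (.l [(12, 0, 90), (0, 1, 91)])) .e) .e) (.n .e (.n (.n (.l [(15, 0, 62), (31, 0, 63)]) .e) .e))) (.n (.n (.n (.n .e (.l [(0, 1, 96)])) .e) .e) .e)) (.n (.n (.n (.n (.n .e (.l [(5, 0, 94), (0, 2, 95)])) .e) .e) (.n .e (.n (.n (.l [(14, 0, 62), (30, 0, 63)]) .e) .e))) (.n (.n .e (.n (.n (.l [(6, 0, 56), (0, 5, 57), (0, 8, 58), (0, 5, 59), (6, 0, 60), (3, 0, 61)])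 .e) .e)) .e))) (.n (.n (.n (.n (.n (.n (.l [(19, 0, 19), (0, 2, 20)]) (.l [(0, 8, 94), (3, 0, 95)])) .e) .e) (.n .e (.n (.n (.l [(1, 0, 62), (6, 0, 63)]) .e) .e))) (.n (.n (.n (.n .e (.l [(0, 6, 96)])) .e) (.n (.n (.l [(2, 0, 48), (0, 2, 50), (1, 0, 51), (1, 0, 52), (2, 0, 53), (0, 2, 54), (0, 3, 55)]) .e) .e)) .e)) (.n (.n (.n (.n (.n .e (.l [(0, 2, 96)])) .e) .e) .e) (.n (.n .e (.n (.n (.l [(3, 0, 56), (4, 0, 57), (1, 0, 60), (0, 3, 61)]) .e) .e)) .e))))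
def r12 : Tr Vc := (.n (.n (.n (.n (.n (.n (.n (.l [(1, 0, 15), (0, 3, 16), (4, 0, 17), (1, 0, 18)]) (.l [(1, 0, 92), (0, 2, 93)])) .e) .e) (.n .e (.n (.n (.l [(25, 0, 62), (51, 0, 63)]) .e) .e))) (.n (.n (.n (.n .e (.l [(0, 5, 96)])) .e) .e) .e)) (.n (.n (.n (.n (.n .e (.l [(6, 0, 94), (5, 0, 95)])) .e) .e) (.n .e (.n (.n (.l [(25, 0, 62), (48, 0, 63)]) .e) .e))) (.n (.n .e (.n (.n (.l [(9, 0, 56), (0, 12, 57), (0, 2, 58), (0, 15, 59), (6, 0, 60)]) .e) .e)) .e))) (.n (.n (.n (.n (.n (.n (.l [(10, 0, 19), (5, 0, 20)]) (.l [(0, 12, 94), (0, 8, 95)])) .e) .e) (.n .e (.n (.n (.l [(10, 0, 62), (17, 0, 63)]) .e) .e))) (.n (.n (.n (.n .e (.l [(0, 3, 96)])) .e) (.n (.n (.l [(1, 0, 52)]) .e) .e)) .e)) (.n (.n (.n (.n (.n .e (.l [(5, 0, 96)])) .e) .e) .e) (.n (.n .e (.n (.n (.l [(0, 10,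 56), (14, 0, 57), (3, 0, 58), (17, 0, 59), (0, 7, 60)]) .e) .e)) .e))))
def r13 : Tr Vc := (.n (.n (.n (.n (.n (.n (.n (.l [(0, 1, 18)]) (.l [(3, 0, 90), (3, 0, 91)])) .e) .e) (.n .e (.n (.n (.l [(24, 0, 62), (48, 0, 63)]) .e) .e))) (.n (.n (.n (.n .e (.l [(0, 6, 96)])) .e) .e) .e)) (.n (.n (.n (.n (.n .e (.l [(9, 0, 94), (6, 0, 95)])) .e) .e) (.n .e (.n (.n (.l [(24, 0, 62), (45, 0, 63)]) .e) .e))) (.n (.n .e (.n (.n (.l [(1, 0, 56), (0, 5, 57), (5, 0, 58), (0, 5, 59), (0, 2, 60)]) .e) .e)) .e))) (.n (.n (.n (.n (.n (.n (.l [(6, 0, 19), (6, 0, 20)]) (.l [(0, 15, 94), (0, 9, 95)])) .e) .e) (.n .e (.n (.n (.l [(9, 0, 62), (15, 0, 63)]) .e) .e))) (.n (.n (.n (.n .e (.l [(0, 3, 96)])) .e) (.n (.n (.l [(6, 0, 49), (13, 0, 50), (0, 2, 52), (0, 10, 53), (6, 0, 54), (6, 0, 55)]) .e) .e))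 .e)) (.n (.n (.n (.n (.n .e (.l [(6, 0, 96)])) .e) .e) .e) (.n (.n .e (.n (.n (.l [(0, 2, 56), (7, 0, 57), (0, 4, 58), (7, 0, 59), (1, 0, 60)]) .e) .e)) .e))))
def r14 : Tr Vc := (.n (.n (.n (.n (.n (.n (.n (.l [(3, 0, 15), (0, 4, 16), (5, 0, 17), (3, 0, 18)]) (.l [(9, 0, 90), (2, 0, 91), (0, 1, 92), (2, 0, 93)])) .e) .e) (.n .e (.n (.n (.l [(17, 0, 62), (34, 0, 63)]) .e) .e))) (.n (.n (.n (.n .e (.l [(0, 2, 96)])) .e) .e) .e)) (.n (.n (.n (.n (.n .e (.l [(2, 0, 94), (0, 1, 95)])) .e) .e) (.n .e (.n (.n (.l [(16, 0, 62), (33, 0, 63)]) .e) .e))) (.n (.n .e (.n (.n (.l [(0, 8, 56), (0, 4, 57), (5, 0, 58), (2, 0, 59), (0, 5, 60), (3, 0, 61)]) .e) .e)) .e))) (.n (.n (.n (.n (.n (.n (.l [(18, 0, 19), (0, 1, 20)]) (.l [(0, 5, 94), (2, 0, 95)])) .e) .e) (.n .e (.n (.n (.l [(3, 0, 62),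 (7, 0, 63)]) .e) .e))) (.n (.n (.n (.n .e (.l [(0, 3, 96)])) .e) (.n (.n (.l [(2, 0, 48), (0, 6, 49), (0, 16, 50), (1, 0, 51), (4, 0, 52), (13, 0, 53), (0, 8, 54), (0, 9, 55)]) .e) .e)) .e)) (.n (.n (.n (.n (.n .e (.l [(0, 1, 96)])) .e) .e) .e) (.n (.n .e (.n (.n (.l [(17, 0, 56), (3, 0, 57), (0, 13, 58), (0, 7, 59), (12, 0, 60), (0, 3, 61)]) .e) .e)) .e))))
def r15 : Tr Vc := (.n (.n (.n (.n (.n (.n (.n (.l [(11, 0, 19)]) (.l [(0, 9, 94)])) .e) .e) .e) .e) (.n (.n (.n (.n (.n .e (.l [(0, 1, 96)])) .e) .e) .e) (.n (.n .e (.n (.n (.l [(11, 0, 62), (11, 0, 63)]) .e) .e)) .e))) (.n (.n .e (.n (.n .e (.n (.n (.l [(2, 0, 56), (1, 0, 58), (1, 0, 61)]) .e) .e)) .e)) (.n .e (.n (.n .e (.n (.n (.l [(0, 12, 62), (0, 12, 63)]) .e) .e)) .e))))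
def r16 : Tr Vc := (.n (.n (.n (.n (.n (.n (.n (.l [(37, 0, 19), (0, 15, 20)]) (.l [(2, 0, 94), (15, 0, 95)])) .e) .e) .e) .e) (.n (.n (.n (.n (.n .e (.l [(6, 0, 96)])) .e) .e) .e) (.n (.n .e (.n (.n (.l [(0, 8, 62), (0, 23, 63)]) .e) .e)) .e))) (.n (.n (.n (.n (.n (.n .e (.l [(0, 15, 96)])) .e) .e) .e) (.n (.n .e (.n (.n (.l [(0, 46, 56), (17, 0, 57), (22, 0, 58), (42, 0, 59), (0, 30, 60), (9, 0, 61)]) .e) .e)) .e)) (.n .e (.n (.n .e (.n (.n (.l [(5, 0, 62), (26, 0, 63)]) .e) .e)) .e))))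
def r17 : Tr Vc := (.n (.n (.n (.n (.n (.n (.n (.l [(23, 0, 19), (0, 7, 20)]) (.l [(0, 3, 94), (7, 0, 95)])) .e) .e) .e) .e) (.n (.n (.n (.n (.n .e (.l [(2, 0, 96)])) .e) .e) .e) (.n (.n .e (.n (.n (.l [(2, 0, 62), (0, 6, 63)]) .e) .e)) .e))) (.n (.n (.n (.n (.n (.n .e (.l [(0, 7, 96)])) .e) .e) .e) (.n (.n .e (.n (.n (.l [(0, 28, 56), (10, 0, 57), (17, 0, 58), (25, 0, 59), (0, 20, 60), (5, 0, 61)]) .e) .e)) .e)) (.n .e (.n (.n .e (.n (.n (.l [(0, 4, 62), (7, 0, 63)]) .e) .e)) .e))))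
def r18 : Tr Vc := (.n (.n (.n (.n (.n (.n (.n (.l [(6, 0, 19), (0, 9, 20)]) (.l [(15, 0, 94), (9, 0, 95)])) .e) .e) .e) .e) (.n (.n (.n (.n (.n .e (.l [(6, 0, 96)])) .e) .e) .e) (.n (.n .e (.n (.n (.l [(0, 21, 62), (0, 27, 63)]) .e) .e)) .e))) (.n (.n (.n (.n (.n (.n .e (.l [(0, 9, 96)])) .e) .e) .e) (.n (.n .e (.n (.n (.l [(0, 10, 56), (2, 0, 57), (0, 5, 58), (8, 0, 59), (0, 1, 60), (3, 0, 61)]) .e) .e)) .e)) (.n .e (.n (.n .e (.n (.n (.l [(21, 0, 62), (30, 0, 63)]) .e) .e)) .e))))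
def r19 : Tr Vc := (.n .e (.n (.n .e (.n (.n .e (.n (.n (.l [(1, 0, 62), (2, 0, 63)]) .e) .e)) .e)) .e))
def r20 : Tr Vc := (.n (.n (.n (.n (.n (.n (.n .e (.l [(1, 0, 96)])) .e) .e) .e) .e) .e) (.n (.n .e (.n (.n .e (.n (.n (.l [(3, 0, 62), (5, 0, 63)]) .e) .e)) .e)) .e))
def r21 : Tr Vc := (.n (.n (.n (.n (.n (.n (.n (.l [(1, 0, 23)]) .e) (.n (.l [(0, 1, 76), (0, 1, 77), (1, 0, 78), (0, 1, 79), (0, 1, 80)]) .e)) (.n (.n (.l [(0, 7, 56), (5, 0, 57), (9, 0, 58), (5, 0, 59), (0, 4, 60)]) .e) (.n (.l [(8, 0, 90), (0, 35, 91), (13, 0, 92), (0, 22, 93)]) .e))) (.n (.n (.n (.l [(0, 2, 41), (2, 0, 42), (0, 1, 43), (0, 1, 44), (0, 1, 45), (5, 0, 46), (0, 1, 47)]) .e) (.n (.l [(1, 0, 85), (1, 0, 86), (0, 1, 87), (0, 1, 89)]) .e)) (.n (.n (.l [(1, 0, 67), (1, 0, 68), (1, 0, 69)]) .e) (.n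 (.l [(1, 0, 94), (5, 0, 95)]) .e)))) (.n (.n (.n (.n (.l [(1, 0, 34), (0, 1, 38), (0, 1, 39)]) .e) (.n (.l [(0, 1, 76), (2, 0, 78), (1, 0, 81), (1, 0, 82)]) .e)) (.n (.n (.l [(3, 0, 62), (0, 2, 63)]) .e) (.n (.l [(0, 14, 90), (72, 0, 91), (0, 24, 92), (45, 0, 93)]) .e))) (.n (.n (.n (.l [(0, 6, 48), (0, 4, 49), (0, 5, 50), (0, 3, 51), (3, 0, 53), (0, 1, 54), (0, 1, 55)]) .e) (.n (.l [(2, 0, 83), (1, 0, 88)]) .e)) (.n (.n (.l [(1, 0, 72)]) .e) (.n (.l [(1, 0, 95)]) .e))))) (.n (.n (.n (.n (.n (.l [(1, 0, 27), (0, 1, 28)]) .e) (.n (.l [(1, 0, 76), (0, 1, 79)]) .e)) (.n (.n (.l [(8, 0, 56), (0, 1, 57), (0, 2, 58), (0, 4, 59), (8, 0, 60), (0, 3, 61)]) .e) (.n (.l [(0, 5, 90), (0, 1, 91), (0, 1, 92), (0, 1, 93)]) .e))) (.n (.n (.n (.l [(0, 1, 43), (2, 0, 46)]) .e) (.n (.l [(5, 0, 83),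 (1, 0, 85), (2, 0, 88)]) .e)) (.n (.n (.l [(1, 0, 69)]) .e) (.n (.l [(1, 0, 94), (6, 0, 95)]) .e)))) (.n (.n (.n (.n (.l [(1, 0, 32)]) .e) (.n (.l [(2, 0, 76), (1, 0, 77), (1, 0, 78), (0, 1, 79), (0, 1, 81)]) .e)) (.n (.n (.l [(1, 0, 66)]) .e) (.n (.l [(0, 17, 90), (0, 2, 91), (3, 0, 92), (0, 2, 93)]) .e))) (.n (.n (.n (.l [(0, 2, 48), (0, 2, 49), (2, 0, 50), (0, 2, 53), (3, 0, 54), (4, 0, 55)]) .e) (.n (.l [(0, 2, 83), (0, 1, 85), (0, 1, 88)]) .e)) (.n (.n (.l [(1, 0, 74)]) .e) (.n (.l [(1, 0, 96)]) .e)))))) (.n (.n (.n (.n (.n (.n (.l [(2, 0, 24), (1, 0, 25), (0, 2, 26)]) .e) (.n (.l [(1, 0, 77), (1, 0, 81)]) .e)) (.n (.n (.l [(1, 0, 57), (0, 1, 59), (1, 0, 60), (1, 0, 61)]) .e) (.n (.l [(0, 6, 90), (35, 0, 91), (0, 12, 92), (22, 0, 93)]) .e))) (.n (.n (.n (.l [(1, 0, 45)]) .e)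 (.n (.l [(2, 0, 83), (1, 0, 84), (0, 1, 87)]) .e)) (.n (.n (.l [(0, 1, 67), (0, 2, 68)]) .e) (.n (.l [(0, 1, 95)]) .e)))) (.n (.n (.n (.n (.l [(0, 2, 32), (1, 0, 33), (0, 2, 35), (1, 0, 36), (0, 2, 37), (2, 0, 38), (7, 0, 39)]) .e) (.n (.l [(0, 1, 77), (1, 0, 78)]) .e)) (.n (.n (.l [(1, 0, 64)]) .e) (.n (.l [(0, 7, 90), (0, 1, 91), (0, 1, 92), (0, 1, 93)]) .e))) (.n (.n (.n (.l [(0, 6, 48), (0, 6, 49), (0, 8, 50), (0, 3, 51), (1, 0, 52), (5, 0, 53), (0, 3, 54), (0, 3, 55)]) .e) (.n (.l [(0, 1, 85), (0, 1, 86), (1, 0, 87)]) .e)) (.n (.n (.l [(1, 0, 70), (0, 1, 71), (1, 0, 72), (1, 0, 74), (1, 0, 75)]) .e) (.n (.l [(0, 3, 94), (8, 0, 95)]) .e))))) (.n (.n (.n (.n (.n (.l [(1, 0, 27), (0, 1, 29), (1, 0, 30), (1, 0, 31)]) .e) (.n (.l [(0, 1, 76), (1, 0, 80)]) .e)) (.n (.n (.l [(1, 0,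 62), (0, 1, 63)]) .e) (.n (.l [(0, 6, 90), (24, 0, 91), (0, 10, 92), (16, 0, 93)]) .e))) (.n (.n (.n (.l [(0, 2, 48), (8, 0, 50), (0, 1, 52), (0, 7, 53), (5, 0, 54), (6, 0, 55)]) .e) (.n (.l [(0, 5, 83), (0, 1, 85), (1, 0, 87), (0, 2, 88)]) .e)) (.n (.n (.l [(1, 0, 70), (1, 0, 72)]) .e) (.n (.l [(1, 0, 95)]) .e)))) (.n (.n (.n (.n (.l [(1, 0, 44)]) .e) (.n (.l [(0, 1, 76), (0, 1, 77)]) .e)) (.n (.n (.l [(1, 0, 65)]) .e) (.n (.l [(15, 0, 90), (2, 0, 91), (0, 2, 92), (2, 0, 93)]) .e))) (.n (.n (.n (.l [(0, 5, 56), (2, 0, 58), (1, 0, 59), (0, 4, 60), (2, 0, 61)]) .e) (.n (.l [(0, 2, 84)]) .e)) (.n (.n (.l [(1, 0, 75)]) .e) (.n (.l [(1, 0, 96)]) .e)))))))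
def r22 : Tr Vc := (.n (.n (.n (.n (.n (.n (.n (.l [(0, 1, 26)]) .e) (.n (.l [(0, 3, 83), (0, 1, 84), (0, 1, 85), (1, 0, 86), (0, 1, 87), (0, 1, 88), (0, 1, 89)]) .e)) (.n (.n (.l [(0, 25, 62), (1, 0, 63)]) .e) (.n (.l [(0, 17, 94), (0, 9, 95)]) .e))) (.n (.n (.n (.l [(0, 5, 48), (0, 19, 49), (0, 52, 50), (0, 4, 51), (8, 0, 52), (40, 0, 53), (0, 24, 54), (0, 26, 55)]) .e) (.n (.l [(1, 0, 90), (0, 5, 91), (2, 0, 92), (0, 3, 93)]) .e)) (.n (.n (.l [(3, 0, 71), (3, 0, 73), (0, 1, 74)]) .e) (.n (.l [(0, 4, 96)]) .e)))) (.n (.n (.n (.n (.l [(0, 1, 40), (2, 0, 42), (0, 2, 44), (0, 1, 45), (2, 0, 46)]) .e) (.n (.l [(1, 0, 83), (1, 0, 86), (0, 1, 88)]) .e)) (.n .e (.n (.l [(45, 0, 94), (28, 0, 95)]) .e))) (.n (.n (.n (.l [(15, 0, 56), (0, 8, 58), (0, 6, 59), (6, 0, 60), (0, 3, 61)]) .e)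 (.n (.l [(6, 0, 90), (19, 0, 91), (0, 9, 92), (13, 0, 93)]) .e)) (.n (.n (.l [(1, 0, 77)]) .e) (.n (.l [(1, 0, 96)]) .e))))) (.n (.n (.n (.n (.n (.l [(1, 0, 32), (1, 0, 35), (0, 1, 36), (1, 0, 37), (0, 1, 38), (0, 4, 39)]) .e) (.n (.l [(1, 0, 83), (1, 0, 84), (0, 1, 86), (1, 0, 88)]) .e)) (.n (.n (.l [(0, 12, 62)]) .e) (.n (.l [(0, 10, 94), (0, 9, 95)]) .e))) (.n (.n (.n (.l [(0, 5, 50), (0, 1, 51), (4, 0, 53), (0, 3, 54), (0, 4, 55)]) .e) (.n (.l [(11, 0, 90), (11, 0, 91), (0, 4, 92), (7, 0, 93)]) .e)) (.n (.n (.l [(2, 0, 71), (2, 0, 73), (0, 1, 74)]) .e) .e))) (.n (.n (.n (.n (.l [(0, 1, 40), (2, 0, 41), (0, 1, 42), (1, 0, 43), (1, 0, 44), (0, 4, 46), (1, 0, 47)]) .e) (.n (.l [(8, 0, 83), (3, 0, 84), (2, 0, 85), (0, 1, 86), (0, 1, 87), (3, 0, 88), (1, 0, 89)]) .e)) (.n (.n (.l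 [(0, 1, 69)]) .e) (.n (.l [(6, 0, 94), (0, 11, 95)]) .e))) (.n (.n (.n (.l [(1, 0, 56), (0, 1, 57), (5, 0, 58), (0, 1, 59), (0, 2, 60), (0, 3, 61)]) .e) (.n (.l [(0, 7, 90), (23, 0, 91), (0, 10, 92), (15, 0, 93)]) .e)) (.n (.n (.l [(1, 0, 77), (0, 1, 78)]) .e) .e))))) (.n (.n (.n (.n (.n (.n (.l [(1, 0, 27), (1, 0, 28), (1, 0, 29), (0, 1, 30)]) .e) (.n (.l [(3, 0, 83), (2, 0, 84), (0, 1, 86), (1, 0, 88), (1, 0, 89)]) .e)) (.n (.n (.l [(0, 13, 62)]) .e) (.n (.l [(25, 0, 94), (17, 0, 95)]) .e))) (.n (.n (.n (.l [(5, 0, 48), (7, 0, 49), (15, 0, 50), (2, 0, 51), (0, 2, 52), (0, 11, 53), (6, 0, 54), (6, 0, 55)]) .e) (.n (.l [(0, 8, 90), (41, 0, 91), (0, 15, 92), (26, 0, 93)]) .e)) (.n (.n (.l [(0, 1, 70), (0, 1, 71), (0, 2, 72), (0, 2, 73), (0, 1, 75)]) .e) (.n (.l [(8, 0, 96)]) .e))))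 (.n (.n (.n (.n (.l [(0, 1, 40), (0, 2, 41), (4, 0, 42), (0, 1, 43), (0, 5, 44), (0, 1, 45), (7, 0, 46), (0, 1, 47)]) .e) (.n (.l [(0, 5, 83), (0, 2, 84), (0, 1, 85), (2, 0, 86), (1, 0, 87), (0, 3, 88), (0, 1, 89)]) .e)) (.n (.n (.l [(1, 0, 65)]) .e) (.n (.l [(0, 10, 94), (0, 11, 95)]) .e))) (.n (.n (.n (.l [(7, 0, 56), (7, 0, 57), (0, 1, 58), (4, 0, 59), (0, 2, 60), (0, 3, 61)]) .e) (.n (.l [(0, 7, 90), (29, 0, 91), (0, 11, 92), (17, 0, 93)]) .e)) (.n (.n (.l [(1, 0, 76), (1, 0, 77), (0, 1, 79)]) .e) (.n (.l [(0, 3, 96)]) .e))))) (.n (.n (.n (.n (.n (.l [(0, 2, 33), (1, 0, 34), (1, 0, 35), (2, 0, 36), (0, 2, 37), (0, 1, 38), (0, 2, 39)]) .e) (.n (.l [(0, 1, 83), (0, 1, 87), (0, 1, 88)]) .e)) (.n .e (.n (.l [(12, 0, 94), (1, 0, 95)]) .e))) (.n (.n (.n (.l [(15, 0, 56), (0, 2, 57),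 (0, 8, 58), (0, 8, 59), (9, 0, 60), (0, 3, 61)]) .e) (.n (.l [(0, 19, 90), (18, 0, 91), (0, 8, 92), (11, 0, 93)]) .e)) (.n (.n (.l [(0, 2, 76), (1, 0, 79), (1, 0, 81), (1, 0, 82)]) .e) (.n (.l [(0, 8, 96)]) .e)))) (.n (.n (.n (.n (.l [(0, 6, 49), (0, 19, 50), (0, 1, 51), (3, 0, 52), (15, 0, 53), (0, 9, 54), (0, 10, 55)]) .e) (.n (.l [(0, 5, 83), (0, 2, 84), (0, 1, 85), (1, 0, 86), (0, 2, 88), (0, 1, 89)]) .e)) (.n (.n (.l [(1, 0, 67), (1, 0, 68), (1, 0, 69)]) .e) (.n (.l [(0, 4, 94), (9, 0, 95)]) .e))) (.n (.n .e (.n (.l [(6, 0, 90), (0, 20, 91), (7, 0, 92), (0, 13, 93)]) .e)) (.n (.n (.l [(3, 0, 76), (0, 2, 77), (1, 0, 78), (0, 2, 79), (0, 1, 80), (0, 2, 81), (0, 2, 82)]) .e) .e))))))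
def r23 : Tr Vc := (.n (.n (.n (.n (.n (.n (.n (.l [(1, 0, 24)]) .e) (.n (.l [(4, 0, 83), (1, 0, 85), (0, 1, 86), (1, 0, 88), (1, 0, 89)]) .e)) (.n (.n (.l [(28, 0, 62), (0, 4, 63)]) .e) (.n (.l [(20, 0, 94), (10, 0, 95)]) .e))) (.n (.n (.n (.l [(4, 0, 48), (14, 0, 49), (39, 0, 50), (4, 0, 51), (0, 6, 52), (0, 30, 53), (18, 0, 54), (20, 0, 55)]) .e) (.n (.l [(0, 1, 90), (5, 0, 91), (0, 2, 92), (3, 0, 93)]) .e)) (.n (.n (.l [(0, 2, 71), (0, 2, 73), (1, 0, 74)]) .e) (.n (.l [(4, 0, 96)]) .e)))) (.n (.n (.n (.n (.l [(0, 2, 42), (2, 0, 44), (1, 0, 45), (0, 2, 46)]) .e) (.n (.l [(0, 7, 83), (0, 2, 84), (0, 1, 85), (1, 0, 87), (0, 1, 88), (0, 1, 89)]) .e)) (.n .e (.n (.l [(0, 51, 94), (0, 31, 95)]) .e))) (.n (.n (.n (.l [(0, 16, 56), (2, 0, 57), (9, 0, 58), (8, 0, 59), (0, 7, 60), (3,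 0, 61)]) .e) (.n (.l [(0, 7, 90), (0, 16, 91), (7, 0, 92), (0, 11, 93)]) .e)) (.n (.n (.l [(1, 0, 76), (0, 1, 77), (1, 0, 78), (0, 1, 79), (0, 1, 81)]) .e) (.n (.l [(0, 1, 96)]) .e))))) (.n (.n (.n (.n (.n (.l [(0, 1, 32), (0, 1, 35), (1, 0, 36), (0, 1, 37), (3, 0, 39)]) .e) (.n (.l [(0, 1, 83), (0, 1, 84), (0, 1, 85), (1, 0, 87), (0, 1, 88), (1, 0, 89)]) .e)) (.n (.n (.l [(12, 0, 62), (0, 3, 63)]) .e) (.n (.l [(10, 0, 94), (10, 0, 95)]) .e))) (.n (.n (.n (.l [(0, 2, 49), (0, 1, 50), (1, 0, 51), (1, 0, 52), (1, 0, 53), (1, 0, 55)]) .e) (.n (.l [(0, 13, 90), (0, 11, 91), (4, 0, 92), (0, 7, 93)]) .e)) (.n (.n (.l [(0, 1, 71), (0, 1, 73), (1, 0, 74)]) .e) .e))) (.n (.n (.n (.n (.l [(1, 0, 40), (0, 1, 41), (0, 1, 43), (3, 0, 46)]) .e) (.n (.l [(0, 8, 83), (0, 2, 84), (0, 2, 85), (1,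 0, 86), (1, 0, 87), (0, 3, 88), (0, 1, 89)]) .e)) (.n (.n (.l [(0, 1, 67), (0, 1, 68), (1, 0, 69)]) .e) (.n (.l [(0, 7, 94), (13, 0, 95)]) .e))) (.n (.n (.n (.l [(8, 0, 56), (0, 13, 58), (0, 4, 59), (9, 0, 60), (3, 0, 61)]) .e) (.n (.l [(7, 0, 90), (0, 23, 91), (9, 0, 92), (0, 15, 93)]) .e)) (.n (.n (.l [(0, 1, 76), (2, 0, 78), (1, 0, 81), (1, 0, 82)]) .e) .e))))) (.n (.n (.n (.n (.n (.n (.l [(0, 1, 28), (0, 1, 29), (1, 0, 30)]) .e) (.n (.l [(0, 3, 83), (0, 3, 84), (1, 0, 86), (0, 1, 88), (0, 1, 89)]) .e)) (.n (.n (.l [(15, 0, 62), (0, 1, 63)]) .e) (.n (.l [(0, 28, 94), (0, 19, 95)]) .e))) (.n (.n (.n (.l [(0, 4, 48), (0, 6, 49), (0, 14, 50), (0, 2, 51), (2, 0, 52), (11, 0, 53), (0, 6, 54), (0, 6, 55)]) .e) (.n (.l [(7, 0, 90), (0, 44, 91), (15, 0, 92), (0, 28, 93)]) .e)) (.n (.n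 (.l [(2, 0, 70), (1, 0, 71), (3, 0, 72), (2, 0, 73), (1, 0, 75)]) .e) (.n (.l [(0, 8, 96)]) .e)))) (.n (.n (.n (.n (.l [(2, 0, 41), (0, 4, 42), (1, 0, 43), (5, 0, 44), (1, 0, 45), (0, 7, 46), (1, 0, 47)]) .e) (.n (.l [(0, 1, 83), (0, 1, 86), (1, 0, 88)]) .e)) (.n (.n (.l [(1, 0, 66)]) .e) (.n (.l [(10, 0, 94), (12, 0, 95)]) .e))) (.n (.n (.n (.l [(0, 8, 56), (0, 5, 57), (2, 0, 58), (0, 2, 59), (1, 0, 60), (3, 0, 61)]) .e) (.n (.l [(4, 0, 90), (0, 30, 91), (11, 0, 92), (0, 18, 93)]) .e)) (.n (.n (.l [(0, 1, 76), (1, 0, 79), (1, 0, 81)]) .e) (.n (.l [(4, 0, 96)]) .e))))) (.n (.n (.n (.n (.n (.l [(1, 0, 33), (0, 1, 34), (0, 1, 35), (0, 1, 36), (1, 0, 37), (1, 0, 38), (3, 0, 39)]) .e) (.n (.l [(3, 0, 83), (0, 1, 84), (1, 0, 85), (1, 0, 87), (2, 0, 88)]) .e)) (.n .e (.n (.l [(0, 14,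 94), (0, 1, 95)]) .e))) (.n (.n (.n (.l [(0, 6, 56), (1, 0, 57), (3, 0, 59), (0, 2, 60), (3, 0, 61)]) .e) (.n (.l [(20, 0, 90), (0, 21, 91), (8, 0, 92), (0, 13, 93)]) .e)) (.n (.n (.l [(2, 0, 76), (0, 1, 79), (0, 1, 81), (0, 1, 82)]) .e) (.n (.l [(8, 0, 96)]) .e)))) (.n (.n (.n (.n (.l [(4, 0, 49), (13, 0, 50), (1, 0, 51), (0, 2, 52), (0, 10, 53), (6, 0, 54), (7, 0, 55)]) .e) (.n (.l [(5, 0, 83), (1, 0, 84), (1, 0, 85), (0, 1, 86), (2, 0, 88), (1, 0, 89)]) .e)) (.n (.n (.l [(0, 1, 69)]) .e) (.n (.l [(5, 0, 94), (0, 11, 95)]) .e))) (.n (.n (.n (.l [(1, 0, 62), (1, 0, 63)]) .e) (.n (.l [(0, 6, 90), (20, 0, 91), (0, 6, 92), (13, 0, 93)]) .e)) (.n (.n (.l [(0, 4, 76), (1, 0, 77), (0, 1, 78), (2, 0, 79), (1, 0, 80), (2, 0, 81), (2, 0, 82)]) .e) .e))))))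
def r24 : Tr Vc := (.n (.n (.n (.n (.n (.n (.n (.l [(0, 1, 28), (0, 2, 29), (1, 0, 30), (0, 1, 31)]) .e) (.n (.l [(15, 0, 90), (0, 4, 91), (3, 0, 92), (0, 2, 93)]) .e)) (.n .e (.n (.l [(0, 20, 96)]) .e))) (.n (.n (.n (.l [(31, 0, 56), (0, 12, 57), (0, 30, 58), (0, 26, 59), (26, 0, 60), (1, 0, 61)]) .e) (.n (.l [(0, 1, 95)]) .e)) (.n (.n (.l [(0, 1, 76), (1, 0, 77), (1, 0, 79), (1, 0, 81), (1, 0, 82)]) .e) .e))) (.n (.n (.n (.n (.l [(1, 0, 53)]) .e) (.n (.l [(0, 9, 90), (31, 0, 91), (0, 8, 92), (20, 0, 93)]) .e)) (.n .e (.n (.l [(42, 0, 96)]) .e))) (.n (.n (.n (.l [(16, 0, 62), (0, 16, 63)]) .e) (.n (.l [(0, 5, 94), (6, 0, 95)]) .e)) (.n (.n (.l [(0, 3, 83), (0, 1, 84), (0, 2, 85), (0, 2, 86), (2, 0, 87), (0, 1, 88), (2, 0, 89)]) .e) .e)))) (.n (.n (.n (.n (.n (.l [(0, 2, 40), (2,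 0, 41), (0, 4, 42), (1, 0, 43), (4, 0, 44), (1, 0, 45), (0, 6, 46), (1, 0, 47)]) .e) (.n (.l [(6, 0, 90), (2, 0, 92), (0, 1, 93)]) .e)) (.n .e (.n (.l [(1, 0, 96)]) .e))) (.n (.n (.n (.l [(27, 0, 56), (0, 5, 57), (0, 27, 58), (0, 18, 59), (24, 0, 60), (1, 0, 61)]) .e) (.n (.l [(0, 4, 94), (11, 0, 95)]) .e)) (.n (.n (.l [(1, 0, 77), (1, 0, 81)]) .e) .e))) (.n (.n (.n (.n (.l [(1, 0, 48), (3, 0, 50), (2, 0, 51), (0, 2, 53), (2, 0, 54), (3, 0, 55)]) .e) (.n (.l [(0, 2, 91), (0, 1, 93)]) .e)) (.n (.n (.l [(1, 0, 71), (1, 0, 73), (0, 1, 75)]) .e) (.n (.l [(2, 0, 96)]) .e))) (.n (.n (.n (.l [(9, 0, 62), (0, 5, 63)]) .e) (.n (.l [(7, 0, 94), (3, 0, 95)]) .e)) (.n (.n (.l [(0, 11, 83), (0, 4, 84), (0, 2, 85), (2, 0, 87), (0, 3, 88), (0, 1, 89)]) .e) .e))))) (.n (.n (.n (.n (.n (.n (.l [(0,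 1, 38)]) .e) (.n (.l [(0, 2, 90), (3, 0, 92)]) .e)) (.n .e (.n (.l [(20, 0, 96)]) .e))) (.n (.n (.n (.l [(0, 13, 56), (11, 0, 57), (9, 0, 58), (14, 0, 59), (0, 8, 60), (1, 0, 61)]) .e) (.n (.l [(18, 0, 94), (12, 0, 95)]) .e)) (.n (.n (.l [(4, 0, 76), (2, 0, 78), (0, 4, 79), (0, 2, 81), (0, 1, 82)]) .e) .e))) (.n (.n (.n (.n (.l [(1, 0, 50)]) .e) (.n (.l [(0, 8, 90), (28, 0, 91), (0, 8, 92), (18, 0, 93)]) .e)) (.n (.n (.l [(0, 1, 67), (0, 2, 68)]) .e) (.n (.l [(1, 0, 96)]) .e))) (.n (.n (.n (.l [(15, 0, 62), (0, 15, 63)]) .e) (.n (.l [(3, 0, 94), (13, 0, 95)]) .e)) (.n (.n (.l [(0, 4, 83), (0, 3, 84), (0, 1, 88), (0, 1, 89)]) .e) .e)))) (.n (.n (.n (.n (.n (.l [(0, 1, 40), (3, 0, 41), (0, 4, 42), (1, 0, 43), (5, 0, 44), (0, 6, 46), (2, 0, 47)]) .e) (.n (.l [(0, 17, 90), (0, 13, 91),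 (6, 0, 92), (0, 8, 93)]) .e)) (.n .e (.n (.l [(11, 0, 96)]) .e))) (.n (.n (.n (.l [(7, 0, 62), (0, 6, 63)]) .e) (.n (.l [(16, 0, 94), (1, 0, 95)]) .e)) (.n (.n (.l [(0, 1, 84)]) .e) .e))) (.n (.n (.n (.n (.l [(13, 0, 56), (0, 4, 57), (0, 14, 58), (0, 11, 59), (13, 0, 60), (1, 0, 61)]) .e) (.n (.l [(1, 0, 92)]) .e)) (.n (.n (.l [(1, 0, 75)]) .e) (.n (.l [(0, 2, 96)]) .e))) (.n (.n .e (.n (.l [(0, 10, 94), (0, 4, 95)]) .e)) (.n (.n (.l [(5, 0, 83), (4, 0, 84), (1, 0, 85), (1, 0, 86), (2, 0, 88)]) .e) .e))))))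
def r25 : Tr Vc := (.n (.n (.n (.n (.n (.n (.n (.l [(1, 0, 31)]) .e) (.n (.l [(6, 0, 90), (14, 0, 91), (0, 8, 92), (11, 0, 93)]) .e)) (.n .e (.n (.l [(0, 32, 96)]) .e))) (.n (.n (.n (.l [(0, 43, 56), (10, 0, 57), (36, 0, 58), (27, 0, 59), (0, 37, 60), (2, 0, 61)]) .e) .e) (.n (.n (.l [(0, 4, 77), (0, 2, 81), (0, 1, 82)]) .e) .e))) (.n (.n (.n (.n (.l [(0, 8, 48), (0, 6, 49), (0, 7, 50), (0, 3, 51), (3, 0, 53), (0, 1, 54), (0, 1, 55)]) .e) (.n (.l [(0, 12, 90), (62, 0, 91), (0, 24, 92), (39, 0, 93)]) .e)) (.n .e (.n (.l [(58, 0, 96)]) .e))) (.n (.n (.n (.l [(19, 0, 62), (0, 14, 63)]) .e) (.n (.l [(0, 4, 94), (0, 5, 95)]) .e)) (.n (.n (.l [(1, 0, 83), (1, 0, 85), (2, 0, 86), (0, 1, 87), (0, 1, 89)]) .e) .e)))) (.n (.n (.n (.n (.n (.l [(2, 0, 40), (1, 0, 42), (1, 0, 46)]) .e) (.n (.l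 [(0, 5, 90), (0, 1, 91), (0, 1, 93)]) .e)) (.n .e (.n (.l [(8, 0, 96)]) .e))) (.n (.n (.n (.l [(14, 0, 56), (0, 8, 57), (0, 13, 58), (0, 15, 59), (12, 0, 60), (1, 0, 61)]) .e) (.n (.l [(3, 0, 94), (13, 0, 95)]) .e)) (.n (.n (.l [(1, 0, 76), (0, 3, 77), (0, 2, 81), (0, 1, 82)]) .e) .e))) (.n (.n (.n (.n (.l [(0, 2, 48), (2, 0, 49), (16, 0, 50), (0, 2, 52), (0, 14, 53), (9, 0, 54), (10, 0, 55)]) .e) (.n (.l [(9, 0, 90), (0, 21, 91), (12, 0, 92), (0, 14, 93)]) .e)) (.n (.n (.l [(3, 0, 70), (0, 2, 71), (4, 0, 72), (1, 0, 74), (3, 0, 75)]) .e) (.n (.l [(18, 0, 96)]) .e))) (.n (.n (.n (.l [(11, 0, 62), (0, 13, 63)]) .e) (.n (.l [(0, 3, 94), (0, 14, 95)]) .e)) (.n (.n (.l [(8, 0, 83), (1, 0, 84), (2, 0, 85), (0, 2, 87), (3, 0, 88)]) .e) .e))))) (.n (.n (.n (.n (.n (.n (.l [(0, 2, 32),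 (1, 0, 33), (0, 2, 35), (1, 0, 36), (0, 2, 37), (4, 0, 38), (9, 0, 39)]) .e) (.n (.l [(0, 6, 90), (22, 0, 91), (0, 8, 92), (14, 0, 93)]) .e)) (.n .e (.n (.l [(24, 0, 96)]) .e))) (.n (.n (.n (.l [(5, 0, 56), (0, 2, 57), (0, 2, 58), (0, 6, 59), (4, 0, 60)]) .e) (.n (.l [(2, 0, 94), (0, 10, 95)]) .e)) (.n (.n (.l [(1, 0, 77), (0, 1, 78), (1, 0, 79), (1, 0, 81)]) .e) .e))) (.n (.n (.n (.n (.l [(0, 8, 48), (0, 8, 49), (0, 10, 50), (0, 3, 51), (1, 0, 52), (5, 0, 53), (0, 3, 54), (0, 3, 55)]) .e) (.n (.l [(0, 13, 90), (57, 0, 91), (0, 24, 92), (36, 0, 93)]) .e)) (.n (.n (.l [(1, 0, 67), (1, 0, 68), (1, 0, 69)]) .e) (.n (.l [(9, 0, 96)]) .e))) (.n (.n (.n (.l [(18, 0, 62), (0, 12, 63)]) .e) (.n (.l [(0, 7, 94), (0, 8, 95)]) .e)) (.n (.n (.l [(3, 0, 83), (1, 0, 84), (1, 0, 85), (1, 0, 86),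 (0, 1, 87), (1, 0, 88), (0, 1, 89)]) .e) .e)))) (.n (.n (.n (.n (.n (.l [(0, 4, 41), (5, 0, 42), (0, 1, 43), (0, 4, 44), (0, 1, 45), (8, 0, 46), (0, 3, 47)]) .e) (.n (.l [(0, 15, 90), (24, 0, 91), (0, 10, 92), (15, 0, 93)]) .e)) (.n .e (.n (.l [(27, 0, 96)]) .e))) (.n (.n (.n (.l [(9, 0, 62), (0, 12, 63)]) .e) (.n (.l [(0, 3, 94), (0, 20, 95)]) .e)) (.n (.n (.l [(0, 1, 85), (0, 1, 86), (1, 0, 87), (1, 0, 89)]) .e) .e))) (.n (.n (.n (.n (.l [(0, 20, 56), (3, 0, 57), (18, 0, 58), (10, 0, 59), (0, 17, 60), (1, 0, 61)]) .e) (.n (.l [(0, 7, 90), (21, 0, 91), (0, 11, 92), (14, 0, 93)]) .e)) (.n (.n (.l [(0, 2, 70), (2, 0, 71), (0, 3, 72), (0, 1, 74), (0, 3, 75)]) .e) (.n (.l [(0, 16, 96)]) .e))) (.n (.n .e (.n (.l [(3, 0, 94), (14, 0, 95)]) .e)) (.n (.n (.l [(0, 2, 83), (0, 1, 84), (1,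 0, 86), (0, 1, 87), (0, 1, 88), (0, 1, 89)]) .e) .e))))))
def r26 : Tr Vc := (.n (.n (.n (.n (.n (.n (.n (.l [(0, 1, 27), (0, 1, 28), (0, 2, 29), (1, 0, 30), (0, 1, 31)]) .e) (.n (.l [(14, 0, 90), (0, 1, 91), (1, 0, 92)]) .e)) (.n .e (.n (.l [(0, 17, 96)]) .e))) (.n (.n (.n (.l [(12, 0, 56), (0, 8, 57), (0, 13, 58), (0, 14, 59), (11, 0, 60), (1, 0, 61)]) .e) (.n (.l [(0, 1, 95)]) .e)) (.n (.n (.l [(0, 1, 76), (1, 0, 79), (1, 0, 82)]) .e) .e))) (.n (.n (.n (.n (.l [(0, 1, 48), (0, 1, 49), (0, 1, 50), (1, 0, 53)]) .e) (.n (.l [(0, 8, 90), (26, 0, 91), (0, 8, 92), (17, 0, 93)]) .e)) (.n .e (.n (.l [(36, 0, 96)]) .e))) (.n (.n (.n (.l [(13, 0, 62), (0, 13, 63)]) .e) (.n (.l [(0, 4, 94), (6, 0, 95)]) .e)) (.n (.n (.l [(0, 3, 83), (0, 1, 84), (0, 1, 85), (0, 1, 86), (1, 0, 87), (0, 1,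 88), (1, 0, 89)]) .e) .e)))) (.n (.n (.n (.n (.n (.l [(0, 1, 40), (2, 0, 41), (0, 4, 42), (1, 0, 43), (4, 0, 44), (1, 0, 45), (0, 6, 46), (1, 0, 47)]) .e) (.n (.l [(3, 0, 90), (0, 1, 91), (2, 0, 92), (0, 2, 93)]) .e)) (.n .e (.n (.l [(1, 0, 96)]) .e))) (.n (.n (.n (.l [(18, 0, 56), (0, 4, 57), (0, 19, 58), (0, 13, 59), (17, 0, 60), (1, 0, 61)]) .e) (.n (.l [(0, 4, 94), (9, 0, 95)]) .e)) .e)) (.n (.n (.n (.n (.l [(1, 0, 48), (2, 0, 49), (9, 0, 50), (2, 0, 51), (0, 1, 52), (0, 7, 53), (5, 0, 54), (6, 0, 55)]) .e) (.n (.l [(0, 2, 91), (1, 0, 92), (0, 1, 93)]) .e)) (.n (.n (.l [(0, 1, 70), (1, 0, 71), (0, 1, 72), (1, 0, 73), (0, 1, 75)]) .e) (.n (.l [(1, 0, 96)]) .e))) (.n (.n (.n (.l [(7, 0, 62), (0, 4, 63)]) .e) (.n (.l [(7, 0, 94), (4, 0, 95)]) .e)) (.n (.n (.l [(0, 8, 83), (0, 3,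 84), (0, 1, 85), (1, 0, 87), (0, 2, 88), (0, 1, 89)]) .e) .e))))) (.n (.n (.n (.n (.n (.n (.l [(1, 0, 39)]) .e) (.n (.l [(0, 2, 90), (2, 0, 92)]) .e)) (.n .e (.n (.l [(17, 0, 96)]) .e))) (.n (.n (.n (.l [(0, 12, 56), (9, 0, 57), (8, 0, 58), (12, 0, 59), (0, 7, 60), (1, 0, 61)]) .e) (.n (.l [(17, 0, 94), (12, 0, 95)]) .e)) (.n (.n (.l [(3, 0, 76), (1, 0, 78), (0, 3, 79), (0, 1, 81), (0, 1, 82)]) .e) .e))) (.n (.n (.n (.n (.l [(0, 1, 48), (0, 1, 49)]) .e) (.n (.l [(0, 7, 90), (23, 0, 91), (0, 8, 92), (15, 0, 93)]) .e)) (.n (.n (.l [(0, 1, 68)]) .e) (.n (.l [(1, 0, 96)]) .e))) (.n (.n (.n (.l [(12, 0, 62), (0, 12, 63)]) .e) (.n (.l [(3, 0, 94), (13, 0, 95)]) .e)) (.n (.n (.l [(0, 4, 83), (0, 2, 84), (0, 1, 88), (0, 1, 89)]) .e) .e)))) (.n (.n (.n (.n (.n (.l [(0, 1, 40), (2, 0, 41),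 (0, 3, 42), (1, 0, 43), (4, 0, 44), (0, 5, 46), (1, 0, 47)]) .e) (.n (.l [(0, 15, 90), (0, 13, 91), (5, 0, 92), (0, 8, 93)]) .e)) (.n .e (.n (.l [(9, 0, 96)]) .e))) (.n (.n (.n (.l [(5, 0, 62), (0, 5, 63)]) .e) (.n (.l [(15, 0, 94), (3, 0, 95)]) .e)) (.n (.n (.l [(0, 1, 84)]) .e) .e))) (.n (.n (.n (.n (.l [(4, 0, 56), (0, 3, 57), (0, 6, 58), (0, 6, 59), (6, 0, 60), (1, 0, 61)]) .e) .e) (.n (.n (.l [(1, 0, 70), (1, 0, 72), (1, 0, 75)]) .e) (.n (.l [(0, 1, 96)]) .e))) (.n (.n .e (.n (.l [(0, 10, 94), (0, 5, 95)]) .e)) (.n (.n (.l [(3, 0, 83), (3, 0, 84), (1, 0, 86), (1, 0, 88)]) .e) .e))))))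
def r27 : Tr Vc := (.n (.n (.n (.n (.n (.n (.n (.l [(0, 1, 33), (1, 0, 36), (0, 1, 37), (1, 0, 39)]) .e) .e) .e) (.n (.n (.n (.l [(3, 0, 63)]) .e) .e) (.n (.n (.l [(0, 6, 83), (0, 2, 84), (0, 1, 85), (1, 0, 86), (1, 0, 87), (0, 2, 88), (0, 1, 89)]) .e) .e))) (.n (.n (.n (.n (.l [(0, 1, 56), (2, 0, 57), (1, 0, 58), (2, 0, 59), (0, 1, 60)]) .e) (.n (.l [(0, 6, 94), (0, 3, 95)]) .e)) .e) (.n .e (.n (.n (.l [(1, 0, 90), (1, 0, 91), (1, 0, 93)]) .e) .e)))) (.n (.n (.n (.n (.n (.l [(0, 2, 49), (0, 6, 50), (1, 0, 52), (5, 0, 53), (0, 3, 54), (0, 3, 55)]) .e) (.n (.l [(1, 0, 95)]) .e)) .e) (.n (.n (.n (.l [(1, 0, 62), (1, 0, 63)]) .e) .e) (.n (.n (.l [(0, 6, 83), (0, 2, 84), (0, 1, 85), (1, 0, 86), (1, 0, 87), (0, 2, 88), (0, 1, 89)]) .e) .e))) (.n (.n (.n (.n (.l [(9, 0, 56), (0, 1, 57),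 (0, 8, 58), (0, 5, 59), (7, 0, 60)]) .e) (.n (.l [(2, 0, 94)]) .e)) (.n (.n (.l [(1, 0, 78), (0, 1, 79)]) .e) .e)) (.n (.n .e (.n (.l [(0, 1, 96)]) .e)) (.n (.n (.l [(6, 0, 91), (0, 1, 92), (4, 0, 93)]) .e) .e))))) (.n (.n (.n (.n (.n (.n (.l [(0, 1, 40)]) .e) (.n (.l [(0, 2, 94)]) .e)) .e) (.n (.n (.n (.l [(2, 0, 62), (0, 1, 63)]) .e) (.n (.l [(0, 2, 96)]) .e)) (.n (.n (.l [(0, 1, 84)]) .e) .e))) (.n (.n (.n (.n (.l [(0, 1, 56), (2, 0, 57), (1, 0, 58), (2, 0, 59), (0, 1, 60)]) .e) (.n (.l [(0, 6, 94), (0, 3, 95)]) .e)) (.n (.n (.l [(1, 0, 71), (1, 0, 73)]) .e) .e)) (.n .e (.n (.n (.l [(0, 1, 90), (3, 0, 91), (2, 0, 93)]) .e) .e)))) (.n (.n (.n (.n (.n (.l [(0, 1, 48), (0, 5, 49), (0, 13, 50), (2, 0, 52), (10, 0, 53), (0, 6, 54), (0, 6, 55)]) .e) (.n (.l [(0, 3, 94), (1, 0, 95)])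 .e)) .e) (.n (.n .e (.n (.l [(0, 2, 96)]) .e)) .e)) (.n (.n (.n (.n (.l [(1, 0, 62), (1, 0, 63)]) .e) (.n (.l [(0, 2, 94)]) .e)) (.n (.n (.l [(0, 1, 78), (1, 0, 79)]) .e) .e)) (.n (.n .e (.n (.l [(1, 0, 96)]) .e)) (.n (.n (.l [(0, 1, 90), (0, 3, 91), (0, 2, 93)]) .e) .e))))))
def r28 : Tr Vc := (.n (.n (.n (.n (.n (.n (.n (.l [(0, 1, 33), (1, 0, 34), (1, 0, 35), (0, 1, 38), (0, 3, 39)]) .e) (.n (.l [(0, 4, 95)]) .e)) .e) (.n (.n (.n (.l [(11, 0, 62), (0, 3, 63)]) .e) (.n (.l [(0, 2, 96)]) .e)) (.n (.n (.l [(0, 7, 83), (0, 4, 84), (0, 1, 85), (3, 0, 86), (0, 4, 88), (0, 2, 89)]) .e) .e))) (.n (.n (.n (.n (.l [(12, 0, 56), (0, 1, 57), (0, 8, 58), (0, 5, 59), (5, 0, 60), (0, 2, 61)]) .e) (.n (.l [(45, 0, 94), (28, 0, 95)]) .e)) .e) (.n (.n .e (.n (.l [(8, 0, 96)]) .e)) (.n (.n (.l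 [(14, 0, 90), (0, 1, 91), (1, 0, 92)]) .e) .e)))) (.n (.n (.n (.n (.n (.l [(0, 2, 49), (0, 10, 50), (0, 1, 51), (1, 0, 52), (8, 0, 53), (0, 5, 54), (0, 6, 55)]) .e) (.n (.l [(0, 5, 94), (0, 8, 95)]) .e)) .e) (.n (.n (.n (.l [(0, 3, 62), (0, 5, 63)]) .e) (.n (.l [(4, 0, 96)]) .e)) (.n (.n (.l [(0, 5, 83), (0, 2, 84), (0, 1, 85), (2, 0, 86), (1, 0, 87), (0, 3, 88), (0, 1, 89)]) .e) .e))) (.n (.n (.n (.n (.l [(2, 0, 56), (2, 0, 57), (1, 0, 58), (2, 0, 59), (0, 1, 60), (0, 2, 61)]) .e) (.n (.l [(0, 11, 94)]) .e)) (.n (.n (.l [(1, 0, 76), (1, 0, 78), (0, 1, 79), (0, 1, 80)]) .e) .e)) (.n (.n .e (.n (.l [(12, 0, 96)]) .e)) (.n (.n (.l [(18, 0, 90), (0, 27, 91), (10, 0, 92), (0, 17, 93)]) .e) .e))))) (.n (.n (.n (.n (.n (.n (.l [(0, 1, 40), (0, 2, 41), (3, 0, 42), (0, 1, 43), (0, 4, 44),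 (0, 1, 45), (6, 0, 46), (0, 1, 47)]) .e) (.n (.l [(15, 0, 94), (4, 0, 95)]) .e)) .e) (.n (.n (.n (.l [(0, 14, 62), (0, 1, 63)]) .e) (.n (.l [(21, 0, 96)]) .e)) (.n (.n (.l [(2, 0, 83), (3, 0, 84), (0, 1, 86), (1, 0, 87), (1, 0, 88), (1, 0, 89)]) .e) .e))) (.n (.n (.n (.n (.l [(4, 0, 56), (6, 0, 57), (0, 1, 58), (5, 0, 59), (0, 3, 60), (0, 2, 61)]) .e) (.n (.l [(42, 0, 94), (26, 0, 95)]) .e)) (.n (.n (.l [(1, 0, 71), (1, 0, 73), (0, 1, 74)]) .e) .e)) (.n (.n .e (.n (.l [(11, 0, 96)]) .e)) (.n (.n (.l [(18, 0, 90), (0, 14, 91), (6, 0, 92), (0, 9, 93)]) .e) .e)))) (.n (.n (.n (.n (.n (.l [(0, 5, 48), (0, 13, 49), (0, 39, 50), (0, 4, 51), (5, 0, 52), (30, 0, 53), (0, 18, 54), (0, 20, 55)]) .e) (.n (.l [(22, 0, 94), (1, 0, 95)]) .e)) .e) (.n (.n .e (.n (.l [(13, 0, 96)]) .e)) (.n (.n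 (.l [(0, 2, 90), (2, 0, 91), (0, 1, 92), (1, 0, 93)]) .e) .e))) (.n (.n (.n (.n (.l [(0, 1, 62), (0, 2, 63)]) .e) (.n (.l [(12, 0, 94), (1, 0, 95)]) .e)) (.n (.n (.l [(0, 2, 76), (0, 2, 78), (2, 0, 79), (1, 0, 80), (1, 0, 81)]) .e) .e)) (.n (.n .e (.n (.l [(0, 11, 96)]) .e)) (.n (.n (.l [(0, 4, 90), (18, 0, 91), (0, 7, 92), (12, 0, 93)]) .e) .e))))))
def r29 : Tr Vc := (.n (.n (.n (.n (.n (.n (.n (.l [(1, 0, 32), (0, 2, 39)]) .e) (.n (.l [(0, 15, 94), (0, 6, 95)]) .e)) .e) (.n (.n (.n (.l [(0, 3, 62), (0, 9, 63)]) .e) (.n (.l [(0, 2, 96)]) .e)) (.n (.n (.l [(0, 1, 83), (0, 1, 84), (1, 0, 87)]) .e) .e))) (.n (.n (.n (.n (.l [(4, 0, 56), (0, 3, 57), (2, 0, 58), (0, 4, 59), (1, 0, 60), (0, 2, 61)]) .e) (.n (.l [(19, 0, 94), (3, 0, 95)]) .e)) .e) (.n (.n .e (.n (.l [(10, 0, 96)]) .e))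 (.n (.n (.l [(0, 6, 90), (0, 32, 91), (12, 0, 92), (0, 21, 93)]) .e) .e)))) (.n (.n (.n (.n (.n (.l [(2, 0, 48), (5, 0, 49), (15, 0, 50), (1, 0, 51), (0, 2, 52), (0, 12, 53), (8, 0, 54), (9, 0, 55)]) .e) (.n (.l [(0, 14, 94), (0, 5, 95)]) .e)) .e) (.n (.n (.n (.l [(0, 13, 62), (0, 5, 63)]) .e) (.n (.l [(0, 3, 96)]) .e)) .e)) (.n (.n (.n (.n (.l [(3, 0, 56), (0, 4, 57), (0, 4, 59), (4, 0, 60), (0, 1, 61)]) .e) (.n (.l [(9, 0, 94), (6, 0, 95)]) .e)) (.n (.n (.l [(1, 0, 77), (0, 2, 78), (1, 0, 79), (1, 0, 80)]) .e) .e)) (.n (.n .e (.n (.l [(22, 0, 96)]) .e)) (.n (.n (.l [(0, 60, 91), (21, 0, 92), (0, 39, 93)]) .e) .e))))) (.n (.n (.n (.n (.n (.n (.l [(1, 0, 42), (0, 1, 44)]) .e) (.n (.l [(0, 1, 94), (0, 7, 95)]) .e)) .e) (.n (.n (.n (.l [(0, 20, 62), (2, 0, 63)]) .e) (.n (.l [(34,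 0, 96)]) .e)) (.n (.n (.l [(5, 0, 83), (3, 0, 84), (1, 0, 85), (0, 1, 86), (0, 2, 87), (2, 0, 88)]) .e) .e))) (.n (.n (.n (.n (.l [(6, 0, 56), (0, 1, 57), (0, 3, 59), (2, 0, 60), (0, 2, 61)]) .e) (.n (.l [(15, 0, 94), (3, 0, 95)]) .e)) (.n (.n (.l [(0, 1, 70), (0, 2, 72), (0, 1, 73), (0, 1, 75)]) .e) .e)) (.n (.n .e (.n (.l [(22, 0, 96)]) .e)) (.n (.n (.l [(0, 2, 90), (0, 45, 91), (17, 0, 92), (0, 30, 93)]) .e) .e)))) (.n (.n (.n (.n (.n (.l [(0, 1, 48), (0, 3, 49), (0, 7, 50), (0, 1, 51), (1, 0, 52), (5, 0, 53), (0, 2, 54), (0, 2, 55)]) .e) (.n (.l [(1, 0, 94), (0, 17, 95)]) .e)) .e) (.n (.n .e (.n (.l [(29, 0, 96)]) .e)) (.n (.n (.l [(1, 0, 90), (3, 0, 91), (0, 2, 92), (2, 0, 93)]) .e) .e))) (.n (.n (.n (.n (.l [(0, 11, 62), (0, 4, 63)]) .e) (.n (.l [(0, 7, 94), (0, 7, 95)]) .e))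 (.n (.n (.l [(0, 2, 77), (2, 0, 78), (0, 1, 79), (0, 1, 80), (0, 1, 81)]) .e) .e)) (.n (.n .e (.n (.l [(0, 24, 96)]) .e)) (.n (.n (.l [(14, 0, 90), (36, 0, 91), (0, 13, 92), (25, 0, 93)]) .e) .e))))))
def r30 : Tr Vc := (.n (.n (.n (.n (.n (.n (.n (.l [(0, 1, 35), (1, 0, 38), (1, 0, 39)]) .e) (.n (.l [(0, 8, 94), (1, 0, 95)]) .e)) .e) (.n (.n (.n (.l [(0, 5, 63)]) .e) (.n (.l [(0, 1, 96)]) .e)) (.n (.n (.l [(0, 3, 84), (1, 0, 85), (1, 0, 86), (0, 1, 89)]) .e) .e))) (.n (.n (.n (.n (.l [(0, 2, 57), (3, 0, 58), (0, 1, 59), (0, 1, 60), (0, 1, 61)]) .e) (.n (.l [(19, 0, 94), (6, 0, 95)]) .e)) .e) (.n (.n .e (.n (.l [(5, 0, 96)]) .e)) (.n (.n (.l [(0, 6, 90), (0, 25, 91), (10, 0, 92), (0, 17, 93)]) .e) .e)))) (.n (.n (.n (.n (.n (.l [(4, 0, 49), (11, 0, 50), (0, 2, 52), (0, 9, 53), (6,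 0, 54), (7, 0, 55)]) .e) (.n (.l [(0, 9, 94), (1, 0, 95)]) .e)) .e) (.n (.n (.n (.l [(0, 9, 62), (0, 2, 63)]) .e) (.n (.l [(0, 4, 96)]) .e)) (.n (.n (.l [(0, 2, 83), (0, 2, 84), (1, 0, 86), (0, 1, 88), (0, 1, 89)]) .e) .e))) (.n (.n (.n (.n (.l [(0, 1, 56), (0, 1, 57), (1, 0, 58), (1, 0, 59), (1, 0, 60)]) .e) (.n (.l [(3, 0, 94), (0, 2, 95)]) .e)) (.n (.n (.l [(4, 0, 76), (1, 0, 77), (0, 3, 78), (1, 0, 80), (0, 1, 81), (0, 2, 82)]) .e) .e)) (.n (.n .e (.n (.l [(17, 0, 96)]) .e)) (.n (.n (.l [(0, 3, 90), (0, 54, 91), (20, 0, 92), (0, 36, 93)]) .e) .e))))) (.n (.n (.n (.n (.n (.n (.l [(0, 1, 40), (0, 1, 46)]) .e) (.n (.l [(2, 0, 94), (0, 2, 95)]) .e)) .e) (.n (.n (.n (.l [(0, 15, 62), (4, 0, 63)]) .e) (.n (.l [(29, 0, 96)]) .e)) (.n (.n (.l [(2, 0, 84), (0, 1, 85), (0, 1, 86)]) .e)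 .e))) (.n (.n (.n (.n (.l [(2, 0, 56), (1, 0, 58), (0, 1, 61)]) .e) (.n (.l [(16, 0, 94), (7, 0, 95)]) .e)) (.n (.n (.l [(1, 0, 70)]) .e) .e)) (.n (.n .e (.n (.l [(16, 0, 96)]) .e)) (.n (.n (.l [(0, 5, 90), (0, 39, 91), (16, 0, 92), (0, 27, 93)]) .e) .e)))) (.n (.n (.n (.n (.n (.l [(0, 4, 48), (0, 5, 49), (0, 14, 50), (0, 2, 51), (1, 0, 52), (10, 0, 53), (0, 5, 54), (0, 5, 55)]) .e) (.n (.l [(3, 0, 94), (0, 11, 95)]) .e)) .e) (.n (.n .e (.n (.l [(24, 0, 96)]) .e)) (.n (.n (.l [(0, 1, 92)]) .e) .e))) (.n (.n (.n (.n (.l [(0, 7, 62), (0, 1, 63)]) .e) (.n (.l [(0, 2, 94)]) .e)) (.n (.n (.l [(0, 3, 76), (0, 2, 77), (2, 0, 78), (0, 1, 80), (1, 0, 82)]) .e) .e)) (.n (.n .e (.n (.l [(0, 21, 96)]) .e)) (.n (.n (.l [(16, 0, 90), (33, 0, 91), (0, 13, 92), (24, 0, 93)]) .e) .e))))))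
def r31 : Tr Vc := (.n (.n (.n (.n (.n (.n (.n (.l [(0, 2, 32), (3, 0, 33), (0, 1, 34), (0, 2, 35), (0, 1, 36), (2, 0, 38), (6, 0, 39)]) .e) (.n (.l [(7, 0, 94), (8, 0, 95)]) .e)) .e) (.n (.n (.n (.l [(0, 4, 62), (0, 5, 63)]) .e) (.n (.l [(2, 0, 96)]) .e)) (.n (.n (.l [(13, 0, 83), (5, 0, 84), (2, 0, 85), (0, 2, 86), (0, 2, 87), (5, 0, 88), (2, 0, 89)]) .e) .e))) (.n (.n (.n (.n (.l [(0, 1, 56), (0, 4, 57), (0, 2, 58), (0, 4, 59), (2, 0, 60), (2, 0, 61)]) .e) (.n (.l [(0, 20, 94), (0, 3, 95)]) .e)) .e) (.n (.n .e (.n (.l [(0, 12, 96)]) .e)) (.n (.n (.l [(0, 7, 90), (19, 0, 91), (0, 8, 92), (12, 0, 93)]) .e) .e)))) (.n (.n (.n (.n (.n (.l [(0, 2, 48), (1, 0, 49), (7, 0, 50), (0, 1, 51), (0, 1, 52), (0, 6, 53), (3, 0, 54), (3, 0, 55)]) .e) (.n (.l [(12, 0, 94), (12, 0, 95)]) .e))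 .e) (.n (.n (.n (.l [(9, 0, 62), (0, 4, 63)]) .e) (.n (.l [(3, 0, 96)]) .e)) (.n (.n (.l [(13, 0, 83), (4, 0, 84), (2, 0, 85), (0, 2, 86), (0, 2, 87), (5, 0, 88), (2, 0, 89)]) .e) .e))) (.n (.n (.n (.n (.l [(0, 11, 56), (1, 0, 57), (7, 0, 58), (5, 0, 59), (0, 9, 60), (2, 0, 61)]) .e) (.n (.l [(0, 3, 94), (0, 10, 95)]) .e)) (.n (.n (.l [(1, 0, 76), (0, 2, 78), (2, 0, 79), (0, 1, 82)]) .e) .e)) (.n (.n .e (.n (.l [(0, 23, 96)]) .e)) (.n (.n (.l [(0, 12, 90), (51, 0, 91), (0, 19, 92), (32, 0, 93)]) .e) .e))))) (.n (.n (.n (.n (.n (.n (.l [(2, 0, 40), (1, 0, 44)]) .e) (.n (.l [(10, 0, 95)]) .e)) .e) (.n (.n (.n (.l [(19, 0, 62), (0, 6, 63)]) .e) (.n (.l [(0, 33, 96)]) .e)) (.n (.n (.l [(1, 0, 83), (0, 1, 85), (1, 0, 87), (1, 0, 89)]) .e) .e))) (.n (.n (.n (.n (.l [(0, 3, 56), (0, 6,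 57), (0, 5, 59), (1, 0, 60), (2, 0, 61)]) .e) (.n (.l [(0, 18, 94), (0, 3, 95)]) .e)) (.n (.n (.l [(3, 0, 70), (0, 3, 71), (4, 0, 72), (0, 2, 73), (1, 0, 74), (2, 0, 75)]) .e) .e)) (.n (.n .e (.n (.l [(0, 18, 96)]) .e)) (.n (.n (.l [(0, 11, 90), (39, 0, 91), (0, 16, 92), (25, 0, 93)]) .e) .e)))) (.n (.n (.n (.n (.n (.l [(4, 0, 48), (13, 0, 49), (39, 0, 50), (2, 0, 51), (0, 5, 52), (0, 30, 53), (17, 0, 54), (18, 0, 55)]) .e) (.n (.l [(0, 1, 94), (19, 0, 95)]) .e)) .e) (.n (.n .e (.n (.l [(0, 29, 96)]) .e)) (.n (.n (.l [(1, 0, 90), (0, 3, 91), (2, 0, 92), (0, 2, 93)]) .e) .e))) (.n (.n (.n (.n (.l [(7, 0, 62), (0, 5, 63)]) .e) (.n (.l [(2, 0, 94), (10, 0, 95)]) .e)) (.n (.n (.l [(1, 0, 77), (2, 0, 78), (0, 2, 79), (1, 0, 82)]) .e) .e)) (.n (.n .e (.n (.l [(23, 0, 96)]) .e)) (.n (.n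 (.l [(0, 1, 90), (0, 30, 91), (12, 0, 92), (0, 20, 93)]) .e) .e))))))
def r32 : Tr Vc := (.n (.n (.n (.n (.n (.n (.n (.l [(0, 1, 40), (3, 0, 41), (0, 2, 42), (1, 0, 43), (4, 0, 44), (0, 6, 46), (1, 0, 47)]) .e) (.n (.l [(3, 0, 96)]) .e)) .e) (.n .e (.n (.n (.l [(0, 23, 90), (24, 0, 91), (0, 10, 92), (15, 0, 93)]) .e) .e))) (.n (.n (.n (.n (.l [(14, 0, 62), (0, 18, 63)]) .e) (.n (.l [(44, 0, 96)]) .e)) .e) (.n .e (.n (.n (.l [(0, 1, 94), (10, 0, 95)]) .e) .e)))) (.n (.n (.n (.n (.n (.l [(21, 0, 56), (0, 12, 57), (0, 16, 58), (0, 23, 59), (20, 0, 60)]) .e) (.n (.l [(0, 3, 96)]) .e)) .e) (.n .e (.n (.n (.l [(0, 21, 90), (24, 0, 91), (0, 9, 92), (15, 0, 93)]) .e) .e))) (.n (.n (.n (.n (.l [(2, 0, 62), (0, 11, 63)]) .e) (.n (.l [(0, 12, 96)]) .e)) (.n (.n (.l [(6, 0, 83), (0, 1, 84),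 (1, 0, 85), (0, 2, 87), (2, 0, 88)]) .e) .e)) (.n .e (.n (.n (.l [(0, 22, 94), (0, 3, 95)]) .e) .e))))) (.n (.n (.n (.n (.n (.n (.l [(0, 2, 48), (2, 0, 49), (12, 0, 50), (0, 2, 52), (0, 10, 53), (7, 0, 54), (8, 0, 55)]) .e) (.n (.l [(13, 0, 96)]) .e)) .e) (.n .e (.n (.n (.l [(0, 7, 90), (0, 7, 91), (4, 0, 92), (0, 4, 93)]) .e) .e))) (.n (.n (.n (.n (.l [(13, 0, 62), (0, 17, 63)]) .e) (.n (.l [(42, 0, 96)]) .e)) (.n (.n (.l [(0, 1, 76), (1, 0, 80)]) .e) .e)) (.n .e (.n (.n (.l [(0, 16, 94), (4, 0, 95)]) .e) .e)))) (.n (.n (.n (.n (.n (.l [(38, 0, 56), (0, 21, 57), (0, 34, 58), (0, 38, 59), (34, 0, 60), (1, 0, 61)]) .e) (.n (.l [(15, 0, 96)]) .e)) .e) (.n .e (.n (.n (.l [(1, 0, 94)]) .e) .e))) (.n (.n (.n .e (.n (.l [(12, 0, 96)]) .e)) (.n (.n (.l [(0, 5, 83), (0, 1, 85), (1, 0, 87),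 (0, 2, 88)]) .e) .e)) (.n .e (.n (.n (.l [(12, 0, 94), (5, 0, 95)]) .e) .e))))))
def r33 : Tr Vc := (.n (.n (.n (.n (.n (.n (.n (.l [(1, 0, 40), (1, 0, 46)]) .e) (.n (.l [(2, 0, 96)]) .e)) .e) (.n .e (.n (.n (.l [(0, 5, 90), (23, 0, 91), (0, 11, 92), (15, 0, 93)]) .e) .e))) (.n (.n (.n (.n (.l [(10, 0, 62), (0, 10, 63)]) .e) (.n (.l [(32, 0, 96)]) .e)) .e) (.n .e (.n (.n (.l [(2, 0, 95)]) .e) .e)))) (.n (.n (.n (.n (.n (.l [(1, 0, 56), (1, 0, 57), (0, 1, 58), (0, 1, 59), (1, 0, 60)]) .e) (.n (.l [(1, 0, 96)]) .e)) .e) (.n .e (.n (.n (.l [(0, 5, 90), (23, 0, 91), (0, 10, 92), (15, 0, 93)]) .e) .e))) (.n (.n (.n (.n (.l [(4, 0, 62), (0, 4, 63)]) .e) (.n (.l [(0, 9, 96)]) .e)) (.n (.n (.l [(2, 0, 83), (1, 0, 85), (1, 0, 88)]) .e) .e)) (.n .e (.n (.n (.l [(0, 13, 94), (0, 1, 95)]) .e)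 .e))))) (.n (.n (.n (.n (.n (.n (.l [(0, 1, 48), (0, 1, 49), (3, 0, 50), (0, 3, 53), (2, 0, 54), (2, 0, 55)]) .e) (.n (.l [(12, 0, 96)]) .e)) .e) (.n .e (.n (.n (.l [(0, 2, 90), (2, 0, 91), (1, 0, 92), (1, 0, 93)]) .e) .e))) (.n (.n (.n (.n (.l [(9, 0, 62), (0, 9, 63)]) .e) (.n (.l [(29, 0, 96)]) .e)) (.n (.n (.l [(0, 2, 76), (1, 0, 79), (1, 0, 81), (1, 0, 82)]) .e) .e)) (.n .e (.n (.n (.l [(0, 8, 94), (3, 0, 95)]) .e) .e)))) (.n (.n (.n (.n (.n (.l [(0, 1, 56), (0, 3, 57), (1, 0, 58), (0, 4, 59), (0, 1, 60)]) .e) (.n (.l [(13, 0, 96)]) .e)) .e) (.n .e (.n (.n (.l [(1, 0, 95)]) .e) .e))) (.n (.n (.n .e (.n (.l [(9, 0, 96)]) .e)) (.n (.n (.l [(0, 2, 83), (0, 1, 84), (0, 1, 85), (0, 1, 88)]) .e) .e)) (.n .e (.n (.n (.l [(6, 0, 94), (2, 0, 95)]) .e) .e))))))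
def r34 : Tr Vc := (.n (.n (.n (.n (.n (.n (.n (.l [(0, 1, 41), (3, 0, 42), (0, 1, 43), (0, 2, 44), (0, 1, 45), (5, 0, 46), (0, 1, 47)]) .e) (.n (.l [(16, 0, 96)]) .e)) .e) (.n .e (.n (.n (.l [(0, 16, 90), (66, 0, 91), (0, 27, 92), (42, 0, 93)]) .e) .e))) (.n (.n (.n (.n (.l [(23, 0, 62), (0, 19, 63)]) .e) (.n (.l [(67, 0, 96)]) .e)) .e) (.n .e (.n (.n (.l [(15, 0, 94), (28, 0, 95)]) .e) .e)))) (.n (.n (.n (.n (.n (.l [(14, 0, 56), (0, 5, 57), (0, 10, 58), (0, 13, 59), (10, 0, 60)]) .e) (.n (.l [(10, 0, 96)]) .e)) .e) (.n .e (.n (.n (.l [(0, 15, 90), (65, 0, 91), (0, 25, 92), (41, 0, 93)]) .e) .e))) (.n (.n (.n (.n (.l [(12, 0, 62), (0, 13, 63)]) .e) (.n (.l [(0, 30, 96)]) .e)) (.n (.n (.l [(7, 0, 83), (1, 0, 85), (1, 0, 86), (2, 0, 88)]) .e) .e)) (.n .e (.n (.n (.l [(1, 0, 94),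 (24, 0, 95)]) .e) .e))))) (.n (.n (.n (.n (.n (.n (.l [(0, 7, 48), (0, 5, 49), (0, 6, 50), (0, 3, 51), (3, 0, 53), (0, 1, 54), (0, 1, 55)]) .e) (.n (.l [(32, 0, 96)]) .e)) .e) (.n .e (.n (.n (.l [(0, 4, 90), (22, 0, 91), (0, 6, 92), (14, 0, 93)]) .e) .e))) (.n (.n (.n (.n (.l [(22, 0, 62), (0, 17, 63)]) .e) (.n (.l [(64, 0, 96)]) .e)) (.n (.n (.l [(0, 1, 77), (1, 0, 78)]) .e) .e)) (.n .e (.n (.n (.l [(6, 0, 94), (29, 0, 95)]) .e) .e)))) (.n (.n (.n (.n (.n (.l [(11, 0, 56), (0, 6, 57), (0, 10, 58), (0, 12, 59), (7, 0, 60), (1, 0, 61)]) .e) (.n (.l [(40, 0, 96)]) .e)) .e) .e) (.n (.n (.n .e (.n (.l [(30, 0, 96)]) .e)) (.n (.n (.l [(0, 7, 83), (0, 2, 85), (0, 2, 86), (1, 0, 87), (0, 2, 88), (1, 0, 89)]) .e) .e)) (.n .e (.n (.n (.l [(0, 3, 94), (0, 14, 95)]) .e) .e))))))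
def r35 : Tr Vc := (.n (.n (.n (.n (.n (.n (.n (.l [(1, 0, 43)]) .e) (.n (.l [(0, 9, 96)]) .e)) .e) (.n .e (.n (.n (.l [(10, 0, 90), (2, 0, 91), (0, 4, 92), (3, 0, 93)]) .e) .e))) (.n (.n (.n (.n (.l [(4, 0, 62), (0, 7, 63)]) .e) (.n (.l [(17, 0, 96)]) .e)) .e) (.n .e (.n (.n (.l [(0, 5, 94), (0, 15, 95)]) .e) .e)))) (.n (.n (.n (.n (.n (.l [(0, 12, 56), (8, 0, 57), (11, 0, 58), (11, 0, 59), (0, 11, 60), (0, 1, 61)]) .e) (.n (.l [(0, 3, 96)]) .e)) .e) (.n .e (.n (.n (.l [(9, 0, 90), (5, 0, 91), (0, 4, 92), (5, 0, 93)]) .e) .e))) (.n (.n (.n (.n (.l [(2, 0, 62), (1, 0, 63)]) .e) (.n (.l [(4, 0, 96)]) .e)) (.n (.n (.l [(0, 9, 83), (0, 2, 84), (0, 1, 85), (1, 0, 86), (1, 0, 87), (0, 3, 88), (0, 1, 89)]) .e) .e)) (.n .e (.n (.n (.l [(0, 15, 94), (0, 11, 95)]) .e) .e))))) (.n (.n (.n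 (.n (.n (.n (.l [(1, 0, 48), (0, 4, 49), (0, 9, 50), (1, 0, 51), (2, 0, 52), (7, 0, 53), (0, 5, 54), (0, 6, 55)]) .e) (.n (.l [(4, 0, 96)]) .e)) .e) (.n .e (.n (.n (.l [(9, 0, 90), (2, 0, 91), (1, 0, 92), (2, 0, 93)]) .e) .e))) (.n (.n (.n (.n (.l [(3, 0, 62), (0, 6, 63)]) .e) (.n (.l [(12, 0, 96)]) .e)) (.n (.n (.l [(0, 1, 76), (0, 1, 77), (1, 0, 78), (0, 1, 79), (0, 1, 80)]) .e) .e)) (.n .e (.n (.n (.l [(0, 10, 94), (0, 9, 95)]) .e) .e)))) (.n (.n (.n (.n (.n (.l [(0, 23, 56), (8, 0, 57), (24, 0, 58), (15, 0, 59), (0, 22, 60), (0, 2, 61)]) .e) (.n (.l [(3, 0, 96)]) .e)) .e) (.n .e (.n (.n (.l [(3, 0, 95)]) .e) .e))) (.n (.n (.n .e (.n (.l [(0, 3, 96)]) .e)) (.n (.n (.l [(11, 0, 83), (1, 0, 84), (2, 0, 85), (0, 1, 86), (0, 1, 87), (4, 0, 88), (1, 0, 89)]) .e) .e)) (.n .e (.n (.n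 (.l [(6, 0, 94), (10, 0, 95)]) .e) .e))))))
def r36 : Tr Vc := (.n (.n (.n (.n (.n (.n (.n (.l [(0, 4, 42), (2, 0, 44), (1, 0, 45), (0, 2, 46)]) .e) .e) .e) (.n .e (.n (.n (.l [(3, 0, 90), (5, 0, 91), (0, 3, 92), (3, 0, 93)]) .e) .e))) (.n (.n (.n (.n (.l [(6, 0, 62), (5, 0, 63)]) .e) (.n (.l [(7, 0, 96)]) .e)) .e) (.n .e (.n (.n (.l [(0, 7, 94), (0, 12, 95)]) .e) .e)))) (.n (.n (.n (.n (.n (.l [(0, 15, 56), (9, 0, 57), (5, 0, 58), (15, 0, 59), (0, 8, 60), (2, 0, 61)]) .e) (.n (.l [(2, 0, 96)]) .e)) .e) (.n .e (.n (.n (.l [(0, 1, 92)]) .e) .e))) (.n (.n (.n (.n (.l [(4, 0, 62), (13, 0, 63)]) .e) (.n (.l [(0, 2, 96)]) .e)) (.n (.n (.l [(0, 11, 83), (0, 2, 84), (0, 1, 85), (3, 0, 87), (0, 3, 88), (0, 1, 89)]) .e) .e)) (.n .e (.n (.n (.l [(0, 25, 94), (0, 19, 95)]) .e) .e))))) (.n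 (.n (.n (.n (.n (.n (.l [(0, 2, 49), (0, 3, 50), (1, 0, 51), (1, 0, 52), (2, 0, 53), (0, 1, 54), (0, 1, 55)]) .e) .e) .e) (.n .e (.n (.n (.l [(0, 6, 90), (0, 10, 91), (5, 0, 92), (0, 8, 93)]) .e) .e))) (.n (.n (.n (.n (.l [(5, 0, 62), (5, 0, 63)]) .e) (.n (.l [(6, 0, 96)]) .e)) (.n (.n (.l [(0, 1, 78), (1, 0, 81)]) .e) .e)) (.n .e (.n (.n (.l [(0, 17, 94), (0, 13, 95)]) .e) .e)))) (.n (.n (.n (.n (.n (.l [(0, 6, 56), (0, 1, 57), (1, 0, 59), (0, 1, 60), (1, 0, 61)]) .e) (.n (.l [(0, 7, 96)]) .e)) .e) (.n .e (.n (.n (.l [(0, 2, 94)]) .e) .e))) (.n (.n .e (.n (.n (.l [(5, 0, 83), (1, 0, 86), (0, 2, 87), (1, 0, 88)]) .e) .e)) (.n .e (.n (.n (.l [(10, 0, 94), (10, 0, 95)]) .e) .e))))))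
def r37 : Tr Vc := (.n (.n (.n (.n (.n (.n (.n (.l [(0, 1, 40), (2, 0, 41), (0, 6, 42), (1, 0, 43), (5, 0, 44), (1, 0, 45), (0, 7, 46), (1, 0, 47)]) .e) (.n (.l [(0, 1, 96)]) .e)) .e) (.n .e (.n (.n (.l [(3, 0, 90), (5, 0, 91), (0, 2, 92), (3, 0, 93)]) .e) .e))) (.n (.n (.n (.n (.l [(7, 0, 62), (3, 0, 63)]) .e) (.n (.l [(9, 0, 96)]) .e)) .e) (.n .e (.n (.n (.l [(0, 6, 94), (0, 12, 95)]) .e) .e)))) (.n (.n (.n (.n (.n (.l [(0, 8, 56), (4, 0, 57), (0, 1, 58), (7, 0, 59), (0, 1, 60), (2, 0, 61)]) .e) (.n (.l [(2, 0, 96)]) .e)) .e) .e) (.n (.n (.n (.n (.l [(4, 0, 62), (12, 0, 63)]) .e) (.n (.l [(0, 2, 96)]) .e)) (.n (.n (.l [(0, 10, 83), (0, 3, 84), (0, 1, 85), (2, 0, 87), (0, 3, 88), (0, 1, 89)]) .e) .e)) (.n .e (.n (.n (.l [(0, 26, 94), (0, 20, 95)]) .e) .e))))) (.n (.n (.n (.n (.n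 (.n (.l [(1, 0, 51)]) .e) .e) .e) (.n .e (.n (.n (.l [(0, 3, 90), (0, 9, 91), (5, 0, 92), (0, 7, 93)]) .e) .e))) (.n (.n (.n (.n (.l [(6, 0, 62), (3, 0, 63)]) .e) (.n (.l [(8, 0, 96)]) .e)) (.n (.n (.l [(1, 0, 76), (0, 1, 79)]) .e) .e)) (.n .e (.n (.n (.l [(0, 17, 94), (0, 13, 95)]) .e) .e)))) (.n (.n (.n (.n (.n (.l [(1, 0, 56), (0, 4, 57), (0, 6, 58), (0, 5, 59), (5, 0, 60), (1, 0, 61)]) .e) (.n (.l [(0, 7, 96)]) .e)) .e) (.n .e (.n (.n (.l [(0, 2, 94)]) .e) .e))) (.n (.n .e (.n (.n (.l [(4, 0, 83), (1, 0, 84), (1, 0, 86), (0, 1, 87), (1, 0, 88)]) .e) .e)) (.n .e (.n (.n (.l [(9, 0, 94), (11, 0, 95)]) .e) .e))))))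
def r38 : Tr Vc := (.n (.n (.n (.n (.n (.n (.n (.l [(1, 0, 40), (0, 3, 41), (3, 0, 42), (0, 1, 43), (0, 4, 44), (5, 0, 46), (0, 2, 47)]) .e) (.n (.l [(0, 1, 96)]) .e)) .e) (.n .e (.n (.n (.l [(7, 0, 90), (0, 31, 91), (10, 0, 92), (0, 20, 93)]) .e) .e))) (.n (.n (.n (.n (.l [(0, 16, 62), (16, 0, 63)]) .e) (.n (.l [(0, 44, 96)]) .e)) .e) (.n .e (.n (.n (.l [(0, 1, 94), (0, 5, 95)]) .e) .e)))) (.n (.n (.n (.n (.n (.l [(0, 16, 56), (3, 0, 57), (14, 0, 58), (12, 0, 59), (0, 14, 60)]) .e) (.n (.l [(0, 1, 96)]) .e)) .e) (.n .e (.n (.n (.l [(7, 0, 90), (0, 31, 91), (9, 0, 92), (0, 20, 93)]) .e) .e))) (.n (.n (.n (.n (.l [(0, 7, 62), (5, 0, 63)]) .e) (.n (.l [(12, 0, 96)]) .e)) (.n (.n (.l [(0, 5, 83), (2, 0, 84), (0, 1, 85), (1, 0, 86), (0, 2, 88), (0, 1, 89)]) .e) .e)) (.n .e (.n (.n (.l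 [(19, 0, 94), (2, 0, 95)]) .e) .e))))) (.n (.n (.n (.n (.n (.n (.l [(0, 1, 50)]) .e) (.n (.l [(0, 15, 96)]) .e)) .e) (.n .e (.n (.n (.l [(0, 2, 90), (0, 4, 91), (0, 2, 92), (0, 3, 93)]) .e) .e))) (.n (.n (.n (.n (.l [(0, 15, 62), (15, 0, 63)]) .e) (.n (.l [(0, 41, 96)]) .e)) (.n (.n (.l [(1, 0, 76), (0, 1, 77), (0, 2, 78), (1, 0, 79), (0, 1, 81), (0, 1, 82)]) .e) .e)) (.n .e (.n (.n (.l [(11, 0, 94), (0, 5, 95)]) .e) .e)))) (.n (.n (.n (.n (.n (.l [(0, 34, 56), (11, 0, 57), (30, 0, 58), (27, 0, 59), (0, 27, 60)]) .e) (.n (.l [(0, 17, 96)]) .e)) .e) (.n .e (.n (.n (.l [(0, 1, 95)]) .e) .e))) (.n (.n (.n .e (.n (.l [(0, 12, 96)]) .e)) (.n (.n (.l [(5, 0, 83), (0, 1, 84), (1, 0, 85), (0, 1, 86), (2, 0, 88), (1, 0, 89)]) .e) .e)) (.n .e (.n (.n (.l [(0, 7, 94), (0, 4, 95)]) .e) .e))))))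
def r39 : Tr Vc := (.n (.n (.n (.n (.n (.n (.n (.l [(0, 1, 40), (2, 0, 41), (0, 2, 42), (1, 0, 43), (3, 0, 44), (0, 4, 46), (1, 0, 47)]) .e) .e) .e) (.n .e (.n (.n (.l [(0, 7, 90), (23, 0, 91), (0, 9, 92), (15, 0, 93)]) .e) .e))) (.n (.n (.n (.n (.l [(13, 0, 62), (0, 13, 63)]) .e) (.n (.l [(37, 0, 96)]) .e)) .e) (.n .e (.n (.n (.l [(2, 0, 95)]) .e) .e)))) (.n (.n (.n (.n (.n (.l [(7, 0, 56), (0, 2, 57), (0, 6, 58), (0, 7, 59), (7, 0, 60)]) .e) .e) .e) (.n .e (.n (.n (.l [(0, 7, 90), (23, 0, 91), (0, 8, 92), (15, 0, 93)]) .e) .e))) (.n (.n (.n (.n (.l [(5, 0, 62), (0, 4, 63)]) .e) (.n (.l [(0, 9, 96)]) .e)) (.n (.n (.l [(0, 2, 84)]) .e) .e)) (.n .e (.n (.n (.l [(0, 18, 94), (0, 4, 95)]) .e) .e))))) (.n (.n (.n (.n (.n (.n (.l [(0, 1, 48), (0, 1, 49)]) .e) (.n (.l [(12, 0, 96)]) .e))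 .e) (.n .e (.n (.n (.l [(1, 0, 90), (1, 0, 91), (2, 0, 92), (1, 0, 93)]) .e) .e))) (.n (.n (.n (.n (.l [(12, 0, 62), (0, 12, 63)]) .e) (.n (.l [(34, 0, 96)]) .e)) (.n (.n (.l [(1, 0, 78), (0, 1, 79)]) .e) .e)) (.n .e (.n (.n (.l [(0, 11, 94), (2, 0, 95)]) .e) .e)))) (.n (.n (.n (.n (.n (.l [(15, 0, 56), (0, 7, 57), (0, 13, 58), (0, 15, 59), (12, 0, 60)]) .e) (.n (.l [(13, 0, 96)]) .e)) .e) (.n .e (.n (.n (.l [(1, 0, 95)]) .e) .e))) (.n (.n (.n .e (.n (.l [(9, 0, 96)]) .e)) (.n (.n (.l [(1, 0, 84)]) .e) .e)) (.n .e (.n (.n (.l [(7, 0, 94), (5, 0, 95)]) .e) .e))))))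
def r40 : Tr Vc := (.n (.n (.n (.n (.n (.n (.n (.l [(1, 0, 48), (5, 0, 49), (13, 0, 50), (0, 2, 52), (0, 10, 53), (6, 0, 54), (6, 0, 55)]) .e) .e) .e) (.n .e (.n (.n (.l [(6, 0, 94), (3, 0, 95)]) .e) .e))) .e) (.n (.n (.n (.n (.n (.l [(0, 1, 62), (0, 1, 63)]) .e) .e) .e) (.n .e (.n (.n (.l [(6, 0, 94), (3, 0, 95)]) .e) .e))) (.n (.n .e (.n (.n (.l [(1, 0, 90), (0, 1, 91), (0, 1, 93)]) .e) .e)) (.n .e (.n (.n (.l [(0, 3, 96)]) .e) .e))))) (.n (.n (.n (.n (.n (.n (.l [(1, 0, 56), (0, 2, 57), (0, 1, 58), (0, 2, 59), (1, 0, 60)]) .e) .e) .e) (.n .e (.n (.n (.l [(2, 0, 94)]) .e) .e))) (.n (.n .e (.n (.n (.l [(6, 0, 83), (2, 0, 84), (1, 0, 85), (0, 1, 86), (0, 1, 87), (2, 0, 88), (1, 0, 89)]) .e) .e)) (.n .e (.n (.n (.l [(0, 2, 96)]) .e) .e)))) (.n (.n (.n (.n (.n (.l [(0, 3, 63)]) .e)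 .e) .e) .e) (.n (.n .e (.n (.n (.l [(0, 1, 90), (1, 0, 91), (1, 0, 93)]) .e) .e)) (.n .e (.n (.n (.l [(2, 0, 96)]) .e) .e))))))
def r41 : Tr Vc := (.n (.n (.n (.n (.n (.n (.n (.l [(3, 0, 48), (0, 2, 49), (0, 3, 50), (2, 0, 51), (2, 0, 52), (3, 0, 53), (0, 2, 54), (0, 2, 55)]) .e) .e) .e) (.n .e (.n (.n (.l [(0, 18, 94), (0, 10, 95)]) .e) .e))) (.n .e (.n .e (.n (.n (.l [(12, 0, 96)]) .e) .e)))) (.n (.n (.n (.n (.n (.l [(8, 0, 62), (3, 0, 63)]) .e) .e) .e) (.n .e (.n (.n (.l [(0, 19, 94), (0, 9, 95)]) .e) .e))) (.n (.n .e (.n (.n (.l [(0, 4, 90), (23, 0, 91), (0, 9, 92), (16, 0, 93)]) .e) .e)) (.n .e (.n (.n (.l [(31, 0, 96)]) .e) .e))))) (.n (.n (.n (.n (.n (.n (.l [(13, 0, 56), (0, 4, 57), (0, 12, 58), (0, 11, 59), (12, 0, 60)]) .e) .e) .e) (.n .e (.n (.n (.l [(0, 2, 94), (4, 0,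 95)]) .e) .e))) (.n (.n .e (.n (.n (.l [(1, 0, 83), (1, 0, 85), (1, 0, 88)]) .e) .e)) (.n .e (.n (.n (.l [(23, 0, 96)]) .e) .e)))) (.n (.n (.n (.n (.n (.l [(1, 0, 62), (9, 0, 63)]) .e) .e) .e) .e) (.n (.n .e (.n (.n (.l [(5, 0, 90), (0, 20, 91), (9, 0, 92), (0, 14, 93)]) .e) .e)) (.n .e (.n (.n (.l [(0, 19, 96)]) .e) .e))))))
def r42 : Tr Vc := (.n (.n (.n (.n (.n (.n (.n (.l [(1, 0, 48), (6, 0, 50), (1, 0, 51), (0, 5, 53), (3, 0, 54), (4, 0, 55)]) .e) .e) .e) (.n .e (.n (.n (.l [(0, 17, 94), (0, 6, 95)]) .e) .e))) (.n .e (.n .e (.n (.n (.l [(0, 4, 96)]) .e) .e)))) (.n (.n (.n (.n (.n (.l [(0, 2, 62), (0, 7, 63)]) .e) .e) .e) (.n .e (.n (.n (.l [(0, 15, 94), (0, 6, 95)]) .e) .e))) (.n (.n .e (.n (.n (.l [(0, 11, 90), (0, 11, 91), (4, 0, 92), (0, 7, 93)]) .e) .e)) (.n .e (.n (.n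 (.l [(4, 0, 96)]) .e) .e))))) (.n (.n (.n (.n (.n (.n (.l [(1, 0, 56), (0, 3, 57), (2, 0, 58), (0, 4, 59), (1, 0, 60)]) .e) .e) .e) (.n .e (.n (.n (.l [(0, 4, 94), (2, 0, 95)]) .e) .e))) (.n (.n .e (.n (.n (.l [(2, 0, 83), (0, 1, 87), (1, 0, 88)]) .e) .e)) (.n .e (.n (.n (.l [(3, 0, 96)]) .e) .e)))) (.n (.n (.n (.n (.n (.l [(0, 7, 62), (0, 8, 63)]) .e) .e) .e) .e) (.n (.n .e (.n (.n (.l [(13, 0, 90), (11, 0, 91), (0, 4, 92), (7, 0, 93)]) .e) .e)) (.n .e (.n (.n (.l [(0, 3, 96)]) .e) .e))))))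
def r43 : Tr Vc := (.n (.n (.n (.n (.n (.n (.n (.l [(2, 0, 48), (2, 0, 49), (1, 0, 51), (1, 0, 53), (0, 2, 54), (0, 3, 55)]) .e) .e) .e) (.n .e (.n (.n (.l [(0, 1, 94), (0, 6, 95)]) .e) .e))) (.n .e (.n .e (.n (.n (.l [(12, 0, 96)]) .e) .e)))) (.n (.n (.n (.n (.n (.l [(9, 0, 62), (9, 0, 63)]) .e) .e) .e) (.n .e (.n (.n (.l [(0, 4, 94), (0, 5, 95)]) .e) .e))) (.n (.n .e (.n (.n (.l [(7, 0, 90), (22, 0, 91), (0, 8, 92), (15, 0, 93)]) .e) .e)) (.n .e (.n (.n (.l [(24, 0, 96)]) .e) .e))))) (.n (.n (.n (.n (.n (.n (.l [(0, 15, 56), (7, 0, 57), (11, 0, 58), (12, 0, 59), (0, 12, 60)]) .e) .e) .e) (.n .e (.n (.n (.l [(2, 0, 94), (0, 1, 95)]) .e) .e))) (.n (.n .e (.n (.n (.l [(0, 5, 83), (0, 1, 84), (0, 1, 85), (1, 0, 87), (0, 2, 88)]) .e) .e)) (.n .e (.n (.n (.l [(16, 0, 96)]) .e) .e))))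 (.n (.n (.n (.n (.n (.l [(6, 0, 62), (15, 0, 63)]) .e) .e) .e) .e) (.n (.n .e (.n (.n (.l [(0, 8, 90), (0, 19, 91), (8, 0, 92), (0, 13, 93)]) .e) .e)) (.n .e (.n (.n (.l [(0, 11, 96)]) .e) .e))))))
def r44 : Tr Vc := (.n (.n (.n (.n (.n (.n (.n (.l [(2, 0, 49), (10, 0, 50), (1, 0, 51), (0, 1, 52), (0, 8, 53), (4, 0, 54), (5, 0, 55)]) .e) .e) .e) (.n .e (.n (.n (.l [(0, 22, 94), (0, 1, 95)]) .e) .e))) (.n .e (.n .e (.n (.n (.l [(15, 0, 96)]) .e) .e)))) (.n (.n (.n (.n (.n (.l [(13, 0, 62)]) .e) .e) .e) (.n .e (.n (.n (.l [(0, 23, 94), (0, 2, 95)]) .e) .e))) (.n (.n .e (.n (.n (.l [(0, 20, 90), (15, 0, 91), (0, 5, 92), (9, 0, 93)]) .e) .e)) (.n .e (.n (.n (.l [(41, 0, 96)]) .e) .e))))) (.n (.n (.n (.n (.n (.n (.l [(0, 5, 56), (0, 2, 57), (2, 0, 58), (0, 1, 59), (0, 1, 60), (2, 0,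 61)]) .e) .e) .e) (.n .e (.n (.n (.l [(1, 0, 94), (14, 0, 95)]) .e) .e))) (.n (.n .e (.n (.n (.l [(2, 0, 83), (0, 1, 84), (1, 0, 88)]) .e) .e)) (.n .e (.n (.n (.l [(33, 0, 96)]) .e) .e)))) (.n (.n (.n (.n (.n (.l [(4, 0, 63)]) .e) .e) .e) (.n .e (.n (.n (.l [(0, 2, 96)]) .e) .e))) (.n (.n .e (.n (.n (.l [(21, 0, 90), (0, 18, 91), (7, 0, 92), (0, 11, 93)]) .e) .e)) (.n .e (.n (.n (.l [(0, 26, 96)]) .e) .e))))))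
def r45 : Tr Vc := (.n (.n (.n (.n (.n (.n (.n (.l [(4, 0, 48), (0, 4, 49), (4, 0, 51), (3, 0, 52), (2, 0, 55)]) .e) .e) .e) (.n .e (.n (.n (.l [(0, 51, 94), (0, 29, 95)]) .e) .e))) (.n .e (.n .e (.n (.n (.l [(0, 1, 96)]) .e) .e)))) (.n (.n (.n (.n (.n (.l [(4, 0, 62), (7, 0, 63)]) .e) .e) .e) (.n .e (.n (.n (.l [(0, 51, 94), (0, 30, 95)]) .e) .e))) (.n (.n .e (.n (.n (.l [(0, 25, 90), (0, 15, 91), (5, 0, 92), (0, 9, 93)]) .e) .e)) (.n .e (.n (.n (.l [(21, 0, 96)]) .e) .e))))) (.n (.n (.n (.n (.n (.n (.l [(0, 10, 56), (4, 0, 57), (9, 0, 58), (6, 0, 59), (0, 5, 60), (1, 0, 61)]) .e) .e) .e) (.n .e (.n (.n (.l [(0, 17, 94), (0, 4, 95)]) .e) .e))) (.n (.n .e (.n (.n (.l [(0, 7, 83), (0, 2, 84), (0, 1, 85), (1, 0, 87), (0, 1, 88), (0, 1, 89)]) .e) .e)) (.n .e (.n (.n (.l [(13, 0, 96)])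 .e) .e)))) (.n (.n (.n (.n (.n (.l [(0, 9, 62), (12, 0, 63)]) .e) .e) .e) (.n .e (.n (.n (.l [(0, 1, 96)]) .e) .e))) (.n (.n .e (.n (.n (.l [(28, 0, 90), (16, 0, 91), (0, 5, 92), (10, 0, 93)]) .e) .e)) (.n .e (.n (.n (.l [(0, 14, 96)]) .e) .e))))))
def r46 : Tr Vc := (.n (.n (.n (.n (.n (.n (.n (.l [(1, 0, 48), (0, 1, 49), (0, 2, 50), (1, 0, 51), (1, 0, 52), (2, 0, 53), (0, 2, 54), (0, 2, 55)]) .e) .e) .e) (.n .e (.n (.n (.l [(0, 13, 94), (0, 3, 95)]) .e) .e))) (.n .e (.n .e (.n (.n (.l [(15, 0, 96)]) .e) .e)))) (.n (.n (.n (.n (.n (.l [(12, 0, 62), (5, 0, 63)]) .e) .e) .e) (.n .e (.n (.n (.l [(0, 15, 94), (0, 3, 95)]) .e) .e))) (.n (.n .e (.n (.n (.l [(0, 7, 90), (23, 0, 91), (0, 8, 92), (15, 0, 93)]) .e) .e)) (.n .e (.n (.n (.l [(35, 0, 96)]) .e) .e))))) (.n (.n (.n (.n (.n (.n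 (.l [(0, 3, 56), (2, 0, 57), (2, 0, 59), (0, 1, 60), (1, 0, 61)]) .e) .e) .e) (.n .e (.n (.n (.l [(1, 0, 94), (8, 0, 95)]) .e) .e))) (.n (.n .e (.n (.n (.l [(0, 1, 83), (0, 1, 84), (1, 0, 87)]) .e) .e)) (.n .e (.n (.n (.l [(27, 0, 96)]) .e) .e)))) (.n (.n (.n (.n (.n (.l [(4, 0, 62), (11, 0, 63)]) .e) .e) .e) (.n .e (.n (.n (.l [(0, 1, 96)]) .e) .e))) (.n (.n .e (.n (.n (.l [(7, 0, 90), (0, 23, 91), (9, 0, 92), (0, 15, 93)]) .e) .e)) (.n .e (.n (.n (.l [(0, 21, 96)]) .e) .e))))))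
def r47 : Tr Vc := (.n (.n (.n (.n (.n (.n (.n (.l [(0, 1, 48), (0, 3, 49), (0, 9, 50), (0, 1, 51), (1, 0, 52), (7, 0, 53), (0, 4, 54), (0, 4, 55)]) .e) .e) .e) (.n .e (.n (.n (.l [(7, 0, 94), (3, 0, 95)]) .e) .e))) (.n .e (.n .e (.n (.n (.l [(0, 14, 96)]) .e) .e)))) (.n (.n (.n (.n (.n (.l [(0, 9, 62), (0, 6, 63)]) .e) .e) .e) (.n .e (.n (.n (.l [(9, 0, 94), (3, 0, 95)]) .e) .e))) (.n (.n .e (.n (.n (.l [(6, 0, 90), (0, 20, 91), (9, 0, 92), (0, 13, 93)]) .e) .e)) (.n .e (.n (.n (.l [(0, 27, 96)]) .e) .e))))) (.n (.n (.n (.n (.n (.n (.l [(0, 1, 56), (4, 0, 57), (4, 0, 58), (5, 0, 59), (0, 4, 60), (0, 1, 61)]) .e) .e) .e) (.n .e (.n (.n (.l [(0, 2, 94), (0, 5, 95)]) .e) .e))) (.n (.n .e (.n (.n (.l [(0, 1, 84)]) .e) .e)) (.n .e (.n (.n (.l [(0, 21, 96)]) .e) .e)))) (.n (.n (.n (.n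 (.n (.l [(0, 3, 62), (0, 9, 63)]) .e) .e) .e) (.n .e (.n (.n (.l [(1, 0, 96)]) .e) .e))) (.n (.n .e (.n (.n (.l [(0, 6, 90), (20, 0, 91), (0, 10, 92), (13, 0, 93)]) .e) .e)) (.n .e (.n (.n (.l [(17, 0, 96)]) .e) .e))))))
def r48 : Tr Vc := (.n (.n (.n (.n (.n (.n (.n (.l [(0, 3, 56), (8, 0, 58), (2, 0, 59), (0, 5, 60), (0, 1, 61)]) .e) .e) .e) (.n .e (.n (.n (.l [(0, 18, 96)]) .e) .e))) .e) (.n (.n .e (.n .e (.n (.n (.l [(0, 17, 96)]) .e) .e))) (.n (.n .e (.n (.n (.l [(5, 0, 94), (0, 2, 95)]) .e) .e)) .e))) (.n (.n (.n (.n (.n (.n (.l [(0, 11, 62), (0, 5, 63)]) .e) .e) .e) (.n .e (.n (.n (.l [(0, 5, 96)]) .e) .e))) (.n (.n .e (.n (.n (.l [(3, 0, 90), (0, 12, 91), (3, 0, 92), (0, 7, 93)]) .e) .e)) .e)) (.n .e (.n (.n .e (.n (.n (.l [(0, 2, 94), (3, 0, 95)]) .e) .e)) .e))))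
def r49 : Tr Vc := (.n (.n (.n (.n (.n (.n (.n (.l [(0, 15, 56), (6, 0, 57), (5, 0, 58), (14, 0, 59), (0, 8, 60), (2, 0, 61)]) .e) .e) .e) (.n .e (.n (.n (.l [(0, 15, 96)]) .e) .e))) .e) (.n (.n .e (.n .e (.n (.n (.l [(0, 17, 96)]) .e) .e))) (.n (.n .e (.n (.n (.l [(0, 8, 94), (0, 16, 95)]) .e) .e)) .e))) (.n (.n (.n (.n (.n (.n (.l [(0, 1, 62), (17, 0, 63)]) .e) .e) .e) (.n .e (.n (.n (.l [(0, 7, 96)]) .e) .e))) (.n (.n .e (.n (.n (.l [(3, 0, 90), (0, 14, 91), (5, 0, 92), (0, 10, 93)]) .e) .e)) .e)) (.n .e (.n (.n .e (.n (.n (.l [(5, 0, 94), (14, 0, 95)]) .e) .e)) .e))))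
def r50 : Tr Vc := (.n (.n (.n (.n (.n (.n (.n (.l [(37, 0, 56), (0, 10, 57), (0, 30, 58), (0, 28, 59), (28, 0, 60), (0, 1, 61)]) .e) .e) .e) (.n .e (.n (.n (.l [(41, 0, 96)]) .e) .e))) .e) (.n (.n .e (.n .e (.n (.n (.l [(42, 0, 96)]) .e) .e))) (.n (.n .e (.n (.n (.l [(5, 0, 94), (24, 0, 95)]) .e) .e)) .e))) (.n (.n (.n (.n (.n (.n (.l [(15, 0, 62), (0, 15, 63)]) .e) .e) .e) (.n .e (.n (.n (.l [(16, 0, 96)]) .e) .e))) (.n (.n .e (.n (.n (.l [(0, 5, 90), (37, 0, 91), (0, 10, 92), (24, 0, 93)]) .e) .e)) .e)) (.n .e (.n (.n .e (.n (.n (.l [(0, 5, 94), (0, 23, 95)]) .e) .e)) .e))))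
def r51 : Tr Vc := (.n (.n (.n (.n (.n (.n (.n (.l [(4, 0, 56), (0, 3, 57), (0, 6, 58), (0, 6, 59), (6, 0, 60)]) .e) .e) .e) (.n .e (.n (.n (.l [(8, 0, 96)]) .e) .e))) .e) (.n (.n .e (.n .e (.n (.n (.l [(8, 0, 96)]) .e) .e))) (.n (.n .e (.n (.n (.l [(0, 11, 94), (0, 7, 95)]) .e) .e)) .e))) (.n (.n (.n (.n (.n (.n (.l [(6, 0, 62), (3, 0, 63)]) .e) .e) .e) (.n .e (.n (.n (.l [(0, 1, 96)]) .e) .e))) (.n (.n .e (.n (.n (.l [(0, 2, 90), (0, 2, 91), (1, 0, 92), (0, 1, 93)]) .e) .e)) .e)) (.n .e (.n (.n .e (.n (.n (.l [(9, 0, 94), (7, 0, 95)]) .e) .e)) .e))))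
def r52 : Tr Vc := (.n (.n (.n (.n (.n (.n (.n (.l [(0, 19, 56), (11, 0, 57), (3, 0, 58), (20, 0, 59), (0, 10, 60), (3, 0, 61)]) .e) .e) .e) (.n .e (.n (.n (.l [(3, 0, 96)]) .e) .e))) .e) (.n .e (.n (.n .e (.n (.n (.l [(0, 12, 94), (0, 13, 95)]) .e) .e)) .e))) (.n (.n (.n (.n (.n (.n (.l [(10, 0, 62), (23, 0, 63)]) .e) .e) .e) (.n .e (.n (.n (.l [(0, 1, 96)]) .e) .e))) (.n (.n .e (.n (.n (.l [(1, 0, 92), (0, 2, 93)]) .e) .e)) .e)) (.n .e (.n (.n .e (.n (.n (.l [(6, 0, 94), (10, 0, 95)]) .e) .e)) .e))))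
def r53 : Tr Vc := (.n (.n (.n (.n (.n (.n (.n (.l [(59, 0, 56), (0, 18, 57), (0, 50, 58), (0, 45, 59), (47, 0, 60), (0, 1, 61)]) .e) .e) .e) (.n .e (.n (.n (.l [(44, 0, 96)]) .e) .e))) .e) (.n (.n .e (.n .e (.n (.n (.l [(45, 0, 96)]) .e) .e))) (.n (.n .e (.n (.n (.l [(5, 0, 94), (26, 0, 95)]) .e) .e)) .e))) (.n (.n (.n (.n (.n (.n (.l [(16, 0, 62), (0, 16, 63)]) .e) .e) .e) (.n .e (.n (.n (.l [(18, 0, 96)]) .e) .e))) (.n (.n .e (.n (.n (.l [(0, 5, 90), (43, 0, 91), (0, 12, 92), (28, 0, 93)]) .e) .e)) .e)) (.n .e (.n (.n .e (.n (.n (.l [(0, 5, 94), (0, 25, 95)]) .e) .e)) .e))))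
def r54 : Tr Vc := (.n (.n (.n (.n (.n (.n (.n (.l [(27, 0, 56), (0, 10, 57), (0, 22, 58), (0, 23, 59), (21, 0, 60), (0, 2, 61)]) .e) .e) .e) (.n .e (.n (.n (.l [(18, 0, 96)]) .e) .e))) .e) (.n (.n .e (.n .e (.n (.n (.l [(20, 0, 96)]) .e) .e))) (.n (.n .e (.n (.n (.l [(4, 0, 94), (8, 0, 95)]) .e) .e)) .e))) (.n (.n (.n (.n (.n (.n (.l [(7, 0, 62), (0, 5, 63)]) .e) .e) .e) (.n .e (.n (.n (.l [(13, 0, 96)]) .e) .e))) (.n (.n .e (.n (.n (.l [(8, 0, 90), (31, 0, 91), (0, 13, 92), (21, 0, 93)]) .e) .e)) .e)) (.n .e (.n (.n .e (.n (.n (.l [(0, 5, 94), (0, 6, 95)]) .e) .e)) .e))))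
def r55 : Tr Vc := (.n (.n (.n (.n (.n (.n (.n (.l [(0, 2, 56), (0, 1, 58), (3, 0, 59), (1, 0, 60), (2, 0, 61)]) .e) .e) .e) (.n .e (.n (.n (.l [(0, 17, 96)]) .e) .e))) .e) (.n (.n .e (.n .e (.n (.n (.l [(0, 19, 96)]) .e) .e))) (.n (.n .e (.n (.n (.l [(0, 4, 94), (0, 7, 95)]) .e) .e)) .e))) (.n (.n (.n (.n (.n (.n (.l [(0, 7, 62), (5, 0, 63)]) .e) .e) .e) (.n .e (.n (.n (.l [(0, 11, 96)]) .e) .e))) (.n (.n .e (.n (.n (.l [(0, 8, 90), (0, 25, 91), (10, 0, 92), (0, 17, 93)]) .e) .e)) .e)) (.n .e (.n (.n .e (.n (.n (.l [(5, 0, 94), (5, 0, 95)]) .e) .e)) .e))))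
def r56 : Tr Vc := (.n (.n (.n (.n (.n (.n (.n (.l [(0, 3, 62), (0, 7, 63)]) .e) .e) .e) .e) .e) (.n .e (.n (.n .e (.n (.n (.l [(0, 4, 96)]) .e) .e)) .e))) (.n (.n .e (.n (.n .e (.n (.n (.l [(2, 0, 94), (1, 0, 95)]) .e) .e)) .e)) (.n .e (.n (.n .e (.n (.n (.l [(4, 0, 96)]) .e) .e)) .e))))
def r57 : Tr Vc := (.n (.n (.n (.n (.n (.n (.n (.l [(3, 0, 62), (6, 0, 63)]) .e) .e) .e) .e) .e) (.n .e (.n (.n .e (.n (.n (.l [(8, 0, 96)]) .e) .e)) .e))) (.n (.n .e (.n (.n .e (.n (.n (.l [(0, 7, 94)]) .e) .e)) .e)) (.n .e (.n (.n .e (.n (.n (.l [(0, 8, 96)]) .e) .e)) .e))))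
def r58 : Tr Vc := (.n (.n (.n (.n (.n (.n (.n (.l [(0, 4, 62), (0, 3, 63)]) .e) .e) .e) .e) .e) (.n .e (.n (.n .e (.n (.n (.l [(0, 6, 96)]) .e) .e)) .e))) (.n (.n .e (.n (.n .e (.n (.n (.l [(0, 6, 94), (0, 5, 95)]) .e) .e)) .e)) (.n .e (.n (.n .e (.n (.n (.l [(6, 0, 96)]) .e) .e)) .e))))
def r59 : Tr Vc := (.n (.n (.n (.n (.n (.n (.n (.l [(0, 4, 62), (0, 5, 63)]) .e) .e) .e) .e) .e) (.n .e (.n (.n .e (.n (.n (.l [(0, 11, 96)]) .e) .e)) .e))) (.n (.n .e (.n (.n .e (.n (.n (.l [(4, 0, 94), (0, 3, 95)]) .e) .e)) .e)) (.n .e (.n (.n .e (.n (.n (.l [(11, 0, 96)]) .e) .e)) .e))))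
def r60 : Tr Vc := (.n (.n (.n (.n (.n (.n (.n (.l [(0, 3, 62), (3, 0, 63)]) .e) .e) .e) .e) .e) (.n .e (.n (.n .e (.n (.n (.l [(0, 8, 96)]) .e) .e)) .e))) (.n (.n .e (.n (.n .e (.n (.n (.l [(0, 8, 94), (0, 9, 95)]) .e) .e)) .e)) (.n .e (.n (.n .e (.n (.n (.l [(8, 0, 96)]) .e) .e)) .e))))
def r61 : Tr Vc := (.n (.n (.n (.n (.n (.n (.n (.l [(0, 2, 62), (0, 6, 63)]) .e) .e) .e) .e) .e) (.n .e (.n (.n .e (.n (.n (.l [(2, 0, 96)]) .e) .e)) .e))) (.n (.n .e (.n (.n .e (.n (.n (.l [(0, 7, 94), (3, 0, 95)]) .e) .e)) .e)) (.n .e (.n (.n .e (.n (.n (.l [(0, 3, 96)]) .e) .e)) .e))))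
def r62 : Tr Vc := (.n .e (.n (.n .e (.n (.n .e (.n (.n (.l [(2, 0, 96)]) .e) .e)) .e)) .e))
def r63 : Tr Vc := (.n .e (.n (.n .e (.n (.n .e (.n (.n (.l [(0, 1, 96)]) .e) .e)) .e)) .e))
def r64 : Tr Vc := (.n (.n (.n (.n (.n (.n (.n (.l [(1, 0, 65)]) .e) .e) (.n (.n (.l [(2, 0, 94), (15, 0, 95)]) .e) .e)) (.n (.n (.n (.l [(0, 1, 83), (0, 1, 85), (1, 0, 86)]) .e) .e) .e)) (.n (.n (.n (.n (.l [(0, 1, 78), (1, 0, 81)]) .e) .e) (.n (.n (.l [(1, 0, 96)]) .e) .e)) (.n (.n (.n (.l [(1, 0, 92), (0, 2, 93)]) .e) .e) .e))) (.n (.n (.n (.n (.n (.l [(1, 0, 70)]) .e) .e) (.n (.n (.l [(15, 0, 94), (9, 0, 95)]) .e) .e)) (.n (.n (.n (.l [(1, 0, 83), (0, 1, 85), (0, 1, 87)]) .e) .e) .e)) (.n (.n (.n (.n (.l [(0, 1, 76), (0, 1, 77), (1, 0, 78), (0, 1, 79), (0, 1, 80)]) .e) .e) .e) (.n (.n (.n (.l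 [(9, 0, 90), (2, 0, 91), (0, 1, 92), (2, 0, 93)]) .e) .e) .e)))) (.n (.n (.n (.n (.n (.n (.l [(1, 0, 67)]) .e) .e) (.n (.n (.l [(0, 3, 94), (7, 0, 95)]) .e) .e)) (.n (.n (.n (.l [(0, 1, 85), (0, 1, 86), (1, 0, 87)]) .e) .e) .e)) (.n (.n (.n (.n (.l [(1, 0, 82)]) .e) .e) .e) (.n (.n (.n (.l [(3, 0, 90), (3, 0, 91)]) .e) .e) .e))) (.n (.n (.n (.n (.n (.l [(1, 0, 71)]) .e) .e) .e) (.n (.n (.n (.l [(12, 0, 90), (0, 1, 91)]) .e) .e) .e)) (.n (.n (.n (.n (.l [(2, 0, 83), (1, 0, 88)]) .e) .e) .e) (.n (.n (.n (.l [(0, 9, 94)]) .e) .e) .e)))))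
def r65 : Tr Vc := (.n (.n (.n (.n (.n (.n (.n (.l [(1, 0, 67)]) .e) .e) (.n (.n (.l [(2, 0, 96)]) .e) .e)) (.n (.n (.n (.l [(27, 0, 90), (1, 0, 91), (0, 2, 92), (4, 0, 93)]) .e) .e) .e)) (.n (.n (.n (.n (.l [(0, 1, 85), (0, 1, 86), (1, 0, 87)]) .e) .e) .e) (.n (.n (.n (.l [(2, 0, 94), (15, 0, 95)]) .e) .e) .e))) (.n (.n (.n (.n (.n (.l [(0, 1, 78), (1, 0, 81)]) .e) .e) (.n (.n (.l [(15, 0, 96)]) .e) .e)) (.n (.n (.n (.l [(9, 0, 90), (2, 0, 91), (0, 1, 92), (2, 0, 93)]) .e) .e) .e)) (.n (.n (.n (.n (.l [(1, 0, 83), (0, 1, 85), (0, 1, 87)]) .e) .e) .e) (.n (.n (.n (.l [(4, 0, 95)]) .e) .e) .e)))) (.n (.n (.n (.n (.n (.n (.l [(1, 0, 70)]) .e) .e) (.n (.n (.l [(0, 3, 96)]) .e) .e)) (.n (.n (.n (.l [(0, 6, 90), (0, 6, 91), (3, 0, 92), (0, 6, 93)]) .e) .e) .e)) (.n (.n (.n (.n (.l [(5,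 0, 83), (1, 0, 85), (0, 1, 86), (2, 0, 88)]) .e) .e) .e) (.n (.n (.n (.l [(3, 0, 94), (18, 0, 95)]) .e) .e) .e))) (.n (.n (.n (.n (.n (.l [(0, 1, 76), (0, 1, 77), (2, 0, 78), (0, 1, 79), (0, 1, 80), (0, 1, 81), (1, 0, 82)]) .e) .e) .e) (.n (.n (.n (.l [(0, 1, 94), (7, 0, 95)]) .e) .e) .e)) (.n (.n (.n (.n (.l [(12, 0, 90), (0, 1, 91)]) .e) .e) .e) (.n (.n (.n (.l [(0, 9, 96)]) .e) .e) .e)))))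
def r66 : Tr Vc := (.n (.n (.n (.n (.n (.n (.n (.l [(1, 0, 68)]) .e) .e) (.n (.n (.l [(0, 2, 96)]) .e) .e)) (.n (.n (.n (.l [(0, 26, 90), (6, 0, 91), (0, 2, 92), (1, 0, 93)]) .e) .e) .e)) (.n (.n (.n (.n (.l [(1, 0, 89)]) .e) .e) .e) (.n (.n (.n (.l [(0, 2, 94), (0, 15, 95)]) .e) .e) .e))) (.n (.n (.n (.n (.n (.l [(0, 1, 76), (1, 0, 79)]) .e) .e) (.n (.n (.l [(0, 18, 96)]) .e) .e)) (.n (.n (.n (.l [(0, 10, 90), (1, 0, 91), (0, 1, 92)]) .e) .e) .e)) (.n (.n (.n (.n (.l [(0, 1, 84), (1, 0, 85)]) .e) .e) .e) (.n (.n (.n (.l [(1, 0, 94), (0, 4, 95)]) .e) .e) .e)))) (.n (.n (.n (.n (.n (.n (.l [(1, 0, 72)]) .e) .e) (.n (.n (.l [(4, 0, 96)]) .e) .e)) (.n (.n (.n (.l [(3, 0, 90), (5, 0, 91), (0, 3, 92), (5, 0, 93)]) .e) .e) .e)) (.n (.n (.n (.n (.l [(0, 5, 83), (0, 2, 85), (1, 0, 87),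 (0, 2, 88), (1, 0, 89)]) .e) .e) .e) (.n (.n (.n (.l [(0, 3, 94), (0, 18, 95)]) .e) .e) .e))) (.n (.n (.n (.n (.n (.l [(0, 1, 76), (0, 1, 78), (1, 0, 79), (1, 0, 80), (1, 0, 81)]) .e) .e) .e) (.n (.n (.n (.l [(2, 0, 94), (0, 7, 95)]) .e) .e) .e)) (.n (.n (.n (.n (.l [(0, 13, 90), (4, 0, 91), (0, 2, 92), (2, 0, 93)]) .e) .e) .e) (.n (.n (.n (.l [(11, 0, 96)]) .e) .e) .e)))))
def r67 : Tr Vc := (.n (.n (.n (.n (.n (.n (.n (.l [(1, 0, 71)]) .e) .e) .e) (.n (.n (.n (.l [(0, 15, 94), (0, 9, 95)]) .e) .e) .e)) (.n (.n (.n (.n (.l [(1, 0, 92), (0, 2, 93)]) .e) .e) .e) (.n (.n (.n (.l [(5, 0, 96)]) .e) .e) .e))) (.n (.n (.n (.n (.n (.l [(2, 0, 83), (1, 0, 88)]) .e) .e) .e) (.n (.n (.n (.l [(0, 6, 94), (0, 1, 95)]) .e) .e) .e)) (.n (.n (.n (.n (.l [(12, 0, 90), (0, 1, 91)]) .e) .e) .e) (.n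 (.n (.n (.l [(0, 1, 96)]) .e) .e) .e)))) (.n (.n (.n (.n (.n (.n (.l [(1, 0, 82)]) .e) .e) .e) (.n (.n (.n (.l [(0, 3, 94), (7, 0, 95)]) .e) .e) .e)) (.n (.n (.n (.n (.l [(3, 0, 90), (3, 0, 91)]) .e) .e) .e) (.n (.n (.n (.l [(6, 0, 96)]) .e) .e) .e))) (.n (.n (.n (.n (.n (.l [(0, 1, 83), (0, 1, 85), (1, 0, 86)]) .e) .e) .e) (.n (.n (.n (.l [(0, 2, 96)]) .e) .e) .e)) (.n (.n (.n (.n (.l [(0, 9, 94)]) .e) .e) .e) .e))))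
def r68 : Tr Vc := (.n (.n (.n (.n (.n (.n (.n (.l [(1, 0, 73)]) .e) .e) .e) (.n (.n (.n (.l [(15, 0, 94), (8, 0, 95)]) .e) .e) .e)) (.n (.n (.n (.n (.l [(0, 1, 90), (5, 0, 91), (0, 3, 92), (5, 0, 93)]) .e) .e) .e) (.n (.n (.n (.l [(0, 2, 96)]) .e) .e) .e))) (.n (.n (.n (.n (.n (.l [(0, 5, 83), (0, 1, 84), (0, 1, 85), (1, 0, 87), (0, 2, 88)]) .e) .e) .e) (.n (.n (.n (.l [(5, 0, 94)]) .e) .e) .e)) (.n (.n (.n (.n (.l [(0, 12, 90), (7, 0, 91), (0, 3, 92), (4, 0, 93)]) .e) .e) .e) (.n (.n (.n (.l [(4, 0, 96)]) .e) .e) .e)))) (.n (.n (.n (.n (.n (.n (.l [(0, 2, 76), (1, 0, 79), (1, 0, 81)]) .e) .e) .e) (.n (.n (.n (.l [(1, 0, 94), (0, 8, 95)]) .e) .e) .e)) (.n (.n (.n (.n (.l [(0, 4, 90), (2, 0, 91), (0, 2, 92), (3, 0, 93)]) .e) .e) .e) (.n (.n (.n (.l [(0, 3, 96)]) .e) .e) .e))) (.n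 (.n (.n (.n (.n (.l [(0, 1, 83), (0, 2, 84), (1, 0, 85), (0, 1, 87), (0, 1, 88), (0, 1, 89)]) .e) .e) .e) (.n (.n (.n (.l [(5, 0, 96)]) .e) .e) .e)) (.n (.n (.n (.n (.l [(8, 0, 94), (0, 1, 95)]) .e) .e) .e) .e))))
def r69 : Tr Vc := (.n (.n (.n (.n (.n (.n (.n (.l [(0, 2, 70), (2, 0, 71), (0, 3, 72), (1, 0, 73), (0, 1, 74), (0, 2, 75)]) .e) .e) .e) .e) (.n (.n (.n (.n (.l [(0, 2, 90), (6, 0, 91), (0, 3, 92), (4, 0, 93)]) .e) .e) .e) (.n (.n (.n (.l [(3, 0, 96)]) .e) .e) .e))) (.n (.n (.n (.n (.n (.l [(0, 3, 83), (0, 1, 84), (0, 1, 85), (0, 1, 86), (1, 0, 87), (0, 1, 88)]) .e) .e) .e) (.n (.n (.n (.l [(0, 3, 95)]) .e) .e) .e)) (.n (.n (.n (.n (.l [(9, 0, 90), (17, 0, 91), (0, 8, 92), (13, 0, 93)]) .e) .e) .e) (.n (.n (.n (.l [(6, 0, 96)]) .e) .e) .e)))) (.n (.n (.n (.n (.n (.n (.l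 [(0, 2, 76), (0, 1, 77), (1, 0, 78), (1, 0, 82)]) .e) .e) .e) (.n (.n (.n (.l [(0, 3, 94), (0, 3, 95)]) .e) .e) .e)) (.n (.n (.n (.n (.l [(6, 0, 91), (0, 3, 92), (4, 0, 93)]) .e) .e) .e) (.n (.n (.n (.l [(3, 0, 96)]) .e) .e) .e))) (.n (.n (.n (.n (.n (.l [(0, 1, 84)]) .e) .e) .e) (.n (.n (.n (.l [(3, 0, 96)]) .e) .e) .e)) (.n (.n (.n (.n (.l [(0, 1, 94)]) .e) .e) .e) .e))))
def r70 : Tr Vc := (.n (.n (.n (.n (.n (.n (.n (.l [(0, 1, 76), (0, 1, 77), (1, 0, 78), (0, 1, 79), (0, 1, 80)]) .e) .e) .e) (.n (.n (.n (.l [(0, 16, 96)]) .e) .e) .e)) (.n (.n (.n (.n (.l [(2, 0, 94), (15, 0, 95)]) .e) .e) .e) .e)) (.n (.n (.n (.n (.n (.l [(9, 0, 90), (0, 4, 91), (1, 0, 92), (0, 2, 93)]) .e) .e) .e) (.n (.n (.n (.l [(0, 7, 96)]) .e) .e) .e)) (.n (.n (.n (.n (.l [(8, 0, 95)]) .e) .e) .e) .e)))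 (.n (.n (.n (.n (.n (.n (.l [(5, 0, 83), (1, 0, 85), (0, 1, 86), (2, 0, 88)]) .e) .e) .e) (.n (.n (.n (.l [(0, 4, 96)]) .e) .e) .e)) (.n (.n (.n (.n (.l [(3, 0, 94), (18, 0, 95)]) .e) .e) .e) .e)) (.n (.n (.n (.n (.n (.l [(24, 0, 90), (0, 2, 91), (0, 1, 92), (2, 0, 93)]) .e) .e) .e) .e) (.n (.n (.n (.n (.l [(0, 10, 96)]) .e) .e) .e) .e))))
def r71 : Tr Vc := (.n (.n (.n (.n (.n (.n (.n (.l [(1, 0, 78), (0, 1, 81), (2, 0, 82)]) .e) .e) .e) (.n (.n (.n (.l [(0, 7, 96)]) .e) .e) .e)) (.n (.n (.n (.n (.l [(0, 3, 94), (7, 0, 95)]) .e) .e) .e) .e)) (.n (.n (.n (.n (.n (.l [(3, 0, 90), (3, 0, 91)]) .e) .e) .e) .e) (.n (.n (.n (.n (.l [(0, 7, 94), (0, 2, 95)]) .e) .e) .e) .e))) (.n (.n (.n (.n (.n (.n (.l [(2, 0, 83), (1, 0, 88)]) .e) .e) .e) (.n (.n (.n (.l [(4, 0, 96)]) .e) .e) .e)) (.n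 (.n (.n (.n (.l [(0, 3, 94), (9, 0, 95)]) .e) .e) .e) .e)) (.n (.n (.n (.n (.n (.l [(18, 0, 90), (5, 0, 91), (0, 2, 92), (4, 0, 93)]) .e) .e) .e) .e) (.n (.n (.n (.n (.l [(0, 1, 96)]) .e) .e) .e) .e))))
def r72 : Tr Vc := (.n (.n (.n (.n (.n (.n (.n (.l [(0, 1, 78), (1, 0, 79), (1, 0, 80)]) .e) .e) .e) (.n (.n (.n (.l [(18, 0, 96)]) .e) .e) .e)) (.n (.n (.n (.n (.l [(0, 2, 94), (0, 15, 95)]) .e) .e) .e) .e)) (.n (.n (.n (.n (.n (.l [(0, 11, 90), (4, 0, 91), (0, 2, 92), (2, 0, 93)]) .e) .e) .e) (.n (.n (.n (.l [(8, 0, 96)]) .e) .e) .e)) (.n (.n (.n (.n (.l [(1, 0, 94), (0, 8, 95)]) .e) .e) .e) .e))) (.n (.n (.n (.n (.n (.n (.l [(0, 5, 83), (0, 2, 85), (1, 0, 87), (0, 2, 88), (1, 0, 89)]) .e) .e) .e) (.n (.n (.n (.l [(4, 0, 96)]) .e) .e) .e)) (.n (.n (.n (.n (.l [(0, 3, 94), (0, 18,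 95)]) .e) .e) .e) .e)) (.n (.n (.n (.n (.n (.l [(0, 24, 90), (6, 0, 91), (0, 2, 92), (1, 0, 93)]) .e) .e) .e) .e) (.n (.n (.n (.n (.l [(11, 0, 96)]) .e) .e) .e) .e))))
def r73 : Tr Vc := (.n (.n (.n (.n (.n (.n (.n (.l [(0, 1, 76), (0, 1, 78), (1, 0, 79), (1, 0, 81), (0, 1, 82)]) .e) .e) .e) (.n (.n (.n (.l [(8, 0, 96)]) .e) .e) .e)) (.n (.n (.n (.n (.l [(3, 0, 94), (0, 6, 95)]) .e) .e) .e) .e)) (.n (.n (.n (.n (.n (.l [(0, 3, 90), (0, 1, 91), (0, 1, 92), (1, 0, 93)]) .e) .e) .e) (.n (.n (.n (.l [(1, 0, 96)]) .e) .e) .e)) (.n (.n (.n (.n (.l [(7, 0, 94), (2, 0, 95)]) .e) .e) .e) .e))) (.n (.n (.n (.n (.n (.n (.l [(0, 2, 83), (0, 1, 84), (0, 1, 88)]) .e) .e) .e) (.n (.n (.n (.l [(0, 3, 96)]) .e) .e) .e)) (.n (.n (.n (.n (.l [(3, 0, 94), (0, 8, 95)]) .e) .e) .e) .e)) (.n (.n (.n (.n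 (.n (.l [(0, 17, 90), (0, 2, 91), (0, 2, 93)]) .e) .e) .e) .e) (.n (.n (.n (.n (.l [(2, 0, 96)]) .e) .e) .e) .e))))
def r74 : Tr Vc := (.n (.n (.n (.n (.n (.n (.n (.l [(0, 1, 77), (2, 0, 78), (0, 1, 80), (0, 1, 81), (1, 0, 82)]) .e) .e) .e) (.n (.n (.n (.l [(6, 0, 96)]) .e) .e) .e)) (.n (.n (.n (.n (.l [(0, 6, 94), (0, 2, 95)]) .e) .e) .e) .e)) (.n (.n (.n (.n (.n (.l [(12, 0, 90), (25, 0, 91), (0, 10, 92), (17, 0, 93)]) .e) .e) .e) (.n (.n (.n (.l [(6, 0, 96)]) .e) .e) .e)) (.n (.n (.n (.n (.l [(0, 8, 94), (0, 3, 95)]) .e) .e) .e) .e))) (.n (.n (.n (.n (.n (.n (.l [(1, 0, 83), (0, 1, 86), (1, 0, 87), (1, 0, 88), (1, 0, 89)]) .e) .e) .e) (.n (.n (.n (.l [(9, 0, 96)]) .e) .e) .e)) (.n (.n (.n (.n (.l [(0, 6, 94), (0, 4, 95)]) .e) .e) .e) .e)) (.n (.n (.n (.n (.n (.l [(13, 0, 91),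 (0, 6, 92), (8, 0, 93)]) .e) .e) .e) .e) (.n (.n (.n (.n (.l [(7, 0, 96)]) .e) .e) .e) .e))))
def r75 : Tr Vc := (.n (.n (.n (.n (.n (.n (.n (.l [(1, 0, 76), (2, 0, 77), (1, 0, 82)]) .e) .e) .e) (.n (.n (.n (.l [(0, 17, 96)]) .e) .e) .e)) (.n (.n (.n (.n (.l [(3, 0, 94), (13, 0, 95)]) .e) .e) .e) .e)) (.n (.n (.n (.n (.n (.l [(5, 0, 90), (0, 12, 91), (7, 0, 92), (0, 9, 93)]) .e) .e) .e) (.n (.n (.n (.l [(0, 9, 96)]) .e) .e) .e)) (.n (.n (.n (.n (.l [(0, 2, 94), (5, 0, 95)]) .e) .e) .e) .e))) (.n (.n (.n (.n (.n (.n (.l [(3, 0, 83), (2, 0, 85), (2, 0, 86), (0, 2, 87), (1, 0, 88), (0, 2, 89)]) .e) .e) .e) (.n (.n (.n (.l [(0, 4, 96)]) .e) .e) .e)) (.n (.n (.n (.n (.l [(3, 0, 94), (15, 0, 95)]) .e) .e) .e) .e)) (.n (.n (.n (.n (.n (.l [(17, 0, 90), (0, 15, 91), (8, 0, 92), (0, 9, 93)])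 .e) .e) .e) .e) (.n (.n (.n (.n (.l [(0, 10, 96)]) .e) .e) .e) .e))))
def r76 : Tr Vc := (.n (.n (.n (.n (.n (.n (.n (.l [(0, 3, 83), (0, 1, 85), (0, 1, 88)]) .e) .e) .e) .e) (.n (.n (.n (.n (.l [(7, 0, 96)]) .e) .e) .e) .e)) (.n (.n (.n (.n (.n (.l [(0, 6, 94), (0, 8, 95)]) .e) .e) .e) .e) (.n (.n (.n (.n (.l [(7, 0, 96)]) .e) .e) .e) .e))) (.n (.n (.n (.n (.n (.n (.l [(0, 1, 90), (12, 0, 91), (0, 4, 92), (7, 0, 93)]) .e) .e) .e) .e) (.n (.n (.n (.n (.l [(7, 0, 96)]) .e) .e) .e) .e)) (.n (.n (.n (.n (.n (.l [(0, 6, 94), (0, 8, 95)]) .e) .e) .e) .e) .e)))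
def r77 : Tr Vc := (.n (.n (.n (.n (.n (.n (.n (.l [(3, 0, 83), (1, 0, 84), (1, 0, 85), (1, 0, 88)]) .e) .e) .e) .e) (.n (.n (.n (.n (.l [(0, 9, 96)]) .e) .e) .e) .e)) (.n (.n (.n (.n (.n (.l [(7, 0, 94), (8, 0, 95)]) .e) .e) .e) .e) (.n (.n (.n (.n (.l [(0, 9, 96)]) .e) .e) .e) .e))) (.n (.n (.n (.n (.n (.n (.l [(2, 0, 90), (0, 15, 91), (6, 0, 92), (0, 9, 93)]) .e) .e) .e) .e) (.n (.n (.n (.n (.l [(0, 9, 96)]) .e) .e) .e) .e)) (.n (.n (.n (.n (.n (.l [(6, 0, 94), (8, 0, 95)]) .e) .e) .e) .e) .e)))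
def r78 : Tr Vc := (.n (.n (.n (.n (.n (.n (.n (.l [(0, 5, 83), (0, 1, 85), (0, 1, 86), (1, 0, 87), (0, 2, 88)]) .e) .e) .e) .e) (.n (.n (.n (.n (.l [(3, 0, 96)]) .e) .e) .e) .e)) (.n (.n (.n (.n (.n (.l [(2, 0, 94), (0, 9, 95)]) .e) .e) .e) .e) (.n (.n (.n (.n (.l [(10, 0, 96)]) .e) .e) .e) .e))) (.n (.n (.n (.n (.n (.n (.l [(0, 3, 90), (12, 0, 91), (0, 5, 92), (9, 0, 93)]) .e) .e) .e) .e) (.n (.n (.n (.n (.l [(2, 0, 96)]) .e) .e) .e) .e)) (.n (.n (.n (.n (.n (.l [(8, 0, 94)]) .e) .e) .e) .e) .e)))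
def r79 : Tr Vc := (.n (.n (.n (.n (.n (.n (.n (.l [(0, 8, 83), (0, 2, 84), (0, 1, 85), (1, 0, 87), (0, 3, 88), (0, 1, 89)]) .e) .e) .e) .e) (.n (.n (.n (.n (.l [(5, 0, 96)]) .e) .e) .e) .e)) (.n (.n (.n (.n (.n (.l [(0, 9, 95)]) .e) .e) .e) .e) (.n (.n (.n (.n (.l [(11, 0, 96)]) .e) .e) .e) .e))) (.n (.n (.n (.n (.n (.n (.l [(0, 3, 90), (14, 0, 91), (0, 6, 92), (10, 0, 93)]) .e) .e) .e) .e) (.n (.n (.n (.n (.l [(4, 0, 96)]) .e) .e) .e) .e)) (.n (.n (.n (.n (.n (.l [(6, 0, 94), (0, 1, 95)]) .e) .e) .e) .e) .e)))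
def r80 : Tr Vc := (.n (.n (.n (.n (.n (.n (.n (.l [(0, 4, 83), (1, 0, 84), (0, 2, 85), (0, 1, 86), (1, 0, 87), (0, 2, 88), (1, 0, 89)]) .e) .e) .e) .e) (.n (.n (.n (.n (.l [(2, 0, 96)]) .e) .e) .e) .e)) (.n (.n (.n (.n (.n (.l [(4, 0, 94), (0, 11, 95)]) .e) .e) .e) .e) (.n (.n (.n (.n (.l [(10, 0, 96)]) .e) .e) .e) .e))) (.n (.n (.n (.n (.n (.n (.l [(0, 13, 90), (2, 0, 91), (0, 1, 92), (1, 0, 93)]) .e) .e) .e) .e) (.n (.n (.n (.n (.l [(2, 0, 96)]) .e) .e) .e) .e)) (.n (.n (.n (.n (.n (.l [(9, 0, 94), (0, 3, 95)]) .e) .e) .e) .e) .e)))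
def r81 : Tr Vc := (.n (.n (.n (.n (.n (.n (.n (.l [(0, 2, 83), (0, 1, 85), (0, 1, 87), (0, 1, 88)]) .e) .e) .e) .e) (.n (.n (.n (.n (.l [(7, 0, 96)]) .e) .e) .e) .e)) (.n (.n (.n (.n (.n (.l [(0, 5, 94), (0, 9, 95)]) .e) .e) .e) .e) (.n (.n (.n (.n (.l [(8, 0, 96)]) .e) .e) .e) .e))) (.n (.n (.n (.n (.n (.n (.l [(0, 3, 90), (12, 0, 91), (0, 4, 92), (7, 0, 93)]) .e) .e) .e) .e) (.n (.n (.n (.n (.l [(7, 0, 96)]) .e) .e) .e) .e)) (.n (.n (.n (.n (.n (.l [(0, 4, 94), (0, 8, 95)]) .e) .e) .e) .e) .e)))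
def r82 : Tr Vc := (.n (.n (.n (.n (.n (.n (.n (.l [(0, 1, 83), (0, 1, 85), (1, 0, 86)]) .e) .e) .e) .e) (.n (.n (.n (.n (.l [(5, 0, 96)]) .e) .e) .e) .e)) (.n (.n (.n (.n (.n (.l [(0, 9, 94)]) .e) .e) .e) .e) (.n (.n (.n (.n (.l [(0, 2, 96)]) .e) .e) .e) .e))) (.n (.n (.n (.n (.n (.n (.l [(3, 0, 90), (3, 0, 91)]) .e) .e) .e) .e) (.n (.n (.n (.n (.l [(6, 0, 96)]) .e) .e) .e) .e)) (.n (.n (.n (.n (.n (.l [(0, 15, 94), (0, 9, 95)]) .e) .e) .e) .e) .e)))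
def r83 : Tr Vc := (.n (.n (.n (.n (.n (.n (.n (.l [(0, 1, 90), (0, 12, 91), (4, 0, 92), (0, 7, 93)]) .e) .e) .e) .e) .e) (.n (.n (.n (.n (.n (.l [(0, 7, 96)]) .e) .e) .e) .e) .e)) (.n (.n (.n (.n (.n (.n (.l [(6, 0, 94), (6, 0, 95)]) .e) .e) .e) .e) .e) (.n (.n (.n (.n (.n (.l [(0, 6, 96)]) .e) .e) .e) .e) .e)))
def r84 : Tr Vc := (.n (.n (.n (.n (.n (.n (.n (.l [(1, 0, 92)]) .e) .e) .e) .e) .e) .e) (.n (.n (.n (.n (.n (.n (.l [(0, 1, 95)]) .e) .e) .e) .e) .e) .e))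
def r85 : Tr Vc := (.n (.n (.n (.n (.n (.n (.n (.l [(0, 14, 90), (0, 5, 91), (2, 0, 92), (0, 4, 93)]) .e) .e) .e) .e) .e) (.n (.n (.n (.n (.n (.l [(1, 0, 96)]) .e) .e) .e) .e) .e)) (.n (.n (.n (.n (.n (.n (.l [(3, 0, 94), (0, 7, 95)]) .e) .e) .e) .e) .e) (.n (.n (.n (.n (.n (.l [(6, 0, 96)]) .e) .e) .e) .e) .e)))
def r86 : Tr Vc := (.n (.n (.n (.n (.n (.n (.n (.l [(0, 6, 90), (0, 8, 91), (4, 0, 92), (0, 7, 93)]) .e) .e) .e) .e) .e) (.n (.n (.n (.n (.n (.l [(1, 0, 96)]) .e) .e) .e) .e) .e)) (.n (.n (.n (.n (.n (.n (.l [(0, 1, 95)]) .e) .e) .e) .e) .e) (.n (.n (.n (.n (.n (.l [(1, 0, 96)]) .e) .e) .e) .e) .e)))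
def r87 : Tr Vc := (.n (.n (.n (.n (.n (.n (.n (.l [(1, 0, 90), (0, 12, 91), (4, 0, 92), (0, 7, 93)]) .e) .e) .e) .e) .e) (.n (.n (.n (.n (.n (.l [(0, 7, 96)]) .e) .e) .e) .e) .e)) (.n (.n (.n (.n (.n (.n (.l [(5, 0, 94), (7, 0, 95)]) .e) .e) .e) .e) .e) (.n (.n (.n (.n (.n (.l [(0, 7, 96)]) .e) .e) .e) .e) .e)))
def r88 : Tr Vc := (.n (.n (.n (.n (.n (.n (.n (.l [(17, 0, 90), (26, 0, 91), (0, 9, 92), (16, 0, 93)]) .e) .e) .e) .e) .e) (.n (.n (.n (.n (.n (.l [(12, 0, 96)]) .e) .e) .e) .e) .e)) (.n (.n (.n (.n (.n (.n (.l [(0, 15, 94), (0, 3, 95)]) .e) .e) .e) .e) .e) (.n (.n (.n (.n (.n (.l [(4, 0, 96)]) .e) .e) .e) .e) .e)))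
def r89 : Tr Vc := (.n (.n (.n (.n (.n (.n (.n (.l [(0, 22, 90), (0, 3, 93)]) .e) .e) .e) .e) .e) (.n (.n (.n (.n (.n (.l [(9, 0, 96)]) .e) .e) .e) .e) .e)) (.n (.n (.n (.n (.n (.n (.l [(0, 2, 94), (0, 15, 95)]) .e) .e) .e) .e) .e) (.n (.n (.n (.n (.n (.l [(15, 0, 96)]) .e) .e) .e) .e) .e)))
def r90 : Tr Vc := (.n (.n (.n (.n (.n (.n (.n (.l [(0, 1, 94)]) .e) .e) .e) .e) .e) .e) .e)
def r91 : Tr Vc := (.n (.n (.n (.n (.n (.n (.n (.l [(0, 4, 94), (0, 3, 95)]) .e) .e) .e) .e) .e) .e) (.n (.n (.n (.n (.n (.n (.l [(2, 0, 96)]) .e) .e) .e) .e) .e) .e))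
def r92 : Tr Vc := (.n (.n (.n (.n (.n (.n (.n (.l [(2, 0, 94)]) .e) .e) .e) .e) .e) .e) (.n (.n (.n (.n (.n (.n (.l [(0, 1, 96)]) .e) .e) .e) .e) .e) .e))
def r93 : Tr Vc := (.n (.n (.n (.n (.n (.n (.n (.l [(7, 0, 94), (4, 0, 95)]) .e) .e) .e) .e) .e) .e) (.n (.n (.n (.n (.n (.n (.l [(0, 3, 96)]) .e) .e) .e) .e) .e) .e))
def r94 : Tr Vc := .e
def r95 : Tr Vc := (.n (.n (.n (.n (.n (.n (.n (.l [(0, 1, 96)]) .e) .e) .e) .e) .e) .e) .e)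
def r96 : Tr Vc := .e
def tbl : Tr (Tr Vc) := (.n (.n (.n (.n (.n (.n (.n (.l r0) (.l r64)) (.n (.l r32) (.l r96))) (.n (.n (.l r16) (.l r80)) (.n (.l r48) .e))) (.n (.n (.n (.l r8) (.l r72)) (.n (.l r40) .e)) (.n (.n (.l r24) (.l r88)) (.n (.l r56) .e)))) (.n (.n (.n (.n (.l r4) (.l r68)) (.n (.l r36) .e)) (.n (.n (.l r20) (.l r84)) (.n (.l r52) .e))) (.n (.n (.n (.l r12) (.l r76)) (.n (.l r44) .e)) (.n (.n (.l r28) (.l r92)) (.n (.l r60) .e))))) (.n (.n (.n (.n (.n (.l r2) (.l r66)) (.n (.l r34) .e)) (.n (.n (.l r18) (.l r82)) (.n (.l r50) .e))) (.n (.n (.n (.l r10) (.l r74)) (.n (.l r42) .e)) (.n (.n (.l r26) (.l r90)) (.n (.l r58) .e)))) (.n (.n (.n (.n (.l r6) (.l r70)) (.n (.l r38) .e)) (.n (.n (.l r22) (.l r86)) (.n (.l r54) .e))) (.n (.n (.n (.l r14) (.l r78)) (.n (.l r46)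 .e)) (.n (.n (.l r30) (.l r94)) (.n (.l r62) .e)))))) (.n (.n (.n (.n (.n (.n (.l r1) (.l r65)) (.n (.l r33) .e)) (.n (.n (.l r17) (.l r81)) (.n (.l r49) .e))) (.n (.n (.n (.l r9) (.l r73)) (.n (.l r41) .e)) (.n (.n (.l r25) (.l r89)) (.n (.l r57) .e)))) (.n (.n (.n (.n (.l r5) (.l r69)) (.n (.l r37) .e)) (.n (.n (.l r21) (.l r85)) (.n (.l r53) .e))) (.n (.n (.n (.l r13) (.l r77)) (.n (.l r45) .e)) (.n (.n (.l r29) (.l r93)) (.n (.l r61) .e))))) (.n (.n (.n (.n (.n (.l r3) (.l r67)) (.n (.l r35) .e)) (.n (.n (.l r19) (.l r83)) (.n (.l r51) .e))) (.n (.n (.n (.l r11) (.l r75)) (.n (.l r43) .e)) (.n (.n (.l r27) (.l r91)) (.n (.l r59) .e)))) (.n (.n (.n (.n (.l r7) (.l r71)) (.n (.l r39) .e)) (.n (.n (.l r23) (.l r87)) (.n (.l r55) .e))) (.n (.n (.n (.l r15) (.l r79)) (.n (.l r47)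 .e)) (.n (.n (.l r31) (.l r95)) (.n (.l r63) .e)))))))
def xdeg : Tr ℕ := (.n (.n (.n (.n (.n (.n (.n (.l 0) (.l 2)) (.n (.l 1) (.l 2))) (.n (.n (.l 0) (.l 2)) (.n (.l 1) .e))) (.n (.n (.n (.l 0) (.l 2)) (.n (.l 1) .e)) (.n (.n (.l 1) (.l 2)) (.n (.l 1) .e)))) (.n (.n (.n (.n (.l 0) (.l 2)) (.n (.l 1) .e)) (.n (.n (.l 0) (.l 2)) (.n (.l 1) .e))) (.n (.n (.n (.l 0) (.l 2)) (.n (.l 1) .e)) (.n (.n (.l 1) (.l 2)) (.n (.l 1) .e))))) (.n (.n (.n (.n (.n (.l 0) (.l 2)) (.n (.l 1) .e)) (.n (.n (.l 0) (.l 2)) (.n (.l 1) .e))) (.n (.n (.n (.l 0) (.l 2)) (.n (.l 1) .e)) (.n (.n (.l 1) (.l 2)) (.n (.l 1) .e)))) (.n (.n (.n (.n (.l 0) (.l 2)) (.n (.l 1) .e)) (.n (.n (.l 1) (.l 2)) (.n (.l 1) .e))) (.n (.n (.n (.l 0) (.l 2)) (.n (.l 1) .e)) (.n (.n (.l 1) (.l 2)) (.n (.l 1) .e)))))) (.n (.n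 (.n (.n (.n (.n (.l 0) (.l 2)) (.n (.l 1) .e)) (.n (.n (.l 0) (.l 2)) (.n (.l 1) .e))) (.n (.n (.n (.l 0) (.l 2)) (.n (.l 1) .e)) (.n (.n (.l 1) (.l 2)) (.n (.l 1) .e)))) (.n (.n (.n (.n (.l 0) (.l 2)) (.n (.l 1) .e)) (.n (.n (.l 1) (.l 2)) (.n (.l 1) .e))) (.n (.n (.n (.l 0) (.l 2)) (.n (.l 1) .e)) (.n (.n (.l 1) (.l 2)) (.n (.l 1) .e))))) (.n (.n (.n (.n (.n (.l 0) (.l 2)) (.n (.l 1) .e)) (.n (.n (.l 0) (.l 2)) (.n (.l 1) .e))) (.n (.n (.n (.l 0) (.l 2)) (.n (.l 1) .e)) (.n (.n (.l 1) (.l 2)) (.n (.l 1) .e)))) (.n (.n (.n (.n (.l 0) (.l 2)) (.n (.l 1) .e)) (.n (.n (.l 1) (.l 2)) (.n (.l 1) .e))) (.n (.n (.n (.l 0) (.l 2)) (.n (.l 1) .e)) (.n (.n (.l 1) (.l 2)) (.n (.l 1) .e)))))))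
def tdeg : Tr ℕ := (.n (.n (.n (.n (.n (.n (.n (.l 1) (.l 0)) (.n (.l 4) (.l 8))) (.n (.n (.l 7) (.l 4)) (.n (.l 6) .e))) (.n (.n (.n (.l 5) (.l 3)) (.n (.l 5) .e)) (.n (.n (.l 2) (.l 5)) (.n (.l 7) .e)))) (.n (.n (.n (.n (.l 4) (.l 2)) (.n (.l 4) .e)) (.n (.n (.l 8) (.l 5)) (.n (.l 6) .e))) (.n (.n (.n (.l 6) (.l 4)) (.n (.l 5) .e)) (.n (.n (.l 3) (.l 6)) (.n (.l 7) .e))))) (.n (.n (.n (.n (.n (.l 3) (.l 1)) (.n (.l 4) .e)) (.n (.n (.l 7) (.l 4)) (.n (.l 6) .e))) (.n (.n (.n (.l 5) (.l 3)) (.n (.l 5) .e)) (.n (.n (.l 2) (.l 6)) (.n (.l 7) .e)))) (.n (.n (.n (.n (.l 4) (.l 3)) (.n (.l 4) .e)) (.n (.n (.l 1) (.l 5)) (.n (.l 6) .e))) (.n (.n (.n (.l 6) (.l 4)) (.n (.l 5) .e)) (.n (.n (.l 3) (.l 7)) (.n (.l 8) .e)))))) (.n (.n (.n (.n (.n (.n (.l 2) (.l 1)) (.n (.l 4) .e)) (.n (.n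 (.l 7) (.l 4)) (.n (.l 6) .e))) (.n (.n (.n (.l 5) (.l 3)) (.n (.l 5) .e)) (.n (.n (.l 2) (.l 5)) (.n (.l 7) .e)))) (.n (.n (.n (.n (.l 4) (.l 2)) (.n (.l 4) .e)) (.n (.n (.l 0) (.l 5)) (.n (.l 6) .e))) (.n (.n (.n (.l 6) (.l 4)) (.n (.l 5) .e)) (.n (.n (.l 3) (.l 6)) (.n (.l 7) .e))))) (.n (.n (.n (.n (.n (.l 3) (.l 2)) (.n (.l 4) .e)) (.n (.n (.l 8) (.l 5)) (.n (.l 6) .e))) (.n (.n (.n (.l 6) (.l 3)) (.n (.l 5) .e)) (.n (.n (.l 3) (.l 6)) (.n (.l 7) .e)))) (.n (.n (.n (.n (.l 5) (.l 3)) (.n (.l 4) .e)) (.n (.n (.l 1) (.l 5)) (.n (.l 6) .e))) (.n (.n (.n (.l 7) (.l 4)) (.n (.l 5) .e)) (.n (.n (.l 3) (.l 7)) (.n (.l 8) .e)))))))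

end Pool.Agent.H12.Alt
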