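import Pool.Agent.H12.Alt.Tbl

/-! Checking functions for the structure constants. -/

namespace Pool.Agent.H12.Alt

noncomputable section

def Tr.get {α : Type} (d : α) (t : Tr α) : ℕ → α :=
  Tr.rec (fun _ => d) (fun a _ => a) (fun _ _ gx gy i =>
    cond (Nat.beq (Nat.mod i 2) 0) (gx (Nat.div i 2)) (gy (Nat.div i 2))) t

/-- row of the multiplication table -/
def rw' (i j : ℕ) : Vc := Tr.get [] (Tr.get .e tbl i) j

def accV (c d : ℕ) (v : Vc) : BT → BT :=
  List.rec (fun t => t) (fun x _ ih t => ih (BT.ins x.2.2 (Nat.add (Nat.mul c x.1) (Nat.mul d x.2.1))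
    (Nat.add (Nat.mul c x.2.1) (Nat.mul d x.1)) t)) v

def lin (c d : ℕ) (f : ℕ → Vc) (v : Vc) : BT → BT :=
  List.rec (fun t => t) (fun x _ ih t => ih (accV (Nat.add (Nat.mul c x.1) (Nat.mul d x.2.1))
    (Nat.add (Nat.mul c x.2.1) (Nat.mul d x.1)) (f x.2.2) t)) v

/-- number of basis vectors with first degree `a` and second degree at most `b` -/
def cnt (a b : ℕ) : ℕ :=
  cond (Nat.beq a 0) (Nat.mod (Nat.div (0 + 64 * 1 + 64^2*2+64^3*4+64^4*7+64^5*11+64^6*15+64^7*19+64^8*21) (Nat.pow 64 b)) 64)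
  (cond (Nat.beq a 1) (Nat.mod (Nat.div (1 + 64 * 3 + 64^2*6+64^3*11+64^4*19+64^5*27+64^6*35+64^7*41+64^8*43) (Nat.pow 64 b)) 64)
   (Nat.mod (Nat.div (1 + 64 * 3 + 64^2*6+64^3*12+64^4*19+64^5*26+64^6*30+64^7*32+64^8*33) (Nat.pow 64 b)) 64))

def xd (i : ℕ) : ℕ := Tr.get 9 xdeg i
def td (i : ℕ) : ℕ := Tr.get 9 tdeg i

/-- left super-alternative law for three basis vectors -/
def lawL (s s' : ℕ) (i j k : ℕ) : Bool :=
  BT.z (lin 1 0 (fun m => rw' m k) (rw' i j) (lin 0 1 (fun m => rw' i m) (rw' j k)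
    (lin s s' (fun m => rw' m k) (rw' j i) (lin s' s (fun m => rw' j m) (rw' i k) .e))))

/-- right super-alternative law for three basis vectors `i, j, k`, the last two exchanged -/
def lawR (s s' : ℕ) (j k i : ℕ) : Bool :=
  BT.z (lin 1 0 (fun m => rw' m k) (rw' i j) (lin 0 1 (fun m => rw' i m) (rw' j k)
    (lin s s' (fun m => rw' m j) (rw' i k) (lin s' s (fun m => rw' i m) (rw' k j) .e))))

def loop (f : ℕ → Bool) (st n : ℕ) : Bool :=
  Nat.rec true (fun k ih => cond (f (Nat.add st k)) ih false) n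

/-- first index of a block -/
def stt (a : ℕ) : ℕ := cond (Nat.beq a 0) 0 (cond (Nat.beq a 1) 21 64)

/-- test all indices `k` whose degrees added to `a`, `b` stay in the range -/
def loop3 (f : ℕ → Bool) (a b : ℕ) : Bool :=
  cond (Nat.ble b 8)
    (cond (Nat.ble a 2) (cond (loop f 0 (cnt 0 (Nat.sub 8 b)))
      (cond (Nat.ble a 1) (cond (loop f 21 (cnt 1 (Nat.sub 8 b)))
        (cond (Nat.ble a 0) (loop f 64 (cnt 2 (Nat.sub 8 b))) true) false) true) false) true) true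

def odd (i : ℕ) : Bool := Nat.beq (Nat.mod (td i) 2) 1

def chkLij (i j : ℕ) : Bool :=
  cond (and (odd i) (odd j)) (loop3 (lawL 0 1 i j) (Nat.add (xd i) (xd j)) (Nat.add (td i) (td j)))
    (loop3 (lawL 1 0 i j) (Nat.add (xd i) (xd j)) (Nat.add (td i) (td j)))

def chkRij (i j : ℕ) : Bool :=
  cond (and (odd i) (odd j)) (loop3 (lawR 0 1 i j) (Nat.add (xd i) (xd j)) (Nat.add (td i) (td j)))
    (loop3 (lawR 1 0 i j) (Nat.add (xd i) (xd j)) (Nat.add (td i) (td j)))

def chkLi (i : ℕ) : Bool := loop (chkLij i) 0 (Nat.succ i)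
def chkRi (i : ℕ) : Bool := loop (chkRij i) 0 (Nat.succ i)

/-- grading of one row -/
def grd (a b : ℕ) (v : Vc) : Bool :=
  List.rec true (fun x _ ih => cond (Nat.blt x.2.2 97) (cond (Nat.beq (xd x.2.2) a)
    (cond (Nat.beq (td x.2.2) b) ih false) false) false) v

def grd2 (i j : ℕ) : Bool := grd (Nat.add (xd i) (xd j)) (Nat.add (td i) (td j)) (rw' i j)

def grd1 (i : ℕ) : Bool := loop (grd2 i) 0 97

/-- indices are in the announced ranges -/
def rng (k b : ℕ) : Bool :=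
  cond (Nat.ble (td k) b) (cond (Nat.ble (stt (xd k)) k)
    (Nat.blt k (Nat.add (stt (xd k)) (cnt (xd k) b))) false) true

def rng1 (k : ℕ) : Bool :=
  cond (Nat.ble (xd k) 2) (cond (Nat.ble (td k) 8) (loop (rng k) 0 9) false) false

end
end Pool.Agent.H12.Alt
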