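import Mathlib.Algebra.Ring.Associator
import Mathlib.Algebra.BigOperators.Group.List.Basic
import Mathlib.Algebra.Module.NatInt
import Mathlib.Data.Nat.Pairing
import Mathlib.Tactic.Module
import Mathlib.Tactic.NoncommRing
import Mathlib.GroupTheory.GroupAction.Ring

/-! Zero test for formal integer combinations of keys, meant for fast evaluation by the kernel. -/

namespace Pool.Agent.H12.Alt

/-- search trees: key, positive part and negative part of the coefficient -/
inductive BT | e | n (l : BT) (k p m : ℕ) (r : BT)

noncomputable def BT.ins (k p m : ℕ) (t : BT) : BT :=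
  BT.rec (.n .e k p m .e)
    (fun l k' p' m' r ihl ihr => cond (Nat.blt k k') (.n ihl k' p' m' r)
      (cond (Nat.blt k' k) (.n l k' p' m' ihr) (.n l k' (Nat.add p' p) (Nat.add m' m) r))) t

variable {M : Type*} [AddCommGroup M]

def BT.ev (f : ℕ → M) : BT → M
  | .e => 0
  | .n l k p m r => BT.ev f l + ((p : ℤ) - (m : ℤ)) • f k + BT.ev f r

theorem BT.ev_ins (f : ℕ → M) (k p m : ℕ) (t : BT) :
    (BT.ins k p m t).ev f = t.ev f + ((p : ℤ) - (m : ℤ)) • f k := by
  induction t with
  | e => simp [BT.ins, BT.ev]
  | n l k' p' m' r ihl ihr =>
    have h : BT.ins k p m (.n l k' p' m' r) = cond (Nat.blt k k') (.n (BT.ins k p m l) k' p' m' r)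
      (cond (Nat.blt k' k) (.n l k' p' m' (BT.ins k p m r))
        (.n l k' (Nat.add p' p) (Nat.add m' m) r)) := rfl
    rw [h]
    cases h1 : Nat.blt k k' with
    | true => simp only [cond_true, BT.ev, ihl]; abel
    | false =>
      cases h2 : Nat.blt k' k with
      | true => simp only [cond_true, cond_false, BT.ev, ihr]; abel
      | false =>
        have hk : k = k' := by
          have a1 : ¬ (k < k') := by
            intro hh; rw [← Nat.blt_eq] at hh; rw [hh] at h1; exact absurd h1 (by decide)
          have a2 : ¬ (k' < k) := by
            intro hh; rw [← Nat.blt_eq] at hh; rw [hh] at h2; exact absurd h2 (by decide)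
          omega
        subst hk
        simp only [cond_false, BT.ev, Nat.add_eq, Nat.cast_add]
        module

noncomputable def BT.z (t : BT) : Bool :=
  BT.rec true (fun _ _ p m _ ihl ihr => cond (Nat.beq p m) (cond ihl ihr false) false) t

theorem BT.z_ev (f : ℕ → M) (t : BT) (h : t.z = true) : t.ev f = 0 := by
  induction t with
  | e => rfl
  | n l k p m r ihl ihr =>
    have h' : cond (Nat.beq p m) (cond l.z r.z false) false = true := h
    cases h1 : Nat.beq p m with
    | false => simp [h1] at h'
    | true =>
      rw [h1, cond_true] at h'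
      cases h2 : l.z with
      | false => simp [h2] at h'
      | true =>
        rw [h2, cond_true] at h'
        have : p = m := Nat.eq_of_beq_eq_true h1
        subst this
        simp only [BT.ev, ihl h2, ihr h', sub_self, zero_smul, add_zero]

/-- force the evaluation of a natural number -/
noncomputable def frc {α : Type} (k : ℕ) (f : ℕ → α) : α := Nat.rec (f 0) (fun k' _ => f (Nat.succ k')) k

theorem frc_eq {α : Type} (k : ℕ) (f : ℕ → α) : frc k f = f k := by cases k <;> rfl

end Pool.Agent.H12.Alt
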